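import Pool.Agent.MP_ca1109_lc.SymDefs

/-!
# The probability of a vector of numbers of ones
-/

namespace Pool.Agent.MP_ca1109_lc

open Pool.Agent.H66 Finset

theorem central_sq (t : ℕ) : (Nat.centralBinom t) ^ 2 * (2 * t + 1) ≤ 4 ^ (2 * t) := by
  induction t with
  | zero => simp [Nat.centralBinom]
  | succ t ih =>
    have h1 := Nat.succ_mul_centralBinom_succ t
    have h2 : (t + 1) ^ 2 * ((Nat.centralBinom (t + 1)) ^ 2 * (2 * (t + 1) + 1)) ≤
        (t + 1) ^ 2 * 4 ^ (2 * (t + 1)) := by
      have e1 : (t + 1) ^ 2 * ((Nat.centralBinom (t + 1)) ^ 2 * (2 * (t + 1) + 1)) =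
          ((t + 1) * Nat.centralBinom (t + 1)) ^ 2 * (2 * t + 3) := by ring
      have e2 : (t + 1) ^ 2 * 4 ^ (2 * (t + 1)) = (16 * (t + 1) ^ 2) * 4 ^ (2 * t) := by
        rw [mul_add, pow_add]
        ring
      rw [e1, h1, e2]
      calc (2 * (2 * t + 1) * Nat.centralBinom t) ^ 2 * (2 * t + 3)
          = (4 * (2 * t + 1) * (2 * t + 3)) * ((Nat.centralBinom t) ^ 2 * (2 * t + 1)) := by ring
        _ ≤ (16 * (t + 1) ^ 2) * 4 ^ (2 * t) := by
          refine Nat.mul_le_mul ?_ ih
          nlinarith
    exact Nat.le_of_mul_le_mul_left h2 (by positivity)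

theorem choose_sq (n k : ℕ) : (n.choose k) ^ 2 * (n + 1) ≤ 4 ^ n := by
  have h0 : n.choose k ≤ n.choose (n / 2) := Nat.choose_le_middle k n
  refine (Nat.mul_le_mul_right _ (Nat.pow_le_pow_left h0 2)).trans ?_
  rcases Nat.even_or_odd' n with ⟨t, rfl | rfl⟩
  · have h1 : 2 * t / 2 = t := by omega
    rw [h1, ← Nat.centralBinom_eq_two_mul_choose]
    exact central_sq t
  · have h1 : (2 * t + 1) / 2 = t := by omega
    rw [h1]
    have h2 := central_sq (t + 1)
    have h3 : Nat.centralBinom (t + 1) = 2 * (2 * t + 1).choose t := by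
      rw [Nat.centralBinom_eq_two_mul_choose, show 2 * (t + 1) = (2 * t + 1) + 1 by ring,
        Nat.choose_succ_succ, Nat.choose_symm_half]
      ring
    rw [h3] at h2
    have e1 : 4 ^ (2 * (t + 1)) = 4 * 4 ^ (2 * t + 1) := by
      rw [show 2 * (t + 1) = (2 * t + 1) + 1 by ring, pow_succ]
      ring
    rw [e1] at h2
    have h4 : 4 * ((2 * t + 1).choose t ^ 2 * (2 * t + 1 + 1)) ≤ 4 * 4 ^ (2 * t + 1) := by
      refine le_trans ?_ h2
      have : (2 * (2 * t + 1).choose t) ^ 2 * (2 * (t + 1) + 1) =
          4 * ((2 * t + 1).choose t ^ 2 * (2 * t + 1 + 1)) + 4 * (2 * t + 1).choose t ^ 2 := by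
        ring
      rw [this]
      exact Nat.le_add_right _ _
    exact Nat.le_of_mul_le_mul_left h4 (by norm_num)

/-- The number of Boolean functions with `k` ones. -/
theorem card_weight {J : Type*} [Fintype J] [DecidableEq J] (k : ℕ) :
    (univ.filter fun z : J → Bool => (univ.filter fun q => z q = true).card = k).card =
      (Fintype.card J).choose k := by
  rw [← Finset.card_univ, ← Finset.card_powersetCard]
  refine Finset.card_bij (fun z _ => univ.filter fun q => z q = true) ?_ ?_ ?_
  · intro z hz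
    rw [Finset.mem_filter] at hz
    rw [Finset.mem_powersetCard]
    exact ⟨Finset.subset_univ _, hz.2⟩
  · intro z _ z' _ h
    funext q
    have := Finset.ext_iff.1 h q
    simp only [Finset.mem_filter, Finset.mem_univ, true_and] at this
    cases h1 : z q <;> cases h2 : z' q <;> simp_all
  · intro s hs
    rw [Finset.mem_powersetCard] at hs
    refine ⟨fun q => decide (q ∈ s), ?_, ?_⟩
    · rw [Finset.mem_filter]
      refine ⟨Finset.mem_univ _, ?_⟩
      simpa using hs.2
    · ext q
      simp

/-- Splitting of the cube along a colouring. -/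
def splitE {I C : Type*} (χ : I → C) : (I → Bool) ≃ (∀ c : C, {p : I // χ p = c} → Bool) where
  toFun y c p := y p.1
  invFun z p := z (χ p) ⟨p, rfl⟩
  left_inv y := rfl
  right_inv z := by
    funext c p
    obtain ⟨p, rfl⟩ := p
    rfl

theorem wts_bound {I C : Type*} [Fintype I] [DecidableEq I] [Fintype C] [DecidableEq C]
    (χ : I → C) (S : Finset C) (k : C → ℕ) :
    (univ.filter fun y : I → Bool =>
      ∀ c ∈ S, (univ.filter fun p => χ p = c ∧ y p = true).card = k c).card ^ 2 *
      ∏ c ∈ S, ((univ.filter fun p => χ p = c).card + 1) ≤ 4 ^ Fintype.card I := by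
  classical
  let F : ∀ c : C, Finset ({p : I // χ p = c} → Bool) := fun c =>
    univ.filter fun z => c ∈ S → (univ.filter fun q => z q = true).card = k c
  have h1 : (univ.filter fun y : I → Bool =>
      ∀ c ∈ S, (univ.filter fun p => χ p = c ∧ y p = true).card = k c).card =
      (Fintype.piFinset F).card := by
    refine Finset.card_bij (fun y _ => splitE χ y) ?_ ?_ ?_
    · intro y hy
      rw [Finset.mem_filter] at hy
      rw [Fintype.mem_piFinset]
      intro c
      rw [Finset.mem_filter]
      refine ⟨Finset.mem_univ _, fun hc => ?_⟩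
      rw [← hy.2 c hc]
      refine Finset.card_bij (fun q _ => q.1) ?_ ?_ ?_
      · intro q hq
        rw [Finset.mem_filter] at hq ⊢
        exact ⟨Finset.mem_univ _, q.2, hq.2⟩
      · intro q _ q' _ h
        exact Subtype.ext h
      · intro p hp
        rw [Finset.mem_filter] at hp
        refine ⟨⟨p, hp.2.1⟩, ?_, rfl⟩
        rw [Finset.mem_filter]
        exact ⟨Finset.mem_univ _, hp.2.2⟩
    · intro y _ y' _ h
      exact (splitE χ).injective h
    · intro z hz
      rw [Fintype.mem_piFinset] at hz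
      refine ⟨(splitE χ).symm z, ?_, Equiv.apply_symm_apply _ _⟩
      rw [Finset.mem_filter]
      refine ⟨Finset.mem_univ _, fun c hc => ?_⟩
      have h2 := hz c
      rw [Finset.mem_filter] at h2
      rw [← h2.2 hc]
      symm
      refine Finset.card_bij (fun q _ => q.1) ?_ ?_ ?_
      · intro q hq
        obtain ⟨p, rfl⟩ := q
        rw [Finset.mem_filter] at hq ⊢
        exact ⟨Finset.mem_univ _, rfl, hq.2⟩
      · intro q _ q' _ h
        exact Subtype.ext h
      · intro p hp
        rw [Finset.mem_filter] at hp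
        obtain ⟨-, rfl, hp⟩ := hp
        refine ⟨⟨p, rfl⟩, ?_, rfl⟩
        rw [Finset.mem_filter]
        exact ⟨Finset.mem_univ _, hp⟩
  have hcc : ∀ c, Fintype.card {p : I // χ p = c} = (univ.filter fun p => χ p = c).card := by
    intro c
    rw [Fintype.card_subtype]
  have h3 : ∏ c ∈ S, ((univ.filter fun p => χ p = c).card + 1) =
      ∏ c : C, if c ∈ S then (univ.filter fun p => χ p = c).card + 1 else 1 := by
    rw [Finset.prod_ite_mem, Finset.univ_inter]
  have h4 : (4 : ℕ) ^ Fintype.card I = ∏ c : C, 4 ^ (univ.filter fun p => χ p = c).card := by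
    rw [Finset.prod_pow_eq_pow_sum]
    congr 1
    rw [← Finset.card_univ]
    exact Finset.card_eq_sum_card_fiberwise (fun _ _ => Finset.mem_univ _)
  rw [h1, Fintype.card_piFinset, ← Finset.prod_pow, h3, ← Finset.prod_mul_distrib, h4]
  refine Finset.prod_le_prod' fun c _ => ?_
  by_cases hc : c ∈ S
  · rw [if_pos hc]
    have h5 : (F c).card = (Fintype.card {p : I // χ p = c}).choose (k c) := by
      rw [← card_weight]
      congr 1
      ext z
      simp [F, hc]
    rw [h5, hcc]
    exact choose_sq _ _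
  · rw [if_neg hc, mul_one]
    have h5 : (F c).card = 2 ^ (univ.filter fun p => χ p = c).card := by
      have : F c = univ := by
        ext z
        simp [F, hc]
      rw [this, Finset.card_univ, Fintype.card_fun, Fintype.card_bool, hcc]
    rw [h5, ← pow_mul, mul_comm, pow_mul]
    norm_num

/-- The probability that the numbers of ones in the classes of a set `S` of colours are given. -/
theorem prob_wts (χ : ℕ → ℕ → ℕ) (m : ℕ) (hχ : ∀ p < m, χ m p < m) (S : Finset ℕ)
    (hS : S ⊆ range m) (k : ℕ → ℕ) :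
    (prob fun y : Fin m → Bool => decide (∀ c ∈ S, cwt χ y c = k c)) ^ 2 *
      ∏ c ∈ S, ((cnum χ m c : ℝ) + 1) ≤ 1 := by
  classical
  let χ' : Fin m → Fin m := fun p => ⟨χ m p, hχ p p.2⟩
  let S' : Finset (Fin m) := univ.filter fun c => (c : ℕ) ∈ S
  have h := wts_bound χ' S' (fun c => k c)
  have e1 : (univ.filter fun y : Fin m → Bool =>
      ∀ c ∈ S', (univ.filter fun p => χ' p = c ∧ y p = true).card = k c) =
      univ.filter fun y : Fin m → Bool => decide (∀ c ∈ S, cwt χ y c = k c) = true := by
    ext y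
    simp only [Finset.mem_filter, Finset.mem_univ, true_and, decide_eq_true_eq]
    have e2 : ∀ c : Fin m, (univ.filter fun p => χ' p = c ∧ y p = true).card = cwt χ y c := by
      intro c
      unfold cwt
      congr 1
      ext p
      simp only [Finset.mem_filter, Finset.mem_univ, true_and, χ', Fin.ext_iff]
    constructor
    · intro h1 c hc
      have hcm : c < m := Finset.mem_range.1 (hS hc)
      have h2 := h1 ⟨c, hcm⟩ (by simp [S', hc])
      rw [e2] at h2
      exact h2
    · intro h1 c hc
      rw [e2]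
      exact h1 c (by simpa [S'] using hc)
  have e3 : ∏ c ∈ S', ((univ.filter fun p => χ' p = c).card + 1) =
      ∏ c ∈ S, (cnum χ m c + 1) := by
    refine Finset.prod_bij (fun c _ => (c : ℕ)) ?_ ?_ ?_ ?_
    · intro c hc
      simpa [S'] using hc
    · intro c _ c' _ h
      exact Fin.ext h
    · intro c hc
      exact ⟨⟨c, Finset.mem_range.1 (hS hc)⟩, by simp [S', hc], rfl⟩
    · intro c _
      congr 1
      unfold cnum
      refine Finset.card_bij (fun p _ => (p : ℕ)) ?_ ?_ ?_
      · intro p hp
        rw [Finset.mem_filter] at hp ⊢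
        exact ⟨Finset.mem_range.2 p.2, congrArg Fin.val hp.2⟩
      · intro p _ p' _ h
        exact Fin.ext h
      · intro p hp
        rw [Finset.mem_filter, Finset.mem_range] at hp
        refine ⟨⟨p, hp.1⟩, ?_, rfl⟩
        rw [Finset.mem_filter]
        exact ⟨Finset.mem_univ _, Fin.ext hp.2⟩
  rw [Fintype.card_fin] at h
  have h' : (univ.filter fun y : Fin m → Bool =>
      decide (∀ c ∈ S, cwt χ y c = k c) = true).card ^ 2 *
      ∏ c ∈ S, (cnum χ m c + 1) ≤ 4 ^ m := by
    rw [← e3, ← e1]
    convert h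
  unfold prob
  rw [Fintype.card_fun, Fintype.card_bool, Fintype.card_fin]
  have h5 : (((univ.filter fun y : Fin m → Bool =>
      decide (∀ c ∈ S, cwt χ y c = k c) = true).card : ℝ)) ^ 2 *
      ∏ c ∈ S, ((cnum χ m c : ℝ) + 1) ≤ 4 ^ m := by exact_mod_cast h'
  have h6 : (((2 ^ m : ℕ) : ℝ)) ^ 2 = 4 ^ m := by
    push_cast
    rw [← pow_mul, mul_comm, pow_mul]
    norm_num
  rw [div_pow, h6, div_mul_eq_mul_div, div_le_one (by positivity)]
  exact h5

end Pool.Agent.MP_ca1109_lc
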