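import Mathlib

/-!
# A segment with a large product and a small sum
-/

namespace Pool.Agent.MP_ca1109_lc

open Finset

/-- A shortest prefix with a large product. -/
theorem exists_prefix {w : ℕ → ℕ} {P M0 a m : ℕ} (hw1 : ∀ c, w c ≤ P) (hP : 1 ≤ P) (hM0 : 1 ≤ M0)
    (ham : a ≤ m) (h : M0 ≤ ∏ c ∈ Ico a m, w c) :
    ∃ b, a ≤ b ∧ b ≤ m ∧ M0 ≤ ∏ c ∈ Ico a b, w c ∧ ∏ c ∈ Ico a b, w c ≤ M0 * P := by
  classical
  have hex : ∃ b, a ≤ b ∧ M0 ≤ ∏ c ∈ Ico a b, w c := ⟨m, ham, h⟩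
  have h1 := Nat.find_spec hex
  have h2 : Nat.find hex ≤ m := Nat.find_min' hex ⟨ham, h⟩
  refine ⟨Nat.find hex, h1.1, h2, h1.2, ?_⟩
  rcases Nat.eq_or_lt_of_le h1.1 with h3 | h3
  · rw [← h3, Ico_self, prod_empty]
    exact Nat.mul_pos hM0 hP
  · obtain ⟨b', hb'⟩ : ∃ b', Nat.find hex = b' + 1 := ⟨Nat.find hex - 1, by omega⟩
    have h4 : a ≤ b' := by omega
    have h5 := Nat.find_min hex (m := b') (by omega)
    have h6 : ∏ c ∈ Ico a b', w c ≤ M0 := by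
      by_contra hcon
      exact h5 ⟨h4, (not_le.1 hcon).le⟩
    rw [hb', prod_Ico_succ_top h4]
    exact Nat.mul_le_mul h6 (hw1 b')

theorem exists_segment {w n : ℕ → ℕ} {P M0 m : ℕ} (hw1 : ∀ c, w c ≤ P) (hP : 1 ≤ P)
    (hM0 : 1 ≤ M0) : ∀ (g a : ℕ), a ≤ m → (M0 * P) ^ (g + 1) ≤ ∏ c ∈ Ico a m, w c →
    ∃ b b', a ≤ b ∧ b ≤ b' ∧ b' ≤ m ∧ M0 ≤ ∏ c ∈ Ico b b', w c ∧
      ∏ c ∈ Ico b b', w c ≤ M0 * P ∧
      (g + 1) * ∑ c ∈ Ico b b', n c ≤ ∑ c ∈ Ico a m, n c := by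
  intro g
  induction g with
  | zero =>
    intro a ham h
    rw [zero_add, pow_one] at h
    obtain ⟨b, h1, h2, h3, h4⟩ := exists_prefix hw1 hP hM0 ham
      ((Nat.le_mul_of_pos_right M0 hP).trans h)
    refine ⟨a, b, le_rfl, h1, h2, h3, h4, ?_⟩
    rw [zero_add, one_mul]
    exact sum_le_sum_of_subset (Ico_subset_Ico_right h2)
  | succ g ih =>
    intro a ham h
    have hMP : 1 ≤ M0 * P := Nat.mul_pos hM0 hP
    have h0 : M0 ≤ ∏ c ∈ Ico a m, w c := by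
      refine (Nat.le_mul_of_pos_right M0 hP).trans (le_trans ?_ h)
      exact Nat.le_self_pow (by omega) _
    obtain ⟨b, h1, h2, h3, h4⟩ := exists_prefix hw1 hP hM0 ham h0
    have h5 : (M0 * P) ^ (g + 1) ≤ ∏ c ∈ Ico b m, w c := by
      rw [pow_succ, mul_comm, ← prod_Ico_consecutive _ h1 h2] at h
      exact Nat.le_of_mul_le_mul_left (h.trans (Nat.mul_le_mul_right _ h4)) hMP
    obtain ⟨b₁, b₂, k1, k2, k3, k4, k5, k6⟩ := ih b h2 h5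
    have h6 := sum_Ico_consecutive n h1 h2
    by_cases h7 : ∑ c ∈ Ico b₁ b₂, n c ≤ ∑ c ∈ Ico a b, n c
    · refine ⟨b₁, b₂, h1.trans k1, k2, k3, k4, k5, ?_⟩
      rw [← h6, add_mul (g + 1) 1, one_mul]
      omega
    · refine ⟨a, b, le_rfl, h1, h2, h3, h4, ?_⟩
      rw [not_le] at h7
      have h8 : (g + 1) * ∑ c ∈ Ico a b, n c ≤ (g + 1) * ∑ c ∈ Ico b₁ b₂, n c :=
        Nat.mul_le_mul_left _ h7.le
      rw [← h6, add_mul (g + 1) 1, one_mul]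
      omega

end Pool.Agent.MP_ca1109_lc
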