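import Pool.Agent.MP_ca1109_lc.SymLang
import Pool.Agent.MP_ca1109_lc.SymBin
import Pool.Agent.MP_ca1109_lc.SymSeg

/-!
# Generators for symmetric tests with superpolynomially many orbits give hard functions
-/

namespace Pool.Agent.MP_ca1109_lc

open Pool.Agent.H66 Finset

/-- There is a logarithmic-seed generator, computable in polynomial time, which hits all circuits
of size at most `m` on `m` inputs which compute a `χ`-symmetric function and accept at least a
fraction `1 - 1 / m ^ j` of all inputs. -/
def HitExists (χ : ℕ → ℕ → ℕ) (j : ℕ) : Prop :=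
  ∃ (d : ℕ → ℕ) (G : ℕ → List Bool → List Bool),
    PolyTime d ∧ PolyTime (fun p : ℕ × List Bool => G p.1 p.2) ∧
    (∀ m s, s.length = d m → (G m s).length = m) ∧
    ∃ c : ℝ, ∀ᶠ m : ℕ in Filter.atTop, (d m : ℝ) ≤ c * Real.logb 2 m ∧
      ∀ C : Circuit m, SymFun χ C.eval → C.size ≤ m → 1 - 1 / (m : ℝ) ^ j ≤ prob C.eval →
        ∃ s : Fin (d m) → Bool, C.eval (bits m (G m (List.ofFn s))) = true

theorem exists_bval : ∀ (l v : ℕ), v < 2 ^ l → ∃ L : List Bool, L.length = l ∧ bval L = v
  | 0, v, h => ⟨[], rfl, by rw [pow_zero] at h; simp [bval]; omega⟩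
  | l + 1, v, h => by
    rw [pow_succ] at h
    by_cases hv : v < 2 ^ l
    · obtain ⟨L, h1, h2⟩ := exists_bval l v hv
      exact ⟨false :: L, by simp [h1], by simp [bval, h2]⟩
    · obtain ⟨L, h1, h2⟩ := exists_bval l (v - 2 ^ l) (by omega)
      refine ⟨true :: L, by simp [h1], ?_⟩
      rw [bval, h1, h2]
      simp only [if_true]
      omega

theorem getD_map_app {m : ℕ} (W : List (BF m)) (i : ℕ) (y : Fin m → Bool) :
    (W.getD i (fun _ => false)) y = (W.map fun f => f y).getD i false := by
  by_cases h : i < W.length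
  · rw [List.getD_eq_getElem _ _ h, List.getD_eq_getElem _ _ (by simpa using h), List.getElem_map]
  · rw [List.getD_eq_default _ _ (by omega), List.getD_eq_default _ _ (by simpa using h)]

theorem getD_ofFn_eq {n : ℕ} (l : List Bool) (hl : l.length ≤ n) (i : ℕ) :
    (List.ofFn fun k : Fin n => l.getD k false).getD i false = l.getD i false := by
  by_cases h : i < n
  · rw [List.getD_eq_getElem _ _ (by simpa using h), List.getElem_ofFn]
  · rw [List.getD_eq_default _ _ (by simpa using h), List.getD_eq_default _ _ (by omega)]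

theorem seg_of_getD {x A R : List Bool} {o l : ℕ} (h : ∀ i, x.getD i false = R.getD i false)
    (hA : A.length = l) (hR : ∀ i < l, R.getD (o + i) false = A.getD i false) : seg o l x = A := by
  refine List.ext_getElem (by rw [seg_length, hA]) fun i h1 h2 => ?_
  rw [seg_length] at h1
  simp only [seg, List.getElem_map, List.getElem_range]
  rw [h, hR i h1, List.getD_eq_getElem _ _ h2]

theorem ecode_eq (χ : ℕ → ℕ → ℕ) (m a b : ℕ) (z : List Bool) (hz : z.length = m) :
    ((rel χ m a b).flatMap fun c => dg (kb χ m c) (cwt χ (bits m z) c)) = ecode χ m a b z := by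
  unfold ecode
  simp only [cwt_bits χ m z _ hz]

theorem bits_ofFn {m : ℕ} (y : Fin m → Bool) : bits m (List.ofFn y) = y := by
  funext i
  simp [bits]

theorem sum_cnum_le (χ : ℕ → ℕ → ℕ) (m : ℕ) : ∑ c ∈ Ico 0 m, cnum χ m c ≤ m := by
  classical
  unfold cnum
  rw [← card_biUnion]
  · refine (card_le_card (t := range m) ?_).trans (card_range m).le
    intro p hp
    rw [mem_biUnion] at hp
    obtain ⟨c, -, hc⟩ := hp
    exact (mem_filter.1 hc).1
  · intro c _ c' _ hcc'
    rw [Function.onFun, disjoint_left]
    intro p hp hp'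
    exact hcc' ((mem_filter.1 hp).2.symm.trans (mem_filter.1 hp').2)

/-- The test built from a circuit for the language. -/
theorem key_test {χ : ℕ → ℕ → ℕ} (hχ' : ∀ m, ∀ p < m, χ m p < m) {d : ℕ → ℕ}
    {G : ℕ → List Bool → List Bool} (hl : ∀ m s, s.length = d m → (G m s).length = m)
    {e j m n K : ℕ} (hm : 64 ≤ m) (hK : K = 4 * (e + j) + 5) (hd : d m ≤ e * Nat.clog 2 m)
    (hd' : 2 ^ d m ≤ m ^ e)
    (horb : m ^ (100 * (2 * (e + j) + 2)) ≤ orbits χ m) (hmn : rt K (2 ^ n) = m)
    (D : Circuit n) (hD : ∀ x : Fin n → Bool, D.eval x = hard χ d G e K (2 ^ n) (List.ofFn x))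
    (hsize : 2 * D.size ≤ m) :
    ∃ C : Circuit m, SymFun χ C.eval ∧ C.size ≤ m ∧ 1 - 1 / (m : ℝ) ^ j ≤ prob C.eval ∧
      ∀ s : Fin (d m) → Bool, C.eval (bits m (G m (List.ofFn s))) = false := by
  classical
  set t := e + j with ht
  have hK0 : 0 < K := by omega
  have hm0 : 0 < m := by omega
  obtain ⟨hmK, -⟩ := rt_spec hK0 (2 ^ n)
  rw [hmn] at hmK
  -- the segment
  have hw : ∀ c, cnum χ m c + 1 ≤ m + 1 := fun c => Nat.succ_le_succ (cnum_le χ m c)
  have hM0 : 1 ≤ m ^ (2 * t) := Nat.one_le_pow _ _ hm0
  have hprod : (m ^ (2 * t) * (m + 1)) ^ (99 + 1) ≤ ∏ c ∈ Ico 0 m, (cnum χ m c + 1) := by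
    rw [Nat.Ico_zero_eq_range]
    refine le_trans ?_ horb
    have h1 : m ^ (2 * t) * (m + 1) ≤ m ^ (2 * t + 2) := by
      rw [pow_add]
      refine Nat.mul_le_mul_left _ ?_
      nlinarith
    calc (m ^ (2 * t) * (m + 1)) ^ (99 + 1) ≤ (m ^ (2 * t + 2)) ^ 100 := Nat.pow_le_pow_left h1 _
      _ = m ^ (100 * (2 * t + 2)) := by rw [← pow_mul, mul_comm]
  obtain ⟨a, b, -, hab, hbm, hseg1, hseg2, hseg3⟩ :=
    exists_segment (w := fun c => cnum χ m c + 1) (n := cnum χ m) hw (Nat.succ_pos m) hM0 99 0
      (Nat.zero_le m) hprod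
  have hsum : 100 * ∑ c ∈ Ico a b, cnum χ m c ≤ m := hseg3.trans (sum_cnum_le χ m)
  have hSub : Ico a b ⊆ range m := fun c hc => mem_range.2 ((mem_Ico.1 hc).2.trans_le hbm)
  -- the parameters in binary
  have hlam : m < 2 ^ lam m := by
    have := Nat.le_pow_clog one_lt_two (m + 1)
    unfold lam
    omega
  have hlam' : 2 ^ lam m ≤ 2 * m + 2 := by
    have := two_pow_clog_le (m + 1) (by omega)
    unfold lam
    omega
  obtain ⟨A, hA, hA'⟩ := exists_bval (lam m) a (by omega)
  obtain ⟨B, hB, hB'⟩ := exists_bval (lam m) b (by omega)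
  obtain ⟨W0, hW0, hG0⟩ := gets_ecode χ m a b
  have hW0l : W0.length = elen χ m a b := by
    have h1 := congrArg List.length (hW0 (bits m (List.replicate m false)))
    rw [List.length_map, ecode_eq _ _ _ _ _ (by simp), ecode_length] at h1
    exact h1
  -- the number of digits
  have hlen : 2 * lam m + elen χ m a b ≤ n := by
    have h1 := two_pow_elen_le χ m a b
    have h2 : 2 ^ (2 * lam m + elen χ m a b) ≤ 2 ^ n := by
      refine le_trans ?_ hmK
      have h3 : (2 * m + 2) ^ 2 * (m ^ (2 * t) * (m + 1)) ^ 2 ≤ m ^ K := by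
        have h4 : 4 * (m + 1) ^ 4 ≤ m ^ 5 := by
          calc 4 * (m + 1) ^ 4 ≤ 4 * (2 * m) ^ 4 := by
                refine Nat.mul_le_mul_left _ (Nat.pow_le_pow_left (by omega) 4)
            _ = 64 * m ^ 4 := by ring
            _ ≤ m * m ^ 4 := Nat.mul_le_mul_right _ hm
            _ = m ^ 5 := by ring
        calc (2 * m + 2) ^ 2 * (m ^ (2 * t) * (m + 1)) ^ 2
            = m ^ (4 * t) * (4 * (m + 1) ^ 4) := by
              rw [mul_pow, ← pow_mul, show 2 * t * 2 = 4 * t by ring]
              ring
          _ ≤ m ^ (4 * t) * m ^ 5 := Nat.mul_le_mul_left _ h4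
          _ = m ^ K := by rw [← pow_add, hK]
      refine le_trans ?_ h3
      rw [pow_add, mul_comm 2, pow_mul]
      refine Nat.mul_le_mul (Nat.pow_le_pow_left hlam' 2) (h1.trans ?_)
      exact Nat.pow_le_pow_left hseg2 2
    exact (Nat.pow_le_pow_iff_right (by norm_num)).1 h2
  -- the test
  set W : List (BF m) := (A.map fun b _ => b) ++ ((B.map fun b _ => b) ++ W0) with hW
  have hWmap : ∀ y, (W.map fun f => f y) = A ++ (B ++ (W0.map fun f => f y)) := by
    intro y
    rw [hW, List.map_append, List.map_append, List.map_map, List.map_map]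
    congr 1
    · exact List.map_id'' (fun _ => rfl) A
    · congr 1
      exact List.map_id'' (fun _ => rfl) B
  have hφ : ∀ i : Fin n, W.getD i (fun _ => false) ∈ bas m ∪ {f | f ∈ W0} := by
    intro i
    by_cases hi : (i : ℕ) < W.length
    · rw [List.getD_eq_getElem _ _ hi]
      have h1 : W[(i : ℕ)] ∈ W := List.getElem_mem hi
      generalize W[(i : ℕ)] = f at h1
      rw [hW, List.mem_append, List.mem_append] at h1
      have hcst : ∀ b : Bool, (fun _ => b : BF m) ∈ bas m := by
        intro b
        cases b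
        · exact false_mem_bas
        · exact true_mem_bas
      rcases h1 with h1 | h1 | h1
      · rw [List.mem_map] at h1
        obtain ⟨b, -, rfl⟩ := h1
        exact Or.inl (hcst b)
      · rw [List.mem_map] at h1
        obtain ⟨b, -, rfl⟩ := h1
        exact Or.inl (hcst b)
      · exact Or.inr h1
    · rw [List.getD_eq_default _ _ (by omega)]
      exact Or.inl false_mem_bas
  obtain ⟨C, hC1, hC2⟩ := compose hm0 D (fun i => W.getD i (fun _ => false)) hG0 hφ
  have hWl : ∀ y, (W.map fun f => f y).length ≤ n := by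
    intro y
    rw [hWmap, List.length_append, List.length_append, hA, hB, List.length_map, hW0l]
    omega
  -- the value of the test
  have hval : ∀ y, C.eval y = hard χ d G e K (2 ^ n)
      (List.ofFn fun i : Fin n => (W.map fun f => f y).getD i false) := by
    intro y
    rw [hC2, hD]
    congr 2
    funext i
    exact getD_map_app W i y
  have hcode : ∀ y, C.eval y = true ↔ ∀ s : List Bool, s.length = d m →
      ecode χ m a b (G m s) ≠ W0.map fun f => f y := by
    intro y
    rw [hval, hard_iff, hmn]
    set x := List.ofFn fun i : Fin n => (W.map fun f => f y).getD i false with hx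
    have hxg : ∀ i, x.getD i false = (A ++ (B ++ (W0.map fun f => f y))).getD i false := by
      intro i
      rw [hx, getD_ofFn_eq _ (hWl y), hWmap]
    have hs1 : seg 0 (lam m) x = A := by
      refine seg_of_getD hxg hA fun i hi => ?_
      rw [zero_add, List.getD_append _ _ _ _ (by omega)]
    have hs2 : seg (lam m) (lam m) x = B := by
      refine seg_of_getD hxg hB fun i hi => ?_
      rw [List.getD_append_right _ _ _ _ (by omega), List.getD_append _ _ _ _ (by omega)]
      congr 1
      omega
    have hs3 : ∀ i, x.getD (2 * lam m + i) false = (W0.map fun f => f y).getD i false := by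
      intro i
      rw [hxg, List.getD_append_right _ _ _ _ (by omega),
        List.getD_append_right _ _ _ _ (by omega)]
      congr 1
      omega
    have hdc : dcap d e m = d m := by
      unfold dcap
      rw [if_pos (decide_eq_true hd)]
    rw [hs1, hs2, cval_eq _ _ (by rw [hA]; omega), cval_eq _ _ (by rw [hB]; omega), hA', hB', hdc]
    have hagr : ∀ s : List Bool, agr (ecode χ m a b (G m s)) x (2 * lam m) = true ↔
        ecode χ m a b (G m s) = W0.map fun f => f y := by
      intro s
      rw [agr_iff]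
      constructor
      · intro h
        refine List.ext_getElem (by rw [ecode_length, List.length_map, hW0l]) fun i h1 h2 => ?_
        have h3 := h i h1
        rwa [hs3, List.getD_eq_getElem _ _ h1, List.getD_eq_getElem _ _ h2] at h3
      · intro h i _
        rw [h, hs3]
    constructor
    · intro h s hs h1
      have h2 := h s hs
      rw [(hagr s).2 h1] at h2
      simp at h2
    · intro h s hs
      rw [Bool.eq_false_iff]
      exact fun h1 => h s hs ((hagr s).1 h1)
  refine ⟨C, ?_, ?_, ?_, ?_⟩
  · -- symmetric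
    intro y y' hyy'
    have h1 : (W0.map fun f => f y) = W0.map fun f => f y' := by
      rw [hW0, hW0]
      simp only [hyy']
    rw [Bool.eq_iff_iff, hcode, hcode, h1]
  · -- size
    omega
  · -- probability
    have h1 : prob (fun y => !(C.eval y)) ≤ 1 / (m : ℝ) ^ j := by
      let L : List ((Fin m → Bool) → Bool) := (dbl^[d m] [[]]).map fun s y =>
        decide (∀ c ∈ Ico a b, cwt χ y c = lw χ m (G m s) c)
      have h2 : prob (fun y => !(C.eval y)) ≤ prob fun y => L.any fun f => f y := by
        refine prob_mono fun y hy => ?_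
        rw [Bool.not_eq_true', ← Bool.not_eq_true, hcode] at hy
        push Not at hy
        obtain ⟨s, hs, hs'⟩ := hy
        rw [List.any_eq_true]
        refine ⟨_, List.mem_map_of_mem (((dbl_iterate (d m)).2 s).2 hs), ?_⟩
        rw [decide_eq_true_eq]
        intro c hc
        have h3 : ecode χ m a b (G m s) = ecode χ m a b (List.ofFn y) := by
          rw [hs', hW0, ← ecode_eq χ m a b (List.ofFn y) (by simp), bits_ofFn]
        have h4 := ecode_inj hbm (by rw [hl m s hs]) (by simp) h3 c hc
        rw [h4, ← cwt_bits χ m _ c (by simp), bits_ofFn]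
      refine h2.trans ((prob_any_le L).trans ?_)
      have hmr : (0 : ℝ) < m := by exact_mod_cast hm0
      have h3 : ∀ p ∈ L.map prob, p ≤ 1 / (m : ℝ) ^ t := by
        intro p hp
        rw [List.map_map, List.mem_map] at hp
        obtain ⟨s, -, rfl⟩ := hp
        have h4 := prob_wts χ m (hχ' m) (Ico a b) hSub (lw χ m (G m s))
        have h5 : ((m : ℝ) ^ t) ^ 2 ≤ ∏ c ∈ Ico a b, ((cnum χ m c : ℝ) + 1) := by
          rw [← pow_mul, mul_comm]
          exact_mod_cast hseg1
        set q := prob fun y : Fin m → Bool => decide (∀ c ∈ Ico a b, cwt χ y c = lw χ m (G m s) c)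
          with hq
        have hq0 : 0 ≤ q := prob_nonneg _
        show q ≤ 1 / (m : ℝ) ^ t
        rw [le_div_iff₀ (by positivity)]
        have h6 : (q * (m : ℝ) ^ t) ^ 2 ≤ 1 := by
          rw [mul_pow]
          exact (mul_le_mul_of_nonneg_left h5 (sq_nonneg q)).trans h4
        nlinarith [mul_nonneg hq0 (pow_nonneg hmr.le t)]
      have h4 : (L.map prob).sum ≤ (2 : ℝ) ^ d m * (1 / (m : ℝ) ^ t) := by
        refine (List.sum_le_card_nsmul _ _ h3).trans (le_of_eq ?_)
        rw [List.length_map, List.length_map, (dbl_iterate (d m)).1, nsmul_eq_mul]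
        push_cast
        ring
      refine h4.trans ?_
      have h5 : ((2 : ℝ) ^ d m) ≤ (m : ℝ) ^ e := by exact_mod_cast hd'
      rw [ht, pow_add, mul_one_div, div_le_div_iff₀ (by positivity) (by positivity)]
      nlinarith [mul_le_mul_of_nonneg_right h5 (pow_nonneg hmr.le j)]
    have h2 := prob_not (fun y : Fin m → Bool => C.eval y)
    have h3 : prob (fun y : Fin m → Bool => C.eval y) = prob C.eval := rfl
    rw [h3] at h2
    linarith
  · -- no output is accepted
    intro s
    have hlen' : (List.ofFn s).length = d m := by simp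
    rw [← Bool.not_eq_true, hcode]
    intro h
    refine h (List.ofFn s) hlen' ?_
    rw [hW0, ecode_eq _ _ _ _ _ (hl m _ hlen')]

end Pool.Agent.MP_ca1109_lc
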