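import Pool.Agent.MP_ca1109_lc.SymEasy
import Pool.Agent.MP_ca1109_lc.SymHard

/-!
# The threshold for symmetric tests
-/

namespace Pool.Agent.MP_ca1109_lc

open Pool.Agent.H66 Finset

/-- Some language, decidable in time polynomial in `2 ^ n` on inputs of length `n` (by a
polynomial-time algorithm which gets the number `2 ^ n` in unary and the input), has circuit
complexity at least `2 ^ (ε n)` for all large `n`. -/
def HardLanguage : Prop :=
  ∃ F : ℕ → List Bool → Bool, PolyTime (fun p : ℕ × List Bool => F p.1 p.2) ∧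
    ∃ ε : ℝ, 0 < ε ∧ ∀ᶠ n : ℕ in Filter.atTop, ∀ D : Circuit n,
      (∀ x : Fin n → Bool, D.eval x = F (2 ^ n) (List.ofFn x)) → (2 : ℝ) ^ (ε * n) ≤ D.size

theorem tendsto_rt {K : ℕ} (hK : 0 < K) :
    Filter.Tendsto (fun n : ℕ => rt K (2 ^ n)) Filter.atTop Filter.atTop := by
  rw [Filter.tendsto_atTop_atTop]
  intro M
  refine ⟨(M + 1) ^ K, fun n hn => ?_⟩
  have h1 := (rt_spec hK (2 ^ n)).2
  have h2 : n < 2 ^ n := Nat.lt_two_pow_self
  have h3 : (M + 1) ^ K < (rt K (2 ^ n) + 1) ^ K := by omega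
  have h4 := lt_of_pow_lt_pow_left₀ K (Nat.zero_le _) h3
  omega

theorem seed_bounds {d m e : ℕ} {c : ℝ} (hm : 1 ≤ m) (hc : c ≤ e)
    (h : (d : ℝ) ≤ c * Real.logb 2 m) : d ≤ e * Nat.clog 2 m ∧ 2 ^ d ≤ m ^ e := by
  have hm0 : (0 : ℝ) < m := by exact_mod_cast hm
  have hlog : 0 ≤ Real.logb 2 m := Real.logb_nonneg (by norm_num) (by exact_mod_cast hm)
  have h1 : (d : ℝ) ≤ e * Real.logb 2 m := h.trans (mul_le_mul_of_nonneg_right hc hlog)
  have h2 : Real.logb 2 m ≤ Nat.clog 2 m := by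
    have h3 : (m : ℝ) ≤ (2 : ℝ) ^ Nat.clog 2 m := by
      exact_mod_cast Nat.le_pow_clog (by norm_num) m
    have h4 := Real.logb_le_logb_of_le (by norm_num : (1 : ℝ) < 2) hm0 h3
    rwa [Real.logb_pow, Real.logb_self_eq_one (by norm_num), mul_one] at h4
  constructor
  · have h3 : (d : ℝ) ≤ ((e * Nat.clog 2 m : ℕ) : ℝ) := by
      push_cast
      exact h1.trans (mul_le_mul_of_nonneg_left h2 (Nat.cast_nonneg _))
    exact_mod_cast h3
  · have h3 : (2 : ℝ) ^ (d : ℝ) ≤ (2 : ℝ) ^ ((e : ℝ) * Real.logb 2 m) :=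
      Real.rpow_le_rpow_of_exponent_le (by norm_num) h1
    rw [mul_comm, Real.rpow_mul (by norm_num), Real.rpow_logb (by norm_num) (by norm_num) hm0,
      Real.rpow_natCast, Real.rpow_natCast] at h3
    exact_mod_cast h3

theorem hard_of_hit {χ : ℕ → ℕ → ℕ} (hχ : PolyTime fun p : ℕ × ℕ => χ p.1 p.2)
    (hχ' : ∀ m, ∀ p < m, χ m p < m)
    (hbig : ∀ k : ℕ, ∀ᶠ m : ℕ in Filter.atTop, m ^ k ≤ orbits χ m) {j : ℕ}
    (h : HitExists χ j) : HardLanguage := by
  obtain ⟨d, G, hd, hG, hl, c, hc⟩ := h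
  set e := ⌈c⌉₊ with he
  have hce : c ≤ e := Nat.le_ceil c
  set K := 4 * (e + j) + 5 with hK
  have hK0 : 0 < K := by omega
  refine ⟨hard χ d G e K, polyTime_hard hχ hd hG e K, 1 / (2 * K), by positivity, ?_⟩
  have ht := tendsto_rt hK0
  filter_upwards [ht.eventually hc, ht.eventually (hbig (100 * (2 * (e + j) + 2))),
    ht.eventually (Filter.eventually_ge_atTop 64), Filter.eventually_ge_atTop (2 * K)]
    with n hn1 hn2 hn3 hn4 D hD
  obtain ⟨hn5, hn6⟩ := hn1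
  set m := rt K (2 ^ n) with hm
  obtain ⟨hb1, hb2⟩ := seed_bounds (by omega : 1 ≤ m) hce hn5
  have hsize : m < 2 * D.size := by
    by_contra hcon
    obtain ⟨C, hC1, hC2, hC3, hC4⟩ := key_test hχ' hl hn3 hK hb1 hb2 hn2 hm.symm D hD
      (not_lt.1 hcon)
    obtain ⟨s, hs⟩ := hn6 C hC1 hC2 hC3
    rw [hC4 s] at hs
    exact absurd hs (by simp)
  have h1 : 2 ^ n < (2 * D.size) ^ K := by
    refine (rt_spec hK0 (2 ^ n)).2.trans_le (Nat.pow_le_pow_left ?_ K)
    omega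
  by_contra hcon
  rw [not_le] at hcon
  have h2 : ((2 * D.size : ℕ) : ℝ) ^ K ≤ (2 : ℝ) ^ n := by
    have h3 : ((2 * D.size : ℕ) : ℝ) ≤ 2 * (2 : ℝ) ^ (1 / (2 * K) * n : ℝ) := by
      push_cast
      linarith
    calc ((2 * D.size : ℕ) : ℝ) ^ K ≤ (2 * (2 : ℝ) ^ (1 / (2 * K) * n : ℝ)) ^ K :=
          pow_le_pow_left₀ (Nat.cast_nonneg _) h3 K
      _ = (2 : ℝ) ^ ((K : ℝ) + n / 2) := by
          rw [mul_pow, ← Real.rpow_natCast ((2 : ℝ) ^ (1 / (2 * K) * n : ℝ)) K,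
            ← Real.rpow_mul (by norm_num), ← Real.rpow_natCast 2 K,
            ← Real.rpow_add (by norm_num)]
          congr 1
          have : (K : ℝ) ≠ 0 := by positivity
          field_simp
      _ ≤ (2 : ℝ) ^ (n : ℝ) := by
          refine Real.rpow_le_rpow_of_exponent_le (by norm_num) ?_
          have : (2 * K : ℝ) ≤ n := by exact_mod_cast hn4
          linarith
      _ = (2 : ℝ) ^ n := Real.rpow_natCast _ _
  have h3 : (2 * D.size) ^ K ≤ 2 ^ n := by exact_mod_cast h2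
  omega

theorem hit_of_gen {χ : ℕ → ℕ → ℕ} {δ : ℝ} (hδ : δ < 1)
    (h : GenExists (fun _ C => SymFun χ C.eval) δ) : HitExists χ 1 := by
  obtain ⟨d, G, hd, hG, hl, c, hc⟩ := h
  refine ⟨d, G, hd, hG, hl, c, ?_⟩
  have h1 : 0 < 1 - δ := by linarith
  obtain ⟨M, hM⟩ := exists_nat_gt (1 / (1 - δ))
  filter_upwards [hc, Filter.eventually_ge_atTop M, Filter.eventually_ge_atTop 1]
    with m hm hmM hm1
  refine ⟨hm.1, fun C hC hs hp => ?_⟩
  by_contra hcon
  push Not at hcon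
  have h2 := hm.2.2 C hC hs
  unfold advantage at h2
  have h3 : prob (fun s : Fin (d m) → Bool => C.eval (bits m (G m (List.ofFn s)))) = 0 := by
    unfold prob
    rw [Finset.filter_false_of_mem, Finset.card_empty, Nat.cast_zero, zero_div]
    intro s _
    exact hcon s
  rw [h3, zero_sub, abs_neg] at h2
  have h4 := (le_abs_self _).trans h2
  have hm0 : (0 : ℝ) < m := by exact_mod_cast hm1
  have h5 : 1 / (1 - δ) < m := hM.trans_le (by exact_mod_cast hmM)
  have h6 : 1 / (m : ℝ) < 1 - δ := by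
    rw [div_lt_iff₀ h1] at h5
    rw [div_lt_iff₀ hm0]
    linarith
  rw [pow_one] at hp
  linarith

end Pool.Agent.MP_ca1109_lc
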