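import Mathlib

/-!
# Boolean circuits, pseudorandom maps

* `Circuit m`: Boolean circuits on `m` inputs with AND and OR gates of fan-in two and NOT gates;
  `Circuit.size` is the number of AND and OR gates.
* `advantage`: the distinguishing advantage of a circuit against a map.
-/

namespace Pool.Agent.MP_ca1109_lc

/-- A gate whose inputs are among `k` wires. -/
inductive Gate (k : ℕ) : Type
  | and (i j : Fin k)
  | or (i j : Fin k)
  | not (i : Fin k)

/-- The value of a gate. -/
def Gate.eval {k : ℕ} (v : Fin k → Bool) : Gate k → Bool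
  | .and i j => v i && v j
  | .or i j => v i || v j
  | .not i => !(v i)

/-- The cost of a gate: NOT gates are not counted. -/
def Gate.cost {k : ℕ} : Gate k → ℕ
  | .and _ _ => 1
  | .or _ _ => 1
  | .not _ => 0

/-- Sequences of `n` gates over `m` inputs: the wires available to a gate are the `m` inputs and
the outputs of the previous gates. -/
inductive Gates (m : ℕ) : ℕ → Type
  | nil : Gates m 0
  | snoc {n : ℕ} (C : Gates m n) (g : Gate (m + n)) : Gates m (n + 1)

/-- The values of all wires (inputs and gate outputs). -/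
def Gates.eval {m : ℕ} (x : Fin m → Bool) : {n : ℕ} → Gates m n → Fin (m + n) → Bool
  | _, .nil => x
  | _, .snoc C g => Fin.snoc (α := fun _ => Bool) (Gates.eval x C) (g.eval (Gates.eval x C))

/-- The number of AND and OR gates. -/
def Gates.size {m : ℕ} : {n : ℕ} → Gates m n → ℕ
  | _, .nil => 0
  | _, .snoc C g => Gates.size C + g.cost

/-- A Boolean circuit on `m` inputs. -/
structure Circuit (m : ℕ) where
  /-- the number of gates, NOT gates included -/
  len : ℕ
  /-- the gates -/
  gates : Gates m len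
  /-- the output wire -/
  out : Fin (m + len)

/-- The function computed by a circuit. -/
def Circuit.eval {m : ℕ} (C : Circuit m) (x : Fin m → Bool) : Bool := C.gates.eval x C.out

/-- The size of a circuit: the number of its AND and OR gates. -/
def Circuit.size {m : ℕ} (C : Circuit m) : ℕ := C.gates.size

/-- The probability that `f` holds at a uniform point. -/
noncomputable def prob {A : Type*} [Fintype A] (f : A → Bool) : ℝ :=
  ((Finset.univ.filter fun a => f a = true).card : ℝ) / (Fintype.card A : ℝ)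

/-- The distinguishing advantage of the circuit `C` against the map `G`. -/
noncomputable def advantage {m : ℕ} {A : Type*} [Fintype A] (G : A → Fin m → Bool)
    (C : Circuit m) : ℝ :=
  |prob (fun a => C.eval (G a)) - prob (fun x : Fin m → Bool => C.eval x)|

/-- `G` fools all circuits of size at most `m` on `m` inputs with advantage at most `1/8`. -/
def Fools {m : ℕ} {A : Type*} [Fintype A] (G : A → Fin m → Bool) : Prop :=
  ∀ C : Circuit m, C.size ≤ m → advantage G C ≤ 1 / 8

/-! ## Computable sets of functions -/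

/-- Boolean functions of `m` bits. -/
abbrev BF (m : ℕ) := (Fin m → Bool) → Bool

/-- All functions in `F` are computed at the wires of one sequence of gates of size at most `s`. -/
def Comp (m s : ℕ) (F : Set (BF m)) : Prop :=
  ∃ (n : ℕ) (C : Gates m n), C.size ≤ s ∧ ∀ f ∈ F, ∃ w, ∀ x, C.eval x w = f x

lemma Comp.circuit {m s : ℕ} {F : Set (BF m)} (h : Comp m s F) {f : BF m} (hf : f ∈ F) :
    ∃ C : Circuit m, C.size ≤ s ∧ ∀ x, C.eval x = f x := by
  obtain ⟨n, C, hC, hF⟩ := h
  obtain ⟨w, hw⟩ := hF f hf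
  exact ⟨⟨n, C, w⟩, hC, hw⟩

lemma Comp.mono {m s s' : ℕ} {F F' : Set (BF m)} (h : Comp m s F) (hs : s ≤ s') (hF : F' ⊆ F) :
    Comp m s' F' := by
  obtain ⟨n, C, hC, hF'⟩ := h
  exact ⟨n, C, hC.trans hs, fun f hf => hF' f (hF hf)⟩

lemma comp_inputs (m : ℕ) : Comp m 0 (Set.range fun i : Fin m => fun x : Fin m → Bool => x i) := by
  refine ⟨0, .nil, le_refl 0, ?_⟩
  rintro _ ⟨i, rfl⟩
  exact ⟨i, fun x => rfl⟩

lemma Comp.gate {m s : ℕ} {F : Set (BF m)} (h : Comp m s F) (c : ℕ) (f : BF m)
    (hg : ∀ (n : ℕ) (C : Gates m n), (∀ f ∈ F, ∃ w, ∀ x, C.eval x w = f x) →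
      ∃ g : Gate (m + n), g.cost ≤ c ∧ ∀ x, g.eval (C.eval x) = f x) :
    Comp m (s + c) (insert f F) := by
  obtain ⟨n, C, hC, hF⟩ := h
  obtain ⟨g, hg1, hg2⟩ := hg n C hF
  refine ⟨n + 1, .snoc C g, ?_, ?_⟩
  · show C.size + g.cost ≤ s + c
    omega
  · intro f' hf'
    rcases hf' with rfl | hf'
    · refine ⟨Fin.last _, fun x => ?_⟩
      show Fin.snoc (α := fun _ => Bool) (Gates.eval x C) (g.eval (Gates.eval x C)) (Fin.last _) = _
      rw [Fin.snoc_last]
      exact hg2 x
    · obtain ⟨w, hw⟩ := hF f' hf'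
      refine ⟨w.castSucc, fun x => ?_⟩
      show Fin.snoc (α := fun _ => Bool) (Gates.eval x C) (g.eval (Gates.eval x C)) w.castSucc = _
      rw [Fin.snoc_castSucc]
      exact hw x

lemma Comp.and {m s : ℕ} {F : Set (BF m)} (h : Comp m s F) {f g : BF m} (hf : f ∈ F)
    (hg : g ∈ F) : Comp m (s + 1) (insert (fun x => f x && g x) F) := by
  apply h.gate
  intro n C hC
  obtain ⟨w, hw⟩ := hC f hf
  obtain ⟨v, hv⟩ := hC g hg
  exact ⟨.and w v, le_refl _, fun x => by rw [Gate.eval, hw, hv]⟩

lemma Comp.or {m s : ℕ} {F : Set (BF m)} (h : Comp m s F) {f g : BF m} (hf : f ∈ F)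
    (hg : g ∈ F) : Comp m (s + 1) (insert (fun x => f x || g x) F) := by
  apply h.gate
  intro n C hC
  obtain ⟨w, hw⟩ := hC f hf
  obtain ⟨v, hv⟩ := hC g hg
  exact ⟨.or w v, le_refl _, fun x => by rw [Gate.eval, hw, hv]⟩

lemma Comp.not {m s : ℕ} {F : Set (BF m)} (h : Comp m s F) {f : BF m} (hf : f ∈ F) :
    Comp m s (insert (fun x => !(f x)) F) := by
  have := h.gate 0 (fun x => !(f x)) (fun n C hC => by
    obtain ⟨w, hw⟩ := hC f hf
    exact ⟨.not w, le_refl _, fun x => by rw [Gate.eval, hw]⟩)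
  exact this

end Pool.Agent.MP_ca1109_lc
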