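import Pool.Agent.MP_ca1109_lc.Circuit

/-!
# Linear size circuits for symmetric functions of a list of literals
-/

namespace Pool.Agent.MP_ca1109_lc

variable {m : ℕ}

/-- The number with the binary digits `L x` (least significant first). -/
def val : List (BF m) → (Fin m → Bool) → ℕ
  | [], _ => 0
  | f :: L, x => (f x).toNat + 2 * val L x

/-- number of true functions -/
def cnt : List (BF m) → (Fin m → Bool) → ℕ
  | [], _ => 0
  | f :: L, x => (f x).toNat + cnt L x

lemma cnt_append (L L' : List (BF m)) (x : Fin m → Bool) :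
    cnt (L ++ L') x = cnt L x + cnt L' x := by
  induction L with
  | nil => simp [cnt]
  | cons f L ih => simp [cnt, ih]; omega

lemma Comp.xor {s : ℕ} {F : Set (BF m)} (h : Comp m s F) {f g : BF m} (hf : f ∈ F)
    (hg : g ∈ F) : ∃ F', F ⊆ F' ∧ (fun x => f x && g x) ∈ F' ∧ (fun x => xor (f x) (g x)) ∈ F' ∧
      Comp m (s + 3) F' := by
  have h1 := h.and hf hg
  have h2 := h1.or (Set.mem_insert_of_mem _ hf) (Set.mem_insert_of_mem _ hg)
  have h3 := h2.not (Set.mem_insert_of_mem _ (Set.mem_insert _ _))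
  have h4 := h3.and (Set.mem_insert_of_mem _ (Set.mem_insert _ _)) (Set.mem_insert _ _)
  refine ⟨_, ?_, ?_, ?_, h4⟩
  · intro a ha
    exact Set.mem_insert_of_mem _ (Set.mem_insert_of_mem _ (Set.mem_insert_of_mem _
      (Set.mem_insert_of_mem _ ha)))
  · exact Set.mem_insert_of_mem _ (Set.mem_insert_of_mem _ (Set.mem_insert_of_mem _
      (Set.mem_insert _ _)))
  · convert Set.mem_insert _ _ using 1
    funext x
    cases f x <;> cases g x <;> rfl

/-- full adder -/
lemma Comp.fullAdder {s : ℕ} {F : Set (BF m)} (h : Comp m s F) {a b c : BF m} (ha : a ∈ F)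
    (hb : b ∈ F) (hc : c ∈ F) : ∃ F', F ⊆ F' ∧ Comp m (s + 7) F' ∧ ∃ u v, u ∈ F' ∧ v ∈ F' ∧
      ∀ x, (u x).toNat + 2 * (v x).toNat = (a x).toNat + (b x).toNat + (c x).toNat := by
  obtain ⟨F1, h1, h1a, h1x, hC1⟩ := h.xor ha hb
  obtain ⟨F2, h2, h2a, h2x, hC2⟩ := hC1.xor h1x (h1 hc)
  have h3 := hC2.or (h2 h1a) h2a
  refine ⟨_, ?_, h3, _, _, Set.mem_insert_of_mem _ h2x, Set.mem_insert _ _, ?_⟩
  · intro f hf
    exact Set.mem_insert_of_mem _ (h2 (h1 hf))
  · intro x
    cases a x <;> cases b x <;> cases c x <;> rfl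

/-- ripple carry adder -/
lemma Comp.add (k : ℕ) : ∀ {s : ℕ} {F : Set (BF m)}, Comp m s F → ∀ A B : List (BF m),
    A.length = k → B.length = k → (∀ f ∈ A, f ∈ F) → (∀ f ∈ B, f ∈ F) → ∀ c ∈ F,
    ∃ F', F ⊆ F' ∧ Comp m (s + 7 * k) F' ∧ ∃ R : List (BF m), R.length = k + 1 ∧
      (∀ f ∈ R, f ∈ F') ∧ ∀ x, val R x = val A x + val B x + (c x).toNat := by
  induction k with
  | zero =>
    intro s F h A B hA hB hAF hBF c hc
    rw [List.length_eq_zero_iff] at hA hB
    subst hA hB
    refine ⟨F, subset_rfl, h, [c], rfl, ?_, ?_⟩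
    · intro f hf
      rw [List.mem_singleton] at hf
      rw [hf]; exact hc
    · intro x
      simp [val]
  | succ k ih =>
    intro s F h A B hA hB hAF hBF c hc
    match A, B, hA, hB with
    | a :: A, b :: B, hA, hB =>
      obtain ⟨F1, hF1, hC1, u, v, hu, hv, huv⟩ :=
        h.fullAdder (hAF a List.mem_cons_self) (hBF b List.mem_cons_self) hc
      obtain ⟨F2, hF2, hC2, R, hR, hRF, hRx⟩ := ih hC1 A B (by simpa using hA) (by simpa using hB)
        (fun f hf => hF1 (hAF f (List.mem_cons_of_mem _ hf)))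
        (fun f hf => hF1 (hBF f (List.mem_cons_of_mem _ hf))) v hv
      refine ⟨F2, hF1.trans hF2, hC2.mono (by omega) subset_rfl, u :: R, by simp [hR], ?_, ?_⟩
      · intro f hf
        rcases List.mem_cons.1 hf with rfl | hf
        · exact hF2 hu
        · exact hRF f hf
      · intro x
        simp only [val]
        rw [hRx x]
        have := huv x
        omega

/-- counting the true functions of a list of length at most `2 ^ k` -/
lemma Comp.count (k : ℕ) : ∀ {s : ℕ} {F : Set (BF m)}, Comp m s F → (fun _ => false) ∈ F →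
    ∀ L : List (BF m), L.length ≤ 2 ^ k → (∀ f ∈ L, f ∈ F) →
    ∃ F', F ⊆ F' ∧ Comp m (s + (14 * 2 ^ k - 7 * (k + 2))) F' ∧ ∃ R : List (BF m),
      R.length = k + 1 ∧ (∀ f ∈ R, f ∈ F') ∧ ∀ x, val R x = cnt L x := by
  induction k with
  | zero =>
    intro s F h h0 L hL hLF
    match L, hL with
    | [], _ =>
      refine ⟨F, subset_rfl, h.mono (by omega) subset_rfl, [fun _ => false], rfl, ?_, ?_⟩
      · intro f hf
        rw [List.mem_singleton] at hf
        rw [hf]; exact h0
      · intro x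
        simp [val, cnt]
    | [f], _ =>
      exact ⟨F, subset_rfl, h.mono (by omega) subset_rfl, [f], rfl, hLF, fun x => by
        simp [val, cnt]⟩
    | f :: g :: L, hL => simp at hL
  | succ k ih =>
    intro s F h h0 L hL hLF
    have hpk : k + 1 ≤ 2 ^ k := Nat.lt_two_pow_self
    obtain ⟨F1, hF1, hC1, R1, hR1, hRF1, hx1⟩ := ih h h0 (L.take (2 ^ k))
      (by simp) (fun f hf => hLF f (List.mem_of_mem_take hf))
    obtain ⟨F2, hF2, hC2, R2, hR2, hRF2, hx2⟩ := ih hC1 (hF1 h0) (L.drop (2 ^ k))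
      (by rw [List.length_drop]; rw [pow_succ] at hL; omega)
      (fun f hf => hF1 (hLF f (List.mem_of_mem_drop hf)))
    obtain ⟨F3, hF3, hC3, R, hR, hRF, hx⟩ := Comp.add (k + 1) hC2 R1 R2 hR1 hR2
      (fun f hf => hF2 (hRF1 f hf)) hRF2 _ (hF2 (hF1 h0))
    refine ⟨F3, (hF1.trans hF2).trans hF3, hC3.mono ?_ subset_rfl, R, by omega, hRF, ?_⟩
    · rw [pow_succ]
      omega
    · intro x
      rw [hx x, hx1 x, hx2 x, ← cnt_append, List.take_append_drop]
      simp

/-- an arbitrary predicate of a short binary number -/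
lemma Comp.pred (r : ℕ) : ∀ {s : ℕ} {F : Set (BF m)}, Comp m s F → (fun _ => false) ∈ F →
    (fun _ => true) ∈ F → ∀ R : List (BF m), R.length = r → (∀ f ∈ R, f ∈ F) → ∀ P : ℕ → Bool,
    ∃ F', F ⊆ F' ∧ Comp m (s + (3 * 2 ^ r - 3)) F' ∧ (fun x => P (val R x)) ∈ F' := by
  induction r with
  | zero =>
    intro s F h h0 h1 R hR hRF P
    rw [List.length_eq_zero_iff] at hR
    subst hR
    refine ⟨F, subset_rfl, h.mono (by omega) subset_rfl, ?_⟩
    simp only [val]
    cases P 0
    · exact h0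
    · exact h1
  | succ r ih =>
    intro s F h h0 h1 R hR hRF P
    match R, hR with
    | a :: R, hR =>
      have hR' : R.length = r := by simpa using hR
      have hRF' : ∀ f ∈ R, f ∈ F := fun f hf => hRF f (List.mem_cons_of_mem _ hf)
      have ha : a ∈ F := hRF a List.mem_cons_self
      obtain ⟨F1, hF1, hC1, hP1⟩ := ih h h0 h1 R hR' hRF' (fun t => P (2 * t))
      obtain ⟨F2, hF2, hC2, hP2⟩ := ih hC1 (hF1 h0) (hF1 h1) R hR' (fun f hf => hF1 (hRF' f hf))
        (fun t => P (1 + 2 * t))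
      have hC3 := hC2.not (hF2 (hF1 ha))
      have hC4 := hC3.and (Set.mem_insert _ _) (Set.mem_insert_of_mem _ (hF2 hP1))
      have hC5 := hC4.and (Set.mem_insert_of_mem _ (Set.mem_insert_of_mem _ (hF2 (hF1 ha))))
        (Set.mem_insert_of_mem _ (Set.mem_insert_of_mem _ hP2))
      have hC6 := hC5.or (Set.mem_insert_of_mem _ (Set.mem_insert _ _)) (Set.mem_insert _ _)
      refine ⟨_, ?_, hC6.mono ?_ subset_rfl, ?_⟩
      · intro f hf
        exact Set.mem_insert_of_mem _ (Set.mem_insert_of_mem _ (Set.mem_insert_of_mem _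
          (Set.mem_insert_of_mem _ (hF2 (hF1 hf)))))
      · have : 1 ≤ 2 ^ r := Nat.one_le_two_pow
        rw [pow_succ]
        omega
      · convert Set.mem_insert _ _ using 1
        funext x
        simp only [val]
        cases a x <;> simp

/-- A list of literals. -/
def IsLit (f : BF m) : Prop := ∃ i : Fin m, (∀ x, f x = x i) ∨ ∀ x, f x = !(x i)

/-- Every predicate of the number of true literals of a list of `N ≥ 1` literals is computed by a
circuit of size at most `40 N + 1`. -/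
theorem exists_circuit (L : List (BF m)) (hL : L ≠ []) (hlit : ∀ f ∈ L, IsLit f) (P : ℕ → Bool) :
    ∃ C : Circuit m, C.size ≤ 40 * L.length ∧ ∀ x, C.eval x = P (cnt L x) := by
  classical
  have hN : 1 ≤ L.length := List.length_pos_iff.2 hL
  obtain ⟨f0, hf0⟩ := List.exists_mem_of_ne_nil L hL
  obtain ⟨i0, -⟩ := hlit f0 hf0
  have key : ∀ L' : List (BF m), (∀ f ∈ L', IsLit f) → ∃ F, Comp m 0 F ∧
      (Set.range fun i : Fin m => fun x : Fin m → Bool => x i) ⊆ F ∧ ∀ f ∈ L', f ∈ F := by
    intro L'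
    induction L' with
    | nil => intro _; exact ⟨_, comp_inputs m, subset_rfl, by simp⟩
    | cons f L' ih =>
      intro h
      obtain ⟨F, hF, hi, hF'⟩ := ih (fun g hg => h g (List.mem_cons_of_mem _ hg))
      obtain ⟨i, hi'⟩ := h f List.mem_cons_self
      have hmem : (fun x : Fin m → Bool => x i) ∈ F := hi ⟨i, rfl⟩
      rcases hi' with hi' | hi'
      · refine ⟨F, hF, hi, fun g hg => ?_⟩
        rcases List.mem_cons.1 hg with rfl | hg
        · rw [show g = fun x : Fin m → Bool => x i from funext hi']; exact hmem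
        · exact hF' g hg
      · refine ⟨_, hF.not hmem, hi.trans (Set.subset_insert _ _), fun g hg => ?_⟩
        rcases List.mem_cons.1 hg with rfl | hg
        · rw [show g = fun x : Fin m → Bool => !(x i) from funext hi']
          exact Set.mem_insert _ _
        · exact Set.mem_insert_of_mem _ (hF' g hg)
  obtain ⟨F, hF, hi, hLF⟩ := key L hlit
  have hmem : (fun x : Fin m → Bool => x i0) ∈ F := hi ⟨i0, rfl⟩
  have hC1 := (hF.not hmem)
  have hC2 := hC1.and (Set.mem_insert_of_mem _ hmem) (Set.mem_insert _ _)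
  have hC3 := hC2.not (Set.mem_insert _ _)
  set F3 := insert (fun x : Fin m → Bool => !(x i0 && !(x i0)))
    (insert (fun x : Fin m → Bool => (x i0 && !(x i0))) (insert (fun x => !(x i0)) F)) with hF3
  have h0 : (fun _ => false : BF m) ∈ F3 := by
    have : (fun _ => false : BF m) = (fun x : Fin m → Bool => (x i0 && !(x i0))) := by
      funext x; cases x i0 <;> rfl
    rw [this]
    exact Set.mem_insert_of_mem _ (Set.mem_insert _ _)
  have h1 : (fun _ => true : BF m) ∈ F3 := by
    have : (fun _ => true : BF m) = (fun x : Fin m → Bool => !(x i0 && !(x i0))) := by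
      funext x; cases x i0 <;> rfl
    rw [this]
    exact Set.mem_insert _ _
  have hLF3 : ∀ f ∈ L, f ∈ F3 := fun f hf => Set.mem_insert_of_mem _ (Set.mem_insert_of_mem _
    (Set.mem_insert_of_mem _ (hLF f hf)))
  set k := Nat.clog 2 L.length with hk
  have hk1 : L.length ≤ 2 ^ k := Nat.le_pow_clog (by norm_num) _
  have hk2 : 2 ^ k < 2 * L.length ∨ 2 ^ k = 1 := by
    rcases Nat.eq_or_lt_of_le hN with h | h
    · right
      rw [hk, ← h]
      simp
    · left
      have hk0 : 0 < k := Nat.clog_pos (by norm_num) h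
      have := Nat.pow_pred_clog_lt_self (b := 2) (by norm_num) h
      rw [← hk] at this
      have h3 : 2 ^ k = 2 * 2 ^ k.pred := by
        conv_lhs => rw [← Nat.succ_pred_eq_of_pos hk0]
        rw [pow_succ]; ring
      rw [h3]
      omega
  obtain ⟨F4, hF4, hC4, R, hR, hRF, hx⟩ := Comp.count k hC3 h0 L hk1 hLF3
  obtain ⟨F5, hF5, hC5, hP⟩ := Comp.pred (k + 1) hC4 (hF4 h0) (hF4 h1) R hR hRF P
  obtain ⟨C, hC, hCx⟩ := hC5.circuit hP
  refine ⟨C, hC.trans ?_, fun x => by rw [hCx, hx]⟩
  have h4 : 1 ≤ 2 ^ k := Nat.one_le_two_pow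
  rw [pow_succ]
  rcases hk2 with h | h <;> omega

end Pool.Agent.MP_ca1109_lc
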