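import Pool.Agent.MP_ca1109_lc.MonoStep

/-!
# The threshold `1/2` for generators against monotone circuits
-/

namespace Pool.Agent.MP_ca1109_lc

open Pool.Agent.H66 Finset

/-- There is a logarithmic-seed generator which is computable in polynomial time by a uniform
algorithm (the output length is given in unary) and which fools, for all large `m`, all circuits
of size at most `m` on `m` inputs in the class `P` with advantage at most `δ`. -/
def GenExists (P : ∀ m, Circuit m → Prop) (δ : ℝ) : Prop :=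
  ∃ (d : ℕ → ℕ) (G : ℕ → List Bool → List Bool),
    PolyTime d ∧ PolyTime (fun p : ℕ × List Bool => G p.1 p.2) ∧
    (∀ m s, s.length = d m → (G m s).length = m) ∧
    ∃ c : ℝ, ∀ᶠ m : ℕ in Filter.atTop, (d m : ℝ) ≤ c * Real.logb 2 m ∧ d m < m ∧
      ∀ C : Circuit m, P m C → C.size ≤ m →
        advantage (fun s : Fin (d m) → Bool => bits m (G m (List.ofFn s))) C ≤ δ

theorem GenExists.weaken {P Q : ∀ m, Circuit m → Prop} {δ δ' : ℝ} (h : GenExists P δ)
    (hPQ : ∀ m C, Q m C → P m C) (hδ : δ ≤ δ') : GenExists Q δ' := by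
  obtain ⟨d, G, hd, hG, hl, c, hc⟩ := h
  refine ⟨d, G, hd, hG, hl, c, ?_⟩
  filter_upwards [hc] with m hm
  exact ⟨hm.1, hm.2.1, fun C hC hs => (hm.2.2 C (hPQ m C hC) hs).trans hδ⟩

theorem ufam_zero : UFam 0 1 := by
  refine ⟨fun _ => 0, fun n _ => List.replicate n false, PolyTime.const 0,
    PolyTime.replicate PolyTime.fst (PolyTime.const false), fun n s => by simp, 0, ?_⟩
  exact Filter.Eventually.of_forall fun n => ⟨by simp, up_trivial n n _⟩

theorem ufam_iterate {κ₀ η : ℝ} (hκ₀ : 0 ≤ κ₀) (hη : 0 < η) (hκ : κ₀ + 2 * η < 1)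
    {d : ℕ → ℕ} {G : ℕ → List Bool → List Bool} (hd : PolyTime d)
    (hG : PolyTime fun p : ℕ × List Bool => G p.1 p.2) {c : ℝ}
    (hc : ∀ᶠ m : ℕ in Filter.atTop, (d m : ℝ) ≤ c * Real.logb 2 m ∧
      FoolsPair m κ₀ (fun s : Fin (d m) → Bool => bits m (G m (List.ofFn s)))) (a : ℕ) :
    ∃ θ : ℝ, θ ≤ η / (1 - (κ₀ + 2 * η)) ∧ UFam θ ((κ₀ + 2 * η) ^ a) := by
  have h1 : 0 < 1 - (κ₀ + 2 * η) := by linarith
  induction a with
  | zero =>
    refine ⟨0, by positivity, ?_⟩
    rw [pow_zero]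
    exact ufam_zero
  | succ a ih =>
    obtain ⟨θ, hθ, hU⟩ := ih
    refine ⟨η + (κ₀ + 2 * η) * θ, ?_, ?_⟩
    · have h2 : (κ₀ + 2 * η) * θ ≤ (κ₀ + 2 * η) * (η / (1 - (κ₀ + 2 * η))) :=
        mul_le_mul_of_nonneg_left hθ (by positivity)
      have h3 : η + (κ₀ + 2 * η) * (η / (1 - (κ₀ + 2 * η))) = η / (1 - (κ₀ + 2 * η)) := by
        have h4 := div_mul_cancel₀ η h1.ne'
        linear_combination -h4
      linarith
    · rw [pow_succ']
      exact hU.step hκ₀ hη hd hG hc

theorem UFam.gen {θ κ δ : ℝ} (h : UFam θ κ) (hκ : 0 ≤ κ) (hδ : θ + κ ≤ δ) :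
    GenExists (fun _ _ => True) δ := by
  obtain ⟨D, H, hD, hH, hl, f, hf⟩ := h
  refine ⟨D, H, hD, hH, fun m s _ => hl m s, f, ?_⟩
  have h1 : ∀ᶠ n : ℕ in Filter.atTop, (n : ℝ) ^ f / (2 : ℝ) ^ n < 1 :=
    (tendsto_pow_const_div_const_pow_of_one_lt f (by norm_num : (1 : ℝ) < 2)).eventually
      (gt_mem_nhds one_pos)
  filter_upwards [hf, h1, Filter.eventually_ge_atTop 1] with m hm hm1 hm2
  obtain ⟨hm3, hm4⟩ := hm
  have hm0 : (0 : ℝ) < m := by exact_mod_cast hm2
  refine ⟨?_, ?_, fun C _ hs => (hm4.advantage hκ C hs).trans hδ⟩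
  · have h2 : ((2 : ℝ) ^ D m) ≤ (m : ℝ) ^ f := by exact_mod_cast hm3
    have h3 := Real.logb_le_logb_of_le (by norm_num : (1 : ℝ) < 2) (by positivity) h2
    rwa [Real.logb_pow, Real.logb_pow, Real.logb_self_eq_one (by norm_num), mul_one] at h3
  · rw [div_lt_one (by positivity)] at hm1
    have h2 : m ^ f < 2 ^ m := by exact_mod_cast hm1
    exact (Nat.pow_lt_pow_iff_right (by norm_num)).1 (hm3.trans_lt h2)

theorem gen_of_pair {κ₀ δ : ℝ} (hκ₀ : 0 ≤ κ₀) (hκ₁ : κ₀ < 1) (hδ : 0 < δ) {d : ℕ → ℕ}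
    {G : ℕ → List Bool → List Bool} (hd : PolyTime d)
    (hG : PolyTime fun p : ℕ × List Bool => G p.1 p.2) {c : ℝ}
    (hc : ∀ᶠ m : ℕ in Filter.atTop, (d m : ℝ) ≤ c * Real.logb 2 m ∧
      FoolsPair m κ₀ (fun s : Fin (d m) → Bool => bits m (G m (List.ofFn s)))) :
    GenExists (fun _ _ => True) δ := by
  set η : ℝ := min ((1 - κ₀) / 4) (δ / 2 * ((1 - κ₀) / 2)) with hη
  have e0 : 0 < 1 - κ₀ := by linarith
  have hη0 : 0 < η := lt_min (by positivity) (by positivity)
  have hη1 : η ≤ (1 - κ₀) / 4 := min_le_left _ _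
  have hη2 : η ≤ δ / 2 * ((1 - κ₀) / 2) := min_le_right _ _
  have hκ : κ₀ + 2 * η < 1 := by linarith
  have hκ0 : 0 ≤ κ₀ + 2 * η := by positivity
  obtain ⟨a, ha⟩ := exists_pow_lt_of_lt_one (by positivity : 0 < δ / 2) hκ
  obtain ⟨θ, hθ, hU⟩ := ufam_iterate hκ₀ hη0 hκ hd hG hc a
  refine hU.gen (by positivity) ?_
  have h1 : η / (1 - (κ₀ + 2 * η)) ≤ δ / 2 := by
    rw [div_le_iff₀ (by linarith)]
    refine hη2.trans ?_
    refine mul_le_mul_of_nonneg_left ?_ (by positivity)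
    linarith
  linarith

/-- Below `1/2`, generators against circuits without NOT gates are as good as generators against
all circuits. -/
theorem gen_of_mono {ε δ : ℝ} (hε : 0 < ε) (hε' : ε < 1 / 2) (hδ : 0 < δ)
    (h : GenExists (fun _ C => C.nots = 0) ε) : GenExists (fun _ _ => True) δ := by
  obtain ⟨d, G, hd, hG, hl, c, hc⟩ := h
  refine gen_of_pair (κ₀ := 2 * ε) (by positivity) (by linarith) hδ hd hG (c := c) ?_
  filter_upwards [hc] with m hm
  exact ⟨hm.1, foolsPair_of_mono hε.le _ hm.2.2⟩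

/-- Below `1`, generators against circuits with one NOT gate are as good as generators against
all circuits. -/
theorem gen_of_one {ε δ : ℝ} (hε : 0 < ε) (hε' : ε < 1) (hδ : 0 < δ)
    (h : GenExists (fun _ C => C.nots ≤ 1) ε) : GenExists (fun _ _ => True) δ := by
  obtain ⟨d, G, hd, hG, hl, c, hc⟩ := h
  refine gen_of_pair (κ₀ := ε) hε.le hε' hδ hd hG (c := c) ?_
  filter_upwards [hc] with m hm
  exact ⟨hm.1, foolsPair_of_nots hε.le _ hm.2.2⟩

/-- At `1/2` there is a generator with seeds of length one. -/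
theorem mono_half : GenExists (fun _ C => C.nots = 0) (1 / 2) := by
  refine ⟨fun _ => 1, fun m s => List.replicate m (s.getD 0 false), PolyTime.const 1,
    PolyTime.replicate PolyTime.fst (PolyTime.getD (PolyTime.const 0) PolyTime.snd false),
    fun m s _ => by simp, 1, ?_⟩
  filter_upwards [Filter.eventually_ge_atTop 2] with m hm
  refine ⟨?_, by omega, fun C hC _ => ?_⟩
  · have h1 : Real.logb 2 2 ≤ Real.logb 2 (m : ℝ) :=
      Real.logb_le_logb_of_le (by norm_num) (by norm_num) (by exact_mod_cast hm)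
    rw [Real.logb_self_eq_one (by norm_num)] at h1
    simpa using h1
  · have h1 : ∀ s : Fin 1 → Bool,
        C.eval (bits m (List.replicate m ((List.ofFn s).getD 0 false))) = s 0 := by
      intro s
      have h2 : bits m (List.replicate m ((List.ofFn s).getD 0 false)) = fun _ => s 0 := by
        funext i
        simp [bits, List.getD_eq_getElem?_getD, i.2]
      rw [h2, ((Circuit.mono_iff C).2 hC).eval_const]
    unfold advantage
    simp only [h1]
    have h3 : prob (fun s : Fin 1 → Bool => s 0) = 1 / 2 := by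
      have h4 := prob_equiv (Equiv.funUnique (Fin 1) Bool) (fun b => b)
      have h5 : prob (fun b : Bool => b) = 1 / 2 := by
        unfold prob
        have : (Finset.univ.filter fun a : Bool => a = true).card = 1 := by decide
        rw [this]
        simp
      rw [← h5, ← h4]
      rfl
    rw [h3, abs_le]
    have h4 := prob_nonneg (fun x : Fin m → Bool => C.eval x)
    have h5 := prob_le_one (fun x : Fin m → Bool => C.eval x)
    constructor <;> linarith

/-- The thresholds `1/2` and `1`. -/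
theorem threshold :
    (∀ ε δ : ℝ, 0 < ε → ε < 1 → 0 < δ → δ < 1 →
      (GenExists (fun _ C => C.nots ≤ 1) ε ↔ GenExists (fun _ _ => True) δ)) ∧
    (∀ ε δ : ℝ, 0 < ε → ε < 1 / 2 → 0 < δ → δ < 1 →
      (GenExists (fun _ C => C.nots = 0) ε ↔ GenExists (fun _ _ => True) δ)) ∧
    GenExists (fun _ C => C.nots = 0) (1 / 2) := by
  have key : ∀ ε δ : ℝ, 0 < ε → 0 < δ → δ < 1 → GenExists (fun _ _ => True) δ →
      GenExists (fun _ _ => True) ε := fun ε δ hε hδ hδ' h =>
    gen_of_one hδ hδ' hε (h.weaken (fun _ _ _ => trivial) le_rfl)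
  refine ⟨fun ε δ hε hε' hδ hδ' => ⟨gen_of_one hε hε' hδ, fun h => ?_⟩,
    fun ε δ hε hε' hδ hδ' => ⟨gen_of_mono hε hε' hδ, fun h => ?_⟩, mono_half⟩
  · exact (key ε δ hε hδ hδ' h).weaken (fun _ _ _ => trivial) le_rfl
  · exact (key ε δ hε hδ hδ' h).weaken (fun _ _ _ => trivial) le_rfl

end Pool.Agent.MP_ca1109_lc
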