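import Pool.Agent.MP_ca1109_lc.MonoProb

/-!
# Blocks of a generator which fools monotone circuits
-/

namespace Pool.Agent.MP_ca1109_lc

open Finset

/-- The tests `P ∨ ¬Q` with `P` and `Q` monotone accept `G` with probability at most
`Pr[P] + Pr[¬Q] + κ`. -/
def FoolsPair {A : Type*} [Fintype A] (M : ℕ) (κ : ℝ) (G : A → Fin M → Bool) : Prop :=
  ∀ (S : ℕ) (P Q : BF M), 2 * S + 1 ≤ M → Gets false (bas M) S {P} → Gets false (bas M) S {Q} →
    prob (fun a => P (G a) || !(Q (G a))) ≤ prob P + prob (fun y => !(Q y)) + κ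

/-- One-sided fooling of the functions given by at most `S` gates (NOT gates are free). -/
def Up {A : Type*} [Fintype A] (n S : ℕ) (θ κ : ℝ) (H : A → Fin n → Bool) : Prop :=
  ∀ f : BF n, Gets true (bas n) S {f} →
    prob (fun a => f (H a)) ≤ prob f + θ + κ * (1 - prob f)

theorem prob_const_true {A : Type*} [Fintype A] [Nonempty A] : prob (fun _ : A => true) = 1 := by
  rw [prob_eq_avg]
  simp only [ind, if_true]
  exact avg_const 1

theorem prob_cst {A : Type*} [Fintype A] [Nonempty A] {M : ℕ} (G : A → Fin M → Bool) {f : BF M}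
    (hf : f ∈ cst (Fin M → Bool)) : prob (fun a => f (G a)) = prob f := by
  rcases hf with hc | hc
  · rw [hc]
    simp [prob]
  · rw [Set.mem_singleton_iff] at hc
    rw [hc, prob_const_true, prob_const_true]

theorem prob_or_le {A : Type*} [Fintype A] (P Q : A → Bool) :
    prob (fun a => P a || Q a) ≤ prob P + prob Q := by
  rw [prob_eq_avg, prob_eq_avg, prob_eq_avg, ← avg_add]
  refine avg_mono fun a => ?_
  cases P a <;> cases Q a <;> simp [ind]

theorem foolsPair_of_mono {A : Type*} [Fintype A] [Nonempty A] {M : ℕ} {ε : ℝ} (hε : 0 ≤ ε)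
    (G : A → Fin M → Bool)
    (h : ∀ C : Circuit M, C.nots = 0 → C.size ≤ M → advantage G C ≤ ε) :
    FoolsPair M (2 * ε) G := by
  have key : ∀ (S : ℕ) (f : BF M), 2 * S + 1 ≤ M → Gets false (bas M) S {f} →
      |prob (fun a => f (G a)) - prob f| ≤ ε := by
    intro S f hS hf
    rcases hf.circuit with hc | ⟨C, h1, h2, h3⟩
    · rw [prob_cst G hc, sub_self, abs_zero]
      exact hε
    · have h4 := h C ((Circuit.mono_iff C).1 h1) (by omega)
      unfold advantage at h4
      simp only [h3] at h4
      exact h4
  intro S P Q hS hP hQ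
  have h1 := (abs_le.1 (key S P hS hP)).2
  have h2 := (abs_le.1 (key S Q hS hQ)).1
  have h3 := prob_or_le (fun a => P (G a)) (fun a => !(Q (G a)))
  have h4 := prob_not (fun a => Q (G a))
  have h5 := prob_not Q
  linarith

theorem foolsPair_of_nots {A : Type*} [Fintype A] [Nonempty A] {M : ℕ} {ε : ℝ} (hε : 0 ≤ ε)
    (G : A → Fin M → Bool)
    (h : ∀ C : Circuit M, C.nots ≤ 1 → C.size ≤ M → advantage G C ≤ ε) :
    FoolsPair M ε G := by
  intro S P Q hS hP hQ
  have h1 : prob (fun a => P (G a) || !(Q (G a))) ≤ prob (fun y => P y || !(Q y)) + ε := by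
    rcases (hP.union hQ).pair_circuit with hc | ⟨C, h1, h2, h3⟩
    · have := prob_cst G hc
      linarith
    · have h4 := h C h1 (by omega)
      unfold advantage at h4
      simp only [h3] at h4
      linarith [(abs_le.1 h4).2]
  have h2 := prob_or_le P (fun y => !(Q y))
  linarith

section

variable {I : Type*} [Fintype I] {n M : ℕ}

/-- The list of the functions `h`, applied to the blocks. -/
noncomputable def blk (pos : I → Fin n → Fin M) (h : BF n) : List (BF M) :=
  (univ : Finset I).toList.map fun i y => h fun j => y (pos i j)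

theorem blk_length (pos : I → Fin n → Fin M) (h : BF n) :
    (blk pos h).length = Fintype.card I := by
  rw [blk, List.length_map, Finset.length_toList, Finset.card_univ]

theorem blk_countP (pos : I → Fin n → Fin M) (h : BF n) (y : Fin M → Bool) :
    (((blk pos h).countP fun f => f y : ℕ) : ℝ) = ∑ i, ind (h fun j => y (pos i j)) := by
  have key : ∀ L : List (BF M), ((L.countP fun f => f y : ℕ) : ℝ) =
      (L.map fun f => ind (f y)).sum := by
    intro L
    induction L with
    | nil => simp
    | cons f L ih =>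
      rw [List.countP_cons, List.map_cons, List.sum_cons, Nat.cast_add, ih]
      cases f y <;> simp [ind, add_comm]
  rw [key, blk, List.map_map]
  exact Finset.sum_map_toList univ _

/-- The cost of a threshold of the blocks. -/
theorem gets_blk (pos : I → Fin n → Fin M) {W : ℕ} {h : BF n} (hh : Gets false (bas n) W {h})
    (c : ℕ) : Gets false (bas M)
      (Fintype.card I * W + Fintype.card I * (Fintype.card I + 1)) {th (blk pos h) c} := by
  have h1 : ∀ i : I, Gets false (bas M) W {fun y => h fun j => y (pos i j)} := by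
    intro i
    have h2 := hh.pull (fun y : Fin M → Bool => fun j => y (pos i j))
    refine h2.weaken ?_ le_rfl ?_
    · rintro _ ⟨f, (⟨j, rfl⟩ | (rfl | hf)), rfl⟩
      · exact inp_mem_bas (pos i j)
      · exact false_mem_bas
      · rw [Set.mem_singleton_iff] at hf
        subst hf
        exact true_mem_bas
    · rw [Set.singleton_subset_iff]
      exact ⟨h, rfl, rfl⟩
  have h3 := Gets.iUnion (neg := false) (B := bas M) W
    (fun i : I => {fun y : Fin M → Bool => h fun j => y (pos i j)}) h1
  have h4 := gets_th (neg := false) (B := bas M ∪ ⋃ i : I, {fun y => h fun j => y (pos i j)})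
    (blk pos h) (fun f hf => by
      simp only [blk, List.mem_map] at hf
      obtain ⟨i, _, rfl⟩ := hf
      exact Or.inr (Set.mem_iUnion.2 ⟨i, rfl⟩)) (Or.inl false_mem_bas) (Or.inl true_mem_bas)
  rw [blk_length] at h4
  refine (h3.trans' h4).weaken subset_rfl le_rfl ?_
  rw [Set.singleton_subset_iff]
  exact ⟨c, rfl⟩

/-- The blocks of a uniform point are independent and uniform. -/
theorem prob_blocks [DecidableEq I] (pos : I → Fin n → Fin M)
    (hpos : Function.Injective fun q : I × Fin n => pos q.1 q.2)
    (G : (I → Fin n → Bool) → Bool) :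
    prob (fun y : Fin M → Bool => G fun i j => y (pos i j)) = prob G := by
  have h1 := prob_marginal (fun q : I × Fin n => pos q.1 q.2) hpos
    (fun w : I × Fin n → Bool => G fun i j => w (i, j))
  rw [h1]
  exact prob_equiv (Equiv.curry I (Fin n) Bool) G

/-- Deviation of a threshold of the blocks from its mean. -/
theorem prob_dev [DecidableEq I] (pos : I → Fin n → Fin M)
    (hpos : Function.Injective fun q : I × Fin n => pos q.1 q.2) (h : BF n) {δ : ℝ} (hδ : 0 < δ)
    (hI : 0 < Fintype.card I) (G : (Fin M → Bool) → Bool)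
    (hG : ∀ y, G y = true → (Fintype.card I : ℝ) * δ ≤
      |(((blk pos h).countP fun f => f y : ℕ) : ℝ) - Fintype.card I * prob h|) :
    prob G ≤ 1 / (4 * (Fintype.card I : ℝ) * δ ^ 2) := by
  classical
  have h1 := cheb (I := I) (X := Fin n → Bool) h hδ hI
    (fun z => decide ((Fintype.card I : ℝ) * δ ≤ |∑ i, (ind (h (z i)) - prob h)|))
    (fun z hz => by simpa using hz)
  refine le_trans ?_ h1
  rw [← prob_blocks pos hpos]
  refine prob_mono fun y hy => ?_
  have h2 := hG y hy
  rw [blk_countP] at h2
  simp only [decide_eq_true_eq]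
  rwa [Finset.sum_sub_distrib, Finset.sum_const, nsmul_eq_mul, Finset.card_univ]

theorem not_all_eq {X : Type*} (L : List (X → Bool)) (y : X) :
    (!(L.all fun f => f y)) = (L.map fun f y => !(f y)).any fun f => f y := by
  induction L with
  | nil => rfl
  | cons f L ih => rw [List.all_cons, Bool.not_and, ih, List.map_cons, List.any_cons]

/-- The blocks of a generator which fools monotone circuits fool all circuits, up to a factor. -/
theorem up_block [DecidableEq I] {A : Type*} [Fintype A] [Nonempty A] {S : ℕ} {κ₀ η : ℝ}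
    (G : A → Fin M → Bool)
    (hG : FoolsPair M κ₀ G) (pos : I → Fin n → Fin M)
    (hpos : Function.Injective fun q : I × Fin n => pos q.1 q.2) (hη : 0 < η)
    (hI : ((n : ℝ) + 1) ^ 3 ≤ Fintype.card I * η ^ 3)
    (hM : 2 * ((n + 1) * (Fintype.card I * wcost n S + Fintype.card I * (Fintype.card I + 1) + 1)) +
      1 ≤ M) :
    Up n S η (κ₀ + 2 * η) (fun (p : A × I) j => G p.1 (pos p.2 j)) := by
  classical
  intro f hf
  obtain ⟨Ak, Bk, hA, hB, hAB⟩ := slices hf
  have hn1 : (0 : ℝ) < (n : ℝ) + 1 := by positivity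
  set t : ℝ := (Fintype.card I : ℝ) with ht
  have htpos : 0 < t := by
    by_contra hcon
    have h0 : t = 0 := le_antisymm (not_lt.1 hcon) (Nat.cast_nonneg _)
    rw [h0, zero_mul] at hI
    have : 0 < ((n : ℝ) + 1) ^ 3 := by positivity
    linarith
  have hIpos : 0 < Fintype.card I := by
    rw [ht] at htpos
    exact_mod_cast htpos
  have : Nonempty I := Fintype.card_pos_iff.1 hIpos
  set δ : ℝ := η / (2 * ((n : ℝ) + 1)) with hδ
  have hδ0 : 0 < δ := by positivity
  have hbound : ((n : ℝ) + 1) * (1 / (4 * t * δ ^ 2)) ≤ η := by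
    have e1 : ((n : ℝ) + 1) * (1 / (4 * t * δ ^ 2)) = ((n : ℝ) + 1) ^ 3 / (t * η ^ 2) := by
      rw [hδ]
      field_simp
      ring
    rw [e1, div_le_iff₀ (by positivity)]
    calc ((n : ℝ) + 1) ^ 3 ≤ t * η ^ 3 := hI
      _ = η * (t * η ^ 2) := by ring
  -- the two tests
  set c : ℕ → ℕ := fun k => ⌈t * (prob (Ak k) + δ)⌉₊ with hc
  set c' : ℕ → ℕ := fun k => ⌈t * (prob (Bk k) - δ)⌉₊ with hc'
  set LP : List (BF M) := (List.range (n + 1)).map fun k => th (blk pos (Ak k)) (c k) with hLP
  set LM : List (BF M) := (List.range (n + 1)).map fun k => th (blk pos (Bk k)) (c' k) with hLM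
  set TP : BF M := fun y => LP.any fun f => f y with hTP
  set TM : BF M := fun y => LM.all fun f => f y with hTM
  have hcost : ∀ (Ck : ℕ → BF n) (d : ℕ → ℕ), (∀ k, Gets false (bas n) (wcost n S) {Ck k}) →
      Gets false (bas M) ((n + 1) * (Fintype.card I * wcost n S +
        Fintype.card I * (Fintype.card I + 1)))
        (bas M ∪ ⋃ k : Fin (n + 1), {th (blk pos (Ck k)) (d k)}) := by
    intro Ck d hC
    have h1 := Gets.iUnion (neg := false) (B := bas M) _
      (fun k : Fin (n + 1) => {th (blk pos (Ck k)) (d k)}) fun k => gets_blk pos (hC k) (d k)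
    rw [Fintype.card_fin] at h1
    have h2 := (Gets.refl false (bas M)).union h1
    rwa [zero_add] at h2
  set S₀ : ℕ := (n + 1) * (Fintype.card I * wcost n S + Fintype.card I * (Fintype.card I + 1) + 1)
    with hS₀
  have hM' : (n + 1) * (Fintype.card I * wcost n S +
        Fintype.card I * (Fintype.card I + 1)) + (n + 1) ≤ S₀ := by
    rw [hS₀]
    refine le_of_eq ?_
    ring
  have hTPg : Gets false (bas M) S₀ {TP} := by
    have h1 := Gets.list LP (fun f hf => by
      rw [hLP, List.mem_map] at hf
      obtain ⟨k, hk, rfl⟩ := hf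
      exact Or.inr (Set.mem_iUnion.2 ⟨⟨k, List.mem_range.1 hk⟩, rfl⟩))
      (Or.inl false_mem_bas) (hcost Ak c hA)
    have h2 : LP.length = n + 1 := by rw [hLP, List.length_map, List.length_range]
    rw [h2] at h1
    exact h1.weaken subset_rfl hM' subset_rfl
  have hTMg : Gets false (bas M) S₀ {TM} := by
    have h1 := Gets.list_and LM (fun f hf => by
      rw [hLM, List.mem_map] at hf
      obtain ⟨k, hk, rfl⟩ := hf
      exact Or.inr (Set.mem_iUnion.2 ⟨⟨k, List.mem_range.1 hk⟩, rfl⟩))
      (Or.inl true_mem_bas) (hcost Bk c' hB)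
    have h2 : LM.length = n + 1 := by rw [hLM, List.length_map, List.length_range]
    rw [h2] at h1
    exact h1.weaken subset_rfl hM' subset_rfl
  -- their probabilities
  have hsumc : ∀ L : List (BF M), L.length = n + 1 →
      (∀ g ∈ L, prob g ≤ 1 / (4 * t * δ ^ 2)) → (L.map prob).sum ≤ η := by
    intro L hL hg
    refine le_trans (List.sum_le_card_nsmul (L.map prob) (1 / (4 * t * δ ^ 2)) ?_) ?_
    · intro x hx
      rw [List.mem_map] at hx
      obtain ⟨g, hg', rfl⟩ := hx
      exact hg g hg'
    · rw [List.length_map, hL, nsmul_eq_mul]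
      push_cast
      exact hbound
  have hPTP : prob TP ≤ η := by
    refine (prob_any_le LP).trans (hsumc LP ?_ ?_)
    · rw [hLP, List.length_map, List.length_range]
    · intro g hg
      rw [hLP, List.mem_map] at hg
      obtain ⟨k, _, rfl⟩ := hg
      refine prob_dev pos hpos (Ak k) hδ0 hIpos _ fun y hy => ?_
      simp only [th, decide_eq_true_eq] at hy
      have h1 : t * (prob (Ak k) + δ) ≤ (((blk pos (Ak k)).countP fun f => f y : ℕ) : ℝ) :=
        (Nat.le_ceil _).trans (by exact_mod_cast hy)
      refine le_trans ?_ (le_abs_self _)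
      linarith
  have hPTM : prob (fun y => !(TM y)) ≤ η := by
    have h0 : (fun y => !(TM y)) = fun y => (LM.map fun f y => !(f y)).any fun f => f y := by
      funext y
      exact not_all_eq LM y
    rw [h0]
    refine (prob_any_le _).trans (hsumc _ ?_ ?_)
    · rw [List.length_map, hLM, List.length_map, List.length_range]
    · intro g hg
      rw [List.mem_map] at hg
      obtain ⟨g', hg', rfl⟩ := hg
      rw [hLM, List.mem_map] at hg'
      obtain ⟨k, _, rfl⟩ := hg'
      refine prob_dev pos hpos (Bk k) hδ0 hIpos _ fun y hy => ?_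
      simp only [th, Bool.not_eq_true', decide_eq_false_iff_not, not_le] at hy
      have h1 : (((blk pos (Bk k)).countP fun f => f y : ℕ) : ℝ) < t * (prob (Bk k) - δ) :=
        Nat.lt_ceil.1 hy
      refine le_trans ?_ (neg_le_abs _)
      linarith
  -- the bad seeds
  set bad : A → Bool := fun a => TP (G a) || !(TM (G a)) with hbad
  have hPbad : prob bad ≤ κ₀ + 2 * η := by
    have h1 := hG S₀ TP TM hM hTPg hTMg
    linarith
  set p : ℝ := prob f with hp
  have hp1 : p ≤ 1 := prob_le_one f
  have hpsum : ∑ k ∈ range (n + 1), (prob (Ak k) - prob (Bk k)) = p := by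
    have h1 : p = avg fun x => ∑ k ∈ range (n + 1), (ind (Ak k x) - ind (Bk k x)) := by
      rw [hp, prob_eq_avg]
      congr 1
      funext x
      exact (hAB x).symm
    rw [h1, avg_sum]
    refine Finset.sum_congr rfl fun k _ => ?_
    rw [avg_sub, ← prob_eq_avg, ← prob_eq_avg]
  -- good seeds
  have hgood : ∀ a, bad a = false →
      avg (fun i : I => ind (f fun j => G a (pos i j))) ≤ p + η := by
    intro a ha
    simp only [hbad, Bool.or_eq_false_iff, Bool.not_eq_false'] at ha
    obtain ⟨h1, h2⟩ := ha
    rw [avg, div_le_iff₀ htpos]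
    have e1 : ∑ i : I, ind (f fun j => G a (pos i j)) = ∑ k ∈ range (n + 1),
        ((∑ i : I, ind (Ak k fun j => G a (pos i j))) -
          (∑ i : I, ind (Bk k fun j => G a (pos i j)))) := by
      have e2 : ∀ i : I, ind (f fun j => G a (pos i j)) = ∑ k ∈ range (n + 1),
          (ind (Ak k fun j => G a (pos i j)) - ind (Bk k fun j => G a (pos i j))) := fun i =>
        (hAB _).symm
      rw [Finset.sum_congr rfl fun i _ => e2 i, Finset.sum_comm]
      refine Finset.sum_congr rfl fun k _ => ?_
      rw [Finset.sum_sub_distrib]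
    rw [e1]
    have e3 : ∀ k ∈ range (n + 1), ((∑ i : I, ind (Ak k fun j => G a (pos i j))) -
          (∑ i : I, ind (Bk k fun j => G a (pos i j)))) ≤
        t * (prob (Ak k) - prob (Bk k)) + 2 * t * δ := by
      intro k hk
      rw [← blk_countP, ← blk_countP]
      have g1 : ((blk pos (Ak k)).countP fun f => f (G a)) < c k := by
        have : th (blk pos (Ak k)) (c k) (G a) = false := by
          by_contra hcon
          rw [Bool.not_eq_false] at hcon
          have : TP (G a) = true := by
            simp only [hTP]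
            rw [List.any_eq_true]
            exact ⟨_, List.mem_map.2 ⟨k, List.mem_range.2 (Finset.mem_range.1 hk), rfl⟩, hcon⟩
          rw [this] at h1
          exact absurd h1 (by simp)
        simpa [th] using this
      have g2 : c' k ≤ ((blk pos (Bk k)).countP fun f => f (G a)) := by
        simp only [hTM] at h2
        rw [List.all_eq_true] at h2
        have := h2 _ (List.mem_map.2 ⟨k, List.mem_range.2 (Finset.mem_range.1 hk), rfl⟩)
        simpa [th] using this
      have g3 : (((blk pos (Ak k)).countP fun f => f (G a) : ℕ) : ℝ) < t * (prob (Ak k) + δ) :=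
        Nat.lt_ceil.1 g1
      have g4 : t * (prob (Bk k) - δ) ≤ (((blk pos (Bk k)).countP fun f => f (G a) : ℕ) : ℝ) :=
        (Nat.le_ceil _).trans (by exact_mod_cast g2)
      linarith
    refine (Finset.sum_le_sum e3).trans (le_of_eq ?_)
    rw [Finset.sum_add_distrib, ← Finset.mul_sum, hpsum, Finset.sum_const, Finset.card_range,
      nsmul_eq_mul, hδ]
    push_cast
    field_simp
  have hall : ∀ a, avg (fun i : I => ind (f fun j => G a (pos i j))) ≤
      ind (bad a) + (1 - ind (bad a)) * (p + η) := by
    intro a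
    cases hb : bad a
    · simpa [ind] using hgood a hb
    · simp only [ind, if_true]
      refine (avg_mono (g := fun _ => (1 : ℝ)) fun i => ?_).trans ?_
      · exact ind_le_one _
      · rw [avg_const]; simp
  rw [prob_eq_avg, avg_prod fun a i => ind (f fun j => G a (pos i j))]
  refine (avg_mono hall).trans ?_
  have e4 : (fun a => ind (bad a) + (1 - ind (bad a)) * (p + η)) =
      fun a => (1 - (p + η)) * ind (bad a) + (p + η) := by
    funext a; ring
  rw [e4, avg_add, avg_mul_left, avg_const, ← prob_eq_avg]
  have hb0 := prob_nonneg bad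
  have h5 : 0 ≤ 1 - p := by linarith
  have h6 : prob bad * (1 - p) ≤ (κ₀ + 2 * η) * (1 - p) :=
    mul_le_mul_of_nonneg_right hPbad h5
  nlinarith

end

end Pool.Agent.MP_ca1109_lc
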