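import Pool.Agent.Lib.helper66.Iterate
import Mathlib

/-!
# Polynomial-time ingredients of the amplification
-/

namespace Pool.Agent.MP_ca1109_lc

open Pool.Agent.H66

/-! ## The binary logarithm -/

/-- One step of the computation of `Nat.clog 2 n`. -/
def clogStep (p : ℕ × (ℕ × ℕ)) : ℕ × (ℕ × ℕ) :=
  if decide (p.1 ≤ p.2.1) then p else (p.1, (2 * p.2.1, p.2.2 + 1))

theorem clogStep_iterate (n i : ℕ) :
    clogStep^[i] (n, (1, 0)) = (n, (2 ^ min i (Nat.clog 2 n), min i (Nat.clog 2 n))) := by
  induction i with
  | zero => simp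
  | succ i ih =>
    rw [Function.iterate_succ_apply', ih]
    unfold clogStep
    by_cases h : Nat.clog 2 n ≤ i
    · have h1 : n ≤ 2 ^ min i (Nat.clog 2 n) := by
        rw [← Nat.clog_le_iff_le_pow one_lt_two]
        omega
      rw [if_pos (by simpa using h1)]
      rw [min_eq_right h, min_eq_right (by omega)]
    · have h0 : min i (Nat.clog 2 n) = i := by omega
      have h1 : ¬ n ≤ 2 ^ min i (Nat.clog 2 n) := by
        rw [← Nat.clog_le_iff_le_pow one_lt_two]
        omega
      rw [if_neg (by simpa using h1), h0, min_eq_left (by omega : i + 1 ≤ Nat.clog 2 n)]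
      simp only [pow_succ, mul_comm]

theorem two_pow_clog_le (n : ℕ) (hn : 1 ≤ n) : 2 ^ Nat.clog 2 n ≤ 2 * n := by
  rcases hn.lt_or_eq with h | h
  · have h1 := Nat.pow_pred_clog_lt_self one_lt_two h
    have h2 : 1 ≤ Nat.clog 2 n := by
      by_contra hcon
      have h3 : Nat.clog 2 n ≤ 0 := by omega
      rw [Nat.clog_le_iff_le_pow one_lt_two] at h3
      simp at h3
      omega
    have h3 : Nat.clog 2 n = (Nat.clog 2 n).pred + 1 := by
      rw [Nat.pred_eq_sub_one]; omega
    rw [h3, pow_succ]
    omega
  · subst h
    simp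

theorem two_pow_min_clog_le (n i : ℕ) : 2 ^ min i (Nat.clog 2 n) ≤ 2 * n + 1 := by
  rcases Nat.eq_zero_or_pos n with h | h
  · subst h
    simp
  · calc 2 ^ min i (Nat.clog 2 n) ≤ 2 ^ Nat.clog 2 n :=
        Nat.pow_le_pow_right (by norm_num) (min_le_right _ _)
      _ ≤ 2 * n := two_pow_clog_le n h
      _ ≤ 2 * n + 1 := by omega

theorem clog_le_self (n : ℕ) : Nat.clog 2 n ≤ n := by
  rw [Nat.clog_le_iff_le_pow one_lt_two]
  exact Nat.lt_two_pow_self.le

theorem polyTime_clogStep : PolyTime clogStep := by
  unfold clogStep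
  refine PolyTime.ite ?_ PolyTime.id ?_
  · exact PolyTime.leb PolyTime.fst (PolyTime.fst.comp PolyTime.snd)
  · refine PolyTime.fst.pair ?_
    refine (PolyTime.mul (PolyTime.const 2) (PolyTime.fst.comp PolyTime.snd)).pair ?_
    exact PolyTime.succ.comp (PolyTime.snd.comp PolyTime.snd)

theorem polyTime_clog : PolyTime fun n : ℕ => Nat.clog 2 n := by
  have h := PolyTime.iterate (α := ℕ) (n := fun n => n) (ini := fun n => (n, ((1 : ℕ), (0 : ℕ))))
    PolyTime.id (PolyTime.id.pair (PolyTime.const (1, 0))) polyTime_clogStep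
    (fun k => 10 * k + 10) (((PB.const 10).mul PB.id).add (PB.const 10)) (fun n i hi => by
      have h1 := two_pow_min_clog_le n i
      have h2 : min i (Nat.clog 2 n) ≤ n := (min_le_right _ _).trans (clog_le_self n)
      rw [clogStep_iterate, enc_pair, enc_pair]
      simp only [List.length_cons, List.length_append, enc_nat_length]
      omega)
  refine (PolyTime.snd.comp (PolyTime.snd.comp h)).of_eq fun n => ?_
  rw [clogStep_iterate, min_eq_right (clog_le_self n)]

/-! ## Segments of a list -/

/-- The segment of length `b` starting at `a`. -/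
def seg (a b : ℕ) (s : List Bool) : List Bool := (List.range b).map fun i => s.getD (a + i) false

theorem seg_length (a b : ℕ) (s : List Bool) : (seg a b s).length = b := by
  simp [seg]

theorem polyTime_seg {γ : Type} [Enc γ] {a b : γ → ℕ} {s : γ → List Bool} (ha : PolyTime a)
    (hb : PolyTime b) (hs : PolyTime s) : PolyTime fun c => seg (a c) (b c) (s c) := by
  unfold seg
  refine PolyTime.map (f := fun c i => (s c).getD (a c + i) false) (PolyTime.range hb) ?_
  exact PolyTime.getD (PolyTime.add (ha.comp PolyTime.fst) PolyTime.snd) (hs.comp PolyTime.fst) false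

theorem seg_ofFn {k : ℕ} (w : Fin k → Bool) : seg 0 k (List.ofFn w) = List.ofFn w := by
  refine List.ext_getElem (by simp [seg]) fun i h1 h2 => ?_
  simp [seg, List.getD_eq_getElem?_getD]
  rw [seg_length] at h1
  rw [dif_pos h1]
  rfl

theorem seg_append_left {l l' : List Bool} {k : ℕ} (h : k ≤ l.length) :
    seg 0 k (l ++ l') = seg 0 k l := by
  refine List.map_congr_left fun i hi => ?_
  rw [List.mem_range] at hi
  exact List.getD_append _ _ _ _ (by omega)

theorem seg_append_right (l l' : List Bool) (a b : ℕ) :
    seg (l.length + a) b (l ++ l') = seg a b l' := by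
  refine List.map_congr_left fun i _ => ?_
  rw [List.getD_append_right _ _ _ _ (by omega)]
  congr 1
  omega

/-! ## The number written in binary, with a cap -/

/-- One step of the evaluation. -/
def capStep (M a : ℕ) (b : Bool) : ℕ :=
  if decide (2 * a + (if b then 1 else 0) ≤ M) then 2 * a + (if b then 1 else 0) else M

/-- The value of a list of bits, most significant bit first, with the cap `M`. -/
def cval (M : ℕ) (l : List Bool) : ℕ := l.foldl (capStep M) 0

/-- The value of a list of bits. -/
def bval : List Bool → ℕ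
  | [] => 0
  | b :: l => (if b then 1 else 0) * 2 ^ l.length + bval l

theorem bval_lt : ∀ l : List Bool, bval l < 2 ^ l.length
  | [] => by simp [bval]
  | b :: l => by
    have := bval_lt l
    rw [bval, List.length_cons, pow_succ]
    split_ifs <;> omega

theorem bval_inj : ∀ l l' : List Bool, l.length = l'.length → bval l = bval l' → l = l'
  | [], [], _, _ => rfl
  | b :: l, b' :: l', h, h' => by
    have h1 : l.length = l'.length := by simpa using h
    have h2 := bval_lt l
    have h3 := bval_lt l'
    rw [bval, bval, h1] at h'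
    rw [h1] at h2
    have h4 : b = b' := by
      cases b <;> cases b' <;> simp at h' ⊢ <;> omega
    subst h4
    have h5 : bval l = bval l' := by omega
    rw [bval_inj l l' h1 h5]
  | [], _ :: _, h, _ => by simp at h
  | _ :: _, [], h, _ => by simp at h

theorem capStep_le (M a : ℕ) (b : Bool) : capStep M a b ≤ M := by
  unfold capStep
  by_cases h : 2 * a + (if b then 1 else 0) ≤ M
  · rw [if_pos (decide_eq_true h)]
    exact h
  · rw [if_neg (by rw [decide_eq_true_eq]; exact h)]

theorem foldl_capStep (M : ℕ) : ∀ (l : List Bool) (a : ℕ), (a + 1) * 2 ^ l.length ≤ M + 1 →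
    l.foldl (capStep M) a = a * 2 ^ l.length + bval l
  | [], a, _ => by simp [bval]
  | b :: l, a, h => by
    rw [List.length_cons, pow_succ] at h
    have h0 : 0 < 2 ^ l.length := by positivity
    have h1 : 2 * a + 2 ≤ M + 1 := by
      calc 2 * a + 2 ≤ (2 * a + 2) * 2 ^ l.length := Nat.le_mul_of_pos_right _ h0
        _ = (a + 1) * (2 ^ l.length * 2) := by ring
        _ ≤ M + 1 := h
    have h2 : capStep M a b = 2 * a + (if b then 1 else 0) := by
      unfold capStep
      rw [if_pos]
      rw [decide_eq_true_eq]
      split_ifs <;> omega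
    rw [List.foldl_cons, h2, foldl_capStep M l, bval, List.length_cons, pow_succ]
    · ring
    · refine le_trans ?_ h
      rw [show (a + 1) * (2 ^ l.length * 2) = (2 * a + 1 + 1) * 2 ^ l.length by ring]
      refine Nat.mul_le_mul_right _ ?_
      split_ifs <;> omega

theorem cval_eq (M : ℕ) (l : List Bool) (h : 2 ^ l.length ≤ M + 1) : cval M l = bval l := by
  rw [cval, foldl_capStep M l 0 (by simpa using h)]
  simp

theorem polyTime_cval {γ : Type} [Enc γ] {M : γ → ℕ} {l : γ → List Bool} (hM : PolyTime M)
    (hl : PolyTime l) : PolyTime fun c => cval (M c) (l c) := by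
  obtain ⟨s1, hs1, hs1'⟩ := hM.size
  unfold cval
  refine PolyTime.foldl (f := fun c a b => capStep (M c) a b) hl (PolyTime.const 0) ?_
    (fun k => s1 k + 1) (hs1.add (PB.const 1)) ?_
  · unfold capStep
    have h1 : PolyTime fun p : γ × (ℕ × Bool) => 2 * p.2.1 + (if p.2.2 then 1 else 0) := by
      refine PolyTime.add (PolyTime.mul (PolyTime.const 2) (PolyTime.fst.comp PolyTime.snd)) ?_
      exact PolyTime.ite (PolyTime.snd.comp PolyTime.snd) (PolyTime.const 1) (PolyTime.const 0)
    exact PolyTime.ite (PolyTime.leb h1 (hM.comp PolyTime.fst)) h1 (hM.comp PolyTime.fst)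
  · intro c i
    have h1 := hs1' c
    rw [enc_nat_length] at h1 ⊢
    have h2 : ∀ (L : List Bool) (a : ℕ), a ≤ M c → L.foldl (capStep (M c)) a ≤ M c := by
      intro L
      induction L with
      | nil => intro a ha; exact ha
      | cons b L ih => intro a _; exact ih _ (capStep_le _ _ _)
    have h3 := h2 ((l c).take i) 0 (Nat.zero_le _)
    have h4 : List.foldl (fun a b => capStep (M c) a b) 0 (List.take i (l c)) ≤ M c := h3
    omega

end Pool.Agent.MP_ca1109_lc
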