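import Pool.Agent.MP_ca1109_lc.MonoXor
import Pool.Agent.MP_ca1109_lc.MonoPoly

/-!
# The uniform amplification step
-/

namespace Pool.Agent.MP_ca1109_lc

open Pool.Agent.H66 Finset

/-- The first `m` entries of a list of bits. -/
def bits (m : ℕ) (l : List Bool) : Fin m → Bool := fun i => l.getD i false

/-- The exclusive or of `H` and a random block of `G`. -/
def hyb (D d : ℕ → ℕ) (H G : ℕ → List Bool → List Bool) (e n : ℕ) (s : List Bool) : List Bool :=
  (List.range n).map fun j => xor ((H n (seg 0 (D n) s)).getD j false)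
    ((G (n ^ e) (seg (D n) (d (n ^ e)) s)).getD
      (cval (n ^ e) (seg (D n + d (n ^ e)) (4 * Nat.clog 2 n) s) * n + j) false)

theorem polyTime_xor {γ : Type} [Enc γ] {p q : γ → Bool} (hp : PolyTime p) (hq : PolyTime q) :
    PolyTime fun c => xor (p c) (q c) :=
  (hp.ite (PolyTime.not hq) hq).of_eq fun c => by cases p c <;> cases q c <;> rfl

theorem polyTime_pow (e : ℕ) {γ : Type} [Enc γ] {n : γ → ℕ} (hn : PolyTime n) :
    PolyTime fun c => n c ^ e :=
  (PolyTime.polyEval (Polynomial.X ^ e) hn).of_eq fun c => by simp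

theorem polyTime_hyb {D d : ℕ → ℕ} {H G : ℕ → List Bool → List Bool} (hD : PolyTime D)
    (hd : PolyTime d) (hH : PolyTime fun p : ℕ × List Bool => H p.1 p.2)
    (hG : PolyTime fun p : ℕ × List Bool => G p.1 p.2) (e : ℕ) :
    PolyTime fun p : ℕ × List Bool => hyb D d H G e p.1 p.2 := by
  unfold hyb
  have hn : PolyTime fun p : (ℕ × List Bool) × ℕ => p.1.1 := PolyTime.fst.comp PolyTime.fst
  have hs : PolyTime fun p : (ℕ × List Bool) × ℕ => p.1.2 := PolyTime.snd.comp PolyTime.fst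
  have hj : PolyTime fun p : (ℕ × List Bool) × ℕ => p.2 := PolyTime.snd
  have hM : PolyTime fun p : (ℕ × List Bool) × ℕ => p.1.1 ^ e := polyTime_pow e hn
  have hDn : PolyTime fun p : (ℕ × List Bool) × ℕ => D p.1.1 := hD.comp hn
  have hdM : PolyTime fun p : (ℕ × List Bool) × ℕ => d (p.1.1 ^ e) := hd.comp hM
  refine PolyTime.map (f := fun (p : ℕ × List Bool) j =>
    xor ((H p.1 (seg 0 (D p.1) p.2)).getD j false)
    ((G (p.1 ^ e) (seg (D p.1) (d (p.1 ^ e)) p.2)).getD
      (cval (p.1 ^ e) (seg (D p.1 + d (p.1 ^ e)) (4 * Nat.clog 2 p.1) p.2) * p.1 + j) false))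
    (PolyTime.range PolyTime.fst) ?_
  refine polyTime_xor ?_ ?_
  · refine PolyTime.getD hj ?_ false
    exact hH.comp (hn.pair (polyTime_seg (PolyTime.const 0) hDn hs))
  · refine PolyTime.getD ?_ ?_ false
    · refine PolyTime.add (PolyTime.mul ?_ hn) hj
      refine polyTime_cval hM (polyTime_seg (PolyTime.add hDn hdM) ?_ hs)
      exact PolyTime.mul (PolyTime.const 4) (polyTime_clog.comp hn)
    · exact hG.comp (hM.pair (polyTime_seg hDn hdM hs))

theorem segs {a b c : ℕ} (u : Fin a → Bool) (v : Fin b → Bool) (w : Fin c → Bool) :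
    seg 0 a (List.ofFn (Fin.append u (Fin.append v w))) = List.ofFn u ∧
    seg a b (List.ofFn (Fin.append u (Fin.append v w))) = List.ofFn v ∧
    seg (a + b) c (List.ofFn (Fin.append u (Fin.append v w))) = List.ofFn w := by
  rw [List.ofFn_fin_append, List.ofFn_fin_append]
  refine ⟨?_, ?_, ?_⟩
  · rw [seg_append_left (by simp), seg_ofFn]
  · have h := seg_append_right (List.ofFn u) (List.ofFn v ++ List.ofFn w) 0 b
    rw [List.length_ofFn, Nat.add_zero] at h
    rw [h, seg_append_left (by simp), seg_ofFn]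
  · have h := seg_append_right (List.ofFn u) (List.ofFn v ++ List.ofFn w) b c
    have h' := seg_append_right (List.ofFn v) (List.ofFn w) 0 c
    rw [List.length_ofFn] at h
    rw [List.length_ofFn, Nat.add_zero] at h'
    rw [h, h', seg_ofFn]

/-- The bound on the size of the circuits. -/
theorem size_bound (n f t : ℕ) (hn : 2000 ≤ n) (ht : t ≤ 16 * n ^ 4) :
    2 * ((n + 1) * (t * wcost n (n ^ f * n + n ^ f * (n ^ f + 1)) + t * (t + 1) + 1)) + 1 ≤
      n ^ (2 * f + 10) := by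
  have hn1 : 1 ≤ n := by omega
  set x := n ^ (2 * f + 3) with hx
  have hp : ∀ a b : ℕ, a ≤ b → n ^ a ≤ n ^ b := fun a b hab => Nat.pow_le_pow_right hn1 hab
  have hS : n ^ f * n + n ^ f * (n ^ f + 1) ≤ 3 * x := by
    have e1 : n ^ f * n = n ^ (f + 1) := (pow_succ n f).symm
    have e2 : n ^ f * (n ^ f + 1) = n ^ (2 * f) + n ^ f := by ring
    rw [e1, e2]
    have := hp (f + 1) (2 * f + 3) (by omega)
    have := hp (2 * f) (2 * f + 3) (by omega)
    have := hp f (2 * f + 3) (by omega)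
    omega
  have hW : wcost n (n ^ f * n + n ^ f * (n ^ f + 1)) ≤ 12 * x := by
    unfold wcost
    have e1 : n * (n * (n + 1)) = n ^ 3 + n ^ 2 := by ring
    have e2 : n * (n + 1) = n ^ 2 + n ^ 1 := by ring
    rw [e1, e2]
    have := hp 3 (2 * f + 3) (by omega)
    have := hp 2 (2 * f + 3) (by omega)
    have := hp 1 (2 * f + 3) (by omega)
    have := hp 0 (2 * f + 3) (by omega)
    rw [pow_zero] at this
    omega
  have h1 : t * wcost n (n ^ f * n + n ^ f * (n ^ f + 1)) ≤ 192 * n ^ (2 * f + 8) := by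
    calc t * wcost n (n ^ f * n + n ^ f * (n ^ f + 1)) ≤ (16 * n ^ 4) * (12 * x) :=
          Nat.mul_le_mul ht hW
      _ = 192 * n ^ (2 * f + 7) := by rw [hx]; ring
      _ ≤ 192 * n ^ (2 * f + 8) := Nat.mul_le_mul_left _ (hp _ _ (by omega))
  have h2 : t * (t + 1) ≤ 272 * n ^ (2 * f + 8) := by
    calc t * (t + 1) ≤ (16 * n ^ 4) * (17 * n ^ 4) := by
          refine Nat.mul_le_mul ht ?_
          have := hp 0 4 (by omega)
          rw [pow_zero] at this
          omega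
      _ = 272 * n ^ 8 := by ring
      _ ≤ 272 * n ^ (2 * f + 8) := Nat.mul_le_mul_left _ (hp _ _ (by omega))
  have h3 : 1 ≤ n ^ (2 * f + 8) := by
    have := hp 0 (2 * f + 8) (by omega)
    rwa [pow_zero] at this
  have h4 : (n + 1) * (t * wcost n (n ^ f * n + n ^ f * (n ^ f + 1)) + t * (t + 1) + 1) ≤
      930 * n ^ (2 * f + 9) := by
    calc (n + 1) * (t * wcost n (n ^ f * n + n ^ f * (n ^ f + 1)) + t * (t + 1) + 1)
        ≤ (2 * n) * (465 * n ^ (2 * f + 8)) := Nat.mul_le_mul (by omega) (by omega)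
      _ = 930 * n ^ (2 * f + 9) := by ring
  have h5 : 1 ≤ n ^ (2 * f + 9) := by
    have := hp 0 (2 * f + 9) (by omega)
    rwa [pow_zero] at this
  have h6 : 2000 * n ^ (2 * f + 9) ≤ n ^ (2 * f + 10) := by
    calc 2000 * n ^ (2 * f + 9) ≤ n * n ^ (2 * f + 9) := Nat.mul_le_mul_right _ hn
      _ = n ^ (2 * f + 10) := by ring
  omega

theorem pow_le_of_logb {d n k : ℕ} (hn : 1 ≤ n) (h : (d : ℝ) ≤ k * Real.logb 2 n) :
    2 ^ d ≤ n ^ k := by
  have h1 : ((2 ^ d : ℕ) : ℝ) ≤ ((n ^ k : ℕ) : ℝ) := by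
    push_cast
    have hn0 : (0 : ℝ) < n := by exact_mod_cast hn
    calc (2 : ℝ) ^ d = (2 : ℝ) ^ (d : ℝ) := (Real.rpow_natCast _ _).symm
      _ ≤ (2 : ℝ) ^ (Real.logb 2 n * k) := by
          refine Real.rpow_le_rpow_of_exponent_le (by norm_num) ?_
          rw [mul_comm]
          exact h
      _ = (n : ℝ) ^ k := by
          rw [Real.rpow_mul (by norm_num), Real.rpow_logb (by norm_num) (by norm_num) hn0,
            Real.rpow_natCast]
  exact_mod_cast h1

/-- A uniform family of generators with logarithmic seeds and the bounds `θ`, `κ`. -/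
def UFam (θ κ : ℝ) : Prop :=
  ∃ (D : ℕ → ℕ) (H : ℕ → List Bool → List Bool), PolyTime D ∧
    PolyTime (fun p : ℕ × List Bool => H p.1 p.2) ∧ (∀ n s, (H n s).length = n) ∧
    ∃ f : ℕ, ∀ᶠ n : ℕ in Filter.atTop, 2 ^ D n ≤ n ^ f ∧
      Up n n θ κ (fun s : Fin (D n) → Bool => bits n (H n (List.ofFn s)))

theorem Up.equiv {A B : Type*} [Fintype A] [Fintype B] {n S : ℕ} {θ κ : ℝ} (e : B ≃ A)
    {H : A → Fin n → Bool} (h : Up n S θ κ (fun b => H (e b))) : Up n S θ κ H := by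
  intro f hf
  have h1 := h f hf
  have h2 := prob_equiv e (fun a => f (H a))
  rwa [h2] at h1

theorem UFam.step {κ₀ η θ κ : ℝ} (hκ₀ : 0 ≤ κ₀) (hη : 0 < η) (hU : UFam θ κ) {d : ℕ → ℕ}
    {G : ℕ → List Bool → List Bool} (hd : PolyTime d)
    (hG : PolyTime fun p : ℕ × List Bool => G p.1 p.2) {c : ℝ}
    (hc : ∀ᶠ m : ℕ in Filter.atTop, (d m : ℝ) ≤ c * Real.logb 2 m ∧
      FoolsPair m κ₀ (fun s : Fin (d m) → Bool => bits m (G m (List.ofFn s)))) :
    UFam (η + (κ₀ + 2 * η) * θ) ((κ₀ + 2 * η) * κ) := by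
  obtain ⟨D, H, hD, hH, hlen, f, hf⟩ := hU
  set e : ℕ := 2 * f + 10 with he
  set k : ℕ := ⌈c⌉₊ * e with hk
  refine ⟨fun n => D n + (d (n ^ e) + 4 * Nat.clog 2 n), hyb D d H G e, ?_,
    polyTime_hyb hD hd hH hG e, fun n s => by simp [hyb], f + (k + 5), ?_⟩
  · exact PolyTime.add hD (PolyTime.add (hd.comp (polyTime_pow e PolyTime.id))
      (PolyTime.mul (PolyTime.const 4) polyTime_clog))
  have htend : Filter.Tendsto (fun n : ℕ => n ^ e) Filter.atTop Filter.atTop :=
    Filter.tendsto_pow_atTop (by omega)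
  have hlarge : ∀ᶠ n : ℕ in Filter.atTop, 8 / η ^ 3 ≤ (n : ℝ) :=
    tendsto_natCast_atTop_atTop.eventually (Filter.eventually_ge_atTop _)
  filter_upwards [hf, htend.eventually hc, hlarge, Filter.eventually_ge_atTop 2000] with n hf1 hc1
    hη1 hn
  obtain ⟨hf1, hf2⟩ := hf1
  obtain ⟨hc1, hc2⟩ := hc1
  set M : ℕ := n ^ e with hM
  set τ : ℕ := 4 * Nat.clog 2 n with hτ
  have hn1 : 1 ≤ n := by omega
  have ht1 : 2 ^ τ ≤ 16 * n ^ 4 := by
    rw [hτ, mul_comm, pow_mul]
    calc (2 ^ Nat.clog 2 n) ^ 4 ≤ (2 * n) ^ 4 := Nat.pow_le_pow_left (two_pow_clog_le n hn1) 4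
      _ = 16 * n ^ 4 := by ring
  have ht2 : n ^ 4 ≤ 2 ^ τ := by
    rw [hτ, mul_comm 4, pow_mul]
    exact Nat.pow_le_pow_left (Nat.le_pow_clog one_lt_two n) 4
  have hMbig : 16 * n ^ 5 ≤ M := by
    calc 16 * n ^ 5 ≤ n * n ^ 5 := Nat.mul_le_mul_right _ (by omega)
      _ = n ^ 6 := by ring
      _ ≤ n ^ e := Nat.pow_le_pow_right hn1 (by omega)
  have hτM : 2 ^ τ ≤ M := by
    refine ht1.trans (le_trans ?_ hMbig)
    exact Nat.mul_le_mul_left _ (Nat.pow_le_pow_right hn1 (by omega))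
  constructor
  · have hexp : n ^ (f + (k + 5)) = n ^ f * (n ^ k * n ^ 5) := by rw [pow_add, pow_add]
    have hexp' : 2 ^ (D n + (d M + τ)) = 2 ^ D n * (2 ^ d M * 2 ^ τ) := by rw [pow_add, pow_add]
    show 2 ^ (D n + (d M + τ)) ≤ n ^ (f + (k + 5))
    rw [hexp, hexp']
    refine Nat.mul_le_mul hf1 (Nat.mul_le_mul ?_ ?_)
    · refine pow_le_of_logb hn1 ?_
      refine hc1.trans ?_
      have hlog : Real.logb 2 ((M : ℕ) : ℝ) = e * Real.logb 2 n := by
        rw [hM]
        push_cast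
        rw [Real.logb_pow]
      have hl0 : 0 ≤ Real.logb 2 n := Real.logb_nonneg (by norm_num) (by exact_mod_cast hn1)
      rw [hlog, hk]
      push_cast
      have hcc : c ≤ (⌈c⌉₊ : ℝ) := Nat.le_ceil c
      have : 0 ≤ (e : ℝ) * Real.logb 2 n := by positivity
      nlinarith
    · calc 2 ^ τ ≤ 16 * n ^ 4 := ht1
        _ ≤ n * n ^ 4 := Nat.mul_le_mul_right _ (by omega)
        _ = n ^ 5 := by ring
  -- the blocks
  have hpos0 : ∀ (w : Fin τ → Bool) (j : Fin n), bval (List.ofFn w) * n + j < M := by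
    intro w j
    have h1 := bval_lt (List.ofFn w)
    rw [List.length_ofFn] at h1
    calc bval (List.ofFn w) * n + j < bval (List.ofFn w) * n + n := by have := j.2; omega
      _ = (bval (List.ofFn w) + 1) * n := by ring
      _ ≤ (16 * n ^ 4) * n := Nat.mul_le_mul_right _ (by omega)
      _ = 16 * n ^ 5 := by ring
      _ ≤ M := hMbig
  let pos : (Fin τ → Bool) → Fin n → Fin M := fun w j => ⟨bval (List.ofFn w) * n + j, hpos0 w j⟩
  have hpos : Function.Injective fun q : (Fin τ → Bool) × Fin n => pos q.1 q.2 := by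
    rintro ⟨w, j⟩ ⟨w', j'⟩ h
    have h1 : bval (List.ofFn w) * n + j = bval (List.ofFn w') * n + j' := congrArg Fin.val h
    have hj := j.2
    have hj' := j'.2
    have h2 : (j : ℕ) = j' := by
      have := congrArg (fun x => x % n) h1
      simpa only [Nat.mul_add_mod', Nat.mod_eq_of_lt hj, Nat.mod_eq_of_lt hj'] using this
    have h3 : bval (List.ofFn w) = bval (List.ofFn w') := by
      rw [h2] at h1
      exact Nat.eq_of_mul_eq_mul_right (by omega) (by omega : bval (List.ofFn w) * n = bval (List.ofFn w') * n)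
    have h4 := bval_inj _ _ (by simp) h3
    rw [List.ofFn_inj] at h4
    rw [h4, Fin.ext h2]
  have hcardI : Fintype.card (Fin τ → Bool) = 2 ^ τ := by simp
  have hcardA : Fintype.card (Fin (D n) → Bool) = 2 ^ D n := by simp
  have hblk := up_block (S := n ^ f * n + n ^ f * (n ^ f + 1)) _ hc2 pos hpos hη (by
      rw [hcardI]
      have h1 : (n : ℝ) ^ 4 ≤ ((2 ^ τ : ℕ) : ℝ) := by exact_mod_cast ht2
      have h2 : (1 : ℝ) ≤ n := by exact_mod_cast hn1
      have h3 : ((n : ℝ) + 1) ^ 3 ≤ 8 * (n : ℝ) ^ 3 := by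
        calc ((n : ℝ) + 1) ^ 3 ≤ (2 * (n : ℝ)) ^ 3 := by gcongr; linarith
          _ = 8 * (n : ℝ) ^ 3 := by ring
      have h4 : 8 ≤ (n : ℝ) * η ^ 3 := by
        rwa [div_le_iff₀ (by positivity)] at hη1
      calc ((n : ℝ) + 1) ^ 3 ≤ 8 * (n : ℝ) ^ 3 := h3
        _ ≤ ((n : ℝ) * η ^ 3) * (n : ℝ) ^ 3 := by gcongr
        _ = (n : ℝ) ^ 4 * η ^ 3 := by ring
        _ ≤ ((2 ^ τ : ℕ) : ℝ) * η ^ 3 := by gcongr) (by
      rw [hcardI]
      exact size_bound n f (2 ^ τ) hn ht1)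
  have hx := up_xor (S' := n ^ f * n + n ^ f * (n ^ f + 1)) hf2 hblk hη.le (by positivity) (by
    rw [hcardA]
    have h1 : 2 ^ D n * n ≤ n ^ f * n := Nat.mul_le_mul_right _ hf1
    have h2 : 2 ^ D n * (2 ^ D n + 1) ≤ n ^ f * (n ^ f + 1) := Nat.mul_le_mul hf1 (by omega)
    omega)
  let E : (Fin (D n) → Bool) × ((Fin (d M) → Bool) × (Fin τ → Bool)) ≃
      (Fin (D n + (d M + τ)) → Bool) :=
    ((Equiv.refl _).prodCongr (Fin.appendEquiv _ _)).trans (Fin.appendEquiv _ _)
  refine Up.equiv E ?_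
  convert hx using 2 with q
  obtain ⟨u, v, w⟩ := q
  funext j
  have hE : E (u, (v, w)) = Fin.append u (Fin.append v w) := rfl
  obtain ⟨s1, s2, s3⟩ := segs u v w
  have hcv : cval M (List.ofFn w) = bval (List.ofFn w) := cval_eq M _ (by
    rw [List.length_ofFn]; omega)
  show ((List.range n).map _).getD j false = _
  rw [hE]
  have hmap : ∀ F : ℕ → Bool, ((List.range n).map F).getD j false = F j := fun F => by
    simp only [List.getD_eq_getElem?_getD, List.getElem?_map, List.getElem?_range j.2,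
      Option.map_some, Option.getD_some]
  rw [hmap]
  show xor ((H n (seg 0 (D n) (List.ofFn (Fin.append u (Fin.append v w))))).getD j false)
    ((G M (seg (D n) (d M) (List.ofFn (Fin.append u (Fin.append v w))))).getD
      (cval M (seg (D n + d M) τ (List.ofFn (Fin.append u (Fin.append v w)))) * n + j) false) = _
  rw [s1, s2, s3, hcv]
  rfl

end Pool.Agent.MP_ca1109_lc
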