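import Pool.Agent.MP_ca1109_lc.Rank

/-!
# Low degree outputs
-/

namespace Pool.Agent.MP_ca1109_lc

open Finset Module

/-- The real functions of `d` bits of degree at most `D`: the span of the products of at most `D`
of the signs `(-1) ^ (s i)`. -/
def lowDeg (d D : ℕ) : Submodule ℝ ((Fin d → Bool) → ℝ) :=
  Submodule.span ℝ {f | ∃ S : Finset (Fin d), S.card ≤ D ∧ f = fun s => ∏ i ∈ S, sgn (s i)}

lemma finrank_lowDeg (d D : ℕ) (x : ℝ) (hx : 0 < x) (hx1 : x ≤ 1) :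
    (finrank ℝ (lowDeg d D) : ℝ) * x ^ D ≤ (1 + x) ^ d := by
  classical
  set 𝒮 : Finset (Finset (Fin d)) := univ.filter fun S => S.card ≤ D with h𝒮
  have h1 : {f | ∃ S : Finset (Fin d), S.card ≤ D ∧ f = fun s : Fin d → Bool => ∏ i ∈ S, sgn (s i)} =
      ↑(𝒮.image fun S => fun s : Fin d → Bool => ∏ i ∈ S, sgn (s i)) := by
    ext f
    simp only [Set.mem_ofPred_eq, h𝒮, coe_image, coe_filter, mem_univ, true_and, Set.mem_image]
    constructor
    · rintro ⟨S, hS, rfl⟩; exact ⟨S, hS, rfl⟩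
    · rintro ⟨S, hS, rfl⟩; exact ⟨S, hS, rfl⟩
  have h2 : finrank ℝ (lowDeg d D) ≤ 𝒮.card := by
    unfold lowDeg
    rw [h1]
    exact (finrank_span_finset_le_card _).trans card_image_le
  have h3 : ∑ S : Finset (Fin d), x ^ S.card = (1 + x) ^ d := by
    have h4 := Finset.sum_pow_mul_eq_add_pow x 1 (univ : Finset (Fin d))
    simp only [one_pow, mul_one, powerset_univ, card_univ, Fintype.card_fin] at h4
    rw [h4, add_comm]
  calc (finrank ℝ (lowDeg d D) : ℝ) * x ^ D ≤ (𝒮.card : ℝ) * x ^ D := by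
        gcongr
    _ = ∑ S ∈ 𝒮, x ^ D := by rw [sum_const, nsmul_eq_mul]
    _ ≤ ∑ S ∈ 𝒮, x ^ S.card := by
        apply sum_le_sum
        intro S hS
        rw [h𝒮, mem_filter] at hS
        exact pow_le_pow_of_le_one hx.le hx1 hS.2
    _ ≤ ∑ S : Finset (Fin d), x ^ S.card :=
        sum_le_sum_of_subset_of_nonneg (subset_univ _) fun S _ _ => by positivity
    _ = _ := h3

/-- For seeds of length at most `c log₂ m`, the functions of degree at most `τ log₂ m` have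
dimension at most `m ^ ε`. -/
lemma exists_tau (c : ℝ) (hc : 0 < c) (ε : ℝ) (hε : 0 < ε) : ∃ τ : ℝ, 0 < τ ∧ ∀ m : ℕ, 2 ≤ m →
    ∀ d D : ℕ, (d : ℝ) ≤ c * Real.logb 2 m → (D : ℝ) ≤ τ * Real.logb 2 m →
    (finrank ℝ (lowDeg d D) : ℝ) ≤ (m : ℝ) ^ ε := by
  set x : ℝ := 1 / (1 + 4 * c / ε) with hx
  have hx0 : 0 < x := by positivity
  have hx1 : x < 1 := by
    rw [hx, div_lt_one (by positivity)]
    have : 0 < 4 * c / ε := by positivity
    linarith
  have hxc : x * c ≤ ε / 4 := by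
    rw [hx, div_mul_eq_mul_div, div_le_iff₀ (by positivity)]
    have : ε / 4 * (1 + 4 * c / ε) = ε / 4 + c := by field_simp
    rw [this]; linarith
  have hlx : 0 < -Real.log x := by
    have := Real.log_neg hx0 hx1
    linarith
  have hlx' : Real.log x ≠ 0 := by linarith
  have hl2 : 1 / 2 < Real.log 2 := by
    have := Real.log_two_gt_d9
    linarith
  have hl2' : 0 < Real.log 2 := by linarith
  refine ⟨ε / 2 * Real.log 2 / -Real.log x, by positivity, ?_⟩
  intro m hm d D hd hD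
  have hm' : (2 : ℝ) ≤ m := by exact_mod_cast hm
  have hmpos : (0 : ℝ) < m := by linarith
  have hlm : 0 < Real.log m := Real.log_pos (by linarith)
  have h1 := finrank_lowDeg d D x hx0 hx1.le
  have h2 : (1 + x) ^ d ≤ Real.exp (ε / 2 * Real.log m) := by
    calc (1 + x) ^ d ≤ (Real.exp x) ^ d := by
          gcongr
          rw [add_comm]; exact Real.add_one_le_exp x
      _ = Real.exp (d * x) := by rw [← Real.exp_nat_mul]
      _ ≤ Real.exp (ε / 2 * Real.log m) := by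
          apply Real.exp_le_exp.2
          have h3 : (d : ℝ) * x ≤ c * Real.logb 2 m * x := by gcongr
          refine h3.trans ?_
          rw [Real.logb]
          have h5 : c * (Real.log m / Real.log 2) * x = (x * c) * Real.log m / Real.log 2 := by
            ring
          rw [h5, div_le_iff₀ hl2']
          have h6 : (x * c) * Real.log m ≤ ε / 4 * Real.log m := by gcongr
          have h7 : ε / 4 * Real.log m ≤ ε / 2 * Real.log m * Real.log 2 := by
            have : 0 < ε / 2 * Real.log m := by positivity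
            nlinarith
          linarith
  have h3 : Real.exp (-(ε / 2 * Real.log m)) ≤ x ^ D := by
    have h4 : x ^ D = Real.exp (D * Real.log x) := by
      rw [Real.exp_nat_mul, Real.exp_log hx0]
    rw [h4]
    apply Real.exp_le_exp.2
    have h5 : (D : ℝ) * -Real.log x ≤ ε / 2 * Real.log m := by
      have h6 : (D : ℝ) * -Real.log x ≤
          ε / 2 * Real.log 2 / -Real.log x * Real.logb 2 m * -Real.log x := by gcongr
      refine h6.trans (le_of_eq ?_)
      rw [Real.logb]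
      field_simp
    linarith
  have h5 : (finrank ℝ (lowDeg d D) : ℝ) * Real.exp (-(ε / 2 * Real.log m)) ≤
      Real.exp (ε / 2 * Real.log m) :=
    (mul_le_mul_of_nonneg_left h3 (Nat.cast_nonneg _)).trans (h1.trans h2)
  calc (finrank ℝ (lowDeg d D) : ℝ) = (finrank ℝ (lowDeg d D) : ℝ) *
        Real.exp (-(ε / 2 * Real.log m)) * Real.exp (ε / 2 * Real.log m) := by
        rw [mul_assoc, ← Real.exp_add]; simp
    _ ≤ Real.exp (ε / 2 * Real.log m) * Real.exp (ε / 2 * Real.log m) := by gcongr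
    _ = Real.exp (Real.log m * ε) := by rw [← Real.exp_add]; congr 1; ring
    _ = (m : ℝ) ^ ε := by rw [Real.rpow_def_of_pos hmpos]

/-- All but at most `m ^ ε` outputs of a generator with seeds of length at most `c log₂ m` are far
from all functions of degree at most `τ log₂ m`. -/
theorem degree_bound (c : ℝ) (hc : 0 < c) (ε : ℝ) (hε : 0 < ε) :
    ∃ τ : ℝ, 0 < τ ∧ ∃ m₀ : ℕ, ∀ m : ℕ, m₀ ≤ m → ∀ d : ℕ,
    (d : ℝ) ≤ c * Real.logb 2 m → ∀ G : (Fin d → Bool) → Fin m → Bool, Fools G →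
    ∀ D : ℕ, (D : ℝ) ≤ τ * Real.logb 2 m → ∀ B : Finset (Fin m),
    (∀ i ∈ B, ∃ w ∈ lowDeg d D, mean (fun s => (sgn (G s i) - w s) ^ 2) < 1 / 266) →
    (B.card : ℝ) ≤ (m : ℝ) ^ ε := by
  set δ : ℝ := min (ε / 2) (1 / 2) with hδ
  have hδ0 : 0 < δ := by rw [hδ]; positivity
  obtain ⟨τ, hτ, h⟩ := exists_tau c hc δ hδ0
  -- eventually `2 m ^ δ ≤ m ^ ε` and `1000 m ^ δ ≤ m`
  have hlim1 : ∀ᶠ m : ℕ in Filter.atTop, (2 : ℝ) ≤ (m : ℝ) ^ (ε / 2) :=
    ((tendsto_rpow_atTop (by positivity : 0 < ε / 2)).comp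
      tendsto_natCast_atTop_atTop).eventually_ge_atTop 2
  have hlim2 : ∀ᶠ m : ℕ in Filter.atTop, (1000 : ℝ) ≤ (m : ℝ) ^ (1 / 2 : ℝ) :=
    ((tendsto_rpow_atTop (by norm_num : (0 : ℝ) < 1 / 2)).comp
      tendsto_natCast_atTop_atTop).eventually_ge_atTop 1000
  obtain ⟨m₀, hm₀⟩ := Filter.eventually_atTop.1 ((hlim1.and hlim2).and
    (Filter.eventually_ge_atTop 4000))
  refine ⟨τ, hτ, m₀, fun m hm d hd G hG D hD B hB => ?_⟩
  obtain ⟨⟨h1, h2⟩, h3⟩ := hm₀ m hm
  have hm1 : (1 : ℝ) ≤ m := by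
    have : (4000 : ℝ) ≤ m := by exact_mod_cast h3
    linarith
  have h4 := h m (by omega) d D hd hD
  have h5 : (m : ℝ) ^ δ ≤ (m : ℝ) ^ (ε / 2) :=
    Real.rpow_le_rpow_of_exponent_le hm1 (min_le_left _ _)
  have h6 : (m : ℝ) ^ δ ≤ (m : ℝ) ^ (1 / 2 : ℝ) :=
    Real.rpow_le_rpow_of_exponent_le hm1 (min_le_right _ _)
  have h7 : (m : ℝ) ^ (1 / 2 : ℝ) * (m : ℝ) ^ (1 / 2 : ℝ) = m := by
    rw [← Real.rpow_add (by linarith)]; norm_num
  have h8 : (m : ℝ) ^ (ε / 2) * (m : ℝ) ^ (ε / 2) = (m : ℝ) ^ ε := by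
    rw [← Real.rpow_add (by linarith)]; congr 1; ring
  have h9 : (1000 : ℝ) * finrank ℝ (lowDeg d D) ≤ m := by
    have h10 : (0 : ℝ) ≤ (m : ℝ) ^ (1 / 2 : ℝ) := by linarith
    calc (1000 : ℝ) * finrank ℝ (lowDeg d D) ≤ (m : ℝ) ^ (1 / 2 : ℝ) * (m : ℝ) ^ (1 / 2 : ℝ) := by
          gcongr
          exact h4.trans h6
      _ = m := h7
  have h10 := count_bound hG h3 (lowDeg d D) (by exact_mod_cast h9) B hB
  have h11 : (B.card : ℝ) ≤ 2 * finrank ℝ (lowDeg d D) := by exact_mod_cast h10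
  calc (B.card : ℝ) ≤ 2 * finrank ℝ (lowDeg d D) := h11
    _ ≤ (m : ℝ) ^ (ε / 2) * (m : ℝ) ^ (ε / 2) := by
        gcongr
        exact h4.trans h5
    _ = _ := h8

end Pool.Agent.MP_ca1109_lc
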