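import Pool.Agent.MP_ca1109_lc.Fourier

/-!
# Families of maps with logarithmic seeds
-/

namespace Pool.Agent.MP_ca1109_lc

open Finset Module Filter

/-- Conditions 1 and 2 of a logarithmic-seed generator against circuits, with the constant `c`, for
a family of maps `G m` from `d m` bits to `m` bits. (No computability is required of `d` and
`G`.) -/
def LogSeedFamily (c : ℝ) (d : ℕ → ℕ) (G : ∀ m, (Fin (d m) → Bool) → Fin m → Bool) : Prop :=
  ∀ᶠ m in atTop, (d m : ℝ) ≤ c * Real.logb 2 m ∧ d m < m ∧ Fools (G m)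

/-- The output bit `i` of `G` is, in mean square, within `1 / 266` of a real function of degree at
most `D` of the seed bits. -/
def NearLowDeg {d m : ℕ} (G : (Fin d → Bool) → Fin m → Bool) (D : ℝ) (i : Fin m) : Prop :=
  ∃ k : ℕ, (k : ℝ) ≤ D ∧ ∃ w ∈ lowDeg d k, mean (fun s => (sgn (G s i) - w s) ^ 2) < 1 / 266

lemma lowDeg_mono (d : ℕ) {D D' : ℕ} (h : D ≤ D') : lowDeg d D ≤ lowDeg d D' := by
  apply Submodule.span_mono
  rintro f ⟨S, hS, rfl⟩
  exact ⟨S, hS.trans h, rfl⟩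

theorem family_bound (c : ℝ) (d : ℕ → ℕ) (G : ∀ m, (Fin (d m) → Bool) → Fin m → Bool)
    (hG : LogSeedFamily c d G) (ε : ℝ) (hε : 0 < ε) : ∃ κ : ℝ, 0 < κ ∧ ∀ᶠ m in atTop,
    ∀ B : Finset (Fin m), (∀ i ∈ B, avgSens (fun s => G m s i) ≤ κ * Real.logb 2 m ∨
      NearLowDeg (G m) (κ * Real.logb 2 m) i) → (B.card : ℝ) ≤ (m : ℝ) ^ ε := by
  set c' : ℝ := max c 1 with hc'
  have hc'0 : 0 < c' := lt_of_lt_of_le one_pos (le_max_right _ _)
  obtain ⟨τ, hτ, m₀, h⟩ := degree_bound c' hc'0 ε hε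
  refine ⟨τ / 300, by positivity, ?_⟩
  filter_upwards [hG, eventually_ge_atTop m₀, eventually_ge_atTop 2] with m hm hm0 hm2 B hB
  obtain ⟨hd, -, hF⟩ := hm
  have hlog : 0 < Real.logb 2 m := by
    apply Real.logb_pos (by norm_num)
    have : (2 : ℝ) ≤ m := by exact_mod_cast hm2
    linarith
  have hd' : (d m : ℝ) ≤ c' * Real.logb 2 m :=
    hd.trans (mul_le_mul_of_nonneg_right (le_max_left _ _) hlog.le)
  have hpos : 0 < τ * Real.logb 2 m := by positivity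
  refine h m hm0 (d m) hd' (G m) hF ⌊τ * Real.logb 2 m⌋₊ (Nat.floor_le hpos.le) B
    (fun i hi => ?_)
  rcases hB i hi with hi1 | ⟨k, hk, w, hw, hw2⟩
  · obtain ⟨w, hw, hw2⟩ := exists_lowDeg (fun s => G m s i) ⌊τ * Real.logb 2 m⌋₊
    refine ⟨w, hw, lt_of_le_of_lt hw2 ?_⟩
    have h1 : τ * Real.logb 2 m < (⌊τ * Real.logb 2 m⌋₊ : ℝ) + 1 := Nat.lt_floor_add_one _
    rw [div_lt_iff₀ (by positivity)]
    nlinarith
  · refine ⟨w, lowDeg_mono _ ?_ hw, hw2⟩
    apply Nat.le_floor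
    refine hk.trans ?_
    nlinarith

end Pool.Agent.MP_ca1109_lc
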