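import Pool.Agent.MP_ca1109_lc.Degree

/-!
# Average sensitivity of the outputs
-/

namespace Pool.Agent.MP_ca1109_lc

open Finset Module

variable {d : ℕ}

/-- the characters -/
noncomputable def chi (S : Finset (Fin d)) (s : Fin d → Bool) : ℝ := ∏ i ∈ S, sgn (s i)

/-- `s` with the `j`-th bit flipped -/
def flip (j : Fin d) (s : Fin d → Bool) : Fin d → Bool := Function.update s j (!(s j))

lemma sgn_mul_self (b : Bool) : sgn b * sgn b = 1 := by cases b <;> simp [sgn]

lemma sgn_not (b : Bool) : sgn (!b) = - sgn b := by cases b <;> simp [sgn]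

lemma chi_ite (S : Finset (Fin d)) (s : Fin d → Bool) :
    chi S s = ∏ i, if i ∈ S then sgn (s i) else 1 := by
  unfold chi
  rw [Finset.prod_ite_mem, Finset.univ_inter]

lemma chi_orth (S T : Finset (Fin d)) :
    ∑ s, chi S s * chi T s = if S = T then (2 : ℝ) ^ d else 0 := by
  classical
  have h1 : ∀ s : Fin d → Bool, chi S s * chi T s =
      ∏ i, ((if i ∈ S then sgn (s i) else 1) * (if i ∈ T then sgn (s i) else 1)) := by
    intro s
    rw [chi_ite, chi_ite, Finset.prod_mul_distrib]
  simp_rw [h1]
  have h2 := (Finset.prod_univ_sum (fun _ : Fin d => (univ : Finset Bool))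
    (fun i b => ((if i ∈ S then sgn b else 1) * (if i ∈ T then sgn b else 1) : ℝ))).symm
  rw [Fintype.piFinset_univ] at h2
  rw [h2]
  have h3 : ∀ i, ∑ b : Bool, ((if i ∈ S then sgn b else 1) * (if i ∈ T then sgn b else 1) : ℝ) =
      if (i ∈ S ↔ i ∈ T) then 2 else 0 := by
    intro i
    rw [Fintype.sum_bool]
    by_cases hS : i ∈ S <;> by_cases hT : i ∈ T <;> simp [hS, hT, sgn] <;> norm_num
  simp_rw [h3]
  split_ifs with h
  · subst h
    simp
  · obtain ⟨i, hi⟩ : ∃ i, ¬ (i ∈ S ↔ i ∈ T) := by
      by_contra hcon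
      push Not at hcon
      exact h (Finset.ext hcon)
    exact Finset.prod_eq_zero (Finset.mem_univ i) (if_neg hi)

lemma chi_complete (s t : Fin d → Bool) :
    ∑ S, chi S s * chi S t = if s = t then (2 : ℝ) ^ d else 0 := by
  classical
  have h1 : ∑ S : Finset (Fin d), chi S s * chi S t =
      ∏ i, (1 + sgn (s i) * sgn (t i)) := by
    rw [Finset.prod_one_add, Finset.powerset_univ]
    apply Finset.sum_congr rfl
    intro S _
    unfold chi
    rw [Finset.prod_mul_distrib]
  rw [h1]
  split_ifs with h
  · subst h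
    have : ∀ i, (1 + sgn (s i) * sgn (s i)) = 2 := by
      intro i; rw [sgn_mul_self]; norm_num
    simp [this]
  · obtain ⟨i, hi⟩ : ∃ i, s i ≠ t i := by
      by_contra hcon
      push Not at hcon
      exact h (funext hcon)
    apply Finset.prod_eq_zero (Finset.mem_univ i)
    revert hi
    cases s i <;> cases t i <;> simp [sgn]

/-- Fourier coefficients -/
noncomputable def coef (f : (Fin d → Bool) → ℝ) (S : Finset (Fin d)) : ℝ :=
  (∑ s, f s * chi S s) / 2 ^ d

lemma inversion (f : (Fin d → Bool) → ℝ) (t : Fin d → Bool) :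
    f t = ∑ S, coef f S * chi S t := by
  classical
  unfold coef
  simp_rw [div_mul_eq_mul_div, Finset.sum_mul]
  rw [← Finset.sum_div, Finset.sum_comm]
  simp_rw [mul_assoc, ← Finset.mul_sum, chi_complete]
  simp

lemma parseval (a : Finset (Fin d) → ℝ) :
    ∑ s, (∑ S, a S * chi S s) ^ 2 = 2 ^ d * ∑ S, a S ^ 2 := by
  classical
  simp_rw [sq, Finset.sum_mul_sum]
  rw [Finset.sum_comm]
  simp_rw [Finset.sum_comm (s := (univ : Finset (Fin d → Bool)))]
  have : ∀ S T : Finset (Fin d), ∑ s, a S * chi S s * (a T * chi T s) =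
      a S * a T * (if S = T then (2 : ℝ) ^ d else 0) := by
    intro S T
    rw [← chi_orth, Finset.mul_sum]
    apply Finset.sum_congr rfl
    intro s _
    ring
  simp_rw [this]
  simp only [mul_ite, mul_zero, Finset.sum_ite_eq, Finset.mem_univ, if_true]
  rw [Finset.mul_sum]
  apply Finset.sum_congr rfl
  intro S _
  ring

lemma chi_flip (j : Fin d) (S : Finset (Fin d)) (s : Fin d → Bool) :
    chi S (flip j s) = if j ∈ S then - chi S s else chi S s := by
  classical
  unfold chi flip
  split_ifs with h
  · rw [← Finset.mul_prod_erase S _ h, ← Finset.mul_prod_erase S (fun i => sgn (s i)) h,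
      Function.update_self, sgn_not, neg_mul]
    congr 2
    apply Finset.prod_congr rfl
    intro i hi
    rw [Function.update_of_ne (Finset.ne_of_mem_erase hi)]
  · apply Finset.prod_congr rfl
    intro i hi
    have hij : i ≠ j := by
      rintro rfl
      exact h hi
    rw [Function.update_of_ne hij]

/-- The average sensitivity (total influence) of a Boolean function on the cube: the sum over the
coordinates `j` of the probability that flipping the `j`-th bit changes the value. -/
noncomputable def avgSens (f : (Fin d → Bool) → Bool) : ℝ :=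
  ∑ j, prob fun s => xor (f s) (f (flip j s))

lemma avgSens_eq (f : (Fin d → Bool) → Bool) :
    avgSens f = ∑ S, (S.card : ℝ) * coef (fun s => sgn (f s)) S ^ 2 := by
  classical
  set F : (Fin d → Bool) → ℝ := fun s => sgn (f s) with hF
  have h1 : ∀ j, prob (fun s => xor (f s) (f (flip j s))) =
      ∑ S, if j ∈ S then coef F S ^ 2 else 0 := by
    intro j
    have h2 : ∀ s, (if xor (f s) (f (flip j s)) then (1 : ℝ) else 0) =
        (∑ S, (if j ∈ S then coef F S else 0) * chi S s) ^ 2 := by
      intro s
      have h3 : (∑ S, (if j ∈ S then coef F S else 0) * chi S s) = (F s - F (flip j s)) / 2 := by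
        rw [inversion F s, inversion F (flip j s), ← Finset.sum_sub_distrib, Finset.sum_div]
        apply Finset.sum_congr rfl
        intro S _
        rw [chi_flip]
        split_ifs <;> ring
      rw [h3, hF]
      simp only
      cases f s <;> cases f (flip j s) <;> simp [sgn] <;> norm_num
    rw [prob_eq]
    simp_rw [h2]
    rw [parseval]
    simp only [Fintype.card_pi, Fintype.card_bool, Finset.prod_const, Finset.card_univ,
      Fintype.card_fin, Nat.cast_pow, Nat.cast_ofNat]
    rw [mul_div_cancel_left₀ _ (by positivity)]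
    apply Finset.sum_congr rfl
    intro S _
    split_ifs <;> simp
  unfold avgSens
  simp_rw [h1]
  rw [Finset.sum_comm]
  apply Finset.sum_congr rfl
  intro S _
  rw [Finset.sum_ite_mem, Finset.univ_inter, Finset.sum_const, nsmul_eq_mul]

/-- A Boolean function of small average sensitivity is close to low degree. -/
lemma exists_lowDeg (f : (Fin d → Bool) → Bool) (D : ℕ) :
    ∃ w ∈ lowDeg d D, mean (fun s => (sgn (f s) - w s) ^ 2) ≤ avgSens f / (D + 1) := by
  classical
  set F : (Fin d → Bool) → ℝ := fun s => sgn (f s) with hF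
  refine ⟨fun s => ∑ S, (if S.card ≤ D then coef F S else 0) * chi S s, ?_, ?_⟩
  · have : (fun s => ∑ S, (if S.card ≤ D then coef F S else 0) * chi S s) =
        ∑ S : Finset (Fin d), (if S.card ≤ D then coef F S else 0) • chi S := by
      funext s
      rw [Finset.sum_apply]
      apply Finset.sum_congr rfl
      intro S _
      rw [Pi.smul_apply, smul_eq_mul]
    rw [this]
    apply Submodule.sum_mem
    intro S _
    split_ifs with h
    · exact Submodule.smul_mem _ _ (Submodule.subset_span ⟨S, h, rfl⟩)
    · rw [zero_smul]; exact Submodule.zero_mem _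
  · have h1 : ∀ s, (sgn (f s) - ∑ S, (if S.card ≤ D then coef F S else 0) * chi S s) =
        ∑ S, (if S.card ≤ D then 0 else coef F S) * chi S s := by
      intro s
      have h2 : sgn (f s) = ∑ S, coef F S * chi S s := inversion F s
      rw [h2, ← Finset.sum_sub_distrib]
      apply Finset.sum_congr rfl
      intro S _
      split_ifs <;> ring
    unfold mean
    simp_rw [h1]
    rw [parseval]
    simp only [Fintype.card_pi, Fintype.card_bool, Finset.prod_const, Finset.card_univ,
      Fintype.card_fin, Nat.cast_pow, Nat.cast_ofNat]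
    rw [mul_div_cancel_left₀ _ (by positivity), avgSens_eq, Finset.sum_div]
    apply Finset.sum_le_sum
    intro S _
    split_ifs with h
    · rw [zero_pow two_ne_zero]; positivity
    · rw [le_div_iff₀ (by positivity)]
      have h3 : (D : ℝ) + 1 ≤ S.card := by
        have : D + 1 ≤ S.card := by omega
        exact_mod_cast this
      nlinarith [sq_nonneg (coef F S)]

/-- All but at most `m ^ ε` outputs of a generator with seeds of length at most `c log₂ m` have
average sensitivity at least `κ log₂ m`. -/
theorem sens_bound (c : ℝ) (hc : 0 < c) (ε : ℝ) (hε : 0 < ε) :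
    ∃ κ : ℝ, 0 < κ ∧ ∃ m₀ : ℕ, ∀ m : ℕ, m₀ ≤ m → ∀ d : ℕ,
    (d : ℝ) ≤ c * Real.logb 2 m → ∀ G : (Fin d → Bool) → Fin m → Bool, Fools G →
    ∀ B : Finset (Fin m), (∀ i ∈ B, avgSens (fun s => G s i) ≤ κ * Real.logb 2 m) →
    (B.card : ℝ) ≤ (m : ℝ) ^ ε := by
  obtain ⟨τ, hτ, m₀, h⟩ := degree_bound c hc ε hε
  refine ⟨τ / 300, by positivity, max m₀ 2, fun m hm d hd G hG B hB => ?_⟩
  have hm2 : 2 ≤ m := (le_max_right _ _).trans hm
  have hlog : 0 < Real.logb 2 m := by
    apply Real.logb_pos (by norm_num)
    have : (2 : ℝ) ≤ m := by exact_mod_cast hm2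
    linarith
  have hpos : 0 < τ * Real.logb 2 m := by positivity
  refine h m ((le_max_left _ _).trans hm) d hd G hG ⌊τ * Real.logb 2 m⌋₊
    (Nat.floor_le hpos.le) B (fun i hi => ?_)
  obtain ⟨w, hw, hw2⟩ := exists_lowDeg (fun s => G s i) ⌊τ * Real.logb 2 m⌋₊
  refine ⟨w, hw, lt_of_le_of_lt hw2 ?_⟩
  have h1 : τ * Real.logb 2 m < (⌊τ * Real.logb 2 m⌋₊ : ℝ) + 1 := Nat.lt_floor_add_one _
  rw [div_lt_iff₀ (by positivity)]
  have h2 := hB i hi
  nlinarith

end Pool.Agent.MP_ca1109_lc
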