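import Mathlib

/-!
# Perturbation of vectors to general position
-/

namespace Pool.Agent.MP_ca1109_lc

open Finset Matrix Polynomial Filter Topology

lemma finite_det_zero {r : ℕ} (X Y : Matrix (Fin r) (Fin r) ℝ) (hY : Y.det ≠ 0) :
    {x : ℝ | (X + x • Y).det = 0}.Finite := by
  classical
  set p : ℝ[X] := det ((Polynomial.X : ℝ[X]) • Y.map C + X.map C) with hp
  have hp0 : p ≠ 0 := by
    intro h
    have h1 := Polynomial.coeff_det_X_add_C_card Y X
    rw [← hp, h, coeff_zero] at h1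
    exact hY h1.symm
  have heval : ∀ x : ℝ, p.eval x = (X + x • Y).det := by
    intro x
    rw [hp, ← Polynomial.coe_evalRingHom, RingHom.map_det]
    congr 1
    ext a b
    simp only [RingHom.mapMatrix_apply, Matrix.map_apply, Matrix.add_apply, Matrix.smul_apply,
      smul_eq_mul, coe_evalRingHom, eval_add, eval_mul, eval_X, eval_C]
    ring
  refine (p.roots.toFinset.finite_toSet).subset fun x hx => ?_
  rw [Finset.mem_coe, Multiset.mem_toFinset, mem_roots hp0, IsRoot.def, heval]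
  exact hx

theorem exists_perturb {ι A : Type*} [Fintype ι] [Finite A] {r : ℕ} (v : ι → Fin r → ℝ)
    (u : A → Fin r → ℝ) : ∃ v' : ι → Fin r → ℝ,
      (∀ e : Fin r ↪ ι, (Matrix.of fun j => v' (e j)).det ≠ 0) ∧
      ∀ a i, (0 < u a ⬝ᵥ v i → 0 < u a ⬝ᵥ v' i) ∧ (u a ⬝ᵥ v i < 0 → u a ⬝ᵥ v' i < 0) := by
  classical
  let φ : ι ≃ Fin (Fintype.card ι) := Fintype.equivFin ι
  let y : ι → Fin r → ℝ := fun i j => ((φ i : ℕ) : ℝ) ^ (j : ℕ)
  have hy : ∀ e : Fin r ↪ ι, (Matrix.of fun j => y (e j)).det ≠ 0 := by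
    intro e
    have h1 : (Matrix.of fun j => y (e j)) =
        vandermonde (fun j => (((φ (e j) : Fin _) : ℕ) : ℝ)) := by
      ext a b
      rfl
    rw [h1, det_vandermonde_ne_zero_iff]
    intro a b hab
    have hab' : (((φ (e a) : Fin _) : ℕ) : ℝ) = ((φ (e b) : Fin _) : ℕ) := hab
    have h2 : ((φ (e a) : Fin _) : ℕ) = ((φ (e b) : Fin _) : ℕ) := by exact_mod_cast hab'
    exact e.injective (φ.injective (Fin.ext h2))
  have h1 : ∀ᶠ x in 𝓝[>] (0 : ℝ), ∀ e : Fin r ↪ ι,
      (Matrix.of fun j => (v (e j) + x • y (e j))).det ≠ 0 := by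
    rw [eventually_all]
    intro e
    have hfin := finite_det_zero (Matrix.of fun j => v (e j)) (Matrix.of fun j => y (e j)) (hy e)
    have h2 : {x : ℝ | (Matrix.of (fun j => v (e j)) + x • Matrix.of (fun j => y (e j))).det = 0}ᶜ
        ∈ 𝓝[≠] (0 : ℝ) := by
      have h3 := (hfin.sdiff (t := {0})).isClosed.isOpen_compl.mem_nhds (x := (0 : ℝ)) (by simp)
      rw [mem_nhdsWithin_iff_exists_mem_nhds_inter]
      refine ⟨_, h3, ?_⟩
      rintro x ⟨hx1, hx2⟩ hx3
      exact hx1 ⟨hx3, hx2⟩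
    have h4 : 𝓝[>] (0 : ℝ) ≤ 𝓝[≠] (0 : ℝ) :=
      nhdsWithin_mono _ fun x hx => (ne_of_gt hx)
    filter_upwards [h4 h2] with x hx
    intro h5
    apply hx
    have h6 : (Matrix.of (fun j => v (e j)) + x • Matrix.of (fun j => y (e j))) =
        Matrix.of fun j => (v (e j) + x • y (e j)) := by
      ext a b
      rfl
    show (Matrix.of (fun j => v (e j)) + x • Matrix.of (fun j => y (e j))).det = 0
    rw [h6]
    exact h5
  have h2 : ∀ᶠ x in 𝓝[>] (0 : ℝ), ∀ a i, (0 < u a ⬝ᵥ v i → 0 < u a ⬝ᵥ (v i + x • y i)) ∧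
      (u a ⬝ᵥ v i < 0 → u a ⬝ᵥ (v i + x • y i) < 0) := by
    rw [eventually_all]
    intro a
    rw [eventually_all]
    intro i
    have hc : Continuous fun x : ℝ => u a ⬝ᵥ (v i + x • y i) := by
      simp only [dotProduct_add, dotProduct_smul]
      fun_prop
    have ht : Tendsto (fun x : ℝ => u a ⬝ᵥ (v i + x • y i)) (𝓝[>] 0) (𝓝 (u a ⬝ᵥ v i)) := by
      have := hc.tendsto 0
      simp only [zero_smul, add_zero] at this
      exact this.mono_left nhdsWithin_le_nhds
    rcases lt_trichotomy (u a ⬝ᵥ v i) 0 with h | h | h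
    · filter_upwards [ht.eventually_lt_const h] with x hx
      exact ⟨fun h' => absurd h' (not_lt.2 h.le), fun _ => hx⟩
    · filter_upwards with x
      exact ⟨fun h' => absurd h (ne_of_gt h'), fun h' => absurd h (ne_of_lt h')⟩
    · filter_upwards [ht.eventually_const_lt h] with x hx
      exact ⟨fun _ => hx, fun h' => absurd h' (not_lt.2 h.le)⟩
  obtain ⟨x, hx1, hx2⟩ := (h1.and h2).exists
  exact ⟨fun i => v i + x • y i, hx1, hx2⟩

end Pool.Agent.MP_ca1109_lc
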