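import Pool.Agent.MP_ca1109_lc.Circuit

/-!
# Moments of Rademacher sums
-/

namespace Pool.Agent.MP_ca1109_lc

open Finset

/-- The sign `(-1) ^ b`. -/
noncomputable def sgn (b : Bool) : ℝ := if b then -1 else 1

lemma sgn_sq (b : Bool) : sgn b ^ 2 = 1 := by cases b <;> simp [sgn]

/-- A signed sum. -/
noncomputable def zed {m : ℕ} (b : Fin m → ℝ) (x : Fin m → Bool) : ℝ := ∑ i, b i * sgn (x i)

lemma sum_cons {n : ℕ} (f : (Fin (n + 1) → Bool) → ℝ) :
    ∑ x, f x = ∑ y : Fin n → Bool, (f (Fin.cons true y) + f (Fin.cons false y)) := by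
  rw [← (Fin.consEquiv fun _ => Bool).sum_comp, Fintype.sum_prod_type, Fintype.sum_bool,
    ← Finset.sum_add_distrib]
  rfl

lemma zed_cons {n : ℕ} (b : Fin (n + 1) → ℝ) (a : Bool) (y : Fin n → Bool) :
    zed b (Fin.cons a y) = b 0 * sgn a + zed (fun i => b i.succ) y := by
  unfold zed
  rw [Fin.sum_univ_succ]
  simp

lemma second_moment (m : ℕ) (b : Fin m → ℝ) :
    ∑ x, zed b x ^ 2 = 2 ^ m * ∑ i, b i ^ 2 := by
  induction m with
  | zero => simp [zed]
  | succ n ih =>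
    rw [sum_cons]
    have : ∀ y : Fin n → Bool, zed b (Fin.cons true y) ^ 2 + zed b (Fin.cons false y) ^ 2 =
        2 * b 0 ^ 2 + 2 * zed (fun i => b i.succ) y ^ 2 := by
      intro y
      rw [zed_cons, zed_cons]
      simp only [sgn, if_true, Bool.false_eq_true, if_false]
      ring
    simp only [this, sum_add_distrib, ← mul_sum, ih]
    rw [Fin.sum_univ_succ]
    simp only [sum_const, card_univ, Fintype.card_pi, Fintype.card_bool, prod_const,
      Fintype.card_fin, nsmul_eq_mul, Nat.cast_pow, Nat.cast_ofNat]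
    ring

lemma fourth_moment (m : ℕ) (b : Fin m → ℝ) :
    ∑ x, zed b x ^ 4 ≤ 3 * 2 ^ m * (∑ i, b i ^ 2) ^ 2 := by
  induction m with
  | zero => simp [zed]
  | succ n ih =>
    rw [sum_cons]
    have : ∀ y : Fin n → Bool, zed b (Fin.cons true y) ^ 4 + zed b (Fin.cons false y) ^ 4 =
        2 * b 0 ^ 4 + 12 * b 0 ^ 2 * zed (fun i => b i.succ) y ^ 2 +
          2 * zed (fun i => b i.succ) y ^ 4 := by
      intro y
      rw [zed_cons, zed_cons]
      simp only [sgn, if_true, Bool.false_eq_true, if_false]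
      ring
    simp only [this, sum_add_distrib, ← mul_sum, second_moment]
    rw [Fin.sum_univ_succ]
    simp only [sum_const, card_univ, Fintype.card_pi, Fintype.card_bool, prod_const,
      Fintype.card_fin, nsmul_eq_mul, Nat.cast_pow, Nat.cast_ofNat]
    have h := ih (fun i => b i.succ)
    have h2 : (0 : ℝ) < 2 ^ n := by positivity
    rw [pow_succ (2 : ℝ) n]
    generalize ∑ i, zed (fun i => b i.succ) i ^ 4 = S at h ⊢
    generalize ∑ i : Fin n, b i.succ ^ 2 = Q at h ⊢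
    generalize (2 : ℝ) ^ n = P at h h2 ⊢
    generalize b 0 = B
    have h3 : 0 ≤ P * B ^ 4 := by positivity
    have h4 : 3 * (P * 2) * (B ^ 2 + Q) ^ 2 - (P * (2 * B ^ 4) + 12 * B ^ 2 * (P * Q) + 2 * S) =
      4 * (P * B ^ 4) + 2 * (3 * P * Q ^ 2 - S) := by ring
    linarith

/-- Probability as a normalised sum. -/
lemma prob_eq {A : Type*} [Fintype A] (f : A → Bool) :
    prob f = (∑ a, if f a then (1 : ℝ) else 0) / Fintype.card A := by
  unfold prob
  rw [Finset.sum_boole]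

/-- A Rademacher sum is not too small with probability at least `0.219`. -/
lemma anti_concentration {m : ℕ} (b : Fin m → ℝ) {σ : ℝ} (hσ : σ = ∑ i, b i ^ 2) (hpos : 0 < σ)
    (f : (Fin m → Bool) → Bool) (hf : ∀ x, f x = true ↔ σ / 4 < zed b x ^ 2) :
    219 / 1000 ≤ prob f := by
  have hpt : ∀ x, 1 - ((zed b x ^ 2 / σ - 11 / 3) / (11 / 3 - 1 / 4)) ^ 2 ≤
      if f x then (1 : ℝ) else 0 := by
    intro x
    by_cases h : f x = true
    · rw [if_pos h]
      nlinarith [sq_nonneg ((zed b x ^ 2 / σ - 11 / 3) / (11 / 3 - 1 / 4))]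
    · rw [if_neg h]
      rw [hf, not_lt] at h
      have h1 : zed b x ^ 2 / σ ≤ 1 / 4 := by
        rw [div_le_iff₀ hpos]; linarith
      have h2 : 0 ≤ zed b x ^ 2 / σ := by positivity
      have h3 : (zed b x ^ 2 / σ - 11 / 3) / (11 / 3 - 1 / 4) ≤ -1 := by
        rw [div_le_iff₀ (by norm_num)]; linarith
      nlinarith
  have hcard : (Fintype.card (Fin m → Bool) : ℝ) = 2 ^ m := by simp
  have h2m : (0 : ℝ) < 2 ^ m := by positivity
  rw [prob_eq, hcard, le_div_iff₀ h2m]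
  refine le_trans ?_ (sum_le_sum fun x _ => hpt x)
  have hexp : ∀ x, 1 - ((zed b x ^ 2 / σ - 11 / 3) / (11 / 3 - 1 / 4)) ^ 2 =
      (1 - (11 / 3) ^ 2 * (12 / 41) ^ 2) + (22 / 3) * (12 / 41) ^ 2 / σ * zed b x ^ 2 -
        (12 / 41) ^ 2 / σ ^ 2 * zed b x ^ 4 := by
    intro x
    field_simp
    ring
  simp_rw [hexp]
  rw [sum_sub_distrib, sum_add_distrib, ← mul_sum, ← mul_sum, second_moment, ← hσ]
  simp only [sum_const, card_univ, nsmul_eq_mul]
  rw [hcard]
  have h4 := fourth_moment m b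
  rw [← hσ] at h4
  have h5 : (12 / 41) ^ 2 / σ ^ 2 * ∑ x, zed b x ^ 4 ≤ (12 / 41) ^ 2 / σ ^ 2 *
      (3 * 2 ^ m * σ ^ 2) := mul_le_mul_of_nonneg_left h4 (by positivity)
  have h6 : (12 / 41) ^ 2 / σ ^ 2 * (3 * 2 ^ m * σ ^ 2) = 3 * (12 / 41) ^ 2 * 2 ^ m := by
    field_simp
  have h7 : (22 / 3) * (12 / 41) ^ 2 / σ * (2 ^ m * σ) = (22 / 3) * (12 / 41) ^ 2 * 2 ^ m := by
    field_simp
  rw [h6] at h5
  rw [h7]
  nlinarith

end Pool.Agent.MP_ca1109_lc
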