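import Pool.Agent.MP_ca1109_lc.MonoDer

/-!
# Derivations and circuits
-/

namespace Pool.Agent.MP_ca1109_lc

open Set

/-- A gate which is not a NOT gate. -/
def Gate.Mono {k : ℕ} : Gate k → Prop
  | .and _ _ => True
  | .or _ _ => True
  | .not _ => False

/-- No gate of the sequence is a NOT gate. -/
def Gates.Mono {m : ℕ} : {n : ℕ} → Gates m n → Prop
  | _, .nil => True
  | _, .snoc C g => Gates.Mono C ∧ g.Mono

/-- A monotone circuit: no NOT gates. -/
def Circuit.Mono {m : ℕ} (C : Circuit m) : Prop := C.gates.Mono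

/-- The coordinate functions. -/
def inp (m : ℕ) : Set (BF m) := range fun i : Fin m => fun x : Fin m → Bool => x i

/-- The constant functions. -/
def cst (α : Type*) : Set (α → Bool) := {(fun _ => false), (fun _ => true)}

/-- The coordinate functions and the constants. -/
def bas (m : ℕ) : Set (BF m) := inp m ∪ cst (Fin m → Bool)

theorem inp_mem_bas {m : ℕ} (i : Fin m) : (fun x : Fin m → Bool => x i) ∈ bas m :=
  Or.inl ⟨i, rfl⟩

theorem false_mem_bas {m : ℕ} : (fun _ => false : BF m) ∈ bas m := Or.inr (Or.inl rfl)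

theorem true_mem_bas {m : ℕ} : (fun _ => true : BF m) ∈ bas m := Or.inr (Or.inr rfl)

theorem Gates.eval_snoc_last {m n : ℕ} (C : Gates m n) (g : Gate (m + n)) (x : Fin m → Bool) :
    (Gates.snoc C g).eval x (Fin.last _) = g.eval (C.eval x) := by
  show Fin.snoc (α := fun _ => Bool) (Gates.eval x C) (g.eval (Gates.eval x C)) (Fin.last _) = _
  rw [Fin.snoc_last]

theorem Gates.eval_snoc_castSucc {m n : ℕ} (C : Gates m n) (g : Gate (m + n)) (x : Fin m → Bool)
    (w : Fin (m + n)) : (Gates.snoc C g).eval x w.castSucc = C.eval x w := by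
  show Fin.snoc (α := fun _ => Bool) (Gates.eval x C) (g.eval (Gates.eval x C)) w.castSucc = _
  rw [Fin.snoc_castSucc]

/-- The functions of a derivation are constant or computed by the wires of a sequence of gates. -/
theorem Der.gates {m s : ℕ} {neg : Bool} {F : Set (BF m)} (h : Der neg (bas m) s F) :
    ∃ (n : ℕ) (C : Gates m n), C.size ≤ s ∧ (neg = false → C.Mono) ∧
      ∀ f ∈ F, f ∈ cst (Fin m → Bool) ∨ ∃ w, ∀ x, C.eval x w = f x := by
  induction h with
  | base =>
    refine ⟨0, .nil, le_rfl, fun _ => trivial, ?_⟩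
    rintro f (⟨i, rfl⟩ | hf)
    · exact Or.inr ⟨i, fun x => rfl⟩
    · exact Or.inl hf
  | @and s F f g h hf hg ih =>
    obtain ⟨n, C, h1, h2, h3⟩ := ih
    have keep : ∀ u : BF m, (u ∈ cst (Fin m → Bool) ∨ ∃ w, ∀ x, C.eval x w = u x) →
        ∃ (n : ℕ) (C : Gates m n), C.size ≤ s + 1 ∧ (neg = false → C.Mono) ∧
          ∀ f ∈ insert u F, f ∈ cst (Fin m → Bool) ∨ ∃ w, ∀ x, C.eval x w = f x := by
      intro u hu
      refine ⟨n, C, h1.trans (Nat.le_succ _), h2, ?_⟩
      rintro f' (rfl | hf')
      · exact hu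
      · exact h3 f' hf'
    rcases h3 f hf with (hfc | hfc) | ⟨wf, hwf⟩
    · refine keep _ (Or.inl (Or.inl ?_))
      funext x; simp [hfc]
    · have : (fun x => f x && g x) = g := by funext x; simp only [mem_singleton_iff.1 hfc]; simp
      rw [this]
      exact keep _ (h3 g hg)
    rcases h3 g hg with (hgc | hgc) | ⟨wg, hwg⟩
    · refine keep _ (Or.inl (Or.inl ?_))
      funext x; simp [hgc]
    · have : (fun x => f x && g x) = f := by funext x; simp only [mem_singleton_iff.1 hgc]; simp
      rw [this]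
      exact keep _ (h3 f hf)
    refine ⟨n + 1, .snoc C (.and wf wg), ?_, fun hn => ⟨h2 hn, trivial⟩, ?_⟩
    · show C.size + 1 ≤ s + 1
      omega
    · rintro f' (rfl | hf')
      · refine Or.inr ⟨Fin.last _, fun x => ?_⟩
        rw [Gates.eval_snoc_last, Gate.eval, hwf, hwg]
      · rcases h3 f' hf' with hc | ⟨w, hw⟩
        · exact Or.inl hc
        · exact Or.inr ⟨w.castSucc, fun x => by rw [Gates.eval_snoc_castSucc, hw]⟩
  | @or s F f g h hf hg ih =>
    obtain ⟨n, C, h1, h2, h3⟩ := ih
    have keep : ∀ u : BF m, (u ∈ cst (Fin m → Bool) ∨ ∃ w, ∀ x, C.eval x w = u x) →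
        ∃ (n : ℕ) (C : Gates m n), C.size ≤ s + 1 ∧ (neg = false → C.Mono) ∧
          ∀ f ∈ insert u F, f ∈ cst (Fin m → Bool) ∨ ∃ w, ∀ x, C.eval x w = f x := by
      intro u hu
      refine ⟨n, C, h1.trans (Nat.le_succ _), h2, ?_⟩
      rintro f' (rfl | hf')
      · exact hu
      · exact h3 f' hf'
    rcases h3 f hf with (hfc | hfc) | ⟨wf, hwf⟩
    · have : (fun x => f x || g x) = g := by funext x; simp only [hfc]; simp
      rw [this]
      exact keep _ (h3 g hg)
    · refine keep _ (Or.inl (Or.inr ?_))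
      rw [mem_singleton_iff]
      funext x; simp [mem_singleton_iff.1 hfc]
    rcases h3 g hg with (hgc | hgc) | ⟨wg, hwg⟩
    · have : (fun x => f x || g x) = f := by funext x; simp only [hgc]; simp
      rw [this]
      exact keep _ (h3 f hf)
    · refine keep _ (Or.inl (Or.inr ?_))
      rw [mem_singleton_iff]
      funext x; simp [mem_singleton_iff.1 hgc]
    refine ⟨n + 1, .snoc C (.or wf wg), ?_, fun hn => ⟨h2 hn, trivial⟩, ?_⟩
    · show C.size + 1 ≤ s + 1
      omega
    · rintro f' (rfl | hf')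
      · refine Or.inr ⟨Fin.last _, fun x => ?_⟩
        rw [Gates.eval_snoc_last, Gate.eval, hwf, hwg]
      · rcases h3 f' hf' with hc | ⟨w, hw⟩
        · exact Or.inl hc
        · exact Or.inr ⟨w.castSucc, fun x => by rw [Gates.eval_snoc_castSucc, hw]⟩
  | @not s F f hn h hf ih =>
    obtain ⟨n, C, h1, h2, h3⟩ := ih
    have keep : ∀ u : BF m, (u ∈ cst (Fin m → Bool) ∨ ∃ w, ∀ x, C.eval x w = u x) →
        ∃ (n : ℕ) (C : Gates m n), C.size ≤ s ∧ (neg = false → C.Mono) ∧
          ∀ f ∈ insert u F, f ∈ cst (Fin m → Bool) ∨ ∃ w, ∀ x, C.eval x w = f x := by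
      intro u hu
      refine ⟨n, C, h1, h2, ?_⟩
      rintro f' (rfl | hf')
      · exact hu
      · exact h3 f' hf'
    rcases h3 f hf with (hfc | hfc) | ⟨wf, hwf⟩
    · refine keep _ (Or.inl (Or.inr ?_))
      rw [mem_singleton_iff]
      funext x; simp [hfc]
    · refine keep _ (Or.inl (Or.inl ?_))
      funext x; simp [mem_singleton_iff.1 hfc]
    refine ⟨n + 1, .snoc C (.not wf), ?_, fun hn' => ?_, ?_⟩
    · show C.size + 0 ≤ s
      omega
    · rw [hn] at hn'; simp at hn'
    · rintro f' (rfl | hf')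
      · refine Or.inr ⟨Fin.last _, fun x => ?_⟩
        rw [Gates.eval_snoc_last, Gate.eval, hwf]
      · rcases h3 f' hf' with hc | ⟨w, hw⟩
        · exact Or.inl hc
        · exact Or.inr ⟨w.castSucc, fun x => by rw [Gates.eval_snoc_castSucc, hw]⟩

/-- A function given by a monotone derivation is constant or computed by a monotone circuit. -/
theorem Gets.circuit {m s : ℕ} {f : BF m} (h : Gets false (bas m) s {f}) :
    f ∈ cst (Fin m → Bool) ∨ ∃ C : Circuit m, C.Mono ∧ C.size ≤ s ∧ ∀ x, C.eval x = f x := by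
  obtain ⟨s₁, h1, F₁, h2, h3⟩ := h
  obtain ⟨n, C, h4, h5, h6⟩ := h3.gates
  rcases h6 f (h2 rfl) with hc | ⟨w, hw⟩
  · exact Or.inl hc
  · exact Or.inr ⟨⟨n, C, w⟩, h5 rfl, h4.trans h1, hw⟩

/-- The wires of a sequence of gates. -/
theorem gates_gets {m : ℕ} : ∀ {n : ℕ} (C : Gates m n),
    Gets true (inp m) C.size (range fun w : Fin (m + n) => fun x => C.eval x w)
  | _, .nil => Gets.refl _ _
  | _, .snoc (n := n) C g => by
    have ih := gates_gets C
    have hmem : ∀ w : Fin (m + n), (fun x => C.eval x w) ∈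
        (range fun w : Fin (m + n) => fun x => C.eval x w) := fun w => ⟨w, rfl⟩
    have hsub : ∀ u : BF m, (∀ x, u x = g.eval (C.eval x)) →
        (range fun w : Fin (m + (n + 1)) => fun x => (Gates.snoc C g).eval x w) ⊆
          insert u (range fun w : Fin (m + n) => fun x => C.eval x w) := by
      rintro u hu _ ⟨w, rfl⟩
      refine Fin.lastCases (motive := fun w : Fin (m + n + 1) => (fun x =>
        (Gates.snoc C g).eval x w) ∈ insert u (range fun w : Fin (m + n) => fun x => C.eval x w))
        ?_ (fun w => ?_) w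
      · left
        funext x
        exact (Gates.eval_snoc_last C g x).trans (hu x).symm
      · right
        refine ⟨w, ?_⟩
        funext x
        exact (Gates.eval_snoc_castSucc C g x w).symm
    cases g with
    | and i j => exact (ih.and (hmem i) (hmem j)).weaken subset_rfl le_rfl (hsub _ fun x => rfl)
    | or i j => exact (ih.or (hmem i) (hmem j)).weaken subset_rfl le_rfl (hsub _ fun x => rfl)
    | not i =>
      exact (ih.not rfl (hmem i)).weaken subset_rfl le_rfl (hsub _ fun x => rfl)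

/-! ## The number of NOT gates -/

/-- The number of NOT gates. -/
def Gate.nots {k : ℕ} : Gate k → ℕ
  | .and _ _ => 0
  | .or _ _ => 0
  | .not _ => 1

/-- The number of NOT gates of a sequence of gates. -/
def Gates.nots {m : ℕ} : {n : ℕ} → Gates m n → ℕ
  | _, .nil => 0
  | _, .snoc C g => Gates.nots C + g.nots

/-- The number of NOT gates of a circuit. -/
def Circuit.nots {m : ℕ} (C : Circuit m) : ℕ := C.gates.nots

theorem Gates.mono_iff {m : ℕ} : ∀ {n : ℕ} (C : Gates m n), C.Mono ↔ C.nots = 0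
  | _, .nil => by simp [Gates.Mono, Gates.nots]
  | _, .snoc C g => by
    have h1 := Gates.mono_iff C
    have h2 : g.Mono ↔ g.nots = 0 := by cases g <;> simp [Gate.Mono, Gate.nots]
    rw [Gates.Mono, Gates.nots, h1, h2]
    omega

theorem Circuit.mono_iff {m : ℕ} (C : Circuit m) : C.Mono ↔ C.nots = 0 := Gates.mono_iff C.gates

/-- `P ∨ ¬Q` with one NOT gate. -/
theorem Gets.pair_circuit {m s : ℕ} {P Q : BF m} (h : Gets false (bas m) s ({P} ∪ {Q})) :
    (fun x => P x || !(Q x)) ∈ cst (Fin m → Bool) ∨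
      ∃ C : Circuit m, C.nots ≤ 1 ∧ C.size ≤ s + 1 ∧ ∀ x, C.eval x = (P x || !(Q x)) := by
  obtain ⟨s₁, h1, F₁, h2, h3⟩ := h
  obtain ⟨n, C, h4, h5, h6⟩ := h3.gates
  have hC0 : C.nots = 0 := (Gates.mono_iff C).1 (h5 rfl)
  have hs : C.size ≤ s := h4.trans h1
  rcases h6 Q (h2 (Or.inr rfl)) with (hq | hq) | ⟨wq, hwq⟩
  · refine Or.inl (Or.inr ?_)
    rw [mem_singleton_iff]
    funext x; simp [hq]
  · have hb : (fun x => P x || !(Q x)) = P := by
      funext x; simp [mem_singleton_iff.1 hq]
    rcases h6 P (h2 (Or.inl rfl)) with hp | ⟨wp, hwp⟩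
    · left
      rw [hb]
      exact hp
    · refine Or.inr ⟨⟨n, C, wp⟩, ?_, ?_, fun x => ?_⟩
      · show C.nots ≤ 1
        omega
      · show C.size ≤ s + 1
        omega
      · refine (hwp x).trans ?_
        exact (congrFun hb x).symm
  · rcases h6 P (h2 (Or.inl rfl)) with (hp | hp) | ⟨wp, hwp⟩
    · refine Or.inr ⟨⟨n + 1, .snoc C (.not wq), Fin.last _⟩, ?_, ?_, fun x => ?_⟩
      · show C.nots + 1 ≤ 1
        omega
      · show C.size + 0 ≤ s + 1
        omega
      · refine (Gates.eval_snoc_last C _ x).trans ?_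
        rw [Gate.eval, hwq, hp]
        simp
    · refine Or.inl (Or.inr ?_)
      rw [mem_singleton_iff]
      funext x; simp [mem_singleton_iff.1 hp]
    · refine Or.inr ⟨⟨n + 1 + 1, .snoc (.snoc C (.not wq)) (.or wp.castSucc (Fin.last _)),
        Fin.last _⟩, ?_, ?_, fun x => ?_⟩
      · show C.nots + 1 + 0 ≤ 1
        omega
      · show C.size + 0 + 1 ≤ s + 1
        omega
      · refine (Gates.eval_snoc_last (Gates.snoc C (.not wq)) _ x).trans ?_
        have e1 := Gates.eval_snoc_castSucc C (.not wq) x wp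
        have e2 := Gates.eval_snoc_last C (.not wq) x
        show ((Gates.snoc C (.not wq)).eval x wp.castSucc || (Gates.snoc C (.not wq)).eval x
          (Fin.last _)) = _
        rw [e1, e2, Gate.eval, hwp, hwq]

theorem circuit_gets {m s : ℕ} (C : Circuit m) (h : C.size ≤ s) :
    Gets true (bas m) s {fun x => C.eval x} :=
  (gates_gets C.gates).weaken subset_union_left h (by
    rw [singleton_subset_iff]; exact ⟨C.out, rfl⟩)

/-- Monotone circuits preserve constant inputs. -/
theorem Gates.Mono.eval_const {m : ℕ} (b : Bool) : ∀ {n : ℕ} (C : Gates m n), C.Mono →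
    ∀ w, C.eval (fun _ => b) w = b
  | _, .nil, _, _ => rfl
  | _, .snoc (n := n) C g, h, w => by
    have ih := Gates.Mono.eval_const b C h.1
    refine Fin.lastCases (motive := fun w : Fin (m + n + 1) =>
      (Gates.snoc C g).eval (fun _ => b) w = b) ?_ (fun w => ?_) w
    · refine (Gates.eval_snoc_last C g _).trans ?_
      cases g with
      | and i j => rw [Gate.eval, ih, ih]; simp
      | or i j => rw [Gate.eval, ih, ih]; simp
      | not i => exact absurd h.2 id
    · exact (Gates.eval_snoc_castSucc C g _ w).trans (ih w)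

theorem Circuit.Mono.eval_const {m : ℕ} {C : Circuit m} (h : C.Mono) (b : Bool) :
    C.eval (fun _ => b) = b := Gates.Mono.eval_const b C.gates h _

end Pool.Agent.MP_ca1109_lc
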