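import Pool.Agent.MP_ca1109_lc.Circuit

/-!
# Derivations: sets of Boolean functions computed by sequences of gates

`Der neg B s F`: from the functions of `B`, `s` AND and OR gates (and NOT gates, if `neg`) give
exactly the functions of `F`; `Gets neg B s F`: at most `s` such gates give at least the functions
of `F`.
-/

namespace Pool.Agent.MP_ca1109_lc

open Set

variable {α β : Type*}

/-- Straight-line computations. -/
inductive Der (neg : Bool) (B : Set (α → Bool)) : ℕ → Set (α → Bool) → Prop
  | base : Der neg B 0 B
  | and {s : ℕ} {F : Set (α → Bool)} {f g : α → Bool} (h : Der neg B s F) (hf : f ∈ F)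
      (hg : g ∈ F) : Der neg B (s + 1) (insert (fun x => f x && g x) F)
  | or {s : ℕ} {F : Set (α → Bool)} {f g : α → Bool} (h : Der neg B s F) (hf : f ∈ F)
      (hg : g ∈ F) : Der neg B (s + 1) (insert (fun x => f x || g x) F)
  | not {s : ℕ} {F : Set (α → Bool)} {f : α → Bool} (hn : neg = true) (h : Der neg B s F)
      (hf : f ∈ F) : Der neg B s (insert (fun x => !(f x)) F)

variable {neg : Bool} {B B' F F' : Set (α → Bool)} {s s' : ℕ} {f g : α → Bool}

theorem Der.base_subset (h : Der neg B s F) : B ⊆ F := by
  induction h with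
  | base => exact subset_rfl
  | and _ _ _ ih => exact ih.trans (subset_insert _ _)
  | or _ _ _ ih => exact ih.trans (subset_insert _ _)
  | not _ _ _ ih => exact ih.trans (subset_insert _ _)

theorem Der.append (h : Der neg B s F) (h' : Der neg F s' F') : Der neg B (s + s') F' := by
  induction h' with
  | base => exact h
  | and _ hf hg ih => exact ih.and hf hg
  | or _ hf hg ih => exact ih.or hf hg
  | not hn _ hf ih => exact ih.not hn hf

theorem Der.union (h : Der neg B s F) (B' : Set (α → Bool)) :
    Der neg (B ∪ B') s (F ∪ B') := by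
  induction h with
  | base => exact Der.base
  | and _ hf hg ih =>
    rw [insert_union]
    exact ih.and (Or.inl hf) (Or.inl hg)
  | or _ hf hg ih =>
    rw [insert_union]
    exact ih.or (Or.inl hf) (Or.inl hg)
  | not hn _ hf ih =>
    rw [insert_union]
    exact ih.not hn (Or.inl hf)

theorem Der.pull (φ : β → α) (h : Der neg B s F) :
    Der neg ((fun f : α → Bool => fun x => f (φ x)) '' B) s
      ((fun f : α → Bool => fun x => f (φ x)) '' F) := by
  induction h with
  | base => exact Der.base
  | and _ hf hg ih =>
    rw [image_insert_eq]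
    exact ih.and (mem_image_of_mem _ hf) (mem_image_of_mem _ hg)
  | or _ hf hg ih =>
    rw [image_insert_eq]
    exact ih.or (mem_image_of_mem _ hf) (mem_image_of_mem _ hg)
  | not hn _ hf ih =>
    rw [image_insert_eq]
    exact ih.not hn (mem_image_of_mem _ hf)

/-- At most `s` gates give at least the functions of `F`. -/
def Gets (neg : Bool) (B : Set (α → Bool)) (s : ℕ) (F : Set (α → Bool)) : Prop :=
  ∃ s' ≤ s, ∃ F', F ⊆ F' ∧ Der neg B s' F'

theorem Gets.refl (neg : Bool) (B : Set (α → Bool)) : Gets neg B 0 B :=
  ⟨0, le_rfl, B, subset_rfl, Der.base⟩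

theorem Gets.weaken (h : Gets neg B s F) (hB : B ⊆ B') (hs : s ≤ s') (hF : F' ⊆ F) :
    Gets neg B' s' F' := by
  obtain ⟨s₁, h1, F₁, h2, h3⟩ := h
  refine ⟨s₁, h1.trans hs, F₁ ∪ B', (hF.trans h2).trans subset_union_left, ?_⟩
  have h4 := h3.union B'
  rwa [union_eq_self_of_subset_left hB] at h4

theorem Gets.of_subset (h : F ⊆ B) : Gets neg B 0 F := (Gets.refl neg B).weaken subset_rfl le_rfl h

/-- Composition. -/
theorem Gets.trans (h : Gets neg B s F) (h' : Gets neg (B ∪ F) s' F') :
    Gets neg B (s + s') (B ∪ F ∪ F') := by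
  obtain ⟨s₁, h1, F₁, h2, h3⟩ := h
  obtain ⟨s₂, h4, F₂, h5, h6⟩ := h'
  have h7 : B ∪ F ⊆ F₁ := union_subset h3.base_subset h2
  have h8 := h6.union F₁
  rw [union_eq_self_of_subset_left h7] at h8
  refine ⟨s₁ + s₂, Nat.add_le_add h1 h4, F₂ ∪ F₁, ?_, h3.append h8⟩
  exact union_subset (h7.trans subset_union_right) (h5.trans subset_union_left)

theorem Gets.trans' (h : Gets neg B s F) (h' : Gets neg (B ∪ F) s' F') :
    Gets neg B (s + s') F' :=
  (h.trans h').weaken subset_rfl le_rfl subset_union_right

theorem Gets.union (h : Gets neg B s F) (h' : Gets neg B s' F') :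
    Gets neg B (s + s') (F ∪ F') :=
  (h.trans (h'.weaken subset_union_left le_rfl subset_rfl)).weaken subset_rfl le_rfl
    (union_subset_union_left _ subset_union_right)

theorem Gets.biUnion {ι : Type*} (T : Finset ι) (c : ι → ℕ) (F : ι → Set (α → Bool))
    (h : ∀ i ∈ T, Gets neg B (c i) (F i)) : Gets neg B (∑ i ∈ T, c i) (⋃ i ∈ T, F i) := by
  classical
  induction T using Finset.induction_on with
  | empty => simpa using Gets.of_subset (neg := neg) (empty_subset B)
  | insert i T hi ih =>
    rw [Finset.sum_insert hi, Finset.set_biUnion_insert]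
    exact (h i (Finset.mem_insert_self _ _)).union
      (ih fun j hj => h j (Finset.mem_insert_of_mem hj))

theorem Gets.iUnion {ι : Type*} [Fintype ι] (c : ℕ) (F : ι → Set (α → Bool))
    (h : ∀ i, Gets neg B c (F i)) : Gets neg B (Fintype.card ι * c) (⋃ i, F i) := by
  have h1 := Gets.biUnion (Finset.univ : Finset ι) (fun _ => c) F fun i _ => h i
  simpa using h1

theorem Gets.and (h : Gets neg B s F) (hf : f ∈ F) (hg : g ∈ F) :
    Gets neg B (s + 1) (insert (fun x => f x && g x) F) := by
  obtain ⟨s₁, h1, F₁, h2, h3⟩ := h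
  exact ⟨s₁ + 1, Nat.add_le_add_right h1 1, _, insert_subset_insert h2, h3.and (h2 hf) (h2 hg)⟩

theorem Gets.or (h : Gets neg B s F) (hf : f ∈ F) (hg : g ∈ F) :
    Gets neg B (s + 1) (insert (fun x => f x || g x) F) := by
  obtain ⟨s₁, h1, F₁, h2, h3⟩ := h
  exact ⟨s₁ + 1, Nat.add_le_add_right h1 1, _, insert_subset_insert h2, h3.or (h2 hf) (h2 hg)⟩

theorem Gets.not (hn : neg = true) (h : Gets neg B s F) (hf : f ∈ F) :
    Gets neg B s (insert (fun x => !(f x)) F) := by
  obtain ⟨s₁, h1, F₁, h2, h3⟩ := h
  exact ⟨s₁, h1, _, insert_subset_insert h2, h3.not hn (h2 hf)⟩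

theorem Gets.pull (φ : β → α) (h : Gets neg B s F) :
    Gets neg ((fun f : α → Bool => fun x => f (φ x)) '' B) s
      ((fun f : α → Bool => fun x => f (φ x)) '' F) := by
  obtain ⟨s₁, h1, F₁, h2, h3⟩ := h
  exact ⟨s₁, h1, _, image_mono h2, h3.pull φ⟩

/-- All members of a list. -/
theorem Gets.list (L : List (α → Bool)) (h : ∀ f ∈ L, f ∈ F) (h1 : (fun _ => false) ∈ F)
    (hF : Gets neg B s F) : Gets neg B (s + L.length) {fun x => L.any fun f => f x} := by
  have key : Gets neg F L.length {fun x => L.any fun f => f x} := by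
    clear hF
    induction L with
    | nil => exact Gets.of_subset (by simpa using h1)
    | cons f L ih =>
      have h2 := ih fun g hg => h g (List.mem_cons_of_mem _ hg)
      have h3 : Gets neg F (L.length + 1) (insert (fun x => f x || L.any fun f => f x)
          ({fun x => L.any fun f => f x} ∪ F)) := by
        refine Gets.or ?_ (Or.inr (h f List.mem_cons_self)) (Or.inl rfl)
        have := h2.union (Gets.refl neg F)
        rwa [add_zero] at this
      exact h3.weaken subset_rfl le_rfl (by simp)
  have h4 := hF.trans' (key.weaken subset_union_right le_rfl subset_rfl)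
  exact h4

theorem Gets.list_and (L : List (α → Bool)) (h : ∀ f ∈ L, f ∈ F) (h1 : (fun _ => true) ∈ F)
    (hF : Gets neg B s F) : Gets neg B (s + L.length) {fun x => L.all fun f => f x} := by
  have key : Gets neg F L.length {fun x => L.all fun f => f x} := by
    clear hF
    induction L with
    | nil => exact Gets.of_subset (by simpa using h1)
    | cons f L ih =>
      have h2 := ih fun g hg => h g (List.mem_cons_of_mem _ hg)
      have h3 : Gets neg F (L.length + 1) (insert (fun x => f x && L.all fun f => f x)
          ({fun x => L.all fun f => f x} ∪ F)) := by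
        refine Gets.and ?_ (Or.inr (h f List.mem_cons_self)) (Or.inl rfl)
        have := h2.union (Gets.refl neg F)
        rwa [add_zero] at this
      exact h3.weaken subset_rfl le_rfl (by simp)
  have h4 := hF.trans' (key.weaken subset_union_right le_rfl subset_rfl)
  exact h4

/-! ### Thresholds -/

/-- At least `j` of the functions of the list hold. -/
def th (L : List (α → Bool)) (j : ℕ) (x : α) : Bool := decide (j ≤ L.countP fun f => f x)

theorem th_zero (L : List (α → Bool)) : th L 0 = fun _ => true := by
  funext x; simp [th]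

theorem th_of_length_lt (L : List (α → Bool)) {j : ℕ} (h : L.length < j) :
    th L j = fun _ => false := by
  funext x
  have := List.countP_le_length (p := fun f : α → Bool => f x) (l := L)
  simp only [th, decide_eq_false_iff_not]
  omega

theorem th_cons_succ (f : α → Bool) (L : List (α → Bool)) (j : ℕ) :
    th (f :: L) (j + 1) = fun x => (f x && th L j x) || th L (j + 1) x := by
  funext x
  simp only [th, List.countP_cons]
  cases f x
  · simp
  · simp only [Bool.true_and, if_true]
    rw [Bool.eq_iff_iff]
    simp only [decide_eq_true_eq, Bool.or_eq_true]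
    omega

/-- The thresholds of a list of `t` functions cost `t (t + 1)` gates. -/
theorem gets_th (L : List (α → Bool)) (h : ∀ f ∈ L, f ∈ B) (h0 : (fun _ => false) ∈ B)
    (h1 : (fun _ => true) ∈ B) : Gets neg B (L.length * (L.length + 1)) (range (th L)) := by
  induction L with
  | nil =>
    refine Gets.of_subset ?_
    rintro _ ⟨j, rfl⟩
    rcases Nat.eq_zero_or_pos j with rfl | hj
    · rw [th_zero]; exact h1
    · rw [th_of_length_lt [] (by simpa using hj)]; exact h0
  | cons f L ih =>
    have h2 := ih fun g hg => h g (List.mem_cons_of_mem _ hg)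
    have h3 : Gets neg (B ∪ range (th L)) ((L.length + 1) * 2)
        (⋃ j : Fin (L.length + 1), {th (f :: L) (j + 1)}) := by
      have := Gets.iUnion (ι := Fin (L.length + 1)) (neg := neg) (B := B ∪ range (th L)) 2
        (fun j => {th (f :: L) (j + 1)}) (fun j => ?_)
      · rwa [Fintype.card_fin] at this
      · have e1 := ((Gets.refl neg (B ∪ range (th L))).and (f := f) (g := th L j)
          (Or.inl (h f List.mem_cons_self)) (Or.inr ⟨j, rfl⟩)).or
          (f := fun x => f x && th L j x) (g := th L (j + 1)) (mem_insert _ _)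
          (mem_insert_of_mem _ (Or.inr ⟨_, rfl⟩))
        refine e1.weaken subset_rfl le_rfl ?_
        rw [singleton_subset_iff, th_cons_succ]
        exact mem_insert _ _
    refine (h2.trans h3).weaken subset_rfl ?_ ?_
    · simp only [List.length_cons]
      apply le_of_eq; ring
    · rintro _ ⟨j, rfl⟩
      rcases j with _ | j
      · rw [th_zero]; exact Or.inl (Or.inl h1)
      · by_cases hj : j < L.length + 1
        · exact Or.inr (mem_iUnion.2 ⟨⟨j, hj⟩, rfl⟩)
        · rw [th_of_length_lt (f :: L) (by simp only [List.length_cons]; omega)]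
          exact Or.inl (Or.inl h0)

end Pool.Agent.MP_ca1109_lc
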