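import Pool.Agent.MP_ca1109_lc.MonoSlice

/-!
# Elementary probability on finite sets: averages, marginals, Chebyshev's inequality
-/

namespace Pool.Agent.MP_ca1109_lc

open Finset

variable {A B X I : Type*} [Fintype A] [Fintype B] [Fintype X] [Fintype I]

/-- The average of a function. -/
noncomputable def avg (f : A → ℝ) : ℝ := (∑ a, f a) / (Fintype.card A : ℝ)

theorem ind_nonneg (b : Bool) : 0 ≤ ind b := by cases b <;> simp [ind]

theorem ind_le_one (b : Bool) : ind b ≤ 1 := by cases b <;> simp [ind]

theorem ind_mul_self (b : Bool) : ind b * ind b = ind b := by cases b <;> simp [ind]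

theorem prob_eq_avg (f : A → Bool) : prob f = avg fun a => ind (f a) := by
  simp only [prob, avg, ind]
  rw [Finset.sum_ite, Finset.sum_const_zero, add_zero, Finset.sum_const, nsmul_eq_mul, mul_one]

theorem card_pos_real [Nonempty A] : (0 : ℝ) < (Fintype.card A : ℝ) := by
  exact_mod_cast Fintype.card_pos

theorem avg_mono {f g : A → ℝ} (h : ∀ a, f a ≤ g a) : avg f ≤ avg g :=
  div_le_div_of_nonneg_right (Finset.sum_le_sum fun a _ => h a) (Nat.cast_nonneg _)

theorem avg_const [Nonempty A] (c : ℝ) : avg (fun _ : A => c) = c := by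
  have := card_pos_real (A := A)
  rw [avg, Finset.sum_const, nsmul_eq_mul, Finset.card_univ, mul_comm, mul_div_assoc,
    div_self this.ne', mul_one]

theorem avg_add (f g : A → ℝ) : avg (fun a => f a + g a) = avg f + avg g := by
  rw [avg, avg, avg, Finset.sum_add_distrib, add_div]

theorem avg_sub (f g : A → ℝ) : avg (fun a => f a - g a) = avg f - avg g := by
  rw [avg, avg, avg, Finset.sum_sub_distrib, sub_div]

theorem avg_mul_left (c : ℝ) (f : A → ℝ) : avg (fun a => c * f a) = c * avg f := by
  rw [avg, avg, ← Finset.mul_sum, mul_div_assoc]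

theorem avg_sum {ι : Type*} (s : Finset ι) (f : ι → A → ℝ) :
    avg (fun a => ∑ i ∈ s, f i a) = ∑ i ∈ s, avg (f i) := by
  simp only [avg]
  rw [Finset.sum_comm, Finset.sum_div]

theorem avg_nonneg {f : A → ℝ} (h : ∀ a, 0 ≤ f a) : 0 ≤ avg f :=
  div_nonneg (Finset.sum_nonneg fun a _ => h a) (Nat.cast_nonneg _)

theorem avg_equiv (e : A ≃ B) (f : B → ℝ) : avg (fun a => f (e a)) = avg f := by
  rw [avg, avg, Fintype.card_congr e, Equiv.sum_comp e f]

theorem avg_prod (f : A → B → ℝ) :
    avg (fun p : A × B => f p.1 p.2) = avg fun a => avg fun b => f a b := by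
  simp only [avg]
  rw [Fintype.sum_prod_type, Fintype.card_prod, ← Finset.sum_div, Nat.cast_mul, div_div,
    mul_comm (Fintype.card A : ℝ)]

theorem avg_prod_mul (f : A → ℝ) (g : B → ℝ) :
    avg (fun p : A × B => f p.1 * g p.2) = avg f * avg g := by
  rw [avg_prod fun a b => f a * g b]
  simp only [avg_mul_left]
  have : (fun a => f a * avg g) = fun a => avg g * f a := by
    funext a; ring
  rw [this, avg_mul_left, mul_comm]

theorem avg_fst [Nonempty B] (f : A → ℝ) : avg (fun p : A × B => f p.1) = avg f := by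
  rw [avg_prod fun a _ => f a]
  simp only [avg_const]

theorem prob_nonneg (f : A → Bool) : 0 ≤ prob f := by
  rw [prob_eq_avg]; exact avg_nonneg fun _ => ind_nonneg _

theorem prob_le_one [Nonempty A] (f : A → Bool) : prob f ≤ 1 := by
  rw [prob_eq_avg]
  exact (avg_mono fun _ => ind_le_one _).trans (avg_const 1).le

theorem prob_mono {f g : A → Bool} (h : ∀ a, f a = true → g a = true) : prob f ≤ prob g := by
  rw [prob_eq_avg, prob_eq_avg]
  refine avg_mono fun a => ?_
  cases hf : f a
  · simp [ind, ite_nonneg]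
  · rw [h a hf]

theorem prob_not [Nonempty A] (f : A → Bool) : prob (fun a => !(f a)) = 1 - prob f := by
  rw [prob_eq_avg, prob_eq_avg, ← avg_const (A := A) 1, ← avg_sub]
  congr 1
  funext a
  cases f a <;> simp [ind]

theorem prob_equiv (e : A ≃ B) (f : B → Bool) : prob (fun a => f (e a)) = prob f := by
  rw [prob_eq_avg, prob_eq_avg, avg_equiv e fun b => ind (f b)]

/-- The marginals of the uniform distribution on the cube are uniform. -/
theorem prob_marginal {J : Type*} [Fintype J] [DecidableEq J] {M : ℕ} (pos : J → Fin M)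
    (hpos : Function.Injective pos) (f : (J → Bool) → Bool) :
    prob (fun y : Fin M → Bool => f fun j => y (pos j)) = prob f := by
  classical
  let e1 : (Fin M → Bool) ≃ ({i : Fin M // i ∈ Set.range pos} → Bool) ×
      ({i : Fin M // ¬ i ∈ Set.range pos} → Bool) :=
    Equiv.piEquivPiSubtypeProd (fun i => i ∈ Set.range pos) fun _ => Bool
  let e2 : J ≃ {i : Fin M // i ∈ Set.range pos} := Equiv.ofInjective pos hpos
  let e3 : ({i : Fin M // i ∈ Set.range pos} → Bool) ≃ (J → Bool) :=
    Equiv.arrowCongr e2.symm (Equiv.refl Bool)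
  have h1 : ∀ y : Fin M → Bool, (fun j => y (pos j)) = e3 (e1 y).1 := by
    intro y
    funext j
    rfl
  rw [prob_eq_avg, prob_eq_avg]
  simp only [h1]
  rw [avg_equiv e1 fun q => ind (f (e3 q.1)), avg_fst (fun q => ind (f (e3 q))),
    avg_equiv e3 fun z => ind (f z)]

/-- Union bound. -/
theorem prob_any_le (L : List (A → Bool)) :
    prob (fun a => L.any fun f => f a) ≤ (L.map prob).sum := by
  induction L with
  | nil => simp [prob]
  | cons f L ih =>
    rw [List.map_cons, List.sum_cons]
    refine le_trans ?_ (add_le_add_right ih _)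
    rw [prob_eq_avg, prob_eq_avg, prob_eq_avg, ← avg_add]
    refine avg_mono fun a => ?_
    rw [List.any_cons]
    cases f a
    · simp [ind]
    · have := ind_nonneg (L.any fun f => f a)
      simp only [Bool.true_or, ind, if_true]
      simp only [ind] at this
      linarith

/-- Markov's inequality. -/
theorem markov {f : A → ℝ} (hf : ∀ a, 0 ≤ f a) {c : ℝ} (hc : 0 < c) (g : A → Bool)
    (hg : ∀ a, g a = true → c ≤ f a) : prob g ≤ avg f / c := by
  rw [le_div_iff₀ hc, prob_eq_avg, mul_comm, ← avg_mul_left]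
  refine avg_mono fun a => ?_
  cases h : g a
  · simpa [ind] using hf a
  · simpa [ind] using hg a h

/-- The variance of the number of hits. -/
theorem avg_sq_le [DecidableEq I] [Nonempty X] (g : X → Bool) :
    avg (fun z : I → X => (∑ i, (ind (g (z i)) - prob g)) ^ 2) ≤ (Fintype.card I : ℝ) / 4 := by
  set h : X → ℝ := fun x => ind (g x) - prob g with hh
  have h0 : avg h = 0 := by
    rw [hh, avg_sub, avg_const, ← prob_eq_avg, sub_self]
  have h2 : avg (fun x => h x * h x) ≤ 1 / 4 := by
    have e1 : (fun x => h x * h x) = fun x => (1 - 2 * prob g) * ind (g x) + prob g ^ 2 := by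
      funext x
      have := ind_mul_self (g x)
      simp only [hh]
      linear_combination this
    rw [e1, avg_add, avg_mul_left, avg_const, ← prob_eq_avg]
    nlinarith [sq_nonneg (prob g - 1 / 2)]
  have key : ∀ i j : I, avg (fun z : I → X => h (z i) * h (z j)) ≤ if i = j then 1 / 4 else 0 := by
    intro i j
    rw [← avg_equiv (Equiv.funSplitAt i X).symm]
    split_ifs with hij
    · subst hij
      have e2 : (fun a : X × ({k // k ≠ i} → X) => h ((Equiv.funSplitAt i X).symm a i) *
          h ((Equiv.funSplitAt i X).symm a i)) = fun a => (fun x => h x * h x) a.1 := by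
        funext a
        simp [Equiv.funSplitAt, Equiv.piSplitAt]
      rw [e2, avg_fst (fun x => h x * h x)]
      exact h2
    · have hji : j ≠ i := fun h => hij h.symm
      have e2 : (fun a : X × ({k // k ≠ i} → X) => h ((Equiv.funSplitAt i X).symm a i) *
          h ((Equiv.funSplitAt i X).symm a j)) = fun a => h a.1 * h (a.2 ⟨j, hji⟩) := by
        funext a
        simp [Equiv.funSplitAt, Equiv.piSplitAt, hji]
      rw [e2, avg_prod_mul h fun r : {k // k ≠ i} → X => h (r ⟨j, hji⟩), h0, zero_mul]
  have e3 : ∀ z : I → X, (∑ i, (ind (g (z i)) - prob g)) ^ 2 = ∑ i, ∑ j, h (z i) * h (z j) := by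
    intro z
    rw [sq, Finset.sum_mul_sum]
  simp only [e3]
  rw [avg_sum]
  simp only [avg_sum]
  calc ∑ i : I, ∑ j : I, avg (fun z : I → X => h (z i) * h (z j))
      ≤ ∑ i : I, ∑ j : I, (if i = j then (1 / 4 : ℝ) else 0) :=
        Finset.sum_le_sum fun i _ => Finset.sum_le_sum fun j _ => key i j
    _ = (Fintype.card I : ℝ) / 4 := by
        simp [div_eq_mul_inv]

/-- Chebyshev's inequality. -/
theorem cheb [DecidableEq I] [Nonempty X] (g : X → Bool) {δ : ℝ} (hδ : 0 < δ)
    (hI : 0 < Fintype.card I) (G : (I → X) → Bool)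
    (hG : ∀ z, G z = true → (Fintype.card I : ℝ) * δ ≤ |∑ i, (ind (g (z i)) - prob g)|) :
    prob G ≤ 1 / (4 * (Fintype.card I : ℝ) * δ ^ 2) := by
  have ht : (0 : ℝ) < (Fintype.card I : ℝ) := by exact_mod_cast hI
  have h1 := markov (f := fun z : I → X => (∑ i, (ind (g (z i)) - prob g)) ^ 2)
    (fun z => sq_nonneg _) (c := ((Fintype.card I : ℝ) * δ) ^ 2) (by positivity) G (fun z hz => by
      rw [← sq_abs (∑ i, (ind (g (z i)) - prob g))]
      exact pow_le_pow_left₀ (by positivity) (hG z hz) 2)
  refine h1.trans ?_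
  refine (div_le_div_of_nonneg_right (avg_sq_le g) (by positivity)).trans (le_of_eq ?_)
  field_simp

end Pool.Agent.MP_ca1109_lc
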