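import Pool.Agent.MP_ca1109_lc.MonoCirc

/-!
# Slices: every function is a telescoping sum of monotone functions of comparable cost
-/

namespace Pool.Agent.MP_ca1109_lc

open Set

/-- The number of ones. -/
def wt {n : ℕ} (x : Fin n → Bool) : ℕ := (List.finRange n).countP fun i => x i

/-- The list of the coordinate functions. -/
def inL (n : ℕ) : List (BF n) := (List.finRange n).map fun i x => x i

/-- The list of the coordinate functions, except one. -/
def exL {n : ℕ} (i : Fin n) : List (BF n) := ((List.finRange n).erase i).map fun i x => x i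

theorem inL_countP {n : ℕ} (x : Fin n → Bool) : (inL n).countP (fun f => f x) = wt x := by
  simp [inL, wt, List.countP_map, Function.comp_def]

theorem wt_le {n : ℕ} (x : Fin n → Bool) : wt x ≤ n := by
  have := List.countP_le_length (p := fun i => x i) (l := List.finRange n)
  rwa [List.length_finRange] at this

theorem exL_countP {n : ℕ} (i : Fin n) (x : Fin n → Bool) :
    (exL i).countP (fun f => f x) + (if x i then 1 else 0) = wt x := by
  have h1 : (List.finRange n).Perm (i :: (List.finRange n).erase i) :=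
    List.perm_cons_erase (List.mem_finRange i)
  have h2 := h1.countP_eq (fun i => x i)
  rw [List.countP_cons] at h2
  rw [wt, h2]
  simp [exL, List.countP_map, Function.comp_def]

theorem inL_length (n : ℕ) : (inL n).length = n := by simp [inL]

theorem exL_length {n : ℕ} (i : Fin n) : (exL i).length ≤ n := by
  have : ((List.finRange n).erase i).length ≤ (List.finRange n).length :=
    List.erase_sublist.length_le
  rw [List.length_finRange] at this
  rw [exL, List.length_map]
  exact this

theorem gets_inL (n : ℕ) : Gets false (bas n) (n * (n + 1)) (range (th (inL n))) := by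
  have := gets_th (neg := false) (B := bas n) (inL n) (fun f hf => by
    simp only [inL, List.mem_map] at hf
    obtain ⟨i, _, rfl⟩ := hf
    exact inp_mem_bas i) false_mem_bas true_mem_bas
  rwa [inL_length] at this

theorem gets_exL {n : ℕ} (i : Fin n) : Gets false (bas n) (n * (n + 1)) (range (th (exL i))) := by
  have := gets_th (neg := false) (B := bas n) (exL i) (fun f hf => by
    simp only [exL, List.mem_map] at hf
    obtain ⟨j, _, rfl⟩ := hf
    exact inp_mem_bas j) false_mem_bas true_mem_bas
  exact this.weaken subset_rfl (Nat.mul_le_mul (exL_length i) (Nat.succ_le_succ (exL_length i)))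
    subset_rfl

theorem th_exL {n : ℕ} (i : Fin n) (x : Fin n → Bool) : th (exL i) (wt x) x = !(x i) := by
  have h := exL_countP i x
  cases hx : x i
  · rw [hx] at h
    simp only [Bool.false_eq_true, if_false, add_zero] at h
    simp [th, h]
  · rw [hx, if_pos rfl] at h
    rw [th, ← h]
    simp

/-- Dual rails on the slice of weight `k`. -/
theorem dual_rail {n s k : ℕ} {F : Set (BF n)} (h : Der true (bas n) s F) (B' : Set (BF n))
    (hB : bas n ⊆ B') (hN : ∀ i : Fin n, th (exL i) k ∈ B') :
    ∃ s' ≤ 2 * s, ∃ F', Der false B' s' F' ∧ ∀ f ∈ F, ∃ a ∈ F', ∃ b ∈ F', ∀ x, wt x = k →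
      a x = f x ∧ b x = !(f x) := by
  induction h with
  | base =>
    refine ⟨0, Nat.zero_le _, B', Der.base, ?_⟩
    rintro f (⟨i, rfl⟩ | (rfl | hf))
    · refine ⟨_, hB (inp_mem_bas i), _, hN i, ?_⟩
      rintro x rfl
      exact ⟨rfl, th_exL i x⟩
    · exact ⟨_, hB false_mem_bas, _, hB true_mem_bas, fun x _ => ⟨rfl, rfl⟩⟩
    · rw [mem_singleton_iff] at hf
      subst hf
      exact ⟨_, hB true_mem_bas, _, hB false_mem_bas, fun x _ => ⟨rfl, rfl⟩⟩
  | @and s F f g h hf hg ih =>
    obtain ⟨s', hs', F', hF', hd⟩ := ih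
    obtain ⟨a, ha, b, hb, hab⟩ := hd f hf
    obtain ⟨c, hc, d, hd', hcd⟩ := hd g hg
    refine ⟨s' + 1 + 1, by omega, _, (hF'.and ha hc).or (f := b) (g := d)
      (mem_insert_of_mem _ hb) (mem_insert_of_mem _ hd'), ?_⟩
    rintro f' (rfl | hf')
    · refine ⟨_, mem_insert_of_mem _ (mem_insert _ _), _, mem_insert _ _, fun x hx => ?_⟩
      rw [(hab x hx).1, (hab x hx).2, (hcd x hx).1, (hcd x hx).2]
      exact ⟨rfl, (Bool.not_and _ _).symm⟩
    · obtain ⟨a', ha', b', hb', hab'⟩ := hd f' hf'
      exact ⟨a', mem_insert_of_mem _ (mem_insert_of_mem _ ha'), b',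
        mem_insert_of_mem _ (mem_insert_of_mem _ hb'), hab'⟩
  | @or s F f g h hf hg ih =>
    obtain ⟨s', hs', F', hF', hd⟩ := ih
    obtain ⟨a, ha, b, hb, hab⟩ := hd f hf
    obtain ⟨c, hc, d, hd', hcd⟩ := hd g hg
    refine ⟨s' + 1 + 1, by omega, _, (hF'.or ha hc).and (f := b) (g := d)
      (mem_insert_of_mem _ hb) (mem_insert_of_mem _ hd'), ?_⟩
    rintro f' (rfl | hf')
    · refine ⟨_, mem_insert_of_mem _ (mem_insert _ _), _, mem_insert _ _, fun x hx => ?_⟩
      rw [(hab x hx).1, (hab x hx).2, (hcd x hx).1, (hcd x hx).2]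
      exact ⟨rfl, (Bool.not_or _ _).symm⟩
    · obtain ⟨a', ha', b', hb', hab'⟩ := hd f' hf'
      exact ⟨a', mem_insert_of_mem _ (mem_insert_of_mem _ ha'), b',
        mem_insert_of_mem _ (mem_insert_of_mem _ hb'), hab'⟩
  | @not s F f hn h hf ih =>
    obtain ⟨s', hs', F', hF', hd⟩ := ih
    obtain ⟨a, ha, b, hb, hab⟩ := hd f hf
    refine ⟨s', hs', F', hF', ?_⟩
    rintro f' (rfl | hf')
    · refine ⟨b, hb, a, ha, fun x hx => ?_⟩
      rw [(hab x hx).1, (hab x hx).2]
      exact ⟨rfl, (Bool.not_not _).symm⟩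
    · exact hd f' hf'

/-- A monotone function which agrees with `f` on the slice of weight `k`. -/
theorem exists_slice {n S : ℕ} {f : BF n} (h : Gets true (bas n) S {f}) (k : ℕ) :
    ∃ a : BF n, Gets false (bas n) (n * (n * (n + 1)) + 2 * S) {a} ∧
      ∀ x, wt x = k → a x = f x := by
  obtain ⟨s₁, h1, F₁, h2, h3⟩ := h
  have h4 : Gets false (bas n) (n * (n * (n + 1))) (⋃ i : Fin n, range (th (exL i))) := by
    have := Gets.iUnion (ι := Fin n) (neg := false) (B := bas n) (n * (n + 1))
      (fun i => range (th (exL i))) fun i => gets_exL i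
    rwa [Fintype.card_fin] at this
  obtain ⟨s', hs', F', hF', hd⟩ := dual_rail (k := k) h3
    (bas n ∪ ⋃ i : Fin n, range (th (exL i))) subset_union_left
    (fun i => Or.inr (mem_iUnion.2 ⟨i, ⟨k, rfl⟩⟩))
  obtain ⟨a, ha, b, _, hab⟩ := hd f (h2 rfl)
  refine ⟨a, h4.trans' ⟨s', by omega, F', ?_, hF'⟩, fun x hx => (hab x hx).1⟩
  rw [singleton_subset_iff]
  exact ha

/-- The indicator of a Boolean. -/
def ind (b : Bool) : ℝ := if b then 1 else 0

/-- The cost of the monotone functions attached to the slices. -/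
def wcost (n S : ℕ) : ℕ := n * (n * (n + 1)) + 2 * S + n * (n + 1) + 2

/-- Every function is a sum of differences of monotone functions. -/
theorem slices {n S : ℕ} {f : BF n} (h : Gets true (bas n) S {f}) :
    ∃ A B : ℕ → BF n, (∀ k, Gets false (bas n) (wcost n S) {A k}) ∧
      (∀ k, Gets false (bas n) (wcost n S) {B k}) ∧
      ∀ x, ∑ k ∈ Finset.range (n + 1), (ind (A k x) - ind (B k x)) = ind (f x) := by
  have hsl := fun k => exists_slice h k
  choose a ha haf using hsl
  refine ⟨fun k x => th (inL n) (k + 1) x || (th (inL n) k x && a k x),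
    fun k => th (inL n) (k + 1), fun k => ?_, fun k => ?_, fun x => ?_⟩
  · have h1 := (ha k).union (gets_inL n)
    have h2 := (h1.and (f := th (inL n) k) (g := a k) (Or.inr ⟨k, rfl⟩) (Or.inl rfl)).or
      (f := th (inL n) (k + 1)) (g := fun x => th (inL n) k x && a k x)
      (mem_insert_of_mem _ (Or.inr ⟨k + 1, rfl⟩)) (mem_insert _ _)
    refine h2.weaken subset_rfl ?_ ?_
    · unfold wcost; omega
    · rw [singleton_subset_iff]; exact mem_insert _ _
  · refine (gets_inL n).weaken subset_rfl ?_ ?_
    · unfold wcost; omega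
    · rw [singleton_subset_iff]; exact ⟨k + 1, rfl⟩
  · have hth : ∀ j, th (inL n) j x = decide (j ≤ wt x) := fun j => by
      rw [th, inL_countP]
    have hterm : ∀ k ∈ Finset.range (n + 1),
        (ind (th (inL n) (k + 1) x || (th (inL n) k x && a k x)) - ind (th (inL n) (k + 1) x)) =
          if k = wt x then ind (f x) else 0 := by
      intro k _
      rw [hth, hth]
      rcases lt_trichotomy k (wt x) with hk | hk | hk
      · have h1 : k + 1 ≤ wt x := hk
        simp [h1, hk.ne]
      · subst hk
        have h1 : ¬ (wt x + 1 ≤ wt x) := by omega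
        rw [haf (wt x) x rfl]
        simp [ind]
      · have h1 : ¬ (k + 1 ≤ wt x) := by omega
        have h2 : ¬ (k ≤ wt x) := by omega
        simp [h1, h2, hk.ne']
    rw [Finset.sum_congr rfl hterm, Finset.sum_ite_eq' (Finset.range (n + 1)) (wt x)]
    rw [if_pos (Finset.mem_range.2 (Nat.lt_succ_of_le (wt_le x)))]

end Pool.Agent.MP_ca1109_lc
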