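import Pool.Agent.MP_ca1109_lc.MonoBlock

/-!
# Amplification: the exclusive or of two generators
-/

namespace Pool.Agent.MP_ca1109_lc

open Finset

variable {n : ℕ}

/-- Bitwise exclusive or. -/
def vxor (x y : Fin n → Bool) : Fin n → Bool := fun j => xor (x j) (y j)

theorem vxor_vxor (x y : Fin n → Bool) : vxor x (vxor x y) = y := by
  funext j
  simp [vxor]

theorem vxor_comm (x y : Fin n → Bool) : vxor x y = vxor y x := by
  funext j
  exact Bool.xor_comm _ _

/-- Translation. -/
def vxorEquiv (c : Fin n → Bool) : (Fin n → Bool) ≃ (Fin n → Bool) where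
  toFun := vxor c
  invFun := vxor c
  left_inv := vxor_vxor c
  right_inv := vxor_vxor c

theorem prob_vxor (c : Fin n → Bool) (f : BF n) : prob (fun z => f (vxor c z)) = prob f :=
  prob_equiv (vxorEquiv c) f

theorem Up.mono {A : Type*} [Fintype A] {S S' : ℕ} {θ κ : ℝ} {H : A → Fin n → Bool}
    (h : Up n S θ κ H) (hS : S' ≤ S) : Up n S' θ κ H := fun f hf =>
  h f (hf.weaken subset_rfl hS subset_rfl)

theorem up_trivial {A : Type*} [Fintype A] [Nonempty A] (n S : ℕ) (H : A → Fin n → Bool) :
    Up n S 0 1 H := by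
  intro f _
  have := prob_le_one (fun a => f (H a))
  linarith

/-- Translations of the argument are free. -/
theorem gets_vxor {S : ℕ} {f : BF n} (hf : Gets true (bas n) S {f}) (c : Fin n → Bool) :
    Gets true (bas n) S {fun z => f (vxor c z)} := by
  have h1 : ∀ i : Fin n, Gets true (bas n) 0 {fun z : Fin n → Bool => xor (c i) (z i)} := by
    intro i
    cases hc : c i
    · refine Gets.of_subset ?_
      rw [Set.singleton_subset_iff]
      have : (fun z : Fin n → Bool => xor false (z i)) = fun z => z i := by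
        funext z; simp
      rw [this]
      exact inp_mem_bas i
    · refine ((Gets.refl true (bas n)).not rfl (inp_mem_bas i)).weaken subset_rfl le_rfl ?_
      rw [Set.singleton_subset_iff]
      left
      funext z; simp
  have h2 := Gets.iUnion (neg := true) (B := bas n) 0 _ h1
  rw [Nat.mul_zero] at h2
  have h3 := hf.pull (vxor c)
  have h4 := h2.trans' (h3.weaken (B' := bas n ∪ ⋃ i : Fin n,
    {fun z : Fin n → Bool => xor (c i) (z i)}) ?_ le_rfl subset_rfl)
  · rw [Nat.zero_add] at h4
    refine h4.weaken subset_rfl le_rfl ?_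
    rw [Set.singleton_subset_iff]
    exact ⟨f, rfl, rfl⟩
  · rintro _ ⟨g, (⟨j, rfl⟩ | (rfl | hg)), rfl⟩
    · exact Or.inr (Set.mem_iUnion.2 ⟨j, rfl⟩)
    · exact Or.inl false_mem_bas
    · rw [Set.mem_singleton_iff] at hg
      subst hg
      exact Or.inl true_mem_bas

theorem layer {k J : ℕ} (h : k ≤ J) :
    (k : ℝ) = ∑ j ∈ range J, ind (decide (j + 1 ≤ k)) := by
  have h1 : ∀ j ∈ range J, ind (decide (j + 1 ≤ k)) = if j ∈ range k then (1 : ℝ) else 0 := by
    intro j _
    by_cases hj : j + 1 ≤ k
    · have : j ∈ range k := Finset.mem_range.2 hj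
      simp [ind, hj, this]
    · have : j ∉ range k := fun h => hj (Finset.mem_range.1 h)
      simp only [ind, hj, decide_false, if_neg this]
      simp
  rw [Finset.sum_congr rfl h1, Finset.sum_ite_mem, Finset.sum_const, nsmul_eq_mul, mul_one,
    Finset.inter_eq_right.2 (Finset.range_subset_range.2 h), Finset.card_range]

/-- The exclusive or of two generators. -/
theorem up_xor {A B : Type*} [Fintype A] [Nonempty A] [Fintype B] [Nonempty B] {S S' : ℕ}
    {θ κ η κ' : ℝ} {H : A → Fin n → Bool} {H' : B → Fin n → Bool} (hH : Up n S θ κ H)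
    (hH' : Up n S' η κ' H') (hη : 0 ≤ η) (hκ' : 0 ≤ κ')
    (hS : Fintype.card A * S + Fintype.card A * (Fintype.card A + 1) ≤ S') :
    Up n S (η + κ' * θ) (κ' * κ) (fun p : A × B => vxor (H p.1) (H' p.2)) := by
  intro f hf
  set p : ℝ := prob f with hp
  set N : ℝ := (Fintype.card A : ℝ) with hN
  have hN0 : 0 < N := card_pos_real
  -- the counting function
  let L : List (BF n) := (univ : Finset A).toList.map fun a z => f (vxor (H a) z)
  have hL : L.length = Fintype.card A := by
    simp [L, Finset.length_toList]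
  let Φ : (Fin n → Bool) → ℕ := fun z => L.countP fun g => g z
  have hΦN : ∀ z, Φ z ≤ Fintype.card A := fun z => by
    have := List.countP_le_length (p := fun g : BF n => g z) (l := L)
    rwa [hL] at this
  have hΦ : ∀ z, (Φ z : ℝ) = N * avg fun a => ind (f (vxor (H a) z)) := by
    intro z
    have key : ∀ L : List (BF n), ((L.countP fun f => f z : ℕ) : ℝ) =
        (L.map fun f => ind (f z)).sum := by
      intro L
      induction L with
      | nil => simp
      | cons f L ih =>
        rw [List.countP_cons, List.map_cons, List.sum_cons, Nat.cast_add, ih]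
        cases f z <;> simp [ind, add_comm]
    have h1 : (Φ z : ℝ) = ∑ a, ind (f (vxor (H a) z)) := by
      show ((L.countP fun g => g z : ℕ) : ℝ) = _
      rw [key, List.map_map]
      exact Finset.sum_map_toList univ _
    rw [h1, avg, mul_div_assoc', mul_comm, mul_div_assoc, div_self hN0.ne', mul_one]
  -- bound for every `z`
  set u : ℝ := p + θ + κ * (1 - p) with hu
  have hΦu : ∀ z, (Φ z : ℝ) ≤ N * u := by
    intro z
    rw [hΦ]
    refine mul_le_mul_of_nonneg_left ?_ hN0.le
    have h1 := hH (fun x => f (vxor z x)) (gets_vxor hf z)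
    rw [prob_vxor] at h1
    rw [prob_eq_avg] at h1
    simp only [vxor_comm z] at h1
    exact h1
  -- the average
  have hΦavg : avg (fun z => (Φ z : ℝ)) = N * p := by
    simp only [hΦ]
    rw [avg_mul_left]
    congr 1
    have h1 : avg (fun z : Fin n → Bool => avg fun a => ind (f (vxor (H a) z))) =
        avg fun a => avg fun z : Fin n → Bool => ind (f (vxor (H a) z)) := by
      rw [← avg_prod fun (z : Fin n → Bool) a => ind (f (vxor (H a) z)),
        ← avg_prod fun a (z : Fin n → Bool) => ind (f (vxor (H a) z))]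
      exact avg_equiv (Equiv.prodComm _ _) fun q : A × (Fin n → Bool) => ind (f (vxor (H q.1) q.2))
    rw [h1]
    have h2 : ∀ a, avg (fun z : Fin n → Bool => ind (f (vxor (H a) z))) = p := by
      intro a
      rw [← prob_eq_avg fun z => f (vxor (H a) z), prob_vxor]
    simp only [h2]
    exact avg_const p
  -- the maximum
  obtain ⟨z₀, -, hz₀⟩ := Finset.exists_max_image (univ : Finset (Fin n → Bool)) Φ ⟨_, mem_univ (fun _ => false)⟩
  set J : ℕ := Φ z₀ with hJ
  have hJmax : ∀ z, Φ z ≤ J := fun z => hz₀ z (mem_univ z)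
  have hJu : (J : ℝ) ≤ N * u := hΦu z₀
  have hJN : (J : ℝ) ≤ N := by
    rw [hN]
    exact_mod_cast hΦN z₀
  have hlay : ∀ z, (Φ z : ℝ) = ∑ j ∈ range J, ind (th L (j + 1) z) := fun z => layer (hJmax z)
  -- the thresholds
  have hD : ∀ j, Gets true (bas n) S' {th L (j + 1)} := by
    intro j
    have h1 : ∀ a : A, Gets true (bas n) S {fun z => f (vxor (H a) z)} := fun a =>
      gets_vxor hf (H a)
    have h2 := Gets.iUnion (neg := true) (B := bas n) S _ h1
    have h3 := gets_th (neg := true) (B := bas n ∪ ⋃ a : A, {fun z => f (vxor (H a) z)}) L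
      (fun g hg => by
        simp only [L, List.mem_map] at hg
        obtain ⟨a, _, rfl⟩ := hg
        exact Or.inr (Set.mem_iUnion.2 ⟨a, rfl⟩)) (Or.inl false_mem_bas) (Or.inl true_mem_bas)
    rw [hL] at h3
    refine (h2.trans' h3).weaken subset_rfl hS ?_
    rw [Set.singleton_subset_iff]
    exact ⟨j + 1, rfl⟩
  have hq : ∑ j ∈ range J, prob (th L (j + 1)) = N * p := by
    rw [← hΦavg]
    simp only [hlay]
    rw [avg_sum]
    exact Finset.sum_congr rfl fun j _ => prob_eq_avg _
  -- the main computation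
  have h1 : prob (fun q : A × B => f (vxor (H q.1) (H' q.2))) =
      (∑ j ∈ range J, prob fun b => th L (j + 1) (H' b)) / N := by
    have e1 : prob (fun q : A × B => f (vxor (H q.1) (H' q.2))) =
        avg fun b => avg fun a => ind (f (vxor (H a) (H' b))) := by
      rw [prob_eq_avg, ← avg_prod fun b a => ind (f (vxor (H a) (H' b)))]
      exact avg_equiv (Equiv.prodComm A B) fun q : B × A => ind (f (vxor (H q.2) (H' q.1)))
    have e2 : ∀ b, avg (fun a => ind (f (vxor (H a) (H' b)))) =
        N⁻¹ * ∑ j ∈ range J, ind (th L (j + 1) (H' b)) := by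
      intro b
      rw [← hlay, hΦ, inv_mul_cancel_left₀ hN0.ne']
    rw [e1]
    simp only [e2]
    rw [avg_mul_left, avg_sum, div_eq_inv_mul]
    congr 1
    exact Finset.sum_congr rfl fun j _ => (prob_eq_avg _).symm
  rw [h1, div_le_iff₀ hN0]
  have h2 : ∑ j ∈ range J, prob (fun b => th L (j + 1) (H' b)) ≤
      ∑ j ∈ range J, (prob (th L (j + 1)) + η + κ' * (1 - prob (th L (j + 1)))) :=
    Finset.sum_le_sum fun j _ => hH' _ (hD j)
  have h3 : ∑ j ∈ range J, (prob (th L (j + 1)) + η + κ' * (1 - prob (th L (j + 1)))) =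
      (1 - κ') * (N * p) + J * (η + κ') := by
    have e3 : ∀ j, prob (th L (j + 1)) + η + κ' * (1 - prob (th L (j + 1))) =
        (1 - κ') * prob (th L (j + 1)) + (η + κ') := fun j => by ring
    simp only [e3]
    rw [Finset.sum_add_distrib, ← Finset.mul_sum, hq, Finset.sum_const, Finset.card_range,
      nsmul_eq_mul]
  have h4 : (J : ℝ) * η ≤ N * η := mul_le_mul_of_nonneg_right hJN hη
  have h5 : (J : ℝ) * κ' ≤ N * u * κ' := mul_le_mul_of_nonneg_right hJu hκ'
  calc ∑ j ∈ range J, prob (fun b => th L (j + 1) (H' b))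
      ≤ (1 - κ') * (N * p) + J * (η + κ') := h2.trans h3.le
    _ ≤ (1 - κ') * (N * p) + (N * η + N * u * κ') := by linarith
    _ = (p + (η + κ' * θ) + κ' * κ * (1 - p)) * N := by rw [hu]; ring

/-- The two-sided bound. -/
theorem Up.advantage {A : Type*} [Fintype A] [Nonempty A] {S : ℕ} {θ κ : ℝ}
    {H : A → Fin n → Bool} (h : Up n S θ κ H) (hκ : 0 ≤ κ) (C : Circuit n) (hC : C.size ≤ S) :
    Pool.Agent.MP_ca1109_lc.advantage H C ≤ θ + κ := by
  have h0 := circuit_gets C hC
  have h1 := h _ h0
  have h2 : Gets true (bas n) S {fun x => !(C.eval x)} :=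
    (h0.not rfl (f := fun x => C.eval x) rfl).weaken subset_rfl le_rfl (by
      rw [Set.singleton_subset_iff]; exact Set.mem_insert _ _)
  have h3 := h _ h2
  rw [prob_not, prob_not] at h3
  have h4 := prob_nonneg (fun x : Fin n → Bool => C.eval x)
  have h5 := prob_le_one (fun x : Fin n → Bool => C.eval x)
  unfold Pool.Agent.MP_ca1109_lc.advantage
  rw [abs_le]
  constructor
  · nlinarith
  · nlinarith

end Pool.Agent.MP_ca1109_lc
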