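import Pool.Agent.MP_ca1109_lc.SymMain

/-!
# Residue classes
-/

namespace Pool.Agent.MP_ca1109_lc

open Pool.Agent.H66 Finset

/-- The colouring of the coordinates `0, ..., m - 1` by the residues modulo `r m`. -/
def modCol (r : ℕ → ℕ) (m p : ℕ) : ℕ := p % r m

theorem div_eq_filter {r : ℕ} (hr : 0 < r) (p : ℕ) :
    ((List.range p).filter fun i => decide ((i + 1) * r ≤ p)).length = p / r := by
  have h1 : ((List.range p).filter fun i => decide ((i + 1) * r ≤ p)).toFinset =
      range (p / r) := by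
    ext i
    rw [List.mem_toFinset, List.mem_filter, List.mem_range, mem_range, decide_eq_true_eq,
      ← Nat.le_div_iff_mul_le hr]
    have := Nat.div_le_self p r
    omega
  rw [← List.toFinset_card_of_nodup (List.Nodup.filter _ List.nodup_range), h1, card_range]

theorem mod_eq (r p : ℕ) :
    p - r * ((List.range p).filter fun i => decide ((i + 1) * r ≤ p)).length = p % r := by
  rcases Nat.eq_zero_or_pos r with rfl | hr
  · simp
  · rw [div_eq_filter hr]
    have := Nat.div_add_mod p r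
    omega

theorem polyTime_modCol {r : ℕ → ℕ} (hr : PolyTime r) :
    PolyTime fun p : ℕ × ℕ => modCol r p.1 p.2 := by
  refine (PolyTime.sub PolyTime.snd (PolyTime.mul (hr.comp PolyTime.fst)
    (PolyTime.length (PolyTime.filter (l := fun p : ℕ × ℕ => List.range p.2)
      (f := fun p i => decide ((i + 1) * r p.1 ≤ p.2)) (PolyTime.range PolyTime.snd)
      ?_)))).of_eq fun p => mod_eq (r p.1) p.2
  exact PolyTime.leb (PolyTime.mul (PolyTime.succ.comp PolyTime.snd)
    ((hr.comp PolyTime.fst).comp PolyTime.fst)) (PolyTime.snd.comp PolyTime.fst)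

theorem modCol_lt (r : ℕ → ℕ) (m : ℕ) : ∀ p < m, modCol r m p < m :=
  fun p hp => (Nat.mod_le p (r m)).trans_lt hp

theorem le_cnum_mod (r : ℕ → ℕ) {m c : ℕ} (hc : c < r m) : m / r m ≤ cnum (modCol r) m c := by
  classical
  have hr : 0 < r m := by omega
  have h := Finset.card_le_card_of_injOn (s := range (m / r m))
    (t := (range m).filter fun p => modCol r m p = c) (fun i => c + i * r m) ?_ ?_
  · rwa [card_range] at h
  · intro i hi
    rw [mem_coe, mem_range] at hi
    rw [mem_coe, mem_filter, mem_range]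
    have h1 : (i + 1) * r m ≤ m := (Nat.mul_le_mul_right _ hi).trans (Nat.div_mul_le_self _ _)
    have h2 : (i + 1) * r m = i * r m + r m := by ring
    refine ⟨by simp only; omega, ?_⟩
    unfold modCol
    simp only
    rw [Nat.add_mul_mod_self_right, Nat.mod_eq_of_lt hc]
  · intro i _ i' _ h
    simp only at h
    exact Nat.eq_of_mul_eq_mul_right hr (by omega)

theorem le_orbits_mod (r : ℕ → ℕ) {m : ℕ} (hr : r m ≤ m) :
    (m / r m + 1) ^ r m ≤ orbits (modCol r) m := by
  unfold orbits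
  calc (m / r m + 1) ^ r m = ∏ _c ∈ range (r m), (m / r m + 1) := by
        rw [prod_const, card_range]
    _ ≤ ∏ c ∈ range (r m), (cnum (modCol r) m c + 1) :=
        prod_le_prod' fun c hc => Nat.succ_le_succ (le_cnum_mod r (mem_range.1 hc))
    _ ≤ ∏ c ∈ range m, (cnum (modCol r) m c + 1) := by
        refine prod_le_prod_of_subset_of_one_le' ?_ fun c _ _ => Nat.succ_le_succ (Nat.zero_le _)
        intro c hc
        rw [mem_range] at hc ⊢
        omega

theorem orbits_mod_le (r : ℕ → ℕ) {m : ℕ} (hr : 0 < r m) :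
    orbits (modCol r) m ≤ (m + 1) ^ r m := by
  classical
  unfold orbits
  have h0 : ∀ c, r m ≤ c → cnum (modCol r) m c = 0 := by
    intro c hc
    unfold cnum
    rw [card_eq_zero, filter_eq_empty_iff]
    intro p _ h
    have := Nat.mod_lt p hr
    unfold modCol at h
    omega
  calc ∏ c ∈ range m, (cnum (modCol r) m c + 1)
      ≤ ∏ c ∈ range (max m (r m)), (cnum (modCol r) m c + 1) := by
        refine prod_le_prod_of_subset_of_one_le' ?_ fun c _ _ => Nat.succ_le_succ (Nat.zero_le _)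
        intro c hc
        rw [mem_range] at hc ⊢
        omega
    _ = ∏ c ∈ range (r m), (cnum (modCol r) m c + 1) := by
        symm
        refine prod_subset ?_ ?_
        · intro c hc
          rw [mem_range] at hc ⊢
          omega
        · intro c _ hc
          rw [mem_range, not_lt] at hc
          simp [h0 c hc]
    _ ≤ ∏ _c ∈ range (r m), (m + 1) :=
        prod_le_prod' fun c _ => Nat.succ_le_succ (cnum_le _ m c)
    _ = (m + 1) ^ r m := by rw [prod_const, card_range]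

theorem mod_small {r : ℕ → ℕ} {R : ℕ} (hR : ∀ m, 0 < r m ∧ r m ≤ R) :
    ∀ᶠ m : ℕ in Filter.atTop, orbits (modCol r) m ≤ m ^ (2 * R) := by
  filter_upwards [Filter.eventually_ge_atTop 2] with m hm
  have h1 : m + 1 ≤ m ^ 2 := by nlinarith
  calc orbits (modCol r) m ≤ (m + 1) ^ r m := orbits_mod_le r (hR m).1
    _ ≤ (m + 1) ^ R := Nat.pow_le_pow_right (by omega) (hR m).2
    _ ≤ (m ^ 2) ^ R := Nat.pow_le_pow_left h1 R
    _ = m ^ (2 * R) := (pow_mul _ _ _).symm

theorem mod_big {r : ℕ → ℕ} (hr : ∀ m, r m ≤ m) (ht : Filter.Tendsto r Filter.atTop Filter.atTop)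
    (k : ℕ) : ∀ᶠ m : ℕ in Filter.atTop, m ^ k ≤ orbits (modCol r) m := by
  have h1 : ∀ᶠ n : ℕ in Filter.atTop, (n : ℝ) ^ (2 * k) / (2 : ℝ) ^ n < 1 :=
    (tendsto_pow_const_div_const_pow_of_one_lt (2 * k) (by norm_num : (1 : ℝ) < 2)).eventually
      (gt_mem_nhds one_pos)
  filter_upwards [ht.eventually h1, ht.eventually (Filter.eventually_ge_atTop (2 * k + 1))]
    with m hm1 hm2
  rw [div_lt_one (by positivity)] at hm1
  have h2 : r m ^ (2 * k) < 2 ^ r m := by exact_mod_cast hm1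
  refine le_trans ?_ (le_orbits_mod r (hr m))
  have hr0 : 0 < r m := by omega
  by_cases hc : r m ^ 2 ≤ m
  · have h3 : m ≤ (m / r m + 1) ^ 2 := by
      have h4 : m < (m / r m + 1) * r m := by
        have := Nat.lt_div_mul_add (a := m) hr0
        calc m < m / r m * r m + r m := this
          _ = _ := by ring
      have h5 : r m ≤ m / r m := by
        rw [Nat.le_div_iff_mul_le hr0, ← pow_two]
        exact hc
      nlinarith
    calc m ^ k ≤ ((m / r m + 1) ^ 2) ^ k := Nat.pow_le_pow_left h3 k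
      _ = (m / r m + 1) ^ (2 * k) := (pow_mul _ _ _).symm
      _ ≤ (m / r m + 1) ^ r m := Nat.pow_le_pow_right (Nat.succ_pos _) (by omega)
  · have h3 : 1 ≤ m / r m := by
      rw [Nat.le_div_iff_mul_le hr0, one_mul]
      exact hr m
    calc m ^ k ≤ (r m ^ 2) ^ k := Nat.pow_le_pow_left (by omega) k
      _ = r m ^ (2 * k) := (pow_mul _ _ _).symm
      _ ≤ 2 ^ r m := h2.le
      _ ≤ (m / r m + 1) ^ r m := Nat.pow_le_pow_left (by omega) _

/-! ## The threshold -/

/-- There is a logarithmic-seed generator, computable in polynomial time, which fools, for all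
large `m`, every function of `m` bits that depends only on the numbers of ones in the colour
classes, with error at most `1 / m ^ j`. -/
def FoolsSym (χ : ℕ → ℕ → ℕ) (j : ℕ) : Prop :=
  ∃ (d : ℕ → ℕ) (G : ℕ → List Bool → List Bool),
    PolyTime d ∧ PolyTime (fun p : ℕ × List Bool => G p.1 p.2) ∧
    (∀ m s, s.length = d m → (G m s).length = m) ∧
    ∃ c : ℝ, ∀ᶠ m : ℕ in Filter.atTop, (d m : ℝ) ≤ c * Real.logb 2 m ∧ d m < m ∧
      ∀ f : (Fin m → Bool) → Bool, SymFun χ f →
        |prob (fun s : Fin (d m) → Bool => f (bits m (G m (List.ofFn s)))) - prob f| ≤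
          1 / (m : ℝ) ^ j

theorem sym_threshold :
    (∀ χ : ℕ → ℕ → ℕ, PolyTime (fun p : ℕ × ℕ => χ p.1 p.2) → (∀ m, ∀ p < m, χ m p < m) →
      ((∃ k : ℕ, ∀ᶠ m : ℕ in Filter.atTop, orbits χ m ≤ m ^ k) → ∀ j, FoolsSym χ j) ∧
      ((∀ k : ℕ, ∀ᶠ m : ℕ in Filter.atTop, m ^ k ≤ orbits χ m) →
        (∀ j, HitExists χ j → HardLanguage) ∧
        ∀ δ : ℝ, δ < 1 → GenExists (fun _ C => SymFun χ C.eval) δ → HardLanguage)) ∧
    ∀ r : ℕ → ℕ, PolyTime r →
      ((∃ R, ∀ m, 0 < r m ∧ r m ≤ R) → ∀ j, FoolsSym (modCol r) j) ∧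
      ((∀ m, r m ≤ m) → Filter.Tendsto r Filter.atTop Filter.atTop →
        (∀ j, HitExists (modCol r) j → HardLanguage) ∧
        ∀ δ : ℝ, δ < 1 → GenExists (fun _ C => SymFun (modCol r) C.eval) δ → HardLanguage) := by
  have main : ∀ χ : ℕ → ℕ → ℕ, PolyTime (fun p : ℕ × ℕ => χ p.1 p.2) →
      (∀ m, ∀ p < m, χ m p < m) →
      ((∃ k : ℕ, ∀ᶠ m : ℕ in Filter.atTop, orbits χ m ≤ m ^ k) → ∀ j, FoolsSym χ j) ∧
      ((∀ k : ℕ, ∀ᶠ m : ℕ in Filter.atTop, m ^ k ≤ orbits χ m) →
        (∀ j, HitExists χ j → HardLanguage) ∧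
        ∀ δ : ℝ, δ < 1 → GenExists (fun _ C => SymFun χ C.eval) δ → HardLanguage) := by
    intro χ hχ hχ'
    refine ⟨?_, fun hbig => ⟨fun j h => hard_of_hit hχ hχ' hbig h, fun δ hδ h => ?_⟩⟩
    · rintro ⟨k, hk⟩ j
      exact sym_easy hχ hχ' hk j
    · exact hard_of_hit hχ hχ' hbig (hit_of_gen hδ h)
  refine ⟨main, fun r hr => ⟨?_, fun h1 h2 => ?_⟩⟩
  · rintro ⟨R, hR⟩
    exact (main _ (polyTime_modCol hr) (modCol_lt r)).1 ⟨2 * R, mod_small hR⟩
  · exact (main _ (polyTime_modCol hr) (modCol_lt r)).2 (mod_big h1 h2)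

end Pool.Agent.MP_ca1109_lc
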