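import Pool.Agent.MP_ca1109_lc.SymGen

/-!
# Symmetric tests with polynomially many orbits are fooled
-/

namespace Pool.Agent.MP_ca1109_lc

open Pool.Agent.H66 Finset

/-- The generator. -/
def sgen (χ : ℕ → ℕ → ℕ) (e m : ℕ) (s : List Bool) : List Bool :=
  (tab χ e m m).getD (cval (nseed e m) s) (List.replicate m false)

theorem polyTime_sgen {χ : ℕ → ℕ → ℕ} (hχ : PolyTime fun p : ℕ × ℕ => χ p.1 p.2)
    (hχ' : ∀ m, ∀ p < m, χ m p < m) (e : ℕ) :
    PolyTime fun p : ℕ × List Bool => sgen χ e p.1 p.2 := by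
  have h1 : PolyTime fun p : ℕ × List Bool => tab χ e p.1 p.1 :=
    (polyTime_tab hχ hχ' e).comp PolyTime.fst
  have h2 : PolyTime fun p : ℕ × List Bool => cval (nseed e p.1) p.2 :=
    polyTime_cval ((polyTime_nseed e).comp PolyTime.fst) PolyTime.snd
  have h4 : PolyTime fun p : ℕ × List Bool => List.replicate p.1 false :=
    PolyTime.replicate PolyTime.fst (PolyTime.const false)
  have h5 : PolyTime fun p : ℕ × List Bool =>
      decide (cval (nseed e p.1) p.2 < (tab χ e p.1 p.1).length) :=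
    PolyTime.ltb h2 (PolyTime.length h1)
  refine (PolyTime.ite h5 (PolyTime.getD h2 h1 []) h4).of_eq fun p => ?_
  unfold sgen
  by_cases h : cval (nseed e p.1) p.2 < (tab χ e p.1 p.1).length
  · rw [if_pos (decide_eq_true h), List.getD_eq_getElem _ _ h, List.getD_eq_getElem _ _ h]
  · rw [if_neg (by rw [decide_eq_true_eq]; exact h), List.getD_eq_default _ _ (by omega)]

theorem sgen_length {χ : ℕ → ℕ → ℕ} (hχ' : ∀ m, ∀ p < m, χ m p < m) (e m : ℕ) (s : List Bool) :
    (sgen χ e m s).length = m := by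
  unfold sgen
  by_cases h : cval (nseed e m) s < (tab χ e m m).length
  · rw [List.getD_eq_getElem _ _ h]
    exact (tab_spec χ hχ' e m m le_rfl).2.1 _ (List.getElem_mem h)
  · rw [List.getD_eq_default _ _ (by omega), List.length_replicate]

theorem sum_seeds (D : ℕ) (F : ℕ → ℝ) :
    ∑ s : Fin D → Bool, F (bval (List.ofFn s)) = ∑ i ∈ range (2 ^ D), F i := by
  have hinj : Function.Injective fun s : Fin D → Bool => bval (List.ofFn s) := by
    intro s s' h
    have h1 := bval_inj _ _ (by simp) h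
    exact List.ofFn_injective h1
  have himg : (univ.image fun s : Fin D → Bool => bval (List.ofFn s)) = range (2 ^ D) := by
    apply Finset.eq_of_subset_of_card_le
    · intro i hi
      rw [Finset.mem_image] at hi
      obtain ⟨s, -, rfl⟩ := hi
      rw [Finset.mem_range]
      have := bval_lt (List.ofFn s)
      rwa [List.length_ofFn] at this
    · rw [Finset.card_image_of_injective _ hinj]
      simp
  rw [← himg, Finset.sum_image hinj.injOn]

theorem list_sum_getD (l : List (List Bool)) (h : List Bool → ℝ) (dd : List Bool) :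
    (l.map h).sum = ∑ i ∈ range l.length, h (l.getD i dd) := by
  induction l with
  | nil => simp
  | cons a l ih =>
    rw [List.map_cons, List.sum_cons, ih, List.length_cons, Finset.sum_range_succ']
    simp only [List.getD_cons_succ, List.getD_cons_zero]
    ring

theorem prob_sgen {χ : ℕ → ℕ → ℕ} (hχ' : ∀ m, ∀ p < m, χ m p < m) (e m : ℕ)
    (f : (Fin m → Bool) → Bool) :
    nseed e m * prob (fun s : Fin (e * Nat.clog 2 m) → Bool =>
      f (bits m (sgen χ e m (List.ofFn s)))) = ((tab χ e m m).map (ext f 0)).sum := by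
  have e1 : 2 ^ (e * Nat.clog 2 m) = nseed e m := by
    unfold nseed
    rw [← pow_mul, mul_comm]
  have h1 := (tab_spec χ hχ' e m m le_rfl).1
  rw [prob_eq_avg, list_sum_getD _ _ (List.replicate m false), h1, ← e1,
    ← sum_seeds (e * Nat.clog 2 m) fun i =>
      ext f 0 ((tab χ e m m).getD i (List.replicate m false))]
  unfold avg
  rw [Fintype.card_fun, Fintype.card_bool, Fintype.card_fin]
  push_cast
  rw [mul_div_cancel₀ _ (by positivity)]
  refine Finset.sum_congr rfl fun s _ => ?_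
  unfold sgen ext
  rw [cval_eq]
  rw [List.length_ofFn, e1]
  omega

theorem sgen_error {χ : ℕ → ℕ → ℕ} (hχ' : ∀ m, ∀ p < m, χ m p < m) (e m : ℕ)
    (f : (Fin m → Bool) → Bool) (hf : SymFun χ f) :
    2 * nseed e m * |prob (fun s : Fin (e * Nat.clog 2 m) → Bool =>
      f (bits m (sgen χ e m (List.ofFn s)))) - prob f| ≤ m * orbits χ m := by
  have h1 := (tab_spec χ hχ' e m m le_rfl).2.2 f hf
  rw [Nat.sub_self, ← prob_sgen hχ'] at h1
  refine le_trans (le_of_eq ?_) h1
  rw [← abs_of_nonneg (by positivity : (0 : ℝ) ≤ 2 * nseed e m), ← abs_mul]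
  congr 1
  rw [abs_of_nonneg (by positivity : (0 : ℝ) ≤ 2 * nseed e m)]
  ring

/-- Colourings with polynomially many orbits: all symmetric functions are fooled. -/
theorem sym_easy {χ : ℕ → ℕ → ℕ} (hχ : PolyTime fun p : ℕ × ℕ => χ p.1 p.2)
    (hχ' : ∀ m, ∀ p < m, χ m p < m) {k : ℕ}
    (hk : ∀ᶠ m : ℕ in Filter.atTop, orbits χ m ≤ m ^ k) (j : ℕ) :
    ∃ (d : ℕ → ℕ) (G : ℕ → List Bool → List Bool),
      PolyTime d ∧ PolyTime (fun p : ℕ × List Bool => G p.1 p.2) ∧
      (∀ m s, s.length = d m → (G m s).length = m) ∧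
      ∃ c : ℝ, ∀ᶠ m : ℕ in Filter.atTop, (d m : ℝ) ≤ c * Real.logb 2 m ∧ d m < m ∧
        ∀ f : (Fin m → Bool) → Bool, SymFun χ f →
          |prob (fun s : Fin (d m) → Bool => f (bits m (G m (List.ofFn s)))) - prob f| ≤
            1 / (m : ℝ) ^ j := by
  set e := k + j + 1 with he
  refine ⟨fun m => e * Nat.clog 2 m, sgen χ e, ?_, polyTime_sgen hχ hχ' e,
    fun m s _ => sgen_length hχ' e m s, 2 * e, ?_⟩
  · exact PolyTime.mul (PolyTime.const e) polyTime_clog
  have h1 : ∀ᶠ n : ℕ in Filter.atTop, (n : ℝ) ^ (2 * e) / (2 : ℝ) ^ n < 1 :=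
    (tendsto_pow_const_div_const_pow_of_one_lt (2 * e) (by norm_num : (1 : ℝ) < 2)).eventually
      (gt_mem_nhds one_pos)
  filter_upwards [hk, h1, Filter.eventually_ge_atTop 2] with m hm hm1 hm2
  have hm0 : (0 : ℝ) < m := by exact_mod_cast (by omega : 0 < m)
  have h3 : 2 ^ Nat.clog 2 m ≤ m ^ 2 := by
    refine (two_pow_clog_le m (by omega)).trans ?_
    rw [pow_two]
    exact Nat.mul_le_mul_right _ hm2
  have h4 : 2 ^ (e * Nat.clog 2 m) ≤ m ^ (2 * e) := by
    rw [mul_comm e, pow_mul, pow_mul]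
    exact Nat.pow_le_pow_left h3 e
  refine ⟨?_, ?_, fun f hf => ?_⟩
  · have h2 : ((2 : ℝ) ^ (e * Nat.clog 2 m)) ≤ (m : ℝ) ^ (2 * e) := by exact_mod_cast h4
    have h3 := Real.logb_le_logb_of_le (by norm_num : (1 : ℝ) < 2) (by positivity) h2
    rw [Real.logb_pow, Real.logb_pow, Real.logb_self_eq_one (by norm_num), mul_one] at h3
    push_cast at h3 ⊢
    exact h3
  · rw [div_lt_one (by positivity)] at hm1
    have h2 : m ^ (2 * e) < 2 ^ m := by exact_mod_cast hm1
    exact (Nat.pow_lt_pow_iff_right (by norm_num)).1 (h4.trans_lt h2)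
  · have h5 := sgen_error hχ' e m f hf
    have h6 : (m : ℝ) ^ e ≤ nseed e m := by exact_mod_cast le_nseed e m
    have h7 : (orbits χ m : ℝ) ≤ (m : ℝ) ^ k := by exact_mod_cast hm
    rw [le_div_iff₀ (by positivity)]
    set A := |prob (fun s : Fin (e * Nat.clog 2 m) → Bool =>
      f (bits m (sgen χ e m (List.ofFn s)))) - prob f| with hA
    have hA0 : 0 ≤ A := abs_nonneg _
    have h8 : 2 * (m : ℝ) ^ e * A ≤ (m : ℝ) ^ (k + 1) := by
      calc 2 * (m : ℝ) ^ e * A ≤ 2 * nseed e m * A := by gcongr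
        _ ≤ m * orbits χ m := h5
        _ ≤ m * (m : ℝ) ^ k := by gcongr
        _ = (m : ℝ) ^ (k + 1) := by ring
    have h9 : (m : ℝ) ^ (k + 1) * (A * (m : ℝ) ^ j) ≤ (m : ℝ) ^ (k + 1) * 1 := by
      have : (m : ℝ) ^ e = (m : ℝ) ^ (k + 1) * (m : ℝ) ^ j := by
        rw [← pow_add, he]
        congr 1
        omega
      rw [this] at h8
      nlinarith [mul_nonneg (pow_nonneg hm0.le (k + 1)) (mul_nonneg hA0 (pow_nonneg hm0.le j))]
    exact le_of_mul_le_mul_left h9 (by positivity)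

end Pool.Agent.MP_ca1109_lc
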