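import Pool.Agent.MP_ca1109_lc.Weights
import Pool.Agent.MP_ca1109_lc.Generic

/-!
# Sign vectors of a low-dimensional space have a large projection after reweighting
-/

namespace Pool.Agent.MP_ca1109_lc

open Finset Matrix Module

/-- the number of errors of `v` as a sign representation of `x` -/
noncomputable def errs {ι : Type*} [Fintype ι] (x p : ι → ℝ) : ℕ :=
  by classical exact (univ.filter fun i => x i * p i ≤ 0).card

theorem exists_system {ι A : Type} [Fintype ι] [DecidableEq ι] [Finite A] (r : ℕ) (hr : 0 < r)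
    (hcard : r ≤ Fintype.card ι) (v : ι → Fin r → ℝ) (u : A → Fin r → ℝ) (x : A → ι → ℝ)
    (hx : ∀ a i, x a i = 1 ∨ x a i = -1) (A' : Set A)
    (herr : ∀ a ∈ A', 12 * r * errs (x a) (fun i => u a ⬝ᵥ v i) ≤ Fintype.card ι) :
    ∃ (k : ℕ) (q : Fin k → ι → ℝ), k ≤ r ∧
      (∀ j l, ∑ i, q j i * q l i = if j = l then 1 else 0) ∧
      ∀ a ∈ A', (Fintype.card ι : ℝ) ≤ 12 * r * ∑ j, (∑ i, q j i * x a i) ^ 2 := by
  classical
  set t := Fintype.card ι with ht
  have ht0 : 0 < t := lt_of_lt_of_le hr hcard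
  have htR : (0 : ℝ) < t := by exact_mod_cast ht0
  have hrR : (0 : ℝ) < r := by exact_mod_cast hr
  obtain ⟨v', hgen, hsgn⟩ := exists_perturb v u
  obtain ⟨w, hw, hlev⟩ := exists_weights hr v' hgen hcard
  -- the weighted column space
  let Ψ : (Fin r → ℝ) →ₗ[ℝ] EuclideanSpace ℝ ι :=
    { toFun := fun z => WithLp.toLp 2 fun i => √(w i) * (z ⬝ᵥ v' i)
      map_add' := fun a b => by
        ext i
        simp [add_dotProduct, mul_add]
      map_smul' := fun c a => by
        ext i
        simp only [smul_dotProduct, smul_eq_mul, RingHom.id_apply, PiLp.smul_apply]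
        ring }
  have hΨ : ∀ z i, Ψ z i = √(w i) * (z ⬝ᵥ v' i) := fun z i => rfl
  set F := LinearMap.range Ψ with hF
  let b := stdOrthonormalBasis ℝ F
  have hk : finrank ℝ F ≤ r := by
    have h1 := LinearMap.finrank_range_le Ψ
    rwa [finrank_fin_fun] at h1
  refine ⟨finrank ℝ F, fun j i => ((b j : F) : EuclideanSpace ℝ ι) i, hk, ?_, ?_⟩
  · intro j l
    have h1 := orthonormal_iff_ite.1 b.orthonormal j l
    rw [Submodule.coe_inner, PiLp.inner_apply] at h1
    rw [← h1]
    refine Finset.sum_congr rfl fun i _ => ?_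
    simp [mul_comm]
  intro a ha
  set f : EuclideanSpace ℝ ι := Ψ (u a) with hf
  have hfF : f ∈ F := ⟨u a, rfl⟩
  set Q : ℝ := ∑ j, w j * (u a ⬝ᵥ v' j) ^ 2 with hQ
  have hfsq : ∀ i, f i ^ 2 = w i * (u a ⬝ᵥ v' i) ^ 2 := by
    intro i
    rw [hf, hΨ, mul_pow, Real.sq_sqrt (hw i).le]
  have hQf : Q = ∑ i, f i ^ 2 := by
    rw [hQ]
    exact Finset.sum_congr rfl fun i _ => (hfsq i).symm
  -- the errors
  set Bad : Finset ι := univ.filter fun i => x a i * (u a ⬝ᵥ v i) ≤ 0 with hBad
  have hBadc : 12 * r * Bad.card ≤ t := by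
    have h1 := herr a ha
    unfold errs at h1
    convert h1 using 3
  have hgood : ∀ i ∉ Bad, 0 < x a i * (u a ⬝ᵥ v' i) := by
    intro i hi
    rw [hBad, mem_filter, not_and, not_le] at hi
    have h1 := hi (mem_univ i)
    rcases hx a i with h | h
    · rw [h, one_mul] at h1 ⊢
      exact (hsgn a i).1 h1
    · rw [h] at h1 ⊢
      have h2 := (hsgn a i).2 (by linarith)
      linarith
  have hBadlt : Bad.card < t := by
    by_contra hcon
    rw [not_lt] at hcon
    have h1 : 12 * r * t ≤ t := (Nat.mul_le_mul_left _ hcon).trans hBadc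
    nlinarith
  obtain ⟨i0, hi0⟩ : ∃ i, i ∉ Bad := by
    by_contra hcon
    push Not at hcon
    have h1 : Bad = univ := eq_univ_iff_forall.2 hcon
    rw [h1, card_univ] at hBadlt
    exact lt_irrefl _ hBadlt
  have hQ0 : 0 < Q := by
    rw [hQ]
    refine sum_pos' (fun i _ => mul_nonneg (hw i).le (sq_nonneg _)) ⟨i0, mem_univ _, ?_⟩
    have h1 := hgood i0 hi0
    have h2 : u a ⬝ᵥ v' i0 ≠ 0 := fun h => by rw [h, mul_zero] at h1; exact lt_irrefl _ h1
    have := hw i0
    positivity
  set β : ℝ := √(3 * r * Q / t) with hβ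
  have hβ2 : β ^ 2 = 3 * r * Q / t := Real.sq_sqrt (by positivity)
  have hβ0 : 0 < β := Real.sqrt_pos.2 (by positivity)
  have hfβ : ∀ i, |f i| ≤ β := by
    intro i
    apply Real.abs_le_sqrt
    rw [hfsq, le_div_iff₀ htR]
    have := hlev (u a) i
    linarith
  have hxf : ∀ i ∉ Bad, x a i * f i = |f i| := by
    intro i hi
    have h1 := hgood i hi
    have h2 : 0 < x a i * f i := by
      rw [hf, hΨ]
      have h3 : 0 < √(w i) := Real.sqrt_pos.2 (hw i)
      have h4 : x a i * (√(w i) * (u a ⬝ᵥ v' i)) = √(w i) * (x a i * (u a ⬝ᵥ v' i)) := by ring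
      rw [h4]
      exact mul_pos h3 h1
    rcases hx a i with h | h
    · rw [h, one_mul] at h2 ⊢
      exact (abs_of_pos h2).symm
    · rw [h] at h2 ⊢
      rw [abs_of_neg (by linarith)]
      ring
  have hxf' : ∀ i, -|f i| ≤ x a i * f i := by
    intro i
    rcases hx a i with h | h
    · rw [h, one_mul]; exact neg_abs_le _
    · rw [h]
      have := le_abs_self (f i)
      linarith
  have hip : Q / (2 * β) ≤ ∑ i, x a i * f i := by
    have h1 : ∑ i, (|f i| - 2 * (if i ∈ Bad then β else 0)) ≤ ∑ i, x a i * f i := by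
      refine sum_le_sum fun i _ => ?_
      by_cases hi : i ∈ Bad
      · rw [if_pos hi]
        have h2 := hxf' i
        have h3 := hfβ i
        linarith
      · rw [if_neg hi, hxf i hi]
        linarith
    have h2 : ∑ i, (|f i| - 2 * (if i ∈ Bad then β else 0)) =
        ∑ i, |f i| - 2 * (Bad.card * β) := by
      rw [sum_sub_distrib, ← mul_sum, sum_ite_mem, univ_inter, sum_const, nsmul_eq_mul]
    have h3 : Q / β ≤ ∑ i, |f i| := by
      rw [div_le_iff₀ hβ0, hQf, sum_mul]
      refine sum_le_sum fun i _ => ?_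
      rw [← sq_abs]
      have := hfβ i
      have := abs_nonneg (f i)
      nlinarith
    have h4 : 2 * ((Bad.card : ℝ) * β) ≤ Q / (2 * β) := by
      rw [le_div_iff₀ (by positivity)]
      have h5 : (12 : ℝ) * r * Bad.card ≤ t := by exact_mod_cast hBadc
      have h6 : 2 * ((Bad.card : ℝ) * β) * (2 * β) = 4 * Bad.card * β ^ 2 := by ring
      rw [h6, hβ2, ← mul_div_assoc, div_le_iff₀ htR]
      nlinarith
    have h7 : Q / (2 * β) = Q / β / 2 := by
      rw [div_div]; congr 1; ring
    have h8 : 0 < Q / β := by positivity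
    rw [h2] at h1
    rw [h7] at h4 ⊢
    linarith
  -- Cauchy-Schwarz in `F`
  set f' : F := ⟨f, hfF⟩ with hf'
  have hrep : ∀ i, f i = ∑ j, inner ℝ (b j) f' * ((b j : F) : EuclideanSpace ℝ ι) i := by
    intro i
    have h1 := b.sum_repr' f'
    have h2 := congrArg (fun z : F => ((z : F) : EuclideanSpace ℝ ι) i) h1
    simp only [Submodule.coe_sum, Submodule.coe_smul] at h2
    rw [hf'] at h2
    rw [← h2]
    simp [hf']
  have hcs : (∑ i, x a i * f i) ^ 2 ≤
      Q * ∑ j, (∑ i, ((b j : F) : EuclideanSpace ℝ ι) i * x a i) ^ 2 := by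
    have h1 : ∑ i, x a i * f i =
        ∑ j, inner ℝ (b j) f' * ∑ i, ((b j : F) : EuclideanSpace ℝ ι) i * x a i := by
      simp_rw [mul_sum]
      rw [sum_comm]
      refine Finset.sum_congr rfl fun i _ => ?_
      rw [hrep i, mul_sum]
      refine Finset.sum_congr rfl fun j _ => ?_
      ring
    have h2 : ∑ j, (inner ℝ (b j) f') ^ 2 = Q := by
      have h3 := b.sum_sq_norm_inner_right f'
      simp only [Real.norm_eq_abs, sq_abs] at h3
      rw [h3, hQf]
      have h4 : ‖f'‖ = ‖f‖ := rfl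
      rw [h4, EuclideanSpace.norm_sq_eq]
      refine Finset.sum_congr rfl fun i _ => ?_
      rw [Real.norm_eq_abs, sq_abs]
    rw [h1, ← h2]
    exact sum_mul_sq_le_sq_mul_sq _ _ _
  have h1 : (Q / (2 * β)) ^ 2 ≤ (∑ i, x a i * f i) ^ 2 :=
    pow_le_pow_left₀ (by positivity) hip 2
  have h2 : (Q / (2 * β)) ^ 2 = Q * (t / (12 * r)) := by
    rw [div_pow, mul_pow, hβ2]
    field_simp
    ring
  rw [h2] at h1
  have h3 := le_of_mul_le_mul_left (h1.trans hcs) hQ0
  rw [div_le_iff₀ (by positivity)] at h3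
  linarith

end Pool.Agent.MP_ca1109_lc
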