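import Pool.Agent.MP_ca1109_lc.Riesz

/-!
# Approximate rank of the output bits
-/

namespace Pool.Agent.MP_ca1109_lc

open Finset Module

variable {m : ℕ} {A : Type*} [Fintype A] [Nonempty A]

/-- If the functions `w i` (`i ∈ T`) lie in a space of dimension `r`, the total mean square
distance of the output signs to them is at least `(|T| - r) / 133`. -/
theorem rank_bound {G : A → Fin m → Bool} (hG : Fools G) (T : Finset (Fin m))
    (hT : 440 * T.card ≤ m) (W : Submodule ℝ (A → ℝ)) (w : Fin m → A → ℝ)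
    (hw : ∀ i, w i ∈ W) :
    (T.card : ℝ) - finrank ℝ W ≤
      133 * ∑ i ∈ T, mean fun s => (sgn (G s i) - w i s) ^ 2 := by
  classical
  have hN := card_pos' (A := A)
  let E := EuclideanSpace ℝ T
  let Φ : E →ₗ[ℝ] W :=
    { toFun := fun a => ∑ i : T, a i • (⟨w i, hw i⟩ : W)
      map_add' := fun a b => by
        rw [← Finset.sum_add_distrib]
        apply Finset.sum_congr rfl
        intro i _
        rw [PiLp.add_apply, add_smul]
      map_smul' := fun c a => by
        rw [RingHom.id_apply, Finset.smul_sum]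
        apply Finset.sum_congr rfl
        intro i _
        rw [PiLp.smul_apply, smul_eq_mul, mul_smul] }
  have hΦ : ∀ a : E, a ∈ LinearMap.ker Φ → ∀ s, ∑ i : T, a i * w i s = 0 := by
    intro a ha s
    rw [LinearMap.mem_ker] at ha
    have h1 : (∑ i : T, a i • (⟨w i, hw i⟩ : W) : W) = 0 := ha
    have h2 := congrArg (fun v : W => (v : A → ℝ) s) h1
    simp only [Submodule.coe_sum, Submodule.coe_smul, Finset.sum_apply, Pi.smul_apply,
      smul_eq_mul, Submodule.coe_zero, Pi.zero_apply] at h2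
    exact h2
  set K := LinearMap.ker Φ with hK
  have hdim : (T.card : ℝ) - finrank ℝ W ≤ finrank ℝ K := by
    have h1 := LinearMap.finrank_range_add_finrank_ker Φ
    have h2 : finrank ℝ (LinearMap.range Φ) ≤ finrank ℝ W := Submodule.finrank_le _
    have h3 : finrank ℝ E = T.card := by simp [E]
    rw [h3, ← hK] at h1
    have h4 : T.card ≤ finrank ℝ W + finrank ℝ K := by omega
    have h5 : (T.card : ℝ) ≤ finrank ℝ W + finrank ℝ K := by exact_mod_cast h4
    linarith
  refine hdim.trans ?_
  let u := stdOrthonormalBasis ℝ K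
  have hu : Orthonormal ℝ (fun j => ((u j : K) : E)) :=
    u.orthonormal.comp_linearIsometry K.subtypeₗᵢ
  -- each basis vector
  have h1 : ∀ j, (1 : ℝ) ≤ 133 * mean fun s =>
      (∑ i : T, (u j : E) i * (sgn (G s i) - w i s)) ^ 2 := by
    intro j
    have h2 := riesz hG T hT (fun i => if h : i ∈ T then (u j : E) ⟨i, h⟩ else 0)
    have h3 : ∑ i ∈ T, (if h : i ∈ T then (u j : E) ⟨i, h⟩ else 0) ^ 2 = 1 := by
      rw [← Finset.sum_coe_sort T]
      have h4 : ‖((u j : K) : E)‖ ^ 2 = 1 := by rw [hu.1 j]; norm_num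
      rw [EuclideanSpace.norm_sq_eq] at h4
      rw [← h4]
      apply Finset.sum_congr rfl
      intro i _
      rw [dif_pos i.2, Real.norm_eq_abs, sq_abs]
    rw [h3] at h2
    convert h2 using 3
    funext s
    rw [← Finset.sum_coe_sort T]
    have h5 := hΦ (u j : E) (u j).2 s
    have h6 : ∑ i : T, (u j : E) i * (sgn (G s i) - w i s) =
        ∑ i : T, (u j : E) i * sgn (G s i) := by
      simp only [mul_sub, Finset.sum_sub_distrib]
      rw [h5, sub_zero]
    rw [h6]
    congr 1
    apply Finset.sum_congr rfl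
    intro i _
    rw [dif_pos i.2]
  have h2 := Finset.sum_le_sum fun j (_ : j ∈ (univ : Finset (Fin (finrank ℝ K)))) => h1 j
  simp only [Finset.sum_const, card_univ, Fintype.card_fin, nsmul_eq_mul, mul_one,
    ← Finset.mul_sum] at h2
  refine h2.trans ?_
  gcongr
  unfold mean
  rw [← Finset.sum_div, ← Finset.sum_div, Finset.sum_comm,
    Finset.sum_comm (s := T)]
  apply div_le_div_of_nonneg_right _ hN.le
  apply Finset.sum_le_sum
  intro s _
  let v : E := WithLp.toLp 2 fun i : T => sgn (G s i) - w i s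
  have h3 := hu.sum_inner_products_le (x := v) (s := univ)
  have h4 : ‖v‖ ^ 2 = ∑ i ∈ T, (sgn (G s i) - w i s) ^ 2 := by
    rw [EuclideanSpace.norm_sq_eq, ← Finset.sum_coe_sort T]
    apply Finset.sum_congr rfl
    intro i _
    rw [Real.norm_eq_abs, sq_abs]
  rw [h4] at h3
  refine le_trans (le_of_eq ?_) h3
  apply Finset.sum_congr rfl
  intro j _
  rw [Real.norm_eq_abs, sq_abs, PiLp.inner_apply]
  congr 1
  apply Finset.sum_congr rfl
  intro i _
  simp [v, mul_comm]

/-- All but at most `2 dim W` of the output signs have mean square distance at least `1 / 266` to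
a space `W` of dimension at most `m / 1000`. -/
theorem count_bound {G : A → Fin m → Bool} (hG : Fools G) (hm : 4000 ≤ m)
    (W : Submodule ℝ (A → ℝ)) (hW : 1000 * finrank ℝ W ≤ m) (B : Finset (Fin m))
    (hB : ∀ i ∈ B, ∃ w ∈ W, mean (fun s => (sgn (G s i) - w s) ^ 2) < 1 / 266) :
    B.card ≤ 2 * finrank ℝ W := by
  classical
  by_contra hcon
  rw [not_le] at hcon
  obtain ⟨T, hTB, hT⟩ := Finset.exists_subset_card_eq (show 2 * finrank ℝ W + 1 ≤ B.card by omega)
  have hex : ∀ i, ∃ w : A → ℝ, w ∈ W ∧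
      (i ∈ T → mean (fun s => (sgn (G s i) - w s) ^ 2) < 1 / 266) := by
    intro i
    by_cases hi : i ∈ T
    · obtain ⟨w, hw, h⟩ := hB i (hTB hi)
      exact ⟨w, hw, fun _ => h⟩
    · exact ⟨0, W.zero_mem, fun h => absurd h hi⟩
  choose w hw hw2 using hex
  have h1 := rank_bound hG T (by omega) W w hw
  have hTne : T.Nonempty := by
    rw [← Finset.card_pos]; omega
  have h2 : ∑ i ∈ T, mean (fun s => (sgn (G s i) - w i s) ^ 2) < ∑ i ∈ T, (1 / 266 : ℝ) :=
    Finset.sum_lt_sum_of_nonempty hTne fun i hi => hw2 i hi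
  rw [Finset.sum_const, nsmul_eq_mul, hT] at h2
  rw [hT] at h1
  push_cast at h1 h2
  linarith

end Pool.Agent.MP_ca1109_lc
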