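import Pool.Agent.MP_ca1109_lc.Count
import Pool.Agent.MP_ca1109_lc.Moments

/-!
# The lower Riesz bound for the output bits of a generator
-/

namespace Pool.Agent.MP_ca1109_lc

open Finset

/-- The mean of a function on a finite type. -/
noncomputable def mean {A : Type*} [Fintype A] (f : A → ℝ) : ℝ :=
  (∑ a, f a) / (Fintype.card A : ℝ)

/-! ## The test circuit -/

section test

variable {m : ℕ}

lemma cnt_replicate (n : ℕ) (f : BF m) (x : Fin m → Bool) :
    cnt (List.replicate n f) x = n * (f x).toNat := by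
  induction n with
  | zero => simp [cnt]
  | succ n ih => rw [List.replicate_succ, cnt, ih]; ring

/-- the literal at index `i` -/
def lit (b : Fin m → ℤ) (i : Fin m) : BF m :=
  if 0 < b i then (fun x => !(x i)) else (fun x => x i)

/-- the list of literals for the integer vector `b` -/
def lits (b : Fin m → ℤ) : List (BF m) :=
  (List.finRange m).flatMap fun i => List.replicate (b i).natAbs (lit b i)

lemma cnt_flatMap (b : Fin m → ℤ) (l : List (Fin m)) (x : Fin m → Bool) :
    cnt (l.flatMap fun i => List.replicate (b i).natAbs (lit b i)) x =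
      (l.map fun i => (b i).natAbs * (lit b i x).toNat).sum := by
  induction l with
  | nil => simp [cnt]
  | cons i l ih => rw [List.flatMap_cons, cnt_append, ih, cnt_replicate, List.map_cons,
      List.sum_cons]

lemma cnt_lits (b : Fin m → ℤ) (x : Fin m → Bool) :
    cnt (lits b) x = ∑ i, (b i).natAbs * (lit b i x).toNat := by
  rw [lits, cnt_flatMap, ← List.ofFn_eq_map, List.sum_ofFn]

lemma length_flatMap (b : Fin m → ℤ) (l : List (Fin m)) :
    (l.flatMap fun i => List.replicate (b i).natAbs (lit b i)).length =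
      (l.map fun i => (b i).natAbs).sum := by
  induction l with
  | nil => simp
  | cons i l ih => rw [List.flatMap_cons, List.length_append, ih, List.length_replicate,
      List.map_cons, List.sum_cons]

lemma length_lits (b : Fin m → ℤ) : (lits b).length = ∑ i, (b i).natAbs := by
  rw [lits, length_flatMap, ← List.ofFn_eq_map, List.sum_ofFn]

lemma isLit_lits (b : Fin m → ℤ) : ∀ f ∈ lits b, IsLit f := by
  intro f hf
  rw [lits, List.mem_flatMap] at hf
  obtain ⟨i, -, hi⟩ := hf
  rw [List.mem_replicate] at hi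
  rw [hi.2]
  refine ⟨i, ?_⟩
  unfold lit
  split_ifs
  · right; intro x; rfl
  · left; intro x; rfl

lemma zed_eq (b : Fin m → ℤ) (x : Fin m → Bool) :
    zed (fun i => (b i : ℝ)) x = 2 * (cnt (lits b) x : ℝ) - ((lits b).length : ℝ) := by
  rw [cnt_lits, length_lits, zed]
  push_cast
  rw [Finset.mul_sum, ← Finset.sum_sub_distrib]
  apply Finset.sum_congr rfl
  intro i _
  have h : (((b i).natAbs : ℕ) : ℝ) = |(b i : ℝ)| := by
    rw [Nat.cast_natAbs, Int.cast_abs]
  rw [h]
  unfold lit
  by_cases hb : 0 < b i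
  · rw [if_pos hb]
    have hb' : (0 : ℝ) < (b i : ℝ) := by exact_mod_cast hb
    rw [abs_of_pos hb']
    cases x i <;> simp [sgn] <;> ring
  · rw [if_neg hb]
    have hb' : (b i : ℝ) ≤ 0 := by
      have : b i ≤ 0 := not_lt.1 hb
      exact_mod_cast this
    rw [abs_of_nonpos hb']
    cases x i <;> simp [sgn] <;> ring

end test

variable {m : ℕ} {A : Type*} [Fintype A] [Nonempty A]

lemma card_pos' : (0 : ℝ) < (Fintype.card A : ℝ) := by
  exact_mod_cast Fintype.card_pos

/-- The test for integer coefficient vectors. -/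
theorem int_bound {G : A → Fin m → Bool} (hG : Fools G) (b : Fin m → ℤ)
    (hb : 40 * ∑ i, (b i).natAbs ≤ m) :
    ∑ i, (b i : ℝ) ^ 2 ≤ 43 * mean fun s => zed (fun i => (b i : ℝ)) (G s) ^ 2 := by
  classical
  have hmean0 : 0 ≤ mean fun s => zed (fun i => (b i : ℝ)) (G s) ^ 2 := by
    unfold mean
    exact div_nonneg (Finset.sum_nonneg fun s _ => sq_nonneg _) card_pos'.le
  set σ : ℝ := ∑ i, (b i : ℝ) ^ 2 with hσ
  rcases eq_or_lt_of_le (show 0 ≤ σ from Finset.sum_nonneg fun i _ => sq_nonneg _) with h0 | hpos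
  · rw [← h0]; linarith
  have hne : lits b ≠ [] := by
    intro h
    have h1 : (lits b).length = 0 := by rw [h]; rfl
    rw [length_lits, Finset.sum_eq_zero_iff] at h1
    have : σ = 0 := by
      rw [hσ]
      apply Finset.sum_eq_zero
      intro i hi
      have := Int.natAbs_eq_zero.1 (h1 i hi)
      rw [this]; simp
    linarith
  obtain ⟨C, hC, hCx⟩ := exists_circuit (lits b) hne (isLit_lits b)
    (fun t => decide (σ / 4 < (2 * (t : ℝ) - ((lits b).length : ℝ)) ^ 2))
  rw [length_lits] at hC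
  have hadv := hG C (hC.trans hb)
  have hiff : ∀ x, C.eval x = true ↔ σ / 4 < zed (fun i => (b i : ℝ)) x ^ 2 := by
    intro x
    rw [hCx, decide_eq_true_iff, zed_eq]
  have h1 := anti_concentration (fun i => (b i : ℝ)) hσ hpos (fun x => C.eval x) hiff
  have h2 : 94 / 1000 ≤ prob (fun s => C.eval (G s)) := by
    unfold advantage at hadv
    rw [abs_le] at hadv
    linarith [hadv.1]
  have h3 : prob (fun s => C.eval (G s)) * (σ / 4) ≤
      mean fun s => zed (fun i => (b i : ℝ)) (G s) ^ 2 := by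
    rw [prob_eq, mean, div_mul_eq_mul_div, Finset.sum_mul]
    apply div_le_div_of_nonneg_right _ card_pos'.le
    apply Finset.sum_le_sum
    intro s _
    by_cases h : C.eval (G s) = true
    · rw [if_pos h, one_mul]
      exact ((hiff _).1 h).le
    · rw [if_neg h, zero_mul]
      exact sq_nonneg _
  nlinarith

/-! ## Rounding -/

lemma rounding (g : Fin m → A → ℝ) (hg : ∀ i s, g i s ^ 2 = 1) (T : Finset (Fin m))
    (a : Fin m → ℝ) : ∃ b : Fin m → ℤ, (∀ i ∉ T, b i = 0) ∧ (∀ i ∈ T, |(b i : ℝ) - a i| ≤ 1) ∧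
      ∑ s, (∑ i ∈ T, ((b i : ℝ) - a i) * g i s) ^ 2 ≤ (T.card : ℝ) / 4 * Fintype.card A := by
  classical
  induction T using Finset.induction_on with
  | empty => exact ⟨0, fun _ _ => rfl, by simp, by simp⟩
  | insert j T hj ih =>
    obtain ⟨b, hb0, hb1, hb2⟩ := ih
    set v : A → ℝ := fun s => ∑ i ∈ T, ((b i : ℝ) - a i) * g i s with hv
    set p : ℝ := Int.fract (a j) with hp
    have hp0 : 0 ≤ p := Int.fract_nonneg _
    have hp1 : p ≤ 1 := (Int.fract_lt_one _).le
    have hfl : ((⌊a j⌋ : ℤ) : ℝ) = a j - p := by rw [hp, Int.fract]; ring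
    set Q : ℝ := ∑ s, v s * g j s with hQ
    have hexp : ∀ e : ℝ, ∑ s, (e * g j s + v s) ^ 2 =
        ∑ s, v s ^ 2 + 2 * e * Q + e ^ 2 * Fintype.card A := by
      intro e
      have : ∀ s, (e * g j s + v s) ^ 2 = v s ^ 2 + 2 * e * (v s * g j s) + e ^ 2 := by
        intro s
        have := hg j s
        linear_combination e ^ 2 * this
      simp_rw [this]
      rw [sum_add_distrib, sum_add_distrib, ← mul_sum]
      simp only [sum_const, card_univ, nsmul_eq_mul]
      ring
    have hN := card_pos' (A := A)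
    have hchoice : ∃ c : ℤ, |(c : ℝ) - a j| ≤ 1 ∧
        ∑ s, (((c : ℝ) - a j) * g j s + v s) ^ 2 ≤ ∑ s, v s ^ 2 + 1 / 4 * Fintype.card A := by
      by_cases h : ∑ s, (-p * g j s + v s) ^ 2 ≤ ∑ s, v s ^ 2 + 1 / 4 * Fintype.card A
      · refine ⟨⌊a j⌋, ?_, ?_⟩
        · rw [hfl, abs_le]; constructor <;> linarith
        · rw [hfl, show a j - p - a j = -p by ring]; exact h
      · refine ⟨⌊a j⌋ + 1, ?_, ?_⟩
        · push_cast
          rw [hfl, abs_le]; constructor <;> linarith
        · push_cast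
          rw [hfl, show a j - p + 1 - a j = 1 - p by ring]
          rw [hexp] at h ⊢
          rw [not_le] at h
          have h1 : p * (1 - p) ≤ 1 / 4 := by nlinarith [sq_nonneg (p - 1 / 2)]
          have hp2 : 0 < p ∨ p = 0 := by
            rcases eq_or_lt_of_le hp0 with h' | h'
            · right; exact h'.symm
            · left; exact h'
          rcases hp2 with hp2 | hp2
          · by_contra hcon
            rw [not_le] at hcon
            have e1 := mul_lt_mul_of_pos_left hcon hp2
            have e2 := mul_le_mul_of_nonneg_left h.le (show 0 ≤ 1 - p by linarith)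
            nlinarith
          · exfalso
            rw [hp2] at h
            nlinarith
    obtain ⟨c, hc1, hc2⟩ := hchoice
    refine ⟨Function.update b j c, ?_, ?_, ?_⟩
    · intro i hi
      rw [Finset.mem_insert, not_or] at hi
      rw [Function.update_of_ne hi.1]
      exact hb0 i hi.2
    · intro i hi
      rcases Finset.mem_insert.1 hi with rfl | hi
      · rw [Function.update_self]; exact hc1
      · have : i ≠ j := fun h => hj (h ▸ hi)
        rw [Function.update_of_ne this]
        exact hb1 i hi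
    · have : ∀ s, ∑ i ∈ insert j T, ((Function.update b j c i : ℝ) - a i) * g i s =
          ((c : ℝ) - a j) * g j s + v s := by
        intro s
        rw [Finset.sum_insert hj, Function.update_self]
        congr 1
        apply Finset.sum_congr rfl
        intro i hi
        have : i ≠ j := fun h => hj (h ▸ hi)
        rw [Function.update_of_ne this]
      simp_rw [this]
      rw [Finset.card_insert_of_notMem hj]
      push_cast
      calc _ ≤ ∑ s, v s ^ 2 + 1 / 4 * Fintype.card A := hc2
        _ ≤ (T.card : ℝ) / 4 * Fintype.card A + 1 / 4 * Fintype.card A := by gcongr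
        _ = _ := by ring

/-! ## The lower Riesz bound -/

lemma sq_add_le (x y : ℝ) (η : ℝ) (hη : 0 < η) :
    (x + y) ^ 2 ≤ (1 + η) * x ^ 2 + (1 + 1 / η) * y ^ 2 := by
  have h : (1 + η) * x ^ 2 + (1 + 1 / η) * y ^ 2 - (x + y) ^ 2 = (η * x - y) ^ 2 / η := by
    field_simp
    ring
  have : 0 ≤ (η * x - y) ^ 2 / η := by positivity
  linarith

/-- The output bits of a map fooling circuits of size `m` form, on every set of at most `m / 440`
outputs, a system with a lower Riesz bound. -/
theorem riesz {G : A → Fin m → Bool} (hG : Fools G) (T : Finset (Fin m))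
    (hT : 440 * T.card ≤ m) (a : Fin m → ℝ) :
    ∑ i ∈ T, a i ^ 2 ≤ 133 * mean fun s => (∑ i ∈ T, a i * sgn (G s i)) ^ 2 := by
  classical
  set α : ℝ := ∑ i ∈ T, a i ^ 2 with hα
  have hN := card_pos' (A := A)
  have hmean0 : 0 ≤ mean fun s => (∑ i ∈ T, a i * sgn (G s i)) ^ 2 := by
    unfold mean
    exact div_nonneg (Finset.sum_nonneg fun s _ => sq_nonneg _) hN.le
  rcases eq_or_lt_of_le (show 0 ≤ α from Finset.sum_nonneg fun i _ => sq_nonneg _) with h0 | hpos
  · rw [← h0]; linarith
  have htne : T.Nonempty := by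
    rw [Finset.nonempty_iff_ne_empty]
    intro h
    rw [hα, h] at hpos
    simp at hpos
  set t : ℝ := (T.card : ℝ) with ht
  have htpos : 0 < t := by
    rw [ht]; exact_mod_cast Finset.card_pos.2 htne
  set lam : ℝ := Real.sqrt (100 * t / α) with hlam
  have hlam2 : lam ^ 2 = 100 * t / α := by
    rw [hlam, Real.sq_sqrt]; positivity
  have hlam2' : lam ^ 2 * α = 100 * t := by
    rw [hlam2]; field_simp
  set g : Fin m → A → ℝ := fun i s => sgn (G s i) with hg
  obtain ⟨b, hb0, hb1, hb2⟩ := rounding g (fun i s => sgn_sq _) T (fun i => lam * a i)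
  -- the size of `b`
  have hsum : 40 * ∑ i, (b i).natAbs ≤ m := by
    have h1 : ∑ i, (b i).natAbs = ∑ i ∈ T, (b i).natAbs := by
      symm
      apply Finset.sum_subset (Finset.subset_univ T)
      intro i _ hi
      rw [hb0 i hi]; rfl
    have h2 : ((∑ i ∈ T, (b i).natAbs : ℕ) : ℝ) ≤ 11 * t := by
      push_cast
      have h3 : ∀ i ∈ T, (((b i).natAbs : ℕ) : ℝ) ≤ (lam * a i) ^ 2 / 20 + 5 + 1 := by
        intro i hi
        rw [Nat.cast_natAbs, Int.cast_abs]
        have h4 : |(b i : ℝ)| ≤ |lam * a i| + 1 := by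
          have := hb1 i hi
          calc |(b i : ℝ)| = |lam * a i + ((b i : ℝ) - lam * a i)| := by congr 1; ring
            _ ≤ |lam * a i| + |(b i : ℝ) - lam * a i| := abs_add_le _ _
            _ ≤ _ := by linarith
        have h5 : |lam * a i| ≤ (lam * a i) ^ 2 / 20 + 5 := by
          have := sq_nonneg (|lam * a i| - 10)
          have h6 := sq_abs (lam * a i)
          nlinarith
        linarith
      calc ∑ i ∈ T, (((b i).natAbs : ℕ) : ℝ) ≤ ∑ i ∈ T, ((lam * a i) ^ 2 / 20 + 5 + 1) :=
            Finset.sum_le_sum h3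
        _ = (lam ^ 2 * α) / 20 + 6 * t := by
            rw [hα, Finset.sum_add_distrib, Finset.sum_add_distrib, ← Finset.sum_div]
            simp only [mul_pow, ← Finset.mul_sum, Finset.sum_const, nsmul_eq_mul]
            ring
        _ = 11 * t := by rw [hlam2']; ring
    rw [h1]
    have h6 : ∑ i ∈ T, (b i).natAbs ≤ 11 * T.card := by
      have : ((∑ i ∈ T, (b i).natAbs : ℕ) : ℝ) ≤ ((11 * T.card : ℕ) : ℝ) := by
        push_cast at h2 ⊢
        exact h2
      exact_mod_cast this
    omega
  have hint := int_bound hG b hsum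
  have hzed : ∀ s, zed (fun i => (b i : ℝ)) (G s) = ∑ i ∈ T, (b i : ℝ) * g i s := by
    intro s
    unfold zed
    symm
    apply Finset.sum_subset (Finset.subset_univ T)
    intro i _ hi
    rw [hb0 i hi]; simp
  have hbT : ∑ i, (b i : ℝ) ^ 2 = ∑ i ∈ T, (b i : ℝ) ^ 2 := by
    symm
    apply Finset.sum_subset (Finset.subset_univ T)
    intro i _ hi
    rw [hb0 i hi]; simp
  -- lower bound for the norm of `b`
  have hlow : 81 * t ≤ ∑ i ∈ T, (b i : ℝ) ^ 2 := by
    have h1 : ∀ i ∈ T, (lam * a i) ^ 2 ≤ (1 + 1 / 9) * (b i : ℝ) ^ 2 + (1 + 1 / (1 / 9)) * 1 := by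
      intro i hi
      have h2 := sq_add_le (b i : ℝ) (lam * a i - b i) (1 / 9) (by norm_num)
      have h3 : (lam * a i - b i) ^ 2 ≤ 1 := by
        have := hb1 i hi
        rw [abs_le] at this
        nlinarith [this.1, this.2]
      rw [show (b i : ℝ) + (lam * a i - b i) = lam * a i by ring] at h2
      nlinarith
    have h4 := Finset.sum_le_sum h1
    rw [Finset.sum_add_distrib, ← Finset.mul_sum] at h4
    simp only [mul_pow, ← Finset.mul_sum, Finset.sum_const, nsmul_eq_mul, ← hα] at h4
    rw [hlam2'] at h4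
    rw [← ht] at h4
    linarith
  -- upper bound for the mean square
  have hup : ∑ s, (∑ i ∈ T, (b i : ℝ) * g i s) ^ 2 ≤
      (1 + 1 / 2) * (lam ^ 2 * ∑ s, (∑ i ∈ T, a i * g i s) ^ 2) +
        (1 + 1 / (1 / 2)) * (t / 4 * Fintype.card A) := by
    have h1 : ∀ s, (∑ i ∈ T, (b i : ℝ) * g i s) ^ 2 ≤
        (1 + 1 / 2) * (lam * ∑ i ∈ T, a i * g i s) ^ 2 +
          (1 + 1 / (1 / 2)) * (∑ i ∈ T, ((b i : ℝ) - lam * a i) * g i s) ^ 2 := by
      intro s
      have h2 := sq_add_le (lam * ∑ i ∈ T, a i * g i s) (∑ i ∈ T, ((b i : ℝ) - lam * a i) * g i s)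
        (1 / 2) (by norm_num)
      have h3 : lam * ∑ i ∈ T, a i * g i s + ∑ i ∈ T, ((b i : ℝ) - lam * a i) * g i s =
          ∑ i ∈ T, (b i : ℝ) * g i s := by
        rw [Finset.mul_sum, ← Finset.sum_add_distrib]
        apply Finset.sum_congr rfl
        intro i _
        ring
      rwa [h3] at h2
    have h4 := Finset.sum_le_sum fun s (_ : s ∈ (univ : Finset A)) => h1 s
    rw [Finset.sum_add_distrib, ← Finset.mul_sum, ← Finset.mul_sum] at h4
    simp only [mul_pow, ← Finset.mul_sum] at h4
    refine h4.trans ?_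
    gcongr
  unfold mean at hint ⊢
  simp_rw [hzed] at hint
  rw [hbT] at hint
  have h5 : (∑ s, (∑ i ∈ T, (b i : ℝ) * g i s) ^ 2) / (Fintype.card A : ℝ) ≤
      3 / 2 * (lam ^ 2 * ((∑ s, (∑ i ∈ T, a i * g i s) ^ 2) / (Fintype.card A : ℝ))) +
        3 * (t / 4) := by
    rw [div_le_iff₀ hN]
    refine hup.trans (le_of_eq ?_)
    field_simp
    ring
  set M : ℝ := (∑ s, (∑ i ∈ T, a i * g i s) ^ 2) / (Fintype.card A : ℝ) with hM
  have h6 : 81 * t ≤ 43 * (3 / 2 * (lam ^ 2 * M) + 3 * (t / 4)) := by linarith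
  have h7 : 100 * t ≤ 133 * (lam ^ 2 * M) := by linarith
  rw [← hlam2'] at h7
  have hl : 0 < lam ^ 2 := by rw [hlam2]; positivity
  have h8 : lam ^ 2 * α ≤ lam ^ 2 * (133 * M) := by linarith
  exact le_of_mul_le_mul_left h8 hl

end Pool.Agent.MP_ca1109_lc
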