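import Pool.Agent.MP_ca1109_lc.SignRank
import Pool.Agent.MP_ca1109_lc.Family

/-!
# Sign representations of the outputs of a pseudorandom map
-/

namespace Pool.Agent.MP_ca1109_lc

open Finset Matrix Module Filter

/-- The number of seeds at which the real function `w` vanishes or has the wrong sign for the
output bit `g` (the bit `false` is the sign `+1`, the bit `true` is the sign `-1`). -/
noncomputable def wrongSigns {A : Type} [Fintype A] (g : A → Bool) (w : A → ℝ) : ℕ :=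
  by classical exact (univ.filter fun s => sgn (g s) * w s ≤ 0).card

/-- In a pseudorandom map fooling circuits of linear size, at most `1200 r²` outputs can be
represented by the signs of the functions of a space of dimension at most `r`, each with errors on at most a fraction
`1 / (240 r)` of the seeds. -/
theorem sign_rank_submodule {m : ℕ} {A : Type} [Fintype A] [Nonempty A] {G : A → Fin m → Bool}
    (hG : Fools G) (r : ℕ) (hr : 0 < r) (hm : 440 * (1200 * r ^ 2 + 1) ≤ m)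
    (W : Submodule ℝ (A → ℝ)) (hW : finrank ℝ W ≤ r) (B : Finset (Fin m))
    (hB : ∀ i ∈ B, ∃ w ∈ W, 240 * r * wrongSigns (fun s => G s i) w ≤ Fintype.card A) :
    B.card ≤ 1200 * r ^ 2 := by
  classical
  by_contra hcon
  push Not at hcon
  obtain ⟨T, hTB, hTc⟩ := Finset.exists_subset_card_eq (s := B) (n := 1200 * r ^ 2 + 1) hcon
  have hNpos : 0 < Fintype.card A := Fintype.card_pos
  have hw : ∀ i : T, ∃ w : W, 240 * r * wrongSigns (fun s => G s i) w ≤ Fintype.card A := by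
    intro i
    obtain ⟨w, hw, hw'⟩ := hB i (hTB i.2)
    exact ⟨⟨w, hw⟩, hw'⟩
  choose w hw using hw
  set n := finrank ℝ W with hn
  have hTne : T.Nonempty := by
    rw [← Finset.card_pos, hTc]; omega
  have hn0 : 0 < n := by
    rcases Nat.eq_zero_or_pos n with h | h
    · exfalso
      obtain ⟨i, hi⟩ := hTne
      have h1 := hw ⟨i, hi⟩
      have h2 : w ⟨i, hi⟩ = 0 := by
        have : Subsingleton W := finrank_zero_iff.1 (by rw [← hn]; exact h)
        exact Subsingleton.elim _ _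
      have h3 : wrongSigns (fun s => G s i) (w ⟨i, hi⟩) = Fintype.card A := by
        unfold wrongSigns
        rw [h2]
        simp
      rw [h3] at h1
      have h4 : 240 * r * Fintype.card A ≤ 1 * Fintype.card A := by rw [one_mul]; exact h1
      have h5 := Nat.le_of_mul_le_mul_right h4 hNpos
      omega
    · exact h
  -- coordinates
  set bas := finBasis ℝ W with hbas
  have hval : ∀ (i : T) (s : A),
      (fun j => ((bas j : W) : A → ℝ) s) ⬝ᵥ (fun j => bas.repr (w i) j) = (w i : A → ℝ) s := by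
    intro i s
    have h1 := bas.sum_repr (w i)
    have h2 : ((∑ j, bas.repr (w i) j • bas j : W) : A → ℝ) s = (w i : A → ℝ) s := by rw [h1]
    rw [← h2]
    simp only [dotProduct, Submodule.coe_sum, Submodule.coe_smul, Finset.sum_apply, Pi.smul_apply,
      smul_eq_mul]
    exact Finset.sum_congr rfl fun j _ => mul_comm _ _
  -- Markov
  set e : A → ℕ := fun s => errs (fun i : T => sgn (G s i)) (fun i => (w i : A → ℝ) s) with he
  have hsum : 240 * r * ∑ s, e s ≤ T.card * Fintype.card A := by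
    have h1 : ∑ s, e s = ∑ i : T, wrongSigns (fun s => G s i) (w i) := by
      rw [he]
      unfold errs wrongSigns
      simp only [Finset.card_filter]
      rw [Finset.sum_comm]
    rw [h1, Finset.mul_sum]
    calc ∑ i : T, 240 * r * wrongSigns (fun s => G s i) (w i) ≤ ∑ i : T, Fintype.card A :=
          Finset.sum_le_sum fun i _ => hw i
      _ = T.card * Fintype.card A := by simp
  set A' : Finset A := univ.filter fun s => 12 * r * e s ≤ T.card with hA'
  have hbad : 20 * (univ.filter fun s => ¬ (12 * r * e s ≤ T.card)).card ≤ Fintype.card A := by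
    set Bd := univ.filter fun s => ¬ (12 * r * e s ≤ T.card) with hBd
    have h1 : Bd.card * T.card ≤ ∑ s ∈ Bd, 12 * r * e s := by
      rw [← smul_eq_mul, ← Finset.sum_const]
      refine Finset.sum_le_sum fun s hs => ?_
      rw [hBd, mem_filter] at hs
      omega
    have h2 : ∑ s ∈ Bd, 12 * r * e s ≤ 12 * r * ∑ s, e s := by
      rw [← Finset.mul_sum]
      exact Nat.mul_le_mul_left _ (Finset.sum_le_sum_of_subset (subset_univ _))
    have h3 : (20 * Bd.card) * T.card ≤ Fintype.card A * T.card := by nlinarith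
    exact Nat.le_of_mul_le_mul_right h3 (Finset.card_pos.2 hTne)
  have hA'c : 95 / 100 * (Fintype.card A : ℝ) ≤ A'.card := by
    have h1 : A'.card + (univ.filter fun s => ¬ (12 * r * e s ≤ T.card)).card =
        Fintype.card A := by
      rw [hA', Finset.card_filter_add_card_filter_not, Finset.card_univ]
    have h2 : (A'.card : ℝ) + ((univ.filter fun s => ¬ (12 * r * e s ≤ T.card)).card : ℝ) =
        Fintype.card A := by exact_mod_cast h1
    have h3 : (20 : ℝ) * ((univ.filter fun s => ¬ (12 * r * e s ≤ T.card)).card : ℝ) ≤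
        Fintype.card A := by exact_mod_cast hbad
    linarith
  have hfin := sign_rank_bound hG T (by rw [hTc]; exact hm) n hn0
    (fun i => fun j => bas.repr (w i) j) (fun s => fun j => ((bas j : W) : A → ℝ) s) A' hA'c
    (by
      intro s hs
      rw [hA', mem_filter] at hs
      have h1 : errs (fun i : T => sgn (G s i))
          (fun i => (fun j => ((bas j : W) : A → ℝ) s) ⬝ᵥ (fun j => bas.repr (w i) j)) = e s := by
        simp_rw [hval]
        rfl
      rw [h1]
      exact le_trans (Nat.mul_le_mul_right _ (Nat.mul_le_mul_left _ hW)) hs.2)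
  have hsq : n ^ 2 ≤ r ^ 2 := Nat.pow_le_pow_left hW 2
  omega

/-- The output bit `i` of `G` agrees with the sign of a real function of degree at most `D` of the
seed bits (a polynomial threshold function), for all but at most a fraction `η` of the seeds. -/
def NearThreshold {d m : ℕ} (G : (Fin d → Bool) → Fin m → Bool) (D η : ℝ) (i : Fin m) : Prop :=
  ∃ k : ℕ, (k : ℝ) ≤ D ∧ ∃ w ∈ lowDeg d k, (wrongSigns (fun s => G s i) w : ℝ) ≤ η * 2 ^ d

theorem threshold_family_bound (c : ℝ) (d : ℕ → ℕ) (G : ∀ m, (Fin (d m) → Bool) → Fin m → Bool)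
    (hG : LogSeedFamily c d G) (ε : ℝ) (hε : 0 < ε) : ∃ κ : ℝ, 0 < κ ∧ ∀ᶠ m in atTop,
    ∀ B : Finset (Fin m), (∀ i ∈ B, NearThreshold (G m) (κ * Real.logb 2 m) ((m : ℝ) ^ (-ε)) i) →
      (B.card : ℝ) ≤ (m : ℝ) ^ ε := by
  set c' : ℝ := max c 1 with hc'
  have hc'0 : 0 < c' := lt_of_lt_of_le one_pos (le_max_right _ _)
  set δ : ℝ := min (ε / 4) (1 / 4) with hδ
  have hδ0 : 0 < δ := by rw [hδ]; positivity
  obtain ⟨τ, hτ, h⟩ := exists_tau c' hc'0 δ hδ0
  have hlim1 : ∀ᶠ m : ℕ in Filter.atTop, (1200 : ℝ) ≤ (m : ℝ) ^ (ε / 2) :=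
    ((tendsto_rpow_atTop (by positivity : 0 < ε / 2)).comp
      tendsto_natCast_atTop_atTop).eventually_ge_atTop 1200
  have hlim2 : ∀ᶠ m : ℕ in Filter.atTop, (528440 : ℝ) ≤ (m : ℝ) ^ (1 / 2 : ℝ) :=
    ((tendsto_rpow_atTop (by norm_num : (0 : ℝ) < 1 / 2)).comp
      tendsto_natCast_atTop_atTop).eventually_ge_atTop 528440
  refine ⟨τ, hτ, ?_⟩
  filter_upwards [hG, hlim1, hlim2, eventually_ge_atTop 2] with m hm h1 h2 hm2 B hB
  obtain ⟨hd, -, hF⟩ := hm
  have hm1 : (1 : ℝ) ≤ m := by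
    have : (2 : ℝ) ≤ m := by exact_mod_cast hm2
    linarith
  have hm0 : (0 : ℝ) < m := by linarith
  have hlog : 0 < Real.logb 2 m := by
    apply Real.logb_pos (by norm_num)
    have : (2 : ℝ) ≤ m := by exact_mod_cast hm2
    linarith
  have hd' : (d m : ℝ) ≤ c' * Real.logb 2 m :=
    hd.trans (mul_le_mul_of_nonneg_right (le_max_left _ _) hlog.le)
  have hpos : 0 < τ * Real.logb 2 m := by positivity
  set D : ℕ := ⌊τ * Real.logb 2 m⌋₊ with hD
  have hDle : (D : ℝ) ≤ τ * Real.logb 2 m := Nat.floor_le hpos.le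
  have hrank := h m hm2 (d m) D hd' hDle
  set r : ℕ := max 1 (finrank ℝ (lowDeg (d m) D)) with hr
  have hr1 : 0 < r := lt_of_lt_of_le one_pos (le_max_left _ _)
  have hmδ : (1 : ℝ) ≤ (m : ℝ) ^ δ := Real.one_le_rpow hm1 hδ0.le
  have hrδ : (r : ℝ) ≤ (m : ℝ) ^ δ := by
    rw [hr, Nat.cast_max]
    exact max_le (by simpa using hmδ) hrank
  have hrR : (0 : ℝ) ≤ r := Nat.cast_nonneg _
  have hδδ : (m : ℝ) ^ δ * (m : ℝ) ^ δ = (m : ℝ) ^ (2 * δ) := by
    rw [← Real.rpow_add hm0]; congr 1; ring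
  have hr2 : (r : ℝ) ^ 2 ≤ (m : ℝ) ^ (2 * δ) := by
    rw [sq, ← hδδ]
    exact mul_le_mul hrδ hrδ hrR (by linarith)
  have hr2a : (r : ℝ) ^ 2 ≤ (m : ℝ) ^ (ε / 2) :=
    hr2.trans (Real.rpow_le_rpow_of_exponent_le hm1 (by
      have := min_le_left (ε / 4) (1 / 4); rw [← hδ] at this; linarith))
  have hr2b : (r : ℝ) ^ 2 ≤ (m : ℝ) ^ (1 / 2 : ℝ) :=
    hr2.trans (Real.rpow_le_rpow_of_exponent_le hm1 (by
      have := min_le_right (ε / 4) (1 / 4); rw [← hδ] at this; linarith))
  have h7 : (m : ℝ) ^ (1 / 2 : ℝ) * (m : ℝ) ^ (1 / 2 : ℝ) = m := by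
    rw [← Real.rpow_add hm0]; norm_num
  have h8 : (m : ℝ) ^ (ε / 2) * (m : ℝ) ^ (ε / 2) = (m : ℝ) ^ ε := by
    rw [← Real.rpow_add hm0]; congr 1; ring
  have hmm : 440 * (1200 * r ^ 2 + 1) ≤ m := by
    have h9 : (440 : ℝ) * (1200 * (r : ℝ) ^ 2 + 1) ≤ m := by
      have h10 : (1 : ℝ) ≤ (m : ℝ) ^ (1 / 2 : ℝ) := by linarith
      calc (440 : ℝ) * (1200 * (r : ℝ) ^ 2 + 1) ≤ 528440 * (m : ℝ) ^ (1 / 2 : ℝ) := by linarith
        _ ≤ (m : ℝ) ^ (1 / 2 : ℝ) * (m : ℝ) ^ (1 / 2 : ℝ) :=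
            mul_le_mul_of_nonneg_right h2 (by linarith)
        _ = m := h7
    exact_mod_cast h9
  have hfin := sign_rank_submodule hF r hr1 hmm (lowDeg (d m) D) (le_max_right _ _) B (by
    intro i hi
    obtain ⟨k, hk, w, hw, hw2⟩ := hB i hi
    refine ⟨w, lowDeg_mono _ (Nat.le_floor hk) hw, ?_⟩
    have h11 : (240 : ℝ) * r * (wrongSigns (fun s => G m s i) w : ℝ) ≤
        (Fintype.card (Fin (d m) → Bool) : ℝ) := by
      have h12 : (Fintype.card (Fin (d m) → Bool) : ℝ) = 2 ^ (d m) := by simp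
      rw [h12]
      have h13 : (240 : ℝ) * r * (m : ℝ) ^ (-ε) ≤ 1 := by
        have h14 : (m : ℝ) ^ (-ε) = ((m : ℝ) ^ (ε / 2) * (m : ℝ) ^ (ε / 2))⁻¹ := by
          rw [h8, Real.rpow_neg hm0.le]
        have h15 : (r : ℝ) ≤ (m : ℝ) ^ (ε / 2) := by
          have : (1 : ℝ) ≤ r := by exact_mod_cast hr1
          nlinarith
        rw [h14, ← div_eq_mul_inv, div_le_one (by positivity)]
        have h16 : (0 : ℝ) < (m : ℝ) ^ (ε / 2) := by linarith
        nlinarith
      calc (240 : ℝ) * r * (wrongSigns (fun s => G m s i) w : ℝ) ≤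
            240 * r * ((m : ℝ) ^ (-ε) * 2 ^ (d m)) := by gcongr
        _ = (240 * r * (m : ℝ) ^ (-ε)) * 2 ^ (d m) := by ring
        _ ≤ 1 * 2 ^ (d m) := mul_le_mul_of_nonneg_right h13 (by positivity)
        _ = 2 ^ (d m) := one_mul _
    exact_mod_cast h11)
  have h17 : (B.card : ℝ) ≤ 1200 * (r : ℝ) ^ 2 := by exact_mod_cast hfin
  calc (B.card : ℝ) ≤ 1200 * (r : ℝ) ^ 2 := h17
    _ ≤ (m : ℝ) ^ (ε / 2) * (m : ℝ) ^ (ε / 2) := by
        have h18 : (0 : ℝ) ≤ (r : ℝ) ^ 2 := sq_nonneg _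
        exact mul_le_mul h1 hr2a h18 (by linarith)
    _ = _ := h8

end Pool.Agent.MP_ca1109_lc
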