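import Pool.Agent.MP_ca1109_lc.Proj
import Pool.Agent.MP_ca1109_lc.Riesz

/-!
# The sign-rank barrier
-/

namespace Pool.Agent.MP_ca1109_lc

open Finset Matrix

variable {m : ℕ} {A : Type} [Fintype A] [Nonempty A]

/-- Markov for a Rademacher sum -/
lemma prob_large (b : Fin m → ℝ) {θ : ℝ} (hθ : 0 < θ) (f : (Fin m → Bool) → Bool)
    (hf : ∀ x, f x = true ↔ θ < zed b x ^ 2) : prob f ≤ (∑ i, b i ^ 2) / θ := by
  have hcard : (Fintype.card (Fin m → Bool) : ℝ) = 2 ^ m := by simp
  have h2m : (0 : ℝ) < 2 ^ m := by positivity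
  rw [prob_eq, hcard, div_le_div_iff₀ h2m hθ]
  calc (∑ x, if f x then (1 : ℝ) else 0) * θ = ∑ x, (if f x then (1 : ℝ) else 0) * θ := by
        rw [sum_mul]
    _ ≤ ∑ x, zed b x ^ 2 := by
        refine sum_le_sum fun x _ => ?_
        by_cases h : f x = true
        · rw [if_pos h, one_mul]; exact ((hf x).1 h).le
        · rw [if_neg h, zero_mul]; exact sq_nonneg _
    _ = (∑ i, b i ^ 2) * 2 ^ m := by rw [second_moment, mul_comm]

/-- A linear form in at most `m / 440` outputs is large for at most a fifth of the seeds. -/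
theorem upper_tail {G : A → Fin m → Bool} (hG : Fools G) (T : Finset (Fin m))
    (hT : 440 * T.card ≤ m) (a : Fin m → ℝ) (hα : 0 < ∑ i ∈ T, a i ^ 2) (S : Finset A)
    (hS : ∀ s ∈ S, 25 * ∑ i ∈ T, a i ^ 2 ≤ (∑ i ∈ T, a i * sgn (G s i)) ^ 2) :
    (S.card : ℝ) ≤ 1 / 5 * Fintype.card A := by
  classical
  set α : ℝ := ∑ i ∈ T, a i ^ 2 with hαdef
  have hN := card_pos' (A := A)
  have htne : T.Nonempty := by
    rw [Finset.nonempty_iff_ne_empty]
    intro h
    rw [hαdef, h] at hα
    simp at hα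
  set t : ℝ := (T.card : ℝ) with ht
  have htpos : 0 < t := by
    rw [ht]; exact_mod_cast Finset.card_pos.2 htne
  set lam : ℝ := Real.sqrt (100 * t / α) with hlam
  have hlam2 : lam ^ 2 = 100 * t / α := by
    rw [hlam, Real.sq_sqrt]; positivity
  have hlam2' : lam ^ 2 * α = 100 * t := by
    rw [hlam2]; field_simp
  set g : Fin m → A → ℝ := fun i s => sgn (G s i) with hg
  obtain ⟨b, hb0, hb1, hb2⟩ := rounding g (fun i s => sgn_sq _) T (fun i => lam * a i)
  -- the size of `b`
  have hsum : 40 * ∑ i, (b i).natAbs ≤ m := by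
    have h1 : ∑ i, (b i).natAbs = ∑ i ∈ T, (b i).natAbs := by
      symm
      apply Finset.sum_subset (Finset.subset_univ T)
      intro i _ hi
      rw [hb0 i hi]; rfl
    have h2 : ((∑ i ∈ T, (b i).natAbs : ℕ) : ℝ) ≤ 11 * t := by
      push_cast
      have h3 : ∀ i ∈ T, (((b i).natAbs : ℕ) : ℝ) ≤ (lam * a i) ^ 2 / 20 + 5 + 1 := by
        intro i hi
        rw [Nat.cast_natAbs, Int.cast_abs]
        have h4 : |(b i : ℝ)| ≤ |lam * a i| + 1 := by
          have := hb1 i hi
          calc |(b i : ℝ)| = |lam * a i + ((b i : ℝ) - lam * a i)| := by congr 1; ring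
            _ ≤ |lam * a i| + |(b i : ℝ) - lam * a i| := abs_add_le _ _
            _ ≤ _ := by linarith
        have h5 : |lam * a i| ≤ (lam * a i) ^ 2 / 20 + 5 := by
          have := sq_nonneg (|lam * a i| - 10)
          have h6 := sq_abs (lam * a i)
          nlinarith
        linarith
      calc ∑ i ∈ T, (((b i).natAbs : ℕ) : ℝ) ≤ ∑ i ∈ T, ((lam * a i) ^ 2 / 20 + 5 + 1) :=
            Finset.sum_le_sum h3
        _ = (lam ^ 2 * α) / 20 + 6 * t := by
            rw [hαdef, Finset.sum_add_distrib, Finset.sum_add_distrib, ← Finset.sum_div]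
            simp only [mul_pow, ← Finset.mul_sum, Finset.sum_const, nsmul_eq_mul]
            ring
        _ = 11 * t := by rw [hlam2']; ring
    rw [h1]
    have h6 : ∑ i ∈ T, (b i).natAbs ≤ 11 * T.card := by
      have : ((∑ i ∈ T, (b i).natAbs : ℕ) : ℝ) ≤ ((11 * T.card : ℕ) : ℝ) := by
        push_cast at h2 ⊢
        exact h2
      exact_mod_cast this
    omega
  have hzed : ∀ s, zed (fun i => (b i : ℝ)) (G s) = ∑ i ∈ T, (b i : ℝ) * g i s := by
    intro s
    unfold zed
    symm
    apply Finset.sum_subset (Finset.subset_univ T)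
    intro i _ hi
    rw [hb0 i hi]; simp
  have hbT : ∑ i, (b i : ℝ) ^ 2 = ∑ i ∈ T, (b i : ℝ) ^ 2 := by
    symm
    apply Finset.sum_subset (Finset.subset_univ T)
    intro i _ hi
    rw [hb0 i hi]; simp
  -- bounds for the norm of `b`
  have hup : ∑ i ∈ T, (b i : ℝ) ^ 2 ≤ 121 * t := by
    have h1 : ∀ i ∈ T, (b i : ℝ) ^ 2 ≤ (1 + 1 / 10) * (lam * a i) ^ 2 + (1 + 1 / (1 / 10)) * 1 := by
      intro i hi
      have h2 := sq_add_le (lam * a i) ((b i : ℝ) - lam * a i) (1 / 10) (by norm_num)
      have h3 : ((b i : ℝ) - lam * a i) ^ 2 ≤ 1 := by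
        have := hb1 i hi
        rw [abs_le] at this
        nlinarith [this.1, this.2]
      rw [show lam * a i + ((b i : ℝ) - lam * a i) = (b i : ℝ) by ring] at h2
      nlinarith
    have h4 := Finset.sum_le_sum h1
    rw [Finset.sum_add_distrib, ← Finset.mul_sum] at h4
    simp only [mul_pow, ← Finset.mul_sum, Finset.sum_const, nsmul_eq_mul, ← hαdef] at h4
    rw [hlam2', ← ht] at h4
    linarith
  have hlow : 0 < ∑ i ∈ T, (b i : ℝ) ^ 2 := by
    have h1 : ∀ i ∈ T, (lam * a i) ^ 2 ≤ (1 + 1 / 9) * (b i : ℝ) ^ 2 + (1 + 1 / (1 / 9)) * 1 := by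
      intro i hi
      have h2 := sq_add_le (b i : ℝ) (lam * a i - b i) (1 / 9) (by norm_num)
      have h3 : (lam * a i - b i) ^ 2 ≤ 1 := by
        have := hb1 i hi
        rw [abs_le] at this
        nlinarith [this.1, this.2]
      rw [show (b i : ℝ) + (lam * a i - b i) = lam * a i by ring] at h2
      nlinarith
    have h4 := Finset.sum_le_sum h1
    rw [Finset.sum_add_distrib, ← Finset.mul_sum] at h4
    simp only [mul_pow, ← Finset.mul_sum, Finset.sum_const, nsmul_eq_mul, ← hαdef] at h4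
    rw [hlam2', ← ht] at h4
    linarith
  have hne : lits b ≠ [] := by
    intro h
    have h1 : (lits b).length = 0 := by rw [h]; rfl
    rw [length_lits, Finset.sum_eq_zero_iff] at h1
    have : ∑ i ∈ T, (b i : ℝ) ^ 2 = 0 := by
      apply Finset.sum_eq_zero
      intro i hi
      have := Int.natAbs_eq_zero.1 (h1 i (mem_univ i))
      rw [this]; simp
    linarith
  -- the circuit
  obtain ⟨C, hC, hCx⟩ := exists_circuit (lits b) hne (isLit_lits b)
    (fun n => decide (2020 * t < (2 * (n : ℝ) - ((lits b).length : ℝ)) ^ 2))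
  rw [length_lits] at hC
  have hadv := hG C (hC.trans hsum)
  have hiff : ∀ x, C.eval x = true ↔ 2020 * t < zed (fun i => (b i : ℝ)) x ^ 2 := by
    intro x
    rw [hCx, decide_eq_true_iff, zed_eq]
  have h1 : prob (fun x : Fin m → Bool => C.eval x) ≤ 6 / 100 := by
    have h2 := prob_large (fun i => (b i : ℝ)) (show 0 < 2020 * t by positivity)
      (fun x => C.eval x) hiff
    refine h2.trans ?_
    rw [hbT, div_le_iff₀ (by positivity)]
    linarith
  have h2 : prob (fun s => C.eval (G s)) ≤ 185 / 1000 := by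
    unfold advantage at hadv
    rw [abs_le] at hadv
    linarith [hadv.2]
  -- the exceptional seeds
  set Bd : Finset A := univ.filter fun s =>
    25 * t < (∑ i ∈ T, ((b i : ℝ) - lam * a i) * g i s) ^ 2 with hBd
  have hBdc : (Bd.card : ℝ) ≤ 1 / 100 * Fintype.card A := by
    have h3 : (Bd.card : ℝ) * (25 * t) ≤
        ∑ s, (∑ i ∈ T, ((b i : ℝ) - lam * a i) * g i s) ^ 2 := by
      calc (Bd.card : ℝ) * (25 * t) = ∑ s ∈ Bd, 25 * t := by rw [sum_const, nsmul_eq_mul]
        _ ≤ ∑ s ∈ Bd, (∑ i ∈ T, ((b i : ℝ) - lam * a i) * g i s) ^ 2 := by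
            refine sum_le_sum fun s hs => ?_
            rw [hBd, mem_filter] at hs
            exact hs.2.le
        _ ≤ _ := sum_le_sum_of_subset_of_nonneg (subset_univ _) fun s _ _ => sq_nonneg _
    have h4 := h3.trans hb2
    rw [← ht] at h4
    have h5 : (Bd.card : ℝ) * (25 * t) ≤ (1 / 100 * Fintype.card A) * (25 * t) := by
      refine h4.trans (le_of_eq ?_)
      ring
    exact le_of_mul_le_mul_right h5 (by positivity)
  have hsub : S ⊆ Bd ∪ univ.filter fun s => C.eval (G s) = true := by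
    intro s hs
    rw [mem_union]
    by_cases hB : s ∈ Bd
    · exact Or.inl hB
    · right
      rw [mem_filter]
      refine ⟨mem_univ _, (hiff _).2 ?_⟩
      rw [hBd, mem_filter, not_and, not_lt] at hB
      have h3 := hB (mem_univ s)
      have h4 := hS s hs
      rw [hzed]
      set P := ∑ i ∈ T, a i * sgn (G s i) with hP
      set R := ∑ i ∈ T, ((b i : ℝ) - lam * a i) * g i s with hR
      have h5 : ∑ i ∈ T, (b i : ℝ) * g i s = lam * P + R := by
        rw [hP, hR, mul_sum, ← sum_add_distrib]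
        refine Finset.sum_congr rfl fun i _ => ?_
        rw [hg]
        ring
      rw [h5]
      have h6 : 2500 * t ≤ (lam * P) ^ 2 := by
        have h7 : lam ^ 2 * (25 * α) ≤ lam ^ 2 * P ^ 2 :=
          mul_le_mul_of_nonneg_left h4 (sq_nonneg _)
        have h8 : lam ^ 2 * (25 * α) = 2500 * t := by
          have : lam ^ 2 * (25 * α) = 25 * (lam ^ 2 * α) := by ring
          rw [this, hlam2']; ring
        rw [mul_pow]
        linarith
      -- `(x + y)² ≥ (1 - η) x² - (1/η - 1) y²`
      have h7 := sq_add_le (lam * P + R) (-R) (1 / 9) (by norm_num)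
      rw [add_neg_cancel_right, neg_sq] at h7
      nlinarith
  have h3 : (S.card : ℝ) ≤ Bd.card + (univ.filter fun s => C.eval (G s) = true).card := by
    exact_mod_cast (card_le_card hsub).trans (card_union_le _ _)
  have h4 : ((univ.filter fun s => C.eval (G s) = true).card : ℝ) ≤
      185 / 1000 * Fintype.card A := by
    unfold prob at h2
    rw [div_le_iff₀ hN] at h2
    exact h2
  linarith

/-- Outputs whose sign patterns agree, for most seeds and with few errors, with those of vectors in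
dimension `r`, are few. -/
theorem sign_rank_bound {G : A → Fin m → Bool} (hG : Fools G) (T : Finset (Fin m))
    (hT : 440 * T.card ≤ m) (r : ℕ) (hr : 0 < r) (v : T → Fin r → ℝ) (u : A → Fin r → ℝ)
    (A' : Finset A) (hA' : 95 / 100 * (Fintype.card A : ℝ) ≤ A'.card)
    (herr : ∀ s ∈ A', 12 * r * errs (fun i : T => sgn (G s i)) (fun i => u s ⬝ᵥ v i) ≤ T.card) :
    T.card ≤ 1200 * r ^ 2 := by
  classical
  by_contra hcon
  push Not at hcon
  have hN := card_pos' (A := A)
  have hrr : r ≤ T.card := by nlinarith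
  have hcardT : Fintype.card T = T.card := Fintype.card_coe T
  obtain ⟨k, q, hk, hq, hs⟩ := exists_system r hr (by rw [hcardT]; exact hrr) v u
    (fun s (i : T) => sgn (G s i)) (fun s i => by cases G s i <;> simp [sgn]) (A' : Set A)
    (fun s hsA => by rw [hcardT]; exact herr s hsA)
  rw [hcardT] at hs
  have hrR : (1 : ℝ) ≤ r := by exact_mod_cast hr
  have htR : 1200 * (r : ℝ) ^ 2 < T.card := by exact_mod_cast hcon
  set b : A → Fin k → ℝ := fun s j => ∑ i, q j i * sgn (G s i) with hb
  set σ : A → ℝ := fun s => ∑ j, b s j ^ 2 with hσ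
  have hσs : ∀ s ∈ A', (T.card : ℝ) ≤ 12 * r * σ s := fun s hsA => hs s hsA
  have hσpos : ∀ s ∈ A', 100 * (r : ℝ) < σ s := by
    intro s hsA
    have h1 := hσs s hsA
    have h2 : 1200 * (r : ℝ) ^ 2 < 12 * r * σ s := lt_of_lt_of_le htR h1
    nlinarith
  -- average over the signs
  set ev : A → (Fin k → Bool) → Bool := fun s ε => decide (σ s / 4 < zed (b s) ε ^ 2) with hev
  have hprob : ∀ s ∈ A', 219 / 1000 * (2 : ℝ) ^ k ≤ ∑ ε, if ev s ε then (1 : ℝ) else 0 := by
    intro s hsA
    have h1 := anti_concentration (b s) (σ := σ s) rfl (by have := hσpos s hsA; linarith)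
      (ev s) (fun x => by rw [hev]; simp)
    rw [prob_eq, le_div_iff₀ (by simp)] at h1
    simpa using h1
  have hex : ∃ ε : Fin k → Bool, 219 / 1000 * (A'.card : ℝ) ≤
      ∑ s ∈ A', if ev s ε then (1 : ℝ) else 0 := by
    by_contra hno
    push Not at hno
    have h1 : ∑ ε : Fin k → Bool, ∑ s ∈ A', (if ev s ε then (1 : ℝ) else 0) <
        ∑ ε : Fin k → Bool, 219 / 1000 * (A'.card : ℝ) :=
      Finset.sum_lt_sum_of_nonempty ⟨fun _ => true, mem_univ _⟩ fun ε _ => hno ε
    rw [Finset.sum_comm] at h1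
    have h2 : ∑ s ∈ A', 219 / 1000 * (2 : ℝ) ^ k ≤
        ∑ s ∈ A', ∑ ε, (if ev s ε then (1 : ℝ) else 0) := Finset.sum_le_sum hprob
    simp only [sum_const, nsmul_eq_mul, card_univ, Fintype.card_pi, Fintype.card_bool,
      prod_const, Fintype.card_fin, Nat.cast_pow, Nat.cast_ofNat] at h1 h2
    nlinarith
  obtain ⟨ε, hε⟩ := hex
  rw [Finset.sum_boole] at hε
  set S : Finset A := A'.filter fun s => ev s ε = true with hS
  set a : Fin m → ℝ := fun i => if h : i ∈ T then ∑ j, sgn (ε j) * q j ⟨i, h⟩ else 0 with ha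
  have haT : ∀ i : T, a i = ∑ j, sgn (ε j) * q j i := by
    intro i
    rw [ha]
    simp only [dif_pos i.2, Subtype.coe_eta]
  have hα : ∑ i ∈ T, a i ^ 2 = k := by
    rw [← Finset.sum_coe_sort T (fun i => a i ^ 2)]
    have h1 : ∀ i : T, a i ^ 2 = ∑ j, ∑ l, (sgn (ε j) * sgn (ε l)) * (q j i * q l i) := by
      intro i
      rw [haT, sq, Finset.sum_mul_sum]
      refine Finset.sum_congr rfl fun j _ => Finset.sum_congr rfl fun l _ => ?_
      ring
    simp_rw [h1]
    rw [Finset.sum_comm]
    have h2 : ∀ j : Fin k, ∑ i : T, ∑ l, (sgn (ε j) * sgn (ε l)) * (q j i * q l i) = 1 := by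
      intro j
      rw [Finset.sum_comm]
      have h3 : ∀ l : Fin k, ∑ i : T, (sgn (ε j) * sgn (ε l)) * (q j i * q l i) =
          if j = l then 1 else 0 := by
        intro l
        rw [← Finset.mul_sum, hq]
        by_cases hjl : j = l
        · subst hjl
          rw [if_pos rfl, mul_one, ← sq, sgn_sq]
        · rw [if_neg hjl, mul_zero]
      simp_rw [h3]
      simp
    simp_rw [h2]
    simp
  have hkR : (k : ℝ) ≤ r := by exact_mod_cast hk
  have hform : ∀ s, ∑ i ∈ T, a i * sgn (G s i) = zed (b s) ε := by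
    intro s
    rw [← Finset.sum_coe_sort T (fun i => a i * sgn (G s i))]
    unfold zed
    rw [hb]
    simp_rw [haT, Finset.sum_mul]
    rw [Finset.sum_comm]
    refine Finset.sum_congr rfl fun j _ => Finset.sum_congr rfl fun i _ => ?_
    ring
  have hA'ne : (0 : ℝ) < A'.card := lt_of_lt_of_le (by positivity) hA'
  obtain ⟨s₀, hs₀⟩ := Finset.card_pos.1 (by exact_mod_cast hA'ne : 0 < A'.card)
  have hkpos : 0 < k := by
    rcases Nat.eq_zero_or_pos k with h | h
    · exfalso
      have h1 := hσpos s₀ hs₀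
      rw [hσ] at h1
      subst h
      simp at h1
      linarith
    · exact h
  have hbound := upper_tail hG T hT a (by rw [hα]; exact_mod_cast hkpos) S (by
    intro s hsS
    rw [hS, mem_filter] at hsS
    have h1 : σ s / 4 < zed (b s) ε ^ 2 := by
      have := hsS.2
      rw [hev] at this
      simpa using this
    have h2 := hσpos s hsS.1
    rw [hform, hα]
    linarith)
  linarith

end Pool.Agent.MP_ca1109_lc
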