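import Pool.Agent.MP_ca1109_lc.MonoThreshold

/-!
# Tests which depend only on the numbers of ones in the classes of a partition

A partition of the `m` coordinates into classes is given by a colouring `χ m : ℕ → ℕ` of the
coordinates `0, ..., m - 1` with colours `0, ..., m - 1`.
-/

namespace Pool.Agent.MP_ca1109_lc

open Pool.Agent.H66 Finset

/-- The number of coordinates of colour `c` among the first `m` coordinates. -/
def cnum (χ : ℕ → ℕ → ℕ) (m c : ℕ) : ℕ := ((range m).filter fun p => χ m p = c).card

/-- The number of vectors `(k_c)` with `0 ≤ k_c ≤ cnum χ m c`: the number of possible values of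
the vector of the numbers of ones in the classes. -/
def orbits (χ : ℕ → ℕ → ℕ) (m : ℕ) : ℕ := ∏ c ∈ range m, (cnum χ m c + 1)

/-- The number of ones of `x` among the coordinates of colour `c`. -/
def cwt (χ : ℕ → ℕ → ℕ) {m : ℕ} (x : Fin m → Bool) (c : ℕ) : ℕ :=
  (univ.filter fun p : Fin m => χ m p = c ∧ x p = true).card

/-- The function `f` of `m` bits depends only on the numbers of ones in the colour classes. -/
def SymFun (χ : ℕ → ℕ → ℕ) {m : ℕ} (f : (Fin m → Bool) → Bool) : Prop :=
  ∀ x y : Fin m → Bool, (∀ c, cwt χ x c = cwt χ y c) → f x = f y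

/-! ## Prefixes -/

/-- The number of ones of colour `c` in the list `z`. -/
def lw (χ : ℕ → ℕ → ℕ) (m : ℕ) (z : List Bool) (c : ℕ) : ℕ :=
  ((List.range z.length).filter fun p => decide (χ m p = c) && z.getD p false).length

theorem lw_snoc (χ : ℕ → ℕ → ℕ) (m : ℕ) (z : List Bool) (b : Bool) (c : ℕ) :
    lw χ m (z ++ [b]) c = lw χ m z c + (if χ m z.length = c ∧ b = true then 1 else 0) := by
  unfold lw
  rw [List.length_append, List.length_singleton, List.range_succ, List.filter_append,
    List.length_append]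
  congr 1
  · congr 1
    apply List.filter_congr
    intro p hp
    rw [List.mem_range] at hp
    rw [List.getD_append _ _ _ _ hp]
  · have : (z ++ [b]).getD z.length false = b := by
      rw [List.getD_append_right _ _ _ _ le_rfl]
      simp
    rw [List.filter_singleton, this]
    by_cases h : χ m z.length = c
    · cases b <;> simp [h]
    · simp [h]

theorem lw_le (χ : ℕ → ℕ → ℕ) (m : ℕ) (z : List Bool) (c : ℕ) (hz : z.length ≤ m) :
    lw χ m z c ≤ cnum χ m c := by
  unfold lw cnum
  rw [← List.toFinset_card_of_nodup (List.Nodup.filter _ List.nodup_range)]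
  apply Finset.card_le_card
  intro p hp
  rw [List.mem_toFinset, List.mem_filter, List.mem_range] at hp
  rw [Finset.mem_filter, Finset.mem_range]
  simp only [Bool.and_eq_true, decide_eq_true_eq] at hp
  exact ⟨by omega, hp.2.1⟩

theorem cwt_bits (χ : ℕ → ℕ → ℕ) (m : ℕ) (z : List Bool) (c : ℕ) (hz : z.length = m) :
    cwt χ (bits m z) c = lw χ m z c := by
  unfold lw cwt bits
  rw [← List.toFinset_card_of_nodup (List.Nodup.filter _ List.nodup_range)]
  refine Finset.card_bij (fun p _ => (p : ℕ)) ?_ ?_ ?_
  · intro p hp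
    rw [Finset.mem_filter] at hp
    rw [List.mem_toFinset, List.mem_filter, List.mem_range, hz]
    refine ⟨p.2, ?_⟩
    rw [hp.2.2, Bool.and_true, decide_eq_true_eq]
    exact hp.2.1
  · intro p _ q _ h
    exact Fin.ext h
  · intro p hp
    rw [List.mem_toFinset, List.mem_filter, List.mem_range, hz] at hp
    simp only [Bool.and_eq_true, decide_eq_true_eq] at hp
    refine ⟨⟨p, hp.1⟩, ?_, rfl⟩
    rw [Finset.mem_filter]
    exact ⟨Finset.mem_univ _, hp.2.1, hp.2.2⟩

theorem lw_eq_zero (χ : ℕ → ℕ → ℕ) (m : ℕ) (hχ : ∀ p < m, χ m p < m) (z : List Bool) (c : ℕ)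
    (hz : z.length ≤ m) (hc : m ≤ c) : lw χ m z c = 0 := by
  unfold lw
  rw [List.length_eq_zero_iff, List.filter_eq_nil_iff]
  intro p hp h
  rw [List.mem_range] at hp
  simp only [Bool.and_eq_true, decide_eq_true_eq] at h
  have := hχ p (by omega)
  omega

/-- The vector of the numbers of ones. -/
def lkey (χ : ℕ → ℕ → ℕ) (m : ℕ) (z : List Bool) : Fin m → ℕ := fun c => lw χ m z c

/-- Comparison of the vectors of the numbers of ones. -/
def same (χ : ℕ → ℕ → ℕ) (m : ℕ) (z z' : List Bool) : Bool :=
  ((List.range m).filter fun c => !decide (lw χ m z c = lw χ m z' c)).isEmpty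

theorem same_iff (χ : ℕ → ℕ → ℕ) (m : ℕ) (z z' : List Bool) :
    same χ m z z' = true ↔ lkey χ m z = lkey χ m z' := by
  unfold same lkey
  rw [List.isEmpty_iff, List.filter_eq_nil_iff]
  constructor
  · intro h
    funext c
    have := h c (List.mem_range.2 c.2)
    simpa using this
  · intro h c hc
    rw [List.mem_range] at hc
    have := congrFun h ⟨c, hc⟩
    simpa using this

/-- the possible vectors -/
def keys (χ : ℕ → ℕ → ℕ) (m : ℕ) : Finset (Fin m → ℕ) :=
  Fintype.piFinset fun c : Fin m => range (cnum χ m c + 1)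

theorem card_keys (χ : ℕ → ℕ → ℕ) (m : ℕ) : (keys χ m).card = orbits χ m := by
  unfold keys orbits
  rw [Fintype.card_piFinset, ← Fin.prod_univ_eq_prod_range (fun c => cnum χ m c + 1) m]
  simp

theorem lkey_mem (χ : ℕ → ℕ → ℕ) (m : ℕ) (z : List Bool) (hz : z.length ≤ m) :
    lkey χ m z ∈ keys χ m := by
  unfold keys
  rw [Fintype.mem_piFinset]
  intro c
  rw [Finset.mem_range]
  have := lw_le χ m z c hz
  unfold lkey
  omega

/-! ## Extensions of a prefix -/

/-- The probability of `f` when the prefix `z` is extended by `n` random bits. -/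
noncomputable def ext {m : ℕ} (f : (Fin m → Bool) → Bool) : ℕ → List Bool → ℝ
  | 0, z => ind (f (bits m z))
  | n + 1, z => (ext f n (z ++ [false]) + ext f n (z ++ [true])) / 2

theorem ext_nonneg {m : ℕ} (f : (Fin m → Bool) → Bool) : ∀ (n : ℕ) (z : List Bool), 0 ≤ ext f n z
  | 0, z => ind_nonneg _
  | n + 1, z => by
    have h1 := ext_nonneg f n (z ++ [false])
    have h2 := ext_nonneg f n (z ++ [true])
    unfold ext
    linarith

theorem ext_le_one {m : ℕ} (f : (Fin m → Bool) → Bool) : ∀ (n : ℕ) (z : List Bool), ext f n z ≤ 1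
  | 0, z => ind_le_one _
  | n + 1, z => by
    have h1 := ext_le_one f n (z ++ [false])
    have h2 := ext_le_one f n (z ++ [true])
    unfold ext
    linarith

theorem ext_sym {χ : ℕ → ℕ → ℕ} {m : ℕ} (hχ : ∀ p < m, χ m p < m) {f : (Fin m → Bool) → Bool}
    (hf : SymFun χ f) : ∀ (n : ℕ) (z z' : List Bool), z.length + n = m → z'.length + n = m →
      lkey χ m z = lkey χ m z' → ext f n z = ext f n z'
  | 0, z, z', hz, hz', h => by
    have hz0 : z.length = m := by omega
    have hz0' : z'.length = m := by omega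
    unfold ext
    rw [hf (bits m z) (bits m z') fun c => ?_]
    rw [cwt_bits χ m z c hz0, cwt_bits χ m z' c hz0']
    by_cases hc : c < m
    · exact congrFun h ⟨c, hc⟩
    · rw [lw_eq_zero χ m hχ z c hz0.le (by omega), lw_eq_zero χ m hχ z' c hz0'.le (by omega)]
  | n + 1, z, z', hz, hz', h => by
    have hlen : z.length = z'.length := by omega
    have key : ∀ b, lkey χ m (z ++ [b]) = lkey χ m (z' ++ [b]) := by
      intro b
      funext c
      have := congrFun h c
      unfold lkey at this ⊢
      rw [lw_snoc, lw_snoc, this, hlen]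
    unfold ext
    rw [ext_sym hχ hf n (z ++ [false]) (z' ++ [false]) (by simp; omega) (by simp; omega) (key _),
      ext_sym hχ hf n (z ++ [true]) (z' ++ [true]) (by simp; omega) (by simp; omega) (key _)]

theorem ext_eq_avg {m : ℕ} (f : (Fin m → Bool) → Bool) : ∀ (n : ℕ) (z : List Bool),
    ext f n z = avg fun y : Fin n → Bool => ind (f (bits m (z ++ List.ofFn y)))
  | 0, z => by
    unfold ext avg
    simp
  | n + 1, z => by
    have h := avg_equiv (Fin.consEquiv fun _ : Fin (n + 1) => Bool)
      (fun y : Fin (n + 1) → Bool => ind (f (bits m (z ++ List.ofFn y))))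
    rw [← h]
    have e : ∀ p : Bool × (Fin n → Bool), z ++ List.ofFn ((Fin.consEquiv fun _ : Fin (n + 1) => Bool) p) =
        (z ++ [p.1]) ++ List.ofFn p.2 := by
      intro p
      rw [List.append_assoc]
      congr 1
      show List.ofFn (Fin.cons p.1 p.2 : Fin (n + 1) → Bool) = [p.1] ++ List.ofFn p.2
      rw [List.ofFn_succ]
      simp
    unfold ext
    rw [ext_eq_avg f n, ext_eq_avg f n]
    unfold avg
    simp only [e]
    rw [Fintype.sum_prod_type, Fintype.sum_bool, Fintype.card_prod, Fintype.card_bool]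
    push_cast
    have hc : (0 : ℝ) < Fintype.card (Fin n → Bool) := by exact_mod_cast Fintype.card_pos
    field_simp
    ring

theorem ext_nil {m : ℕ} (f : (Fin m → Bool) → Bool) : ext f m [] = prob f := by
  rw [ext_eq_avg, prob_eq_avg]
  congr 1
  funext y
  congr 2
  funext i
  simp [bits]

end Pool.Agent.MP_ca1109_lc
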