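import Pool.Agent.MP_ca1109_lc.SymDefs
import Pool.Agent.MP_ca1109_lc.Count

/-!
# Binary codes of the numbers of ones in a segment of the classes
-/

namespace Pool.Agent.MP_ca1109_lc

open Pool.Agent.H66 Finset

/-! ## Binary digits -/

/-- `k` binary digits of a number, least significant first. -/
def dg : ℕ → ℕ → List Bool
  | 0, _ => []
  | k + 1, v => decide (v % 2 = 1) :: dg k (v / 2)

theorem dg_length : ∀ k v : ℕ, (dg k v).length = k
  | 0, _ => rfl
  | k + 1, v => by rw [dg, List.length_cons, dg_length k]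

theorem dg_inj : ∀ (k v v' : ℕ), v < 2 ^ k → v' < 2 ^ k → dg k v = dg k v' → v = v'
  | 0, v, v', h, h', _ => by
    rw [pow_zero] at h h'
    omega
  | k + 1, v, v', h, h', e => by
    rw [dg, dg, List.cons.injEq] at e
    rw [pow_succ] at h h'
    have h1 := dg_inj k (v / 2) (v' / 2) (by omega) (by omega) e.2
    have h2 : (v % 2 = 1) ↔ (v' % 2 = 1) := decide_eq_decide.1 e.1
    omega

theorem dg_val {m : ℕ} : ∀ (R : List (BF m)) (x : Fin m → Bool),
    dg R.length (val R x) = R.map fun f => f x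
  | [], _ => rfl
  | f :: R, x => by
    rw [List.length_cons, dg, val, List.map_cons]
    have h1 : ((f x).toNat + 2 * val R x) / 2 = val R x := by
      cases f x <;> simp <;> omega
    rw [h1, dg_val R x]
    congr 1
    cases f x
    · simp
    · simp only [Bool.toNat_true, decide_eq_true_eq]
      omega

/-! ## The code -/

/-- The number of digits for the colour `c`. -/
def kb (χ : ℕ → ℕ → ℕ) (m c : ℕ) : ℕ := Nat.clog 2 (cnum χ m c) + 1

/-- The colours in `[a, b)` which occur. -/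
def rel (χ : ℕ → ℕ → ℕ) (m a b : ℕ) : List ℕ :=
  (List.range m).filter fun c => decide (a ≤ c) && (decide (c < b) && decide (0 < cnum χ m c))

/-- The code of the numbers of ones in the classes `[a, b)`. -/
def ecode (χ : ℕ → ℕ → ℕ) (m a b : ℕ) (z : List Bool) : List Bool :=
  (rel χ m a b).flatMap fun c => dg (kb χ m c) (lw χ m z c)

/-- The length of the code. -/
def elen (χ : ℕ → ℕ → ℕ) (m a b : ℕ) : ℕ := ((rel χ m a b).map (kb χ m)).sum

theorem ecode_length (χ : ℕ → ℕ → ℕ) (m a b : ℕ) (z : List Bool) :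
    (ecode χ m a b z).length = elen χ m a b := by
  unfold ecode elen
  rw [List.length_flatMap]
  simp only [dg_length]

theorem mem_rel {χ : ℕ → ℕ → ℕ} {m a b c : ℕ} :
    c ∈ rel χ m a b ↔ c < m ∧ a ≤ c ∧ c < b ∧ 0 < cnum χ m c := by
  unfold rel
  rw [List.mem_filter, List.mem_range]
  simp only [Bool.and_eq_true, decide_eq_true_eq]

theorem rel_nodup (χ : ℕ → ℕ → ℕ) (m a b : ℕ) : (rel χ m a b).Nodup :=
  List.Nodup.filter _ List.nodup_range

theorem rel_sub (χ : ℕ → ℕ → ℕ) (m a b : ℕ) : (rel χ m a b).toFinset ⊆ Ico a b := by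
  intro c hc
  rw [List.mem_toFinset, mem_rel] at hc
  rw [mem_Ico]
  exact ⟨hc.2.1, hc.2.2.1⟩

theorem cnum_le (χ : ℕ → ℕ → ℕ) (m c : ℕ) : cnum χ m c ≤ m := by
  unfold cnum
  exact (card_filter_le _ _).trans (card_range m).le

theorem lt_two_pow_kb (χ : ℕ → ℕ → ℕ) (m c v : ℕ) (hv : v ≤ cnum χ m c) : v < 2 ^ kb χ m c := by
  unfold kb
  rw [pow_succ]
  have h1 := Nat.le_pow_clog one_lt_two (cnum χ m c)
  have h2 : 0 < 2 ^ Nat.clog 2 (cnum χ m c) := by positivity
  omega

theorem two_pow_kb_le (χ : ℕ → ℕ → ℕ) (m c : ℕ) (hc : 0 < cnum χ m c) :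
    2 ^ kb χ m c ≤ (cnum χ m c + 1) ^ 2 := by
  unfold kb
  rw [pow_succ]
  have h1 := two_pow_clog_le (cnum χ m c) hc
  nlinarith [Nat.zero_le ((cnum χ m c - 1) ^ 2), sq_nonneg ((cnum χ m c : ℤ) - 1)]

theorem two_pow_elen_le (χ : ℕ → ℕ → ℕ) (m a b : ℕ) :
    2 ^ elen χ m a b ≤ (∏ c ∈ Ico a b, (cnum χ m c + 1)) ^ 2 := by
  have h1 : 2 ^ elen χ m a b = ∏ c ∈ (rel χ m a b).toFinset, 2 ^ kb χ m c := by
    unfold elen
    rw [prod_pow_eq_pow_sum, List.sum_toFinset _ (rel_nodup χ m a b)]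
  rw [h1, ← prod_pow]
  refine (prod_le_prod' fun c hc => ?_).trans
    (prod_le_prod_of_subset_of_one_le' (rel_sub χ m a b) fun c _ _ => ?_)
  · rw [List.mem_toFinset, mem_rel] at hc
    exact two_pow_kb_le χ m c hc.2.2.2
  · exact Nat.one_le_pow _ _ (Nat.succ_pos _)

theorem flatMap_inj {α β : Type*} {f g : α → List β} : ∀ (l : List α),
    (∀ c ∈ l, (f c).length = (g c).length) → l.flatMap f = l.flatMap g → ∀ c ∈ l, f c = g c
  | [], _, _, c, hc => by simp at hc
  | c₀ :: l, hl, h, c, hc => by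
    rw [List.flatMap_cons, List.flatMap_cons] at h
    obtain ⟨h1, h2⟩ := List.append_inj h (hl c₀ List.mem_cons_self)
    rcases List.mem_cons.1 hc with rfl | hc
    · exact h1
    · exact flatMap_inj l (fun c hc => hl c (List.mem_cons_of_mem _ hc)) h2 c hc

/-- The code determines the numbers of ones. -/
theorem ecode_inj {χ : ℕ → ℕ → ℕ} {m a b : ℕ} (hb : b ≤ m) {z z' : List Bool}
    (hz : z.length ≤ m) (hz' : z'.length ≤ m) (h : ecode χ m a b z = ecode χ m a b z') :
    ∀ c ∈ Ico a b, lw χ m z c = lw χ m z' c := by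
  intro c hc
  rw [mem_Ico] at hc
  have h1 := lw_le χ m z c hz
  have h2 := lw_le χ m z' c hz'
  by_cases h0 : 0 < cnum χ m c
  · refine dg_inj (kb χ m c) _ _ (lt_two_pow_kb χ m c _ h1) (lt_two_pow_kb χ m c _ h2) ?_
    exact flatMap_inj (rel χ m a b) (fun c _ => by rw [dg_length, dg_length]) h c
      (mem_rel.2 ⟨by omega, hc.1, hc.2, h0⟩)
  · omega

/-! ## Circuits -/

theorem Comp.gets {m s : ℕ} {F : Set (BF m)} (h : Comp m s F) : Gets true (bas m) s F := by
  obtain ⟨n, C, hC, hF⟩ := h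
  refine (gates_gets C).weaken Set.subset_union_left hC ?_
  intro f hf
  obtain ⟨w, hw⟩ := hF f hf
  exact ⟨w, funext hw⟩

/-- The coordinates of colour `c`. -/
def colL (χ : ℕ → ℕ → ℕ) (m c : ℕ) : List (BF m) :=
  ((List.finRange m).filter fun p : Fin m => decide (χ m p = c)).map fun p x => x p

theorem colL_length (χ : ℕ → ℕ → ℕ) (m c : ℕ) : (colL χ m c).length = cnum χ m c := by
  unfold colL cnum
  rw [List.length_map, ← List.toFinset_card_of_nodup (List.Nodup.filter _ (List.nodup_finRange m))]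
  refine Finset.card_bij (fun p _ => (p : ℕ)) ?_ ?_ ?_
  · intro p hp
    rw [List.mem_toFinset, List.mem_filter] at hp
    rw [Finset.mem_filter, Finset.mem_range]
    exact ⟨p.2, by simpa using hp.2⟩
  · intro p _ q _ h
    exact Fin.ext h
  · intro p hp
    rw [Finset.mem_filter, Finset.mem_range] at hp
    refine ⟨⟨p, hp.1⟩, ?_, rfl⟩
    rw [List.mem_toFinset, List.mem_filter]
    exact ⟨List.mem_finRange _, by simpa using hp.2⟩

theorem cnt_map {m : ℕ} (l : List (Fin m)) (y : Fin m → Bool) :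
    cnt (l.map fun p (x : Fin m → Bool) => x p) y = (l.filter fun p => y p).length := by
  induction l with
  | nil => rfl
  | cons p l ih =>
    rw [List.map_cons, cnt, ih, List.filter_cons]
    cases y p <;> simp <;> omega

theorem cnt_colL (χ : ℕ → ℕ → ℕ) (m c : ℕ) (y : Fin m → Bool) :
    cnt (colL χ m c) y = cwt χ y c := by
  unfold colL cwt
  rw [cnt_map, List.filter_filter,
    ← List.toFinset_card_of_nodup (List.Nodup.filter _ (List.nodup_finRange m))]
  congr 1
  ext p
  rw [List.mem_toFinset, List.mem_filter, Finset.mem_filter]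
  simp only [List.mem_finRange, Finset.mem_univ, true_and, Bool.and_eq_true, decide_eq_true_eq]
  exact and_comm

/-- The digits of the number of ones of colour `c`. -/
theorem gets_col (χ : ℕ → ℕ → ℕ) (m c : ℕ) (hc : 0 < cnum χ m c) :
    ∃ R : List (BF m), (∀ y, R.map (fun f => f y) = dg (kb χ m c) (cwt χ y c)) ∧
      Gets true (bas m) (28 * cnum χ m c) {f | f ∈ R} := by
  have hm : 0 < m := lt_of_lt_of_le hc (cnum_le χ m c)
  let i0 : Fin m := ⟨0, hm⟩
  have hmem : (fun x : Fin m → Bool => x i0) ∈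
      (Set.range fun i : Fin m => fun x : Fin m → Bool => x i) := ⟨i0, rfl⟩
  have hC1 := (comp_inputs m).not hmem
  have hC2 := hC1.and (Set.mem_insert_of_mem _ hmem) (Set.mem_insert _ _)
  set F2 := insert (fun x : Fin m → Bool => (x i0 && !(x i0))) (insert (fun x => !(x i0))
    (Set.range fun i : Fin m => fun x : Fin m → Bool => x i)) with hF2
  have h0 : (fun _ => false : BF m) ∈ F2 := by
    have : (fun _ => false : BF m) = (fun x : Fin m → Bool => (x i0 && !(x i0))) := by
      funext x; cases x i0 <;> rfl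
    rw [this]
    exact Set.mem_insert _ _
  have hL : ∀ f ∈ colL χ m c, f ∈ F2 := by
    intro f hf
    unfold colL at hf
    rw [List.mem_map] at hf
    obtain ⟨p, -, rfl⟩ := hf
    exact Set.mem_insert_of_mem _ (Set.mem_insert_of_mem _ ⟨p, rfl⟩)
  obtain ⟨F3, hF3, hC3, R, hR, hRF, hx⟩ := Comp.count (Nat.clog 2 (cnum χ m c)) hC2 h0
    (colL χ m c) (by rw [colL_length]; exact Nat.le_pow_clog one_lt_two _) hL
  refine ⟨R, fun y => ?_, (Comp.gets hC3).weaken subset_rfl ?_ hRF⟩
  · rw [← dg_val, hx, cnt_colL, hR]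
    rfl
  · have h1 := two_pow_clog_le (cnum χ m c) hc
    omega

theorem gets_list (χ : ℕ → ℕ → ℕ) (m : ℕ) : ∀ l : List ℕ, (∀ c ∈ l, 0 < cnum χ m c) →
    ∃ W : List (BF m),
      (∀ y, W.map (fun f => f y) = l.flatMap fun c => dg (kb χ m c) (cwt χ y c)) ∧
      Gets true (bas m) (28 * (l.map (cnum χ m)).sum) {f | f ∈ W}
  | [], _ => ⟨[], fun y => rfl, by
      refine (Gets.refl true (bas m)).weaken subset_rfl (Nat.zero_le _) ?_
      intro f hf
      simp at hf⟩
  | c :: l, h => by
    obtain ⟨R, h1, h2⟩ := gets_col χ m c (h c List.mem_cons_self)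
    obtain ⟨W, h3, h4⟩ := gets_list χ m l fun c hc => h c (List.mem_cons_of_mem _ hc)
    refine ⟨R ++ W, fun y => ?_, (h2.union h4).weaken subset_rfl ?_ ?_⟩
    · rw [List.map_append, h1, h3, List.flatMap_cons]
    · rw [List.map_cons, List.sum_cons]
      omega
    · intro f hf
      exact List.mem_append.1 hf

/-- The code is computed by a small circuit. -/
theorem gets_ecode (χ : ℕ → ℕ → ℕ) (m a b : ℕ) : ∃ W : List (BF m),
    (∀ y, W.map (fun f => f y) = (rel χ m a b).flatMap fun c => dg (kb χ m c) (cwt χ y c)) ∧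
    Gets true (bas m) (28 * ∑ c ∈ Ico a b, cnum χ m c) {f | f ∈ W} := by
  obtain ⟨W, h1, h2⟩ := gets_list χ m (rel χ m a b) fun c hc => (mem_rel.1 hc).2.2.2
  refine ⟨W, h1, h2.weaken subset_rfl ?_ subset_rfl⟩
  refine Nat.mul_le_mul_left _ ?_
  rw [← List.sum_toFinset _ (rel_nodup χ m a b)]
  exact sum_le_sum_of_subset (rel_sub χ m a b)

/-- A function computed with constants is computed by a circuit. -/
theorem Gets.circuit_neg {m s : ℕ} (hm : 0 < m) {f : BF m} (h : Gets true (bas m) s {f}) :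
    ∃ C : Circuit m, C.size ≤ s + 1 ∧ ∀ x, C.eval x = f x := by
  obtain ⟨s₁, h1, F₁, h2, h3⟩ := h
  obtain ⟨n, C, h4, -, h6⟩ := h3.gates
  rcases h6 f (h2 rfl) with hc | ⟨w, hw⟩
  · let i0 : Fin m := ⟨0, hm⟩
    have hmem : (fun x : Fin m → Bool => x i0) ∈
        (Set.range fun i : Fin m => fun x : Fin m → Bool => x i) := ⟨i0, rfl⟩
    have hC1 := (comp_inputs m).not hmem
    have hC2 := hC1.and (Set.mem_insert_of_mem _ hmem) (Set.mem_insert _ _)
    have hC3 := hC2.not (Set.mem_insert _ _)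
    have hf : f ∈ (insert (fun x : Fin m → Bool => !(x i0 && !(x i0)))
        (insert (fun x : Fin m → Bool => (x i0 && !(x i0))) (insert (fun x => !(x i0))
        (Set.range fun i : Fin m => fun x : Fin m → Bool => x i)))) := by
      rcases hc with hc | hc
      · right; left
        rw [hc]
        funext x; cases x i0 <;> rfl
      · left
        rw [Set.mem_singleton_iff.1 hc]
        funext x; cases x i0 <;> rfl
    obtain ⟨C, hC, hCx⟩ := hC3.circuit hf
    exact ⟨C, by omega, hCx⟩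
  · exact ⟨⟨n, C, w⟩, h4.trans (h1.trans (Nat.le_succ _)), hw⟩

/-- Composition of a circuit with functions which are constant or computed by small circuits. -/
theorem compose {m n s : ℕ} (hm : 0 < m) (D : Circuit n) (φ : Fin n → BF m) {F : Set (BF m)}
    (hF : Gets true (bas m) s F) (hφ : ∀ i, φ i ∈ bas m ∪ F) :
    ∃ C : Circuit m, C.size ≤ s + D.size + 1 ∧ ∀ y, C.eval y = D.eval fun i => φ i y := by
  have h1 := (circuit_gets D le_rfl).pull (fun (y : Fin m → Bool) (i : Fin n) => φ i y)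
  have h2 := h1.weaken (B' := bas m ∪ F) (s' := D.size)
    (F' := {fun y => D.eval fun i => φ i y}) ?_ le_rfl ?_
  · exact Gets.circuit_neg hm (hF.trans' h2)
  · rintro _ ⟨g, (⟨i, rfl⟩ | hg), rfl⟩
    · exact hφ i
    · left; right
      rcases hg with hg | hg
      · left
        rw [hg]
      · right
        rw [Set.mem_singleton_iff.1 hg]
        rfl
  · rw [Set.singleton_subset_iff]
    exact ⟨_, rfl, rfl⟩

end Pool.Agent.MP_ca1109_lc
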