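import Mathlib

/-!
# Halving a list while keeping the statistics of a key

`hv r D` goes through the list `D` and pairs up elements which are related by `r`; one element of
each pair is kept, the unpaired elements are in the second list.
-/

namespace Pool.Agent.MP_ca1109_lc

variable {α κ : Type*}

/-- One step of the pairing: `s.1` are the elements kept, `s.2` the elements waiting. -/
def hstep (r : α → α → Bool) (s : List α × List α) (x : α) : List α × List α :=
  if (s.2.filter (r x)).isEmpty then (s.1, x :: s.2) else (x :: s.1, s.2.filter fun y => !r x y)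

/-- The pairing. -/
def hv (r : α → α → Bool) (D : List α) : List α × List α := D.foldl (hstep r) ([], [])

/-- Keep `M` elements. -/
def half (r : α → α → Bool) (M : ℕ) (D : List α) : List α :=
  (hv r D).1 ++ (hv r D).2.drop ((hv r D).2.length - (M - (hv r D).1.length))

theorem hv_snoc (r : α → α → Bool) (D : List α) (x : α) : hv r (D ++ [x]) = hstep r (hv r D) x := by
  rw [hv, List.foldl_append]
  rfl

theorem sum_filter_not (p : List α) (q : α → Bool) (h : α → ℝ) :
    (p.map h).sum = ((p.filter q).map h).sum + ((p.filter fun y => !q y).map h).sum := by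
  induction p with
  | nil => simp
  | cons a p ih =>
    rw [List.map_cons, List.sum_cons, ih, List.filter_cons, List.filter_cons]
    cases h : q a
    · simp only [Bool.false_eq_true, if_false, Bool.not_false, if_true, List.map_cons, List.sum_cons]
      ring
    · simp only [if_true, Bool.not_true, Bool.false_eq_true, if_false, List.map_cons, List.sum_cons]
      ring

theorem hv_spec (r : α → α → Bool) (key : α → κ) (hr : ∀ a b, r a b = true ↔ key a = key b)
    (D : List α) :
    ((hv r D).2.map key).Nodup ∧ (∀ y ∈ (hv r D).1, y ∈ D) ∧ (∀ y ∈ (hv r D).2, y ∈ D) ∧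
      ∀ h : α → ℝ, (∀ a ∈ D, ∀ b ∈ D, key a = key b → h a = h b) →
        (D.map h).sum = 2 * ((hv r D).1.map h).sum + ((hv r D).2.map h).sum := by
  induction D using List.reverseRecOn with
  | nil => simp [hv]
  | append_singleton D x ih =>
    obtain ⟨h1, h2, h3, h4⟩ := ih
    rw [hv_snoc]
    set s := hv r D with hs
    have hsum : ∀ h : α → ℝ, (∀ a ∈ D ++ [x], ∀ b ∈ D ++ [x], key a = key b → h a = h b) →
        ((D ++ [x]).map h).sum = 2 * (s.1.map h).sum + (s.2.map h).sum + h x := by
      intro h hh
      rw [List.map_append, List.sum_append, h4 h (fun a ha b hb => hh a (by simp [ha]) b (by simp [hb]))]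
      simp
    by_cases hx : (s.2.filter (r x)).isEmpty = true
    · have hst : hstep r s x = (s.1, x :: s.2) := by rw [hstep, if_pos hx]
      rw [hst]
      have hx' : ∀ y ∈ s.2, key x ≠ key y := by
        intro y hy hxy
        rw [List.isEmpty_iff, List.filter_eq_nil_iff] at hx
        exact hx y hy ((hr x y).2 hxy)
      refine ⟨?_, ?_, ?_, ?_⟩
      · show ((x :: s.2).map key).Nodup
        rw [List.map_cons, List.nodup_cons]
        refine ⟨?_, h1⟩
        rw [List.mem_map]
        rintro ⟨y, hy, hxy⟩
        exact hx' y hy hxy.symm
      · intro y hy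
        rw [List.mem_append]
        exact Or.inl (h2 y hy)
      · intro y hy
        rw [List.mem_append]
        rcases List.mem_cons.1 hy with rfl | hy
        · right; simp
        · exact Or.inl (h3 y hy)
      · intro h hh
        rw [hsum h hh]
        show _ = 2 * (s.1.map h).sum + ((x :: s.2).map h).sum
        rw [List.map_cons, List.sum_cons]
        ring
    · have hst : hstep r s x = (x :: s.1, s.2.filter fun y => !r x y) := by rw [hstep, if_neg hx]
      rw [hst]
      obtain ⟨z, hz⟩ : ∃ z, z ∈ s.2.filter (r x) := by
        rw [List.isEmpty_iff] at hx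
        exact List.exists_mem_of_ne_nil _ hx
      obtain ⟨hz1, hz2⟩ := List.mem_filter.1 hz
      have hz2' := (hr x z).1 hz2
      have hone : s.2.filter (r x) = [z] := by
        have hnd : ((s.2.filter (r x)).map key).Nodup :=
          h1.sublist (List.Sublist.map _ List.filter_sublist)
        have hall : ∀ y ∈ s.2.filter (r x), key y = key z := by
          intro y hy
          rw [← (hr x y).1 (List.mem_filter.1 hy).2, hz2']
        match hl : s.2.filter (r x), hz, hnd, hall with
        | [], hz, _, _ => simp at hz
        | [a], hz, _, _ => rw [List.mem_singleton.1 hz]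
        | a :: b :: l, _, hnd, hall =>
          exfalso
          rw [List.map_cons, List.map_cons, List.nodup_cons] at hnd
          apply hnd.1
          rw [hall a (by simp), ← hall b (by simp)]
          simp
      refine ⟨?_, ?_, ?_, ?_⟩
      · exact h1.sublist (List.Sublist.map _ List.filter_sublist)
      · intro y hy
        rw [List.mem_append]
        rcases List.mem_cons.1 hy with rfl | hy
        · right; simp
        · exact Or.inl (h2 y hy)
      · intro y hy
        rw [List.mem_append]
        exact Or.inl (h3 y (List.mem_filter.1 hy).1)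
      · intro h hh
        rw [hsum h hh, sum_filter_not s.2 (r x) h, hone]
        show _ = 2 * ((x :: s.1).map h).sum + ((s.2.filter fun y => !r x y).map h).sum
        rw [List.map_cons, List.sum_cons]
        have : h z = h x := hh z (by simp [h3 z hz1]) x (by simp) hz2'.symm
        simp only [List.map_cons, List.map_nil, List.sum_cons, List.sum_nil, this]
        ring

theorem sum_bounds (l : List α) (h : α → ℝ) (h0 : ∀ a, 0 ≤ h a) (h1 : ∀ a, h a ≤ 1) :
    0 ≤ (l.map h).sum ∧ (l.map h).sum ≤ l.length := by
  induction l with
  | nil => simp
  | cons a l ih =>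
    rw [List.map_cons, List.sum_cons, List.length_cons]
    push_cast
    have := h0 a
    have := h1 a
    constructor <;> linarith [ih.1, ih.2]

/-- Halving changes the average of a function of the key by at most `K / |D|`, `K` the number of
keys. -/
theorem half_spec (r : α → α → Bool) (key : α → κ) (hr : ∀ a b, r a b = true ↔ key a = key b)
    (D : List α) (M : ℕ) (hD : D.length = 2 * M) (K : Finset κ) (hK : ∀ a ∈ D, key a ∈ K) :
    (half r M D).length = M ∧ (∀ y ∈ half r M D, y ∈ D) ∧
      ∀ h : α → ℝ, (∀ a, 0 ≤ h a) → (∀ a, h a ≤ 1) →
        (∀ a ∈ D, ∀ b ∈ D, key a = key b → h a = h b) →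
        |2 * ((half r M D).map h).sum - (D.map h).sum| ≤ K.card := by
  obtain ⟨h1, h2, h3, h4⟩ := hv_spec r key hr D
  unfold half
  set s := hv r D with hs
  have hlen : 2 * M = 2 * s.1.length + s.2.length := by
    have := h4 (fun _ => 1) (fun _ _ _ _ _ => rfl)
    simp only [List.map_const', List.sum_replicate, nsmul_eq_mul, mul_one] at this
    rw [hD] at this
    exact_mod_cast this
  have hdl : (s.2.drop (s.2.length - (M - s.1.length))).length = M - s.1.length := by
    rw [List.length_drop]
    omega
  refine ⟨?_, ?_, ?_⟩
  · rw [List.length_append, hdl]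
    omega
  · intro y hy
    rcases List.mem_append.1 hy with hy | hy
    · exact h2 y hy
    · exact h3 y (List.mem_of_mem_drop hy)
  · intro h h0 h1' hh
    rw [h4 h hh, List.map_append, List.sum_append]
    have hK' : s.2.length ≤ K.card := by
      classical
      rw [← List.length_map (f := key), ← List.toFinset_card_of_nodup h1]
      apply Finset.card_le_card
      intro k hk
      rw [List.mem_toFinset, List.mem_map] at hk
      obtain ⟨y, hy, rfl⟩ := hk
      exact hK y (h3 y hy)
    have hK'' : (s.2.length : ℝ) ≤ K.card := by exact_mod_cast hK'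
    obtain ⟨b1, b2⟩ := sum_bounds (s.2.drop (s.2.length - (M - s.1.length))) h h0 h1'
    obtain ⟨b3, b4⟩ := sum_bounds s.2 h h0 h1'
    rw [hdl] at b2
    have hm : 2 * ((M - s.1.length : ℕ) : ℝ) = s.2.length := by
      have : 2 * (M - s.1.length) = s.2.length := by omega
      exact_mod_cast this
    rw [abs_le]
    constructor <;> linarith

end Pool.Agent.MP_ca1109_lc
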