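import Pool.Agent.MP_ca1109_lc.SymDefs
import Pool.Agent.MP_ca1109_lc.SymHalve
import Pool.Agent.Lib.helper66.Raw

/-!
# The generator for symmetric tests with polynomially many orbits
-/

namespace Pool.Agent.MP_ca1109_lc

open Pool.Agent.H66 Finset

/-! ## Sizes of codes -/

theorem enc_filter_le {α : Type} [Enc α] (l : List α) (q : α → Bool) :
    (enc (l.filter q)).length ≤ (enc l).length := by
  induction l with
  | nil => simp
  | cons a l ih =>
    rw [List.filter_cons]
    cases h : q a
    · simp only [Bool.false_eq_true, if_false, enc_cons, List.length_cons, List.length_append]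
      omega
    · simp only [if_true, enc_cons, List.length_cons, List.length_append]
      omega

theorem enc_list_le {α : Type} [Enc α] (l : List α) (B : ℕ) (h : ∀ a ∈ l, (enc a).length ≤ B) :
    (enc l).length ≤ 1 + l.length * (B + 1) := by
  induction l with
  | nil => simp
  | cons a l ih =>
    have h1 := ih fun b hb => h b (List.mem_cons_of_mem _ hb)
    have h2 := h a List.mem_cons_self
    have e : (a :: l).length * (B + 1) = l.length * (B + 1) + (B + 1) := by
      rw [List.length_cons]; ring
    rw [enc_cons, e]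
    simp only [List.length_cons, List.length_append]
    omega

theorem enc_hv {α : Type} [Enc α] (r : α → α → Bool) (D : List α) :
    (enc (hv r D)).length ≤ (enc D).length + 2 := by
  induction D using List.reverseRecOn with
  | nil => simp [hv, enc_pair]
  | append_singleton D x ih =>
    have h1 := enc_append_length D [x]
    simp only [enc_cons, enc_nil, List.length_cons, List.length_append, List.length_nil] at h1
    rw [hv_snoc, enc_prod]
    rw [enc_prod] at ih
    simp only [List.length_cons, List.length_append] at ih ⊢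
    unfold hstep
    by_cases hx : ((hv r D).2.filter (r x)).isEmpty = true
    · rw [if_pos hx]
      simp only [enc_cons, List.length_cons, List.length_append]
      omega
    · rw [if_neg hx]
      have h2 := enc_filter_le (hv r D).2 (fun y => !r x y)
      simp only [enc_cons, List.length_cons, List.length_append]
      omega

/-! ## Polynomial time -/

section
variable {χ : ℕ → ℕ → ℕ} (hχ : PolyTime fun p : ℕ × ℕ => χ p.1 p.2) {γ : Type} [Enc γ]
include hχ

theorem polyTime_lw {m k : γ → ℕ} {z : γ → List Bool} (hm : PolyTime m) (hz : PolyTime z)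
    (hk : PolyTime k) : PolyTime fun c => lw χ (m c) (z c) (k c) := by
  unfold lw
  refine PolyTime.length (PolyTime.filter
    (f := fun c p => decide (χ (m c) p = k c) && (z c).getD p false)
    (PolyTime.range (PolyTime.length hz)) ?_)
  refine PolyTime.and (PolyTime.eqb ?_ (hk.comp PolyTime.fst))
    (PolyTime.getD PolyTime.snd (hz.comp PolyTime.fst) false)
  exact hχ.comp ((hm.comp PolyTime.fst).pair PolyTime.snd)

theorem polyTime_same {m : γ → ℕ} {z z' : γ → List Bool} (hm : PolyTime m) (hz : PolyTime z)
    (hz' : PolyTime z') : PolyTime fun c => same χ (m c) (z c) (z' c) := by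
  unfold same
  refine PolyTime.isEmpty.comp (PolyTime.filter
    (f := fun c k => !decide (lw χ (m c) (z c) k = lw χ (m c) (z' c) k)) (PolyTime.range hm) ?_)
  refine PolyTime.not (PolyTime.eqb ?_ ?_)
  · exact polyTime_lw hχ (hm.comp PolyTime.fst) (hz.comp PolyTime.fst) PolyTime.snd
  · exact polyTime_lw hχ (hm.comp PolyTime.fst) (hz'.comp PolyTime.fst) PolyTime.snd

theorem polyTime_hstep {m : γ → ℕ} {s : γ → List (List Bool) × List (List Bool)}
    {x : γ → List Bool} (hm : PolyTime m) (hs : PolyTime s) (hx : PolyTime x) :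
    PolyTime fun c => hstep (same χ (m c)) (s c) (x c) := by
  unfold hstep
  have h1 : PolyTime fun c => (s c).1 := PolyTime.fst.comp hs
  have h2 : PolyTime fun c => (s c).2 := PolyTime.snd.comp hs
  refine PolyTime.ite ?_ (h1.pair (PolyTime.cons.comp (hx.pair h2)))
    ((PolyTime.cons.comp (hx.pair h1)).pair ?_)
  · refine PolyTime.isEmpty.comp (PolyTime.filter (f := fun c y => same χ (m c) (x c) y) h2 ?_)
    exact polyTime_same hχ (hm.comp PolyTime.fst) (hx.comp PolyTime.fst) PolyTime.snd
  · refine PolyTime.filter (f := fun c y => !same χ (m c) (x c) y) h2 (PolyTime.not ?_)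
    exact polyTime_same hχ (hm.comp PolyTime.fst) (hx.comp PolyTime.fst) PolyTime.snd

theorem polyTime_hv {m : γ → ℕ} {D : γ → List (List Bool)} (hm : PolyTime m) (hD : PolyTime D) :
    PolyTime fun c => hv (same χ (m c)) (D c) := by
  unfold hv
  obtain ⟨s1, hs1, hs1'⟩ := hD.size
  refine PolyTime.foldl (f := fun c s x => hstep (same χ (m c)) s x) hD (PolyTime.const ([], []))
    ?_ (fun n => s1 n + 2) (hs1.add (PB.const 2)) ?_
  · exact polyTime_hstep hχ (hm.comp PolyTime.fst) (PolyTime.fst.comp PolyTime.snd)
      (PolyTime.snd.comp PolyTime.snd)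
  · intro c i
    have h1 := enc_hv (same χ (m c)) ((D c).take i)
    have h2 := enc_take_le (D c) i
    have h3 := hs1' c
    have h4 : (enc (List.foldl (fun s x => hstep (same χ (m c)) s x) ([], [])
      (List.take i (D c)))).length ≤ (enc ((D c).take i)).length + 2 := h1
    omega

theorem polyTime_half {m M : γ → ℕ} {D : γ → List (List Bool)} (hm : PolyTime m)
    (hM : PolyTime M) (hD : PolyTime D) : PolyTime fun c => half (same χ (m c)) (M c) (D c) := by
  unfold half
  have h0 := polyTime_hv hχ hm hD
  have h1 : PolyTime fun c => (hv (same χ (m c)) (D c)).1 := PolyTime.fst.comp h0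
  have h2 : PolyTime fun c => (hv (same χ (m c)) (D c)).2 := PolyTime.snd.comp h0
  refine PolyTime.append h1 (PolyTime.drop ?_ h2)
  exact PolyTime.sub (PolyTime.length h2) (PolyTime.sub hM (PolyTime.length h1))

end

/-! ## The table -/

/-- All extensions by one bit. -/
def dbl (S : List (List Bool)) : List (List Bool) := S.flatMap fun z => [z ++ [false], z ++ [true]]

/-- One step of the construction of the table. -/
def gstep (χ : ℕ → ℕ → ℕ) (s : ℕ × List (List Bool)) : ℕ × List (List Bool) :=
  (s.1, half (same χ s.1) s.2.length (dbl s.2))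

theorem polyTime_dbl : PolyTime dbl := by
  unfold dbl
  refine PolyTime.flatMap (l := fun S : List (List Bool) => S)
    (f := fun _ z => [z ++ [false], z ++ [true]]) PolyTime.id ?_
  have hz : PolyTime fun p : List (List Bool) × List Bool => p.2 := PolyTime.snd
  have h1 := PolyTime.append hz (PolyTime.const [false])
  have h2 := PolyTime.append hz (PolyTime.const [true])
  exact PolyTime.cons.comp (h1.pair (PolyTime.singleton.comp h2))

theorem polyTime_gstep {χ : ℕ → ℕ → ℕ} (hχ : PolyTime fun p : ℕ × ℕ => χ p.1 p.2) :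
    PolyTime (gstep χ) := by
  unfold gstep
  refine PolyTime.fst.pair ?_
  exact polyTime_half hχ PolyTime.fst (PolyTime.length PolyTime.snd)
    (polyTime_dbl.comp PolyTime.snd)

/-- `2 ^ ⌈log₂ n⌉`, `e`-th power: the number of seeds. -/
def nseed (e n : ℕ) : ℕ := (2 ^ Nat.clog 2 n) ^ e

theorem polyTime_nseed (e : ℕ) : PolyTime (nseed e) := by
  have h := PolyTime.iterate (α := ℕ) (n := fun n => n) (ini := fun n => (n, ((1 : ℕ), (0 : ℕ))))
    PolyTime.id (PolyTime.id.pair (PolyTime.const (1, 0))) polyTime_clogStep
    (fun k => 10 * k + 10) (((PB.const 10).mul PB.id).add (PB.const 10)) (fun n i hi => by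
      have h1 := two_pow_min_clog_le n i
      have h2 : min i (Nat.clog 2 n) ≤ n := (min_le_right _ _).trans (clog_le_self n)
      rw [clogStep_iterate, enc_pair, enc_pair]
      simp only [List.length_cons, List.length_append, enc_nat_length]
      omega)
  refine (polyTime_pow e (PolyTime.fst.comp (PolyTime.snd.comp h))).of_eq fun n => ?_
  rw [clogStep_iterate, min_eq_right (clog_le_self n)]
  rfl

theorem nseed_le (e n : ℕ) : nseed e n ≤ (2 * n + 1) ^ e := by
  unfold nseed
  refine Nat.pow_le_pow_left ?_ e
  have := two_pow_min_clog_le n n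
  rwa [min_eq_right (clog_le_self n)] at this

theorem le_nseed (e n : ℕ) : n ^ e ≤ nseed e n :=
  Nat.pow_le_pow_left (Nat.le_pow_clog one_lt_two n) e

theorem dbl_length (S : List (List Bool)) : (dbl S).length = 2 * S.length := by
  induction S with
  | nil => rfl
  | cons z S ih =>
    have : dbl (z :: S) = [z ++ [false], z ++ [true]] ++ dbl S := rfl
    rw [this, List.length_append, ih]
    simp
    omega

theorem dbl_sum (S : List (List Bool)) (h : List Bool → ℝ) :
    ((dbl S).map h).sum = (S.map fun z => h (z ++ [false]) + h (z ++ [true])).sum := by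
  induction S with
  | nil => rfl
  | cons z S ih =>
    have : dbl (z :: S) = [z ++ [false], z ++ [true]] ++ dbl S := rfl
    rw [this, List.map_append, List.sum_append, ih, List.map_cons, List.sum_cons]
    simp

theorem mem_dbl {S : List (List Bool)} {y : List Bool} (h : y ∈ dbl S) :
    ∃ z ∈ S, y.length = z.length + 1 := by
  unfold dbl at h
  rw [List.mem_flatMap] at h
  obtain ⟨z, hz, hy⟩ := h
  refine ⟨z, hz, ?_⟩
  rcases List.mem_cons.1 hy with rfl | hy
  · simp
  · rw [List.mem_singleton.1 hy]
    simp

/-- The table after `i` steps. -/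
def tab (χ : ℕ → ℕ → ℕ) (e m i : ℕ) : List (List Bool) :=
  ((gstep χ)^[i] (m, List.replicate (nseed e m) [])).2

theorem gstep_fst (χ : ℕ → ℕ → ℕ) (s : ℕ × List (List Bool)) (i : ℕ) :
    ((gstep χ)^[i] s).1 = s.1 := by
  induction i with
  | zero => rfl
  | succ i ih => rw [Function.iterate_succ_apply', gstep, ih]

theorem tab_succ (χ : ℕ → ℕ → ℕ) (e m i : ℕ) :
    tab χ e m (i + 1) = half (same χ m) (tab χ e m i).length (dbl (tab χ e m i)) := by
  unfold tab
  rw [Function.iterate_succ_apply']
  show half (same χ _) _ _ = _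
  rw [gstep_fst]

theorem tab_spec (χ : ℕ → ℕ → ℕ) (hχ : ∀ m, ∀ p < m, χ m p < m) (e m : ℕ) :
    ∀ i ≤ m, (tab χ e m i).length = nseed e m ∧ (∀ z ∈ tab χ e m i, z.length = i) ∧
      ∀ f : (Fin m → Bool) → Bool, SymFun χ f →
        |2 * ((tab χ e m i).map (ext f (m - i))).sum - 2 * nseed e m * prob f| ≤
          i * orbits χ m := by
  intro i
  induction i with
  | zero =>
    intro _
    refine ⟨by simp [tab], ?_, ?_⟩
    · intro z hz
      rw [tab, Function.iterate_zero] at hz
      rw [List.eq_of_mem_replicate hz]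
      rfl
    · intro f _
      have : (tab χ e m 0) = List.replicate (nseed e m) [] := rfl
      rw [this, List.map_replicate, List.sum_replicate, Nat.sub_zero, ext_nil, nsmul_eq_mul]
      have e0 : 2 * ((nseed e m : ℝ) * prob f) - 2 * (nseed e m : ℝ) * prob f = 0 := by ring
      rw [e0]
      simp
  | succ i ih =>
    intro hi
    obtain ⟨h1, h2, h3⟩ := ih (by omega)
    have hD : ∀ y ∈ dbl (tab χ e m i), y.length = i + 1 := by
      intro y hy
      obtain ⟨z, hz, hyz⟩ := mem_dbl hy
      rw [hyz, h2 z hz]
    obtain ⟨k1, k2, k3⟩ := half_spec (same χ m) (lkey χ m) (same_iff χ m) (dbl (tab χ e m i))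
      (tab χ e m i).length (dbl_length _) (keys χ m)
      (fun a ha => lkey_mem χ m a (by rw [hD a ha]; exact hi))
    rw [← tab_succ] at k1 k2 k3
    refine ⟨by rw [k1, h1], fun z hz => hD z (k2 z hz), ?_⟩
    intro f hf
    have h4 := h3 f hf
    have h5 := k3 (ext f (m - (i + 1))) (ext_nonneg f _) (ext_le_one f _) (fun a ha b hb hab =>
      ext_sym (hχ m) hf _ a b (by rw [hD a ha]; omega) (by rw [hD b hb]; omega) hab)
    have h6 : ((dbl (tab χ e m i)).map (ext f (m - (i + 1)))).sum =
        2 * ((tab χ e m i).map (ext f (m - i))).sum := by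
      rw [dbl_sum, ← List.sum_map_mul_left]
      congr 1
      apply List.map_congr_left
      intro z _
      have e1 : m - i = (m - (i + 1)) + 1 := by omega
      rw [e1]
      conv_rhs => rw [ext]
      ring
    rw [h6, card_keys] at h5
    rw [abs_le] at h4 h5 ⊢
    push_cast
    constructor <;> nlinarith [h4.1, h4.2, h5.1, h5.2]

theorem polyTime_tab {χ : ℕ → ℕ → ℕ} (hχ : PolyTime fun p : ℕ × ℕ => χ p.1 p.2)
    (hχ' : ∀ m, ∀ p < m, χ m p < m) (e : ℕ) : PolyTime fun m => tab χ e m m := by
  unfold tab
  refine PolyTime.snd.comp (PolyTime.iterate (α := ℕ) (n := fun m => m)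
    (ini := fun m => (m, List.replicate (nseed e m) [])) PolyTime.id
    (PolyTime.id.pair (PolyTime.replicate (polyTime_nseed e) (PolyTime.const [])))
    (polyTime_gstep hχ) (fun k => 3 + 2 * k + (2 * k + 1) ^ e * (4 * k + 2)) ?_ ?_)
  · have h1 : PB fun k => (2 * k + 1) ^ e := ((((PB.const 2).mul PB.id).add (PB.const 1)).pow e)
    exact ((PB.const 3).add ((PB.const 2).mul PB.id)).add
      (h1.mul (((PB.const 4).mul PB.id).add (PB.const 2)))
  · intro m i hi
    obtain ⟨h1, h2, -⟩ := tab_spec χ hχ' e m i hi
    have h3 : (gstep χ)^[i] (m, List.replicate (nseed e m) []) = (m, tab χ e m i) := by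
      refine Prod.ext ?_ rfl
      rw [gstep_fst]
    rw [h3, enc_pair]
    have h4 := enc_list_le (tab χ e m i) (4 * m + 1) (fun z hz => by
      have h5 := enc_bits_length z
      rw [h2 z hz] at h5
      omega)
    rw [h1] at h4
    have h6 := nseed_le e m
    have h7 : nseed e m * (4 * m + 1 + 1) ≤ (2 * m + 1) ^ e * (4 * m + 2) :=
      Nat.mul_le_mul h6 (by omega)
    simp only [List.length_cons, List.length_append, enc_nat_length]
    have h8 : (2 * m + 1) ^ e * (4 * m + 2) ≤ (2 * (2 * m + 1) + 1) ^ e * (4 * (2 * m + 1) + 2) :=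
      Nat.mul_le_mul (Nat.pow_le_pow_left (by omega) e) (by omega)
    omega

end Pool.Agent.MP_ca1109_lc
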