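import Pool.Agent.MP_ca1109_lc.SymEnc
import Pool.Agent.MP_ca1109_lc.SymGen

/-!
# The language
-/

namespace Pool.Agent.MP_ca1109_lc

open Pool.Agent.H66 Finset

/-! ## Digits in polynomial time -/

/-- One step of the computation of the digits. -/
def dgStep (p : ℕ × List Bool) : ℕ × List Bool := (p.1 / 2, p.2 ++ [decide (p.1 % 2 = 1)])

theorem dgStep_iterate : ∀ (k v : ℕ) (acc : List Bool),
    (dgStep^[k] (v, acc)).2 = acc ++ dg k v ∧ (dgStep^[k] (v, acc)).1 ≤ v
  | 0, v, acc => by simp [dg]
  | k + 1, v, acc => by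
    rw [Function.iterate_succ_apply, dgStep, dg]
    obtain ⟨h1, h2⟩ := dgStep_iterate k (v / 2) (acc ++ [decide (v % 2 = 1)])
    refine ⟨?_, h2.trans (Nat.div_le_self v 2)⟩
    rw [h1, List.append_assoc]
    rfl

theorem half_eq (v : ℕ) : ((List.range v).filter fun i => decide (2 * i + 2 ≤ v)).length = v / 2 := by
  have h1 : ((List.range v).filter fun i => decide (2 * i + 2 ≤ v)).toFinset = range (v / 2) := by
    ext i
    rw [List.mem_toFinset, List.mem_filter, List.mem_range, mem_range, decide_eq_true_eq]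
    omega
  rw [← List.toFinset_card_of_nodup (List.Nodup.filter _ List.nodup_range), h1, card_range]

theorem polyTime_half_nat : PolyTime fun v : ℕ => v / 2 := by
  refine (PolyTime.length (PolyTime.filter (l := fun v : ℕ => List.range v)
    (f := fun v i => decide (2 * i + 2 ≤ v)) (PolyTime.range PolyTime.id) ?_)).of_eq half_eq
  exact PolyTime.leb (PolyTime.add (PolyTime.mul (PolyTime.const 2) PolyTime.snd)
    (PolyTime.const 2)) PolyTime.fst

theorem polyTime_dgStep : PolyTime dgStep := by
  unfold dgStep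
  refine (polyTime_half_nat.comp PolyTime.fst).pair (PolyTime.append PolyTime.snd ?_)
  refine PolyTime.singleton.comp ?_
  have h1 : PolyTime fun p : ℕ × List Bool => p.1 - 2 * (p.1 / 2) :=
    PolyTime.sub PolyTime.fst
      (PolyTime.mul (PolyTime.const 2) (polyTime_half_nat.comp PolyTime.fst))
  refine (PolyTime.eqb h1 (PolyTime.const 1)).of_eq fun p => ?_
  have : p.1 - 2 * (p.1 / 2) = p.1 % 2 := by omega
  rw [this]

theorem polyTime_dg {γ : Type} [Enc γ] {k v : γ → ℕ} (hk : PolyTime k) (hv : PolyTime v) :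
    PolyTime fun c => dg (k c) (v c) := by
  obtain ⟨s1, hs1, hs1'⟩ := hk.size
  obtain ⟨s2, hs2, hs2'⟩ := hv.size
  refine (PolyTime.snd.comp (PolyTime.iterate (n := k) (ini := fun c => (v c, ([] : List Bool)))
    hk (hv.pair (PolyTime.const [])) polyTime_dgStep
    (fun n => 2 + s2 n + 4 * s1 n) (((PB.const 2).add hs2).add ((PB.const 4).mul hs1)) ?_)).of_eq
    fun c => ?_
  · intro c i hi
    obtain ⟨h1, h2⟩ := dgStep_iterate i (v c) []
    rw [enc_prod, h1, List.nil_append]
    have h3 := enc_bits_length (dg i (v c))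
    rw [dg_length] at h3
    have h4 := hs1' c
    have h5 := hs2' c
    rw [enc_nat_length] at h4 h5
    simp only [List.length_cons, List.length_append, enc_nat_length]
    omega
  · exact ((dgStep_iterate (k c) (v c) []).1).trans (List.nil_append _)

theorem cnum_eq (χ : ℕ → ℕ → ℕ) (m c : ℕ) :
    ((List.range m).filter fun p => decide (χ m p = c)).length = cnum χ m c := by
  unfold cnum
  rw [← List.toFinset_card_of_nodup (List.Nodup.filter _ List.nodup_range)]
  congr 1
  ext p
  simp

section
variable {χ : ℕ → ℕ → ℕ} (hχ : PolyTime fun p : ℕ × ℕ => χ p.1 p.2) {γ : Type} [Enc γ]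
include hχ

theorem polyTime_cnum {m c : γ → ℕ} (hm : PolyTime m) (hc : PolyTime c) :
    PolyTime fun x => cnum χ (m x) (c x) := by
  refine (PolyTime.length (PolyTime.filter (l := fun x => List.range (m x))
    (f := fun x p => decide (χ (m x) p = c x)) (PolyTime.range hm) ?_)).of_eq
    fun x => cnum_eq χ _ _
  exact PolyTime.eqb (hχ.comp ((hm.comp PolyTime.fst).pair PolyTime.snd)) (hc.comp PolyTime.fst)

theorem polyTime_kb {m c : γ → ℕ} (hm : PolyTime m) (hc : PolyTime c) :
    PolyTime fun x => kb χ (m x) (c x) := by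
  unfold kb
  exact PolyTime.succ.comp (polyTime_clog.comp (polyTime_cnum hχ hm hc))

theorem polyTime_rel {m a b : γ → ℕ} (hm : PolyTime m) (ha : PolyTime a) (hb : PolyTime b) :
    PolyTime fun x => rel χ (m x) (a x) (b x) := by
  unfold rel
  refine PolyTime.filter (l := fun x => List.range (m x)) (f := fun x c =>
    decide (a x ≤ c) && (decide (c < b x) && decide (0 < cnum χ (m x) c))) (PolyTime.range hm) ?_
  refine PolyTime.and (PolyTime.leb (ha.comp PolyTime.fst) PolyTime.snd)
    (PolyTime.and (PolyTime.ltb PolyTime.snd (hb.comp PolyTime.fst)) ?_)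
  exact PolyTime.ltb (PolyTime.const 0) (polyTime_cnum hχ (hm.comp PolyTime.fst) PolyTime.snd)

theorem polyTime_ecode {m a b : γ → ℕ} {z : γ → List Bool} (hm : PolyTime m) (ha : PolyTime a)
    (hb : PolyTime b) (hz : PolyTime z) :
    PolyTime fun x => ecode χ (m x) (a x) (b x) (z x) := by
  unfold ecode
  refine PolyTime.flatMap (l := fun x => rel χ (m x) (a x) (b x))
    (f := fun x c => dg (kb χ (m x) c) (lw χ (m x) (z x) c)) (polyTime_rel hχ hm ha hb) ?_
  exact polyTime_dg (polyTime_kb hχ (hm.comp PolyTime.fst) PolyTime.snd)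
    (polyTime_lw hχ (hm.comp PolyTime.fst) (hz.comp PolyTime.fst) PolyTime.snd)

end

/-! ## Roots -/

/-- The largest number whose `K`-th power is at most `N`. -/
def rt (K N : ℕ) : ℕ := ((List.range N).filter fun j => decide ((j + 1) ^ K ≤ N)).length

theorem rt_eq {K N m : ℕ} (hK : 0 < K) (h1 : m ^ K ≤ N) (h2 : N < (m + 1) ^ K) : rt K N = m := by
  unfold rt
  have h3 : ((List.range N).filter fun j => decide ((j + 1) ^ K ≤ N)).toFinset = range m := by
    ext j
    rw [List.mem_toFinset, List.mem_filter, List.mem_range, mem_range, decide_eq_true_eq]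
    constructor
    · rintro ⟨-, h⟩
      by_contra hcon
      have := Nat.pow_le_pow_left (by omega : m + 1 ≤ j + 1) K
      omega
    · intro h
      have h4 := Nat.pow_le_pow_left (by omega : j + 1 ≤ m) K
      have h5 : j + 1 ≤ (j + 1) ^ K := Nat.le_self_pow (by omega) _
      exact ⟨by omega, by omega⟩
  rw [← List.toFinset_card_of_nodup (List.Nodup.filter _ List.nodup_range), h3, card_range]

theorem exists_rt {K : ℕ} (hK : 0 < K) (N : ℕ) : ∃ m, m ^ K ≤ N ∧ N < (m + 1) ^ K := by
  refine ⟨Nat.findGreatest (fun r => r ^ K ≤ N) N, ?_, ?_⟩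
  · have h0 : (0 : ℕ) ^ K ≤ N := by
      rw [Nat.zero_pow hK]
      exact Nat.zero_le _
    exact Nat.findGreatest_spec (P := fun r => r ^ K ≤ N) (Nat.zero_le N) h0
  · by_contra hcon
    rw [not_lt] at hcon
    have h1 : Nat.findGreatest (fun r => r ^ K ≤ N) N + 1 ≤ N := by
      refine le_trans ?_ hcon
      exact Nat.le_self_pow (by omega) _
    have h2 := Nat.le_findGreatest (P := fun r => r ^ K ≤ N) h1 hcon
    omega

theorem rt_spec {K : ℕ} (hK : 0 < K) (N : ℕ) : rt K N ^ K ≤ N ∧ N < (rt K N + 1) ^ K := by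
  obtain ⟨m, h1, h2⟩ := exists_rt hK N
  rw [rt_eq hK h1 h2]
  exact ⟨h1, h2⟩

theorem polyTime_rt (K : ℕ) : PolyTime (rt K) := by
  unfold rt
  refine PolyTime.length (PolyTime.filter (l := fun N : ℕ => List.range N)
    (f := fun N j => decide ((j + 1) ^ K ≤ N)) (PolyTime.range PolyTime.id) ?_)
  exact PolyTime.leb (polyTime_pow K (PolyTime.succ.comp PolyTime.snd)) PolyTime.fst

/-! ## Seeds -/

/-- The seed length with a cap. -/
def dcap (d : ℕ → ℕ) (e m : ℕ) : ℕ := if decide (d m ≤ e * Nat.clog 2 m) then d m else 0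

/-- All seeds. -/
def seeds (d : ℕ → ℕ) (e m : ℕ) : List (List Bool) := dbl^[dcap d e m] [[]]

theorem polyTime_dcap {d : ℕ → ℕ} (hd : PolyTime d) (e : ℕ) : PolyTime (dcap d e) := by
  unfold dcap
  exact PolyTime.ite (PolyTime.leb hd (PolyTime.mul (PolyTime.const e) polyTime_clog)) hd
    (PolyTime.const 0)

theorem dbl_iterate (i : ℕ) : (dbl^[i] [[]]).length = 2 ^ i ∧
    ∀ s : List Bool, s ∈ dbl^[i] [[]] ↔ s.length = i := by
  induction i with
  | zero => simp
  | succ i ih =>
    rw [Function.iterate_succ_apply']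
    refine ⟨by rw [dbl_length, ih.1, pow_succ, mul_comm], fun s => ?_⟩
    constructor
    · intro h
      obtain ⟨z, hz, hz'⟩ := mem_dbl h
      rw [hz', (ih.2 z).1 hz]
    · intro h
      have h1 : s ≠ [] := by
        intro h0
        rw [h0] at h
        simp at h
      rw [← List.dropLast_append_getLast h1]
      unfold dbl
      rw [List.mem_flatMap]
      refine ⟨s.dropLast, (ih.2 _).2 (by rw [List.length_dropLast, h]; omega), ?_⟩
      cases s.getLast h1 <;> simp

theorem dcap_le (d : ℕ → ℕ) (e m : ℕ) : dcap d e m ≤ e * Nat.clog 2 m := by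
  unfold dcap
  by_cases h : d m ≤ e * Nat.clog 2 m
  · rw [if_pos (decide_eq_true h)]
    exact h
  · rw [if_neg (by rw [decide_eq_true_eq]; exact h)]
    exact Nat.zero_le _

theorem polyTime_seeds {d : ℕ → ℕ} (hd : PolyTime d) (e : ℕ) : PolyTime (seeds d e) := by
  unfold seeds
  refine PolyTime.iterate (α := ℕ) (n := dcap d e) (ini := fun _ => [[]])
    (polyTime_dcap hd e) (PolyTime.const _) polyTime_dbl
    (fun k => 1 + (2 * k + 1) ^ e * (4 * (e * k) + 2)) ?_ ?_
  · have h1 : PB fun k => (2 * k + 1) ^ e := ((((PB.const 2).mul PB.id).add (PB.const 1)).pow e)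
    exact (PB.const 1).add (h1.mul (((PB.const 4).mul ((PB.const e).mul PB.id)).add (PB.const 2)))
  · intro m i hi
    have h0 := dcap_le d e m
    have h1 := enc_list_le (dbl^[i] [[]]) (4 * i + 1) (fun z hz => by
      have h5 := enc_bits_length z
      rwa [((dbl_iterate i).2 z).1 hz] at h5)
    rw [(dbl_iterate i).1] at h1
    have h2 : 2 ^ i ≤ (2 * m + 1) ^ e := by
      refine le_trans ?_ (nseed_le e m)
      unfold nseed
      rw [← pow_mul, mul_comm]
      exact Nat.pow_le_pow_right (by norm_num) (hi.trans h0)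
    have h3 : i ≤ e * m := (hi.trans h0).trans (Nat.mul_le_mul_left _ (clog_le_self m))
    rw [enc_nat_length]
    have h4 : 2 ^ i * (4 * i + 1 + 1) ≤ (2 * (2 * m + 1) + 1) ^ e * (4 * (e * (2 * m + 1)) + 2) := by
      refine Nat.mul_le_mul (h2.trans (Nat.pow_le_pow_left (by omega) e)) ?_
      have : e * m ≤ e * (2 * m + 1) := Nat.mul_le_mul_left _ (by omega)
      omega
    omega

/-! ## The language -/

/-- The list `E` agrees with the part of `x` starting at `o`. -/
def agr (E x : List Bool) (o : ℕ) : Bool :=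
  ((List.range E.length).filter fun i =>
    (E.getD i false && !(x.getD (o + i) false)) || (!(E.getD i false) && x.getD (o + i) false)).isEmpty

theorem agr_iff (E x : List Bool) (o : ℕ) :
    agr E x o = true ↔ ∀ i < E.length, E.getD i false = x.getD (o + i) false := by
  unfold agr
  rw [List.isEmpty_iff, List.filter_eq_nil_iff]
  constructor
  · intro h i hi
    have := h i (List.mem_range.2 hi)
    cases h1 : E.getD i false <;> cases h2 : x.getD (o + i) false <;> simp_all
  · intro h i hi
    rw [h i (List.mem_range.1 hi)]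
    cases x.getD (o + i) false <;> simp

theorem polyTime_agr {γ : Type} [Enc γ] {E x : γ → List Bool} {o : γ → ℕ} (hE : PolyTime E)
    (hx : PolyTime x) (ho : PolyTime o) : PolyTime fun c => agr (E c) (x c) (o c) := by
  unfold agr
  refine PolyTime.isEmpty.comp (PolyTime.filter (l := fun c => List.range (E c).length)
    (f := fun c i => ((E c).getD i false && !((x c).getD (o c + i) false)) ||
      (!((E c).getD i false) && (x c).getD (o c + i) false)) (PolyTime.range (PolyTime.length hE)) ?_)
  have h1 : PolyTime fun p : γ × ℕ => (E p.1).getD p.2 false :=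
    PolyTime.getD PolyTime.snd (hE.comp PolyTime.fst) false
  have h2 : PolyTime fun p : γ × ℕ => (x p.1).getD (o p.1 + p.2) false :=
    PolyTime.getD (PolyTime.add (ho.comp PolyTime.fst) PolyTime.snd) (hx.comp PolyTime.fst) false
  exact PolyTime.or (PolyTime.and h1 (PolyTime.not h2)) (PolyTime.and (PolyTime.not h1) h2)

/-- The number of digits of the parameters `a`, `b`. -/
def lam (m : ℕ) : ℕ := Nat.clog 2 (m + 1)

/-- The language with the number `2 ^ length` given in unary. -/
def hard (χ : ℕ → ℕ → ℕ) (d : ℕ → ℕ) (G : ℕ → List Bool → List Bool) (e K N : ℕ)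
    (x : List Bool) : Bool :=
  ((seeds d e (rt K N)).filter fun s =>
    agr (ecode χ (rt K N) (cval (2 * rt K N + 1) (seg 0 (lam (rt K N)) x))
      (cval (2 * rt K N + 1) (seg (lam (rt K N)) (lam (rt K N)) x)) (G (rt K N) s)) x
      (2 * lam (rt K N))).isEmpty

theorem polyTime_hard {χ : ℕ → ℕ → ℕ} (hχ : PolyTime fun p : ℕ × ℕ => χ p.1 p.2) {d : ℕ → ℕ}
    (hd : PolyTime d) {G : ℕ → List Bool → List Bool}
    (hG : PolyTime fun p : ℕ × List Bool => G p.1 p.2) (e K : ℕ) :
    PolyTime fun p : ℕ × List Bool => hard χ d G e K p.1 p.2 := by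
  unfold hard
  have hm : PolyTime fun p : ℕ × List Bool => rt K p.1 := (polyTime_rt K).comp PolyTime.fst
  have hl : PolyTime fun p : ℕ × List Bool => lam (rt K p.1) :=
    polyTime_clog.comp (PolyTime.succ.comp hm)
  have hM : PolyTime fun p : ℕ × List Bool => 2 * rt K p.1 + 1 :=
    PolyTime.succ.comp (PolyTime.mul (PolyTime.const 2) hm)
  have ha : PolyTime fun p : ℕ × List Bool =>
      cval (2 * rt K p.1 + 1) (seg 0 (lam (rt K p.1)) p.2) :=
    polyTime_cval hM (polyTime_seg (PolyTime.const 0) hl PolyTime.snd)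
  have hb : PolyTime fun p : ℕ × List Bool =>
      cval (2 * rt K p.1 + 1) (seg (lam (rt K p.1)) (lam (rt K p.1)) p.2) :=
    polyTime_cval hM (polyTime_seg hl hl PolyTime.snd)
  refine PolyTime.isEmpty.comp (PolyTime.filter (l := fun p : ℕ × List Bool =>
    seeds d e (rt K p.1)) (f := fun p s =>
    agr (ecode χ (rt K p.1) (cval (2 * rt K p.1 + 1) (seg 0 (lam (rt K p.1)) p.2))
      (cval (2 * rt K p.1 + 1) (seg (lam (rt K p.1)) (lam (rt K p.1)) p.2)) (G (rt K p.1) s)) p.2
      (2 * lam (rt K p.1))) ((polyTime_seeds hd e).comp hm) ?_)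
  refine polyTime_agr ?_ (PolyTime.snd.comp PolyTime.fst)
    (PolyTime.mul (PolyTime.const 2) (hl.comp PolyTime.fst))
  exact polyTime_ecode hχ (hm.comp PolyTime.fst) (ha.comp PolyTime.fst) (hb.comp PolyTime.fst)
    (hG.comp ((hm.comp PolyTime.fst).pair PolyTime.snd))

theorem hard_iff (χ : ℕ → ℕ → ℕ) (d : ℕ → ℕ) (G : ℕ → List Bool → List Bool) (e K N : ℕ)
    (x : List Bool) : hard χ d G e K N x = true ↔ ∀ s : List Bool, s.length = dcap d e (rt K N) →
      agr (ecode χ (rt K N) (cval (2 * rt K N + 1) (seg 0 (lam (rt K N)) x))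
      (cval (2 * rt K N + 1) (seg (lam (rt K N)) (lam (rt K N)) x)) (G (rt K N) s)) x
      (2 * lam (rt K N)) = false := by
  unfold hard
  rw [List.isEmpty_iff, List.filter_eq_nil_iff]
  constructor
  · intro h s hs
    have := h s (((dbl_iterate _).2 s).2 hs)
    simpa using this
  · intro h s hs
    rw [h s (((dbl_iterate _).2 s).1 hs)]
    simp

end Pool.Agent.MP_ca1109_lc
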