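import Mathlib

/-!
# Weights with small leverages (a quantitative form of radial isotropic position)
-/

namespace Pool.Agent.MP_ca1109_lc

open Finset Matrix

section mono

variable {r : ℕ}

/-- The weighted Gram matrix. -/
noncomputable def gramM {ι : Type*} (s : Finset ι) (v : ι → Fin r → ℝ) (w : ι → ℝ) :
    Matrix (Fin r) (Fin r) ℝ := ∑ i ∈ s, w i • vecMulVec (v i) (v i)

lemma gramM_symm {ι : Type*} (s : Finset ι) (v : ι → Fin r → ℝ) (w : ι → ℝ) :
    (gramM s v w).IsHermitian := by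
  unfold gramM
  rw [Matrix.IsHermitian, conjTranspose_eq_transpose_of_trivial, transpose_sum]
  refine Finset.sum_congr rfl fun i _ => ?_
  rw [transpose_smul]
  congr 1
  ext a b
  simp [vecMulVec_apply, mul_comm]

lemma gramM_quad {ι : Type*} (s : Finset ι) (v : ι → Fin r → ℝ) (w : ι → ℝ) (u : Fin r → ℝ) :
    u ⬝ᵥ (gramM s v w *ᵥ u) = ∑ i ∈ s, w i * (u ⬝ᵥ v i) ^ 2 := by
  unfold gramM
  rw [sum_mulVec, dotProduct_sum]
  refine Finset.sum_congr rfl fun i _ => ?_
  rw [smul_mulVec, dotProduct_smul, smul_eq_mul]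
  congr 1
  rw [vecMulVec_mulVec]
  rw [dotProduct_smul, op_smul_eq_mul, dotProduct_comm (v i) u]
  ring

/-- rank one update of the determinant -/
lemma det_update {M : Matrix (Fin r) (Fin r) ℝ} (hM : M.PosDef) (x : ℝ) (v : Fin r → ℝ) :
    (M + x • vecMulVec v v).det = M.det * (1 + x * (v ⬝ᵥ (M⁻¹ *ᵥ v))) := by
  have hu : IsUnit M.det := (Matrix.isUnit_iff_isUnit_det _).1 hM.isUnit
  have h1 : M + x • vecMulVec v v = M * (1 + replicateCol Unit (x • (M⁻¹ *ᵥ v)) *
      replicateRow Unit v) := by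
    rw [mul_add, mul_one]
    congr 1
    rw [← vecMulVec_eq Unit, mul_vecMulVec, mulVec_smul, mulVec_mulVec,
      Matrix.mul_nonsing_inv _ hu, one_mulVec, smul_vecMulVec]
  rw [h1, det_mul, det_one_add_replicateCol_mul_replicateRow, dotProduct_smul, smul_eq_mul]

lemma posDef_update {M : Matrix (Fin r) (Fin r) ℝ} (hM : M.PosDef) {x : ℝ} (hx : 0 ≤ x)
    (v : Fin r → ℝ) : (M + x • vecMulVec v v).PosDef := by
  refine hM.add_posSemidef ?_
  have h := posSemidef_vecMulVec_self_star v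
  rw [star_trivial] at h
  exact h.smul hx

lemma det_mono {ι : Type*} {M : Matrix (Fin r) (Fin r) ℝ} (hM : M.PosDef) (s : Finset ι)
    (v : ι → Fin r → ℝ) (w : ι → ℝ) (hw : ∀ i, 0 < w i) :
    (M + gramM s v w).PosDef ∧ M.det ≤ (M + gramM s v w).det := by
  classical
  induction s using Finset.induction_on with
  | empty => simp [gramM, hM]
  | insert i s hi ih =>
    have e : M + gramM (insert i s) v w = (M + gramM s v w) + w i • vecMulVec (v i) (v i) := by
      unfold gramM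
      rw [Finset.sum_insert hi]
      abel
    rw [e]
    refine ⟨posDef_update ih.1 (hw i).le _, ih.2.trans ?_⟩
    rw [det_update ih.1]
    have h1 : 0 < (M + gramM s v w).det := ih.1.det_pos
    have h2 : 0 ≤ v i ⬝ᵥ ((M + gramM s v w)⁻¹ *ᵥ v i) := by
      have := ih.1.inv.posSemidef.dotProduct_mulVec_nonneg (v i)
      rwa [star_trivial] at this
    have h3 : 0 ≤ w i * (v i ⬝ᵥ ((M + gramM s v w)⁻¹ *ᵥ v i)) := mul_nonneg (hw i).le h2
    nlinarith

/-- Cauchy-Schwarz for the form of `M` and its inverse -/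
lemma cs_inv {M : Matrix (Fin r) (Fin r) ℝ} (hM : M.PosDef) (u v : Fin r → ℝ) :
    (u ⬝ᵥ v) ^ 2 ≤ (u ⬝ᵥ (M *ᵥ u)) * (v ⬝ᵥ (M⁻¹ *ᵥ v)) := by
  have hu : IsUnit M.det := (Matrix.isUnit_iff_isUnit_det _).1 hM.isUnit
  set z := M⁻¹ *ᵥ v with hz
  have hMz : M *ᵥ z = v := by
    rw [hz, mulVec_mulVec, Matrix.mul_nonsing_inv _ hu, one_mulVec]
  have hT : Mᵀ = M := by
    have := hM.isHermitian
    rwa [Matrix.IsHermitian, conjTranspose_eq_transpose_of_trivial] at this
  have hsym : z ⬝ᵥ (M *ᵥ u) = u ⬝ᵥ v := by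
    rw [dotProduct_mulVec, ← mulVec_transpose, hT, hMz, dotProduct_comm]
  have key : ∀ x : ℝ, 0 ≤ (v ⬝ᵥ z) * (x * x) + (2 * (u ⬝ᵥ v)) * x + u ⬝ᵥ (M *ᵥ u) := by
    intro x
    have h := hM.posSemidef.dotProduct_mulVec_nonneg (u + x • z)
    rw [star_trivial, mulVec_add, mulVec_smul, hMz, add_dotProduct, dotProduct_add,
      dotProduct_add, smul_dotProduct, smul_dotProduct, dotProduct_smul, dotProduct_smul,
      hsym, dotProduct_comm z v] at h
    simp only [smul_eq_mul] at h
    linarith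
  have hd := discrim_le_zero key
  unfold discrim at hd
  nlinarith

end mono

/-- the `r` largest weights have a large product -/
lemma exists_top {ι : Type*} [Fintype ι] [DecidableEq ι] (r : ℕ) (hr : r ≤ Fintype.card ι)
    (w : ι → ℝ) (hw : ∀ i, 0 < w i) : ∃ S : Finset ι, S.card = r ∧
      (∏ i, w i) ^ r ≤ (∏ i ∈ S, w i) ^ Fintype.card ι := by
  have hne : (powersetCard r (univ : Finset ι)).Nonempty := by
    rw [powersetCard_nonempty, card_univ]; exact hr
  obtain ⟨S, hS, hmax⟩ := exists_max_image (powersetCard r (univ : Finset ι))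
    (fun S => ∑ i ∈ S, w i) hne
  have hSc : S.card = r := (mem_powersetCard.1 hS).2
  have hswap : ∀ i ∈ S, ∀ j ∉ S, w j ≤ w i := by
    intro i hi j hj
    have h1 : insert j (S.erase i) ∈ powersetCard r (univ : Finset ι) := by
      rw [mem_powersetCard]
      refine ⟨subset_univ _, ?_⟩
      rw [card_insert_of_notMem (fun h => hj (mem_of_mem_erase h)), card_erase_of_mem hi, hSc]
      have : 0 < S.card := card_pos.2 ⟨i, hi⟩
      omega
    have h2 := hmax _ h1
    rw [sum_insert (fun h => hj (mem_of_mem_erase h)), ← add_sum_erase S w hi] at h2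
    linarith
  refine ⟨S, hSc, ?_⟩
  rcases S.eq_empty_or_nonempty with he | hSne
  · rw [he, card_empty] at hSc
    rw [← hSc, he]
    simp
  obtain ⟨i0, hi0, hmin⟩ := exists_min_image S w hSne
  set a := w i0 with ha
  have ha0 : 0 < a := hw i0
  set P := ∏ i ∈ S, w i with hP
  have hP0 : 0 < P := prod_pos fun i _ => hw i
  have hle : r ≤ Fintype.card ι := hr
  have h1 : ∏ i, w i ≤ P * a ^ (Fintype.card ι - r) := by
    rw [← prod_mul_prod_compl S w]
    refine mul_le_mul_of_nonneg_left ?_ hP0.le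
    calc ∏ i ∈ Sᶜ, w i ≤ ∏ _i ∈ Sᶜ, a := by
          refine prod_le_prod (fun i _ => (hw i).le) fun j hj => ?_
          exact hswap i0 hi0 j (mem_compl.1 hj)
      _ = a ^ (Fintype.card ι - r) := by rw [prod_const, card_compl, hSc]
  have h2 : a ^ r ≤ P := by
    calc a ^ r = ∏ _i ∈ S, a := by rw [prod_const, hSc]
      _ ≤ P := prod_le_prod (fun i _ => ha0.le) fun i hi => hmin i hi
  calc (∏ i, w i) ^ r ≤ (P * a ^ (Fintype.card ι - r)) ^ r :=
        pow_le_pow_left₀ (prod_nonneg fun i _ => (hw i).le) h1 r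
    _ = P ^ r * (a ^ r) ^ (Fintype.card ι - r) := by
        rw [mul_pow, ← pow_mul, ← pow_mul, mul_comm r]
    _ ≤ P ^ r * P ^ (Fintype.card ι - r) := by
        refine mul_le_mul_of_nonneg_left ?_ (pow_nonneg hP0.le _)
        exact pow_le_pow_left₀ (pow_nonneg ha0.le _) h2 _
    _ = P ^ Fintype.card ι := by rw [← pow_add, Nat.add_sub_cancel' hle]

/-- the Gram matrix over the range of an embedding -/
lemma gramM_embedding {ι : Type*} {r : ℕ} (e : Fin r ↪ ι) (v : ι → Fin r → ℝ) (w : ι → ℝ) :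
    gramM (univ.map e) v w = (Matrix.of fun j => v (e j))ᵀ * Matrix.diagonal (fun j => w (e j)) *
      (Matrix.of fun j => v (e j)) := by
  unfold gramM
  rw [sum_map]
  ext a b
  rw [Matrix.sum_apply, Matrix.mul_apply]
  refine Finset.sum_congr rfl fun j _ => ?_
  rw [Matrix.mul_diagonal, Matrix.smul_apply, vecMulVec_apply, smul_eq_mul, transpose_apply,
    of_apply, of_apply]
  ring

variable {ι : Type*} [Fintype ι] [DecidableEq ι] {r : ℕ}

omit [Fintype ι] [DecidableEq ι] in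
lemma embedding_posDef {v : ι → Fin r → ℝ} {w : ι → ℝ} (hw : ∀ i, 0 < w i) (e : Fin r ↪ ι)
    (he : (Matrix.of fun j => v (e j)).det ≠ 0) :
    (gramM (univ.map e) v w).PosDef ∧
      (gramM (univ.map e) v w).det = (∏ i ∈ univ.map e, w i) *
        (Matrix.of fun j => v (e j)).det ^ 2 := by
  constructor
  · refine PosDef.of_dotProduct_mulVec_pos (gramM_symm _ _ _) fun u hu => ?_
    rw [star_trivial, gramM_quad]
    refine lt_of_le_of_ne (sum_nonneg fun i _ => mul_nonneg (hw i).le (sq_nonneg _)) ?_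
    intro h0
    have h1 := (sum_eq_zero_iff_of_nonneg fun i _ => mul_nonneg (hw i).le (sq_nonneg _)).1 h0.symm
    apply hu
    refine Matrix.eq_zero_of_mulVec_eq_zero he ?_
    ext j
    have h2 := h1 (e j) (mem_map_of_mem e (mem_univ j))
    have h3 : (u ⬝ᵥ v (e j)) ^ 2 = 0 := by
      rcases mul_eq_zero.1 h2 with h | h
      · exact absurd h (hw _).ne'
      · exact h
    have h4 : (Matrix.of (fun j => v (e j)) *ᵥ u) j = v (e j) ⬝ᵥ u := rfl
    rw [h4, dotProduct_comm, Pi.zero_apply]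
    exact (pow_eq_zero_iff (two_ne_zero)).1 h3
  · rw [gramM_embedding, det_mul, det_mul, det_transpose, det_diagonal, prod_map]
    ring

/-- weights with small leverages -/
theorem exists_weights (hr : 0 < r) (v : ι → Fin r → ℝ)
    (hgen : ∀ e : Fin r ↪ ι, (Matrix.of fun j => v (e j)).det ≠ 0) (hcard : r ≤ Fintype.card ι) :
    ∃ w : ι → ℝ, (∀ i, 0 < w i) ∧ ∀ (u : Fin r → ℝ) (i : ι),
      (Fintype.card ι : ℝ) * (w i * (u ⬝ᵥ v i) ^ 2) ≤ 3 * r * ∑ j, w j * (u ⬝ᵥ v j) ^ 2 := by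
  classical
  set t := Fintype.card ι with ht
  have hne : Nonempty (Fin r ↪ ι) := by
    rw [Function.Embedding.nonempty_iff_card_le, Fintype.card_fin]; exact hcard
  -- positive definiteness
  have hpd : ∀ w : ι → ℝ, (∀ i, 0 < w i) → (gramM univ v w).PosDef := by
    intro w hw
    obtain ⟨e⟩ := hne
    have h1 := (embedding_posDef hw e (hgen e)).1
    have h2 := (det_mono h1 (univ \ univ.map e) v w hw).1
    have h3 : gramM (univ.map e) v w + gramM (univ \ univ.map e) v w = gramM univ v w := by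
      unfold gramM
      rw [add_comm, sum_sdiff (subset_univ _)]
    rwa [h3] at h2
  -- the functional
  set F : (ι → ℝ) → ℝ := fun w => (gramM univ v w).det ^ t / (∏ i, w i) ^ r with hF
  obtain ⟨e0, -, he0⟩ := exists_min_image (univ : Finset (Fin r ↪ ι))
    (fun e => (Matrix.of fun j => v (e j)).det ^ 2) univ_nonempty
  set c : ℝ := (Matrix.of fun j => v (e0 j)).det ^ 2 with hc
  have hc0 : 0 < c := by
    rw [hc]; exact (sq_nonneg _).lt_of_ne' (pow_ne_zero 2 (hgen e0))
  have hlow : ∀ w : ι → ℝ, (∀ i, 0 < w i) → c ^ t ≤ F w := by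
    intro w hw
    obtain ⟨S, hS, hprod⟩ := exists_top r hcard w hw
    obtain ⟨e, he⟩ : ∃ e : Fin r ↪ ι, univ.map e = S := by
      refine ⟨(S.equivFinOfCardEq hS).symm.toEmbedding.trans (Function.Embedding.subtype _), ?_⟩
      ext i
      simp only [mem_map, mem_univ, true_and, Function.Embedding.trans_apply,
        Equiv.coe_toEmbedding, Function.Embedding.coe_subtype]
      constructor
      · rintro ⟨j, rfl⟩; exact ((S.equivFinOfCardEq hS).symm j).2
      · intro hi; exact ⟨S.equivFinOfCardEq hS ⟨i, hi⟩, by simp⟩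
    obtain ⟨h1, h2⟩ := embedding_posDef hw e (hgen e)
    have h3 := (det_mono h1 (univ \ univ.map e) v w hw).2
    have h4 : gramM (univ.map e) v w + gramM (univ \ univ.map e) v w = gramM univ v w := by
      unfold gramM
      rw [add_comm, sum_sdiff (subset_univ _)]
    rw [h4, h2, he] at h3
    have hP0 : 0 < ∏ i ∈ S, w i := prod_pos fun i _ => hw i
    have hQ0 : 0 < ∏ i, w i := prod_pos fun i _ => hw i
    have h5 : (∏ i ∈ S, w i) * c ≤ (gramM univ v w).det :=
      (mul_le_mul_of_nonneg_left (he0 e (mem_univ e)) hP0.le).trans h3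
    rw [hF]
    simp only
    rw [le_div_iff₀ (pow_pos hQ0 r)]
    calc c ^ t * (∏ i, w i) ^ r ≤ c ^ t * (∏ i ∈ S, w i) ^ t :=
          mul_le_mul_of_nonneg_left hprod (pow_nonneg hc0.le _)
      _ = ((∏ i ∈ S, w i) * c) ^ t := by rw [mul_pow, mul_comm]
      _ ≤ _ := pow_le_pow_left₀ (mul_nonneg hP0.le hc0.le) h5 t
  set R : Set ℝ := F '' {w | ∀ i, 0 < w i} with hR
  have hRne : R.Nonempty := ⟨F 1, 1, fun _ => one_pos, rfl⟩
  have hRbdd : BddBelow R := ⟨c ^ t, by rintro _ ⟨w, hw, rfl⟩; exact hlow w hw⟩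
  have hI0 : 0 < sInf R := lt_of_lt_of_le (pow_pos hc0 t)
    (le_csInf hRne (by rintro _ ⟨w, hw, rfl⟩; exact hlow w hw))
  obtain ⟨_, ⟨w, hw, rfl⟩, hlt⟩ := exists_lt_of_csInf_lt hRne
    (show sInf R < 2 * sInf R by linarith)
  refine ⟨w, hw, fun u i => ?_⟩
  set M := gramM univ v w with hM
  have hMpd := hpd w hw
  have hMdet : 0 < M.det := hMpd.det_pos
  set ℓ : ℝ := w i * (v i ⬝ᵥ (M⁻¹ *ᵥ v i)) with hℓ
  -- the perturbed weights
  set w' : ι → ℝ := Function.update w i (w i / 2) with hw'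
  have hw'0 : ∀ j, 0 < w' j := by
    intro j
    by_cases hj : j = i
    · subst hj
      rw [hw', Function.update_self]
      have := hw j
      positivity
    · rw [hw', Function.update_of_ne hj]
      exact hw j
  have hF' : sInf R ≤ F w' := csInf_le hRbdd ⟨w', hw'0, rfl⟩
  have hgr : gramM univ v w' = M + (-(w i / 2)) • vecMulVec (v i) (v i) := by
    rw [hM]
    unfold gramM
    rw [← add_sum_erase univ _ (mem_univ i), ← add_sum_erase univ _ (mem_univ i)]
    have h1 : ∑ x ∈ univ.erase i, w' x • vecMulVec (v x) (v x) =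
        ∑ x ∈ univ.erase i, w x • vecMulVec (v x) (v x) := by
      refine Finset.sum_congr rfl fun j hj => ?_
      rw [hw', Function.update_of_ne (ne_of_mem_erase hj)]
    rw [h1, hw', Function.update_self]
    have h2 : w i • vecMulVec (v i) (v i) = (w i / 2) • vecMulVec (v i) (v i) +
        (w i / 2) • vecMulVec (v i) (v i) := by
      rw [← add_smul]; congr 1; ring
    rw [h2, neg_smul]
    abel
  have hdet' : (gramM univ v w').det = M.det * (1 - ℓ / 2) := by
    rw [hgr, det_update hMpd, hℓ]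
    ring
  have hpr' : ∏ j, w' j = (∏ j, w j) / 2 := by
    rw [← mul_prod_erase univ w' (mem_univ i), ← mul_prod_erase univ w (mem_univ i)]
    have h1 : ∏ x ∈ univ.erase i, w' x = ∏ x ∈ univ.erase i, w x := by
      refine Finset.prod_congr rfl fun j hj => ?_
      rw [hw', Function.update_of_ne (ne_of_mem_erase hj)]
    rw [h1, hw', Function.update_self]
    ring
  have hpos' : 0 < 1 - ℓ / 2 := by
    have h1 := (hpd w' hw'0).det_pos
    rw [hdet'] at h1
    exact (mul_pos_iff_of_pos_left hMdet).1 h1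
  have hQ0 : 0 < ∏ j, w j := prod_pos fun j _ => hw j
  have hFw' : F w' = F w * ((1 - ℓ / 2) ^ t * 2 ^ r) := by
    rw [hF]
    simp only
    rw [hdet', hpr', mul_pow, div_pow, div_div_eq_mul_div]
    ring
  have hFw0 : 0 < F w := lt_of_lt_of_le (pow_pos hc0 t) (hlow w hw)
  have hmain : 1 / 2 < (1 - ℓ / 2) ^ t * 2 ^ r := by
    rw [hFw'] at hF'
    have h1 : F w / 2 < F w * ((1 - ℓ / 2) ^ t * 2 ^ r) := by linarith
    have h2 : F w * (1 / 2) < F w * ((1 - ℓ / 2) ^ t * 2 ^ r) := by linarith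
    exact lt_of_mul_lt_mul_left h2 hFw0.le
  have hexp : (1 - ℓ / 2) ^ t ≤ Real.exp (-(t * (ℓ / 2))) := by
    calc (1 - ℓ / 2) ^ t ≤ (Real.exp (-(ℓ / 2))) ^ t := by
          refine pow_le_pow_left₀ hpos'.le ?_ t
          have := Real.add_one_le_exp (-(ℓ / 2))
          linarith
      _ = _ := by rw [← Real.exp_nat_mul]; congr 1; ring
  have h2r : (2 : ℝ) ^ r = Real.exp (r * Real.log 2) := by
    rw [Real.exp_nat_mul, Real.exp_log (by norm_num)]
  have hlog : (t : ℝ) * ℓ ≤ 3 * r := by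
    have h1 : (1 : ℝ) / 2 < Real.exp (-(t * (ℓ / 2)) + r * Real.log 2) := by
      rw [Real.exp_add, ← h2r]
      exact lt_of_lt_of_le hmain (mul_le_mul_of_nonneg_right hexp (by positivity))
    have h2 : Real.log (1 / 2) < -(t * (ℓ / 2)) + r * Real.log 2 := by
      rw [Real.log_lt_iff_lt_exp (by norm_num)]
      exact h1
    have h3 : Real.log (1 / 2) = - Real.log 2 := by
      rw [one_div, Real.log_inv]
    rw [h3] at h2
    have h4 := Real.log_two_lt_d9
    have h5 : (1 : ℝ) ≤ r := by exact_mod_cast hr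
    have h6 := Real.log_pos (show (1 : ℝ) < 2 by norm_num)
    nlinarith
  have hcs := cs_inv hMpd u (v i)
  rw [gramM_quad] at hcs
  set Q : ℝ := ∑ j, w j * (u ⬝ᵥ v j) ^ 2 with hQ
  have hQ1 : 0 ≤ Q := sum_nonneg fun j _ => mul_nonneg (hw j).le (sq_nonneg _)
  calc (t : ℝ) * (w i * (u ⬝ᵥ v i) ^ 2) ≤ t * (w i * (Q * (v i ⬝ᵥ (M⁻¹ *ᵥ v i)))) := by
        refine mul_le_mul_of_nonneg_left ?_ (Nat.cast_nonneg _)
        exact mul_le_mul_of_nonneg_left hcs (hw i).le
    _ = (t * ℓ) * Q := by rw [hℓ]; ring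
    _ ≤ 3 * r * Q := mul_le_mul_of_nonneg_right hlog hQ1

end Pool.Agent.MP_ca1109_lc
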